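import Mathlib

/-!
Graph amplitude of point configurations in 3-space (definitions and evaluation lemmas for graphs
of maximum degree at most two).
-/

namespace Pool.Agent.H10Amp

/-- The symplectic form on `ℂ²`. -/
def omega (a b : Fin 2 → ℂ) : ℂ := a 0 * b 1 - a 1 * b 0

/-- `u · σ`, the combination of the three Pauli matrices with coefficients `u`. -/
def pauli (u : EuclideanSpace ℝ (Fin 3)) : Matrix (Fin 2) (Fin 2) ℂ :=
  (u 0 : ℂ) • !![0, 1; 1, 0] + (u 1 : ℂ) • !![0, -Complex.I; Complex.I, 0] +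
    (u 2 : ℂ) • !![1, 0; 0, -1]

/-- Adjacent vertices are sent to different points. -/
def Admissible {V : Type} (G : SimpleGraph V) (x : V → EuclideanSpace ℝ (Fin 3)) : Prop :=
  ∀ i j, G.Adj i j → x i ≠ x j

/-- For each ordered edge `(i, j)`, `ψ (i, j)` is a unit vector of `ℂ²` fixed by `u · σ`, where
`u` is the unit vector pointing from `x i` to `x j`. -/
def IsSpinorChoice {V : Type} (G : SimpleGraph V) (x : V → EuclideanSpace ℝ (Fin 3))
    (ψ : G.Dart → Fin 2 → ℂ) : Prop :=
  ∀ d : G.Dart, ‖ψ d 0‖ ^ 2 + ‖ψ d 1‖ ^ 2 = 1 ∧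
    (pauli (‖x d.snd - x d.fst‖⁻¹ • (x d.snd - x d.fst))).mulVec (ψ d) = ψ d

/-- `Δ` contains exactly one of the two orders of each edge. -/
def IsOrientation {V : Type} (G : SimpleGraph V) (Δ : Finset G.Dart) : Prop :=
  ∀ d : G.Dart, d ∈ Δ ↔ d.symm ∉ Δ

open Classical in
/-- The amplitude: sum over permutations of the ordered edges that keep the first vertex. -/
noncomputable def amplitude {V : Type} [Fintype V] (G : SimpleGraph V)
    (ψ : G.Dart → Fin 2 → ℂ) (Δ : Finset G.Dart) : ℂ :=
  (∑ σ ∈ (Finset.univ : Finset (Equiv.Perm G.Dart)).filter (fun σ => ∀ d, (σ d).fst = d.fst),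
      ∏ d ∈ Δ, omega (ψ (σ d)) (ψ (σ d.symm))) / ∏ d ∈ Δ, omega (ψ d) (ψ d.symm)

section deg2

variable {V : Type} {G : SimpleGraph V}

/-- Data describing a graph of maximum degree at most two. -/
structure Deg2 (G : SimpleGraph V) (nb : V → V → V) (D : V → Bool) : Prop where
  h1 : ∀ i j, G.Adj i j → G.Adj i (nb i j)
  h2 : ∀ i j, G.Adj i j → nb i (nb i j) = j
  h3 : ∀ i j k, G.Adj i j → G.Adj i k → k = j ∨ k = nb i j
  h4 : ∀ i j, G.Adj i j → (D i = true ↔ nb i j ≠ j)
  h5 : ∀ i, D i = true → ∃ j, G.Adj i j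

def swapFun {nb : V → V → V} {D : V → Bool} (h : Deg2 G nb D) (s : V → Bool) (d : G.Dart) :
    G.Dart :=
  ⟨(d.fst, if s d.fst = true then nb d.fst d.snd else d.snd), by
    split_ifs
    · exact h.h1 _ _ d.adj
    · exact d.adj⟩

theorem swapFun_inv {nb : V → V → V} {D : V → Bool} (h : Deg2 G nb D) (s : V → Bool) :
    Function.Involutive (swapFun h s) := by
  intro d
  apply SimpleGraph.Dart.ext
  apply Prod.ext
  · rfl
  · change (if s d.fst = true then nb d.fst (if s d.fst = true then nb d.fst d.snd else d.snd)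
      else (if s d.fst = true then nb d.fst d.snd else d.snd)) = d.snd
    split_ifs
    · exact h.h2 _ _ d.adj
    · rfl

def swapPerm {nb : V → V → V} {D : V → Bool} (h : Deg2 G nb D) (s : V → Bool) :
    Equiv.Perm G.Dart := (swapFun_inv h s).toPerm

theorem swapPerm_fst {nb : V → V → V} {D : V → Bool} (h : Deg2 G nb D) (s : V → Bool)
    (d : G.Dart) : (swapPerm h s d).fst = d.fst := rfl

theorem swapPerm_snd {nb : V → V → V} {D : V → Bool} (h : Deg2 G nb D) (s : V → Bool)
    (d : G.Dart) :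
    (swapPerm h s d).snd = if s d.fst = true then nb d.fst d.snd else d.snd := rfl

theorem dart_eq {d e : G.Dart} (h1 : d.fst = e.fst) (h2 : d.snd = e.snd) : d = e :=
  SimpleGraph.Dart.ext _ _ (Prod.ext h1 h2)

theorem sum_perm {nb : V → V → V} {D : V → Bool} (h : Deg2 G nb D)
    (A : Finset (Equiv.Perm G.Dart)) (hA : ∀ σ, σ ∈ A ↔ ∀ d, (σ d).fst = d.fst)
    (B : Finset (V → Bool)) (hB : ∀ s, s ∈ B ↔ ∀ i, s i = true → D i = true)
    (F : Equiv.Perm G.Dart → ℂ) :
    ∑ σ ∈ A, F σ = ∑ s ∈ B, F (swapPerm h s) := by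
  classical
  symm
  refine Finset.sum_bij (fun s _ => swapPerm h s) ?_ ?_ ?_ (fun _ _ => rfl)
  · intro s _
    rw [hA]
    exact swapPerm_fst h s
  · intro s hs t ht hst
    rw [hB] at hs ht
    funext i
    by_cases hD : D i = true
    · obtain ⟨j, hj⟩ := h.h5 i hD
      have hne := (h.h4 i j hj).1 hD
      have h1 : (swapPerm h s ⟨(i, j), hj⟩).snd = (swapPerm h t ⟨(i, j), hj⟩).snd := by
        rw [hst]
      rw [swapPerm_snd, swapPerm_snd] at h1
      change (if s i = true then nb i j else j) = (if t i = true then nb i j else j) at h1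
      cases hs' : s i <;> cases ht' : t i <;> rw [hs', ht'] at h1
      · rw [if_neg (by decide), if_pos rfl] at h1
        exact absurd h1.symm hne
      · rw [if_pos rfl, if_neg (by decide)] at h1
        exact absurd h1 hne
    · have h1 : s i = false := by
        cases hs' : s i
        · rfl
        · exact absurd (hs i hs') hD
      have h2 : t i = false := by
        cases ht' : t i
        · rfl
        · exact absurd (ht i ht') hD
      rw [h1, h2]
  · intro σ hσ
    rw [hA] at hσ
    have key : ∀ d : G.Dart, (σ d).snd = d.snd ∨ (σ d).snd = nb d.fst d.snd := by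
      intro d
      exact h.h3 _ _ _ d.adj (by have := (σ d).adj; rwa [hσ d] at this)
    refine ⟨fun i => decide (∃ d : G.Dart, d.fst = i ∧ σ d ≠ d), ?_, ?_⟩
    · rw [hB]
      intro i hi
      rw [decide_eq_true_iff] at hi
      obtain ⟨d, hd, hne⟩ := hi
      subst hd
      rw [h.h4 _ _ d.adj]
      intro hc
      apply hne
      apply dart_eq (hσ d)
      rcases key d with h1 | h1
      · exact h1
      · rw [h1, hc]
    · ext1 d
      apply dart_eq
      · rw [swapPerm_fst, hσ]
      · rw [swapPerm_snd]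
        split_ifs with hc
        · rw [decide_eq_true_iff] at hc
          obtain ⟨e, he, hne⟩ := hc
          rcases key d with h1 | h1
          · exfalso
            have hd : σ d = d := dart_eq (hσ d) h1
            have hed : e ≠ d := by
              rintro rfl
              exact hne hd
            have he2 : e.snd = nb d.fst d.snd := by
              rcases h.h3 _ _ e.snd d.adj (by have := e.adj; rwa [he] at this) with h2 | h2
              · exact absurd (dart_eq he h2) hed
              · exact h2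
            rcases h.h3 _ _ (σ e).snd d.adj
              (by have := (σ e).adj; rwa [hσ e, he] at this) with h2 | h2
            · have h3 : σ e = d := dart_eq (by rw [hσ e, he]) h2
              exact hed (σ.injective (h3.trans hd.symm))
            · exact hne (dart_eq (hσ e) (h2.trans he2.symm))
          · exact h1.symm
        · rw [decide_eq_true_iff] at hc
          push Not at hc
          rw [hc d rfl]

end deg2

theorem prod_orient {V : Type} {G : SimpleGraph V} [Fintype G.Dart] {Δ : Finset G.Dart}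
    (hΔ : IsOrientation G Δ) (c : G.Dart → ℂ) :
    ∏ d ∈ Δ, (c d * c d.symm) = ∏ d, c d := by
  classical
  rw [Finset.prod_mul_distrib, ← Finset.prod_mul_prod_compl Δ c]
  congr 1
  refine Finset.prod_bij (fun d _ => d.symm) ?_ ?_ ?_ (fun _ _ => rfl)
  · intro d hd
    rw [Finset.mem_compl]
    exact (hΔ d).1 hd
  · intro d _ e _ hde
    exact SimpleGraph.Dart.symm_involutive.injective hde
  · intro d hd
    rw [Finset.mem_compl] at hd
    refine ⟨d.symm, ?_, d.symm_symm⟩
    rw [hΔ, d.symm_symm]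
    exact hd

theorem omega_smul (a b : ℂ) (u v : Fin 2 → ℂ) : omega (a • u) (b • v) = a * b * omega u v := by
  simp only [omega, Pi.smul_apply, smul_eq_mul]
  ring

theorem amplitude_smul {V : Type} [Fintype V] {G : SimpleGraph V} {Δ : Finset G.Dart}
    (hΔ : IsOrientation G Δ) (c : G.Dart → ℂ) (hc : ∀ d, c d ≠ 0) (χ : G.Dart → Fin 2 → ℂ) :
    amplitude G (fun d => c d • χ d) Δ = amplitude G χ Δ := by
  classical
  unfold amplitude
  have h0 : (∏ d, c d) ≠ 0 := Finset.prod_ne_zero_iff.2 fun d _ => hc d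
  have h1 : ∀ σ : Equiv.Perm G.Dart, ∏ d ∈ Δ, omega (c (σ d) • χ (σ d)) (c (σ d.symm) • χ (σ d.symm))
      = (∏ d, c d) * ∏ d ∈ Δ, omega (χ (σ d)) (χ (σ d.symm)) := by
    intro σ
    simp only [omega_smul]
    rw [Finset.prod_mul_distrib, prod_orient hΔ (fun d => c (σ d)), Equiv.prod_comp σ c]
  have h2 := h1 1
  simp only [Equiv.Perm.one_apply] at h2
  simp only [h1, h2]
  rw [← Finset.mul_sum, mul_div_mul_left _ _ h0]

/-- Gaussian integer version of `omega`. -/
def omZ (a b : GaussianInt × GaussianInt) : GaussianInt := a.1 * b.2 - a.2 * b.1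

def toC (a : GaussianInt × GaussianInt) : Fin 2 → ℂ := ![(a.1 : ℂ), (a.2 : ℂ)]

theorem omega_toC (a b : GaussianInt × GaussianInt) : omega (toC a) (toC b) = (omZ a b : ℂ) := by
  simp [omega, toC, omZ]

def nrm (a : GaussianInt × GaussianInt) : ℤ :=
  a.1.re ^ 2 + a.1.im ^ 2 + a.2.re ^ 2 + a.2.im ^ 2

def toE (p : ℤ × ℤ × ℤ) : EuclideanSpace ℝ (Fin 3) :=
  WithLp.toLp 2 ![(p.1 : ℝ), (p.2.1 : ℝ), (p.2.2 : ℝ)]

/-- The integer vector `q - p` is `l > 0` times the Bloch vector of the spinor `a`. -/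
def Good (p q : ℤ × ℤ × ℤ) (l : ℤ) (a : GaussianInt × GaussianInt) : Prop :=
  0 < l ∧ 0 < nrm a ∧ q.1 - p.1 = l * (2 * (a.1.re * a.2.re + a.1.im * a.2.im)) ∧
    q.2.1 - p.2.1 = l * (2 * (a.1.re * a.2.im - a.1.im * a.2.re)) ∧
    q.2.2 - p.2.2 = l * (a.1.re ^ 2 + a.1.im ^ 2 - a.2.re ^ 2 - a.2.im ^ 2)

instance (p q : ℤ × ℤ × ℤ) (l : ℤ) (a : GaussianInt × GaussianInt) : Decidable (Good p q l a) := by
  unfold Good; infer_instance

theorem good_norm {p q : ℤ × ℤ × ℤ} {l : ℤ} {a : GaussianInt × GaussianInt} (h : Good p q l a) :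
    ‖toE q - toE p‖ = (l : ℝ) * (nrm a : ℝ) := by
  obtain ⟨hl, hn, h0, h1, h2⟩ := h
  have hl' : (0 : ℝ) < l := by exact_mod_cast hl
  have hn' : (0 : ℝ) < nrm a := by exact_mod_cast hn
  have e0 := congrArg (Int.cast : ℤ → ℝ) h0
  have e1 := congrArg (Int.cast : ℤ → ℝ) h1
  have e2 := congrArg (Int.cast : ℤ → ℝ) h2
  push_cast at e0 e1 e2
  rw [EuclideanSpace.norm_eq, Real.sqrt_eq_iff_mul_self_eq (by positivity) (by positivity)]
  simp only [toE, Fin.sum_univ_three, PiLp.sub_apply, Real.norm_eq_abs, sq_abs]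
  simp only [Matrix.cons_val_zero, Matrix.cons_val_one, Matrix.cons_val_two, Matrix.head_cons,
    Matrix.tail_cons]
  rw [e0, e1, e2]
  unfold nrm
  push_cast
  ring

theorem good_ne {p q : ℤ × ℤ × ℤ} {l : ℤ} {a : GaussianInt × GaussianInt} (h : Good p q l a) :
    toE p ≠ toE q := by
  intro hc
  have h1 := good_norm h
  rw [hc, sub_self, norm_zero] at h1
  have hl' : (0 : ℝ) < l := by exact_mod_cast h.1
  have hn' : (0 : ℝ) < nrm a := by exact_mod_cast h.2.1
  exact absurd h1 (ne_of_lt (by positivity))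

noncomputable def cf (a : GaussianInt × GaussianInt) : ℂ := ((Real.sqrt (nrm a : ℝ))⁻¹ : ℝ)

theorem cf_ne {a : GaussianInt × GaussianInt} (h : 0 < nrm a) : cf a ≠ 0 := by
  have hn' : (0 : ℝ) < nrm a := by exact_mod_cast h
  unfold cf
  exact_mod_cast (inv_pos.2 (Real.sqrt_pos.2 hn')).ne'

theorem good_spinor {p q : ℤ × ℤ × ℤ} {l : ℤ} {a : GaussianInt × GaussianInt} (h : Good p q l a) :
    ‖(cf a • toC a) 0‖ ^ 2 + ‖(cf a • toC a) 1‖ ^ 2 = 1 ∧
    (pauli (‖toE q - toE p‖⁻¹ • (toE q - toE p))).mulVec (cf a • toC a) = cf a • toC a := by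
  have hnorm := good_norm h
  obtain ⟨hl, hn, h0, h1, h2⟩ := h
  have hl' : (0 : ℝ) < l := by exact_mod_cast hl
  have hn' : (0 : ℝ) < nrm a := by exact_mod_cast hn
  have e0 := congrArg (Int.cast : ℤ → ℝ) h0
  have e1 := congrArg (Int.cast : ℤ → ℝ) h1
  have e2 := congrArg (Int.cast : ℤ → ℝ) h2
  push_cast at e0 e1 e2
  have hN : (nrm a : ℝ) = (a.1.re : ℝ) ^ 2 + (a.1.im : ℝ) ^ 2 + (a.2.re : ℝ) ^ 2 +
      (a.2.im : ℝ) ^ 2 := by
    unfold nrm; push_cast; ring
  constructor
  · simp only [Pi.smul_apply, smul_eq_mul, norm_mul, mul_pow, cf, Complex.norm_real,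
      Real.norm_eq_abs, sq_abs, inv_pow, Real.sq_sqrt hn'.le, toC, Matrix.cons_val_zero,
      Matrix.cons_val_one, Complex.sq_norm, Complex.normSq_apply, ← GaussianInt.intCast_re,
      ← GaussianInt.intCast_im]
    field_simp
    rw [hN]; ring
  · rw [Matrix.mulVec_smul]
    congr 1
    rw [hnorm]
    have u0 : ((((l : ℝ) * (nrm a : ℝ))⁻¹ • (toE q - toE p)) 0 : ℝ) =
        (2 * (a.1.re * a.2.re + a.1.im * a.2.im)) / (nrm a : ℝ) := by
      simp only [toE, PiLp.smul_apply, PiLp.sub_apply, Matrix.cons_val_zero, smul_eq_mul]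
      rw [e0]; field_simp
    have u1 : ((((l : ℝ) * (nrm a : ℝ))⁻¹ • (toE q - toE p)) 1 : ℝ) =
        (2 * (a.1.re * a.2.im - a.1.im * a.2.re)) / (nrm a : ℝ) := by
      simp only [toE, PiLp.smul_apply, PiLp.sub_apply, Matrix.cons_val_one, Matrix.cons_val_zero,
        smul_eq_mul]
      rw [e1]; field_simp
    have u2 : ((((l : ℝ) * (nrm a : ℝ))⁻¹ • (toE q - toE p)) 2 : ℝ) =
        ((a.1.re : ℝ) ^ 2 + (a.1.im : ℝ) ^ 2 - (a.2.re : ℝ) ^ 2 - (a.2.im : ℝ) ^ 2) /
          (nrm a : ℝ) := by
      simp only [toE, PiLp.smul_apply, PiLp.sub_apply, Matrix.cons_val_two, Matrix.head_cons,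
        Matrix.tail_cons, smul_eq_mul]
      rw [e2]; field_simp
    unfold pauli
    rw [u0, u1, u2]
    ext t
    fin_cases t
    · apply Complex.ext
      · simp [Matrix.mulVec, dotProduct, toC, ← GaussianInt.intCast_re, ← GaussianInt.intCast_im,
          -Complex.ofReal_div]
        field_simp
        rw [hN]; ring
      · simp [Matrix.mulVec, dotProduct, toC, ← GaussianInt.intCast_re, ← GaussianInt.intCast_im,
          -Complex.ofReal_div]
        field_simp
        rw [hN]; ring
    · apply Complex.ext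
      · simp [Matrix.mulVec, dotProduct, toC, ← GaussianInt.intCast_re, ← GaussianInt.intCast_im,
          -Complex.ofReal_div]
        field_simp
        rw [hN]; ring
      · simp [Matrix.mulVec, dotProduct, toC, ← GaussianInt.intCast_re, ← GaussianInt.intCast_im,
          -Complex.ofReal_div]
        field_simp
        rw [hN]; ring

/-- Transfer matrices. -/
def T {R : Type} [CommSemiring R] (f : ℕ → Bool → Bool → R) : ℕ → Bool → R × R
  | 0, a => if a = true then (0, 1) else (1, 0)
  | m + 1, a =>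
    match T f m a with
    | (p, q) => (p * f m false false + q * f m true false, p * f m false true + q * f m true true)

theorem transfer {R : Type} [CommSemiring R] (f : ℕ → Bool → Bool → R) (m : ℕ) :
    ∀ g : Bool → Bool → R,
      ∑ s : Fin (m + 1) → Bool, (∏ k : Fin m, f k (s k.castSucc) (s k.succ)) *
          g (s 0) (s (Fin.last m)) =
        (T f m false).1 * g false false + (T f m false).2 * g false true +
          (T f m true).1 * g true false + (T f m true).2 * g true true := by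
  induction m with
  | zero =>
    intro g
    rw [← (Equiv.funUnique (Fin 1) Bool).symm.sum_comp]
    simp [T, add_comm]
  | succ m ih =>
    intro g
    rw [← (Fin.snocEquiv (fun _ : Fin (m + 2) => Bool)).sum_comp, Fintype.sum_prod_type,
      Finset.sum_comm]
    have h1 : ∀ (s : Fin (m + 1) → Bool) (b : Bool),
        (∏ k : Fin (m + 1), f k ((Fin.snocEquiv (fun _ : Fin (m + 2) => Bool)) (b, s) k.castSucc)
          ((Fin.snocEquiv (fun _ : Fin (m + 2) => Bool)) (b, s) k.succ)) *
          g ((Fin.snocEquiv (fun _ : Fin (m + 2) => Bool)) (b, s) 0)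
            ((Fin.snocEquiv (fun _ : Fin (m + 2) => Bool)) (b, s) (Fin.last (m + 1))) =
        (∏ k : Fin m, f k (s k.castSucc) (s k.succ)) *
          (f m (s (Fin.last m)) b * g (s 0) b) := by
      intro s b
      rw [Fin.prod_univ_castSucc]
      simp only [Fin.snocEquiv_apply, Fin.snoc_castSucc, Fin.snoc_last, Fin.succ_last,
        Fin.succ_castSucc, Fin.val_castSucc, Fin.val_last]
      rw [← Fin.castSucc_zero, Fin.snoc_castSucc, mul_assoc]
    simp only [h1]
    simp only [← Finset.mul_sum]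
    rw [ih (fun a c => ∑ b : Bool, f m c b * g a b)]
    simp only [T, Fintype.sum_bool]
    ring

/-- The summand attached to an ordered edge `(i, j)` with swap bits `b`, `c` at `i`, `j`. -/
def term {V : Type} (nb : V → V → V) (g : V → V → GaussianInt × GaussianInt) (i j : V)
    (b c : Bool) : GaussianInt :=
  omZ (g i (if b = true then nb i j else j)) (g j (if c = true then nb j i else i))

theorem amplitude_eq {V : Type} [Fintype V] {G : SimpleGraph V} {nb : V → V → V} {D : V → Bool}
    (h : Deg2 G nb D) {Δ : Finset G.Dart} (hΔ : IsOrientation G Δ)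
    (g : V → V → GaussianInt × GaussianInt) (hg : ∀ i j, G.Adj i j → 0 < nrm (g i j))
    (B : Finset (V → Bool)) (hB : ∀ s, s ∈ B ↔ ∀ i, s i = true → D i = true) :
    amplitude G (fun d => cf (g d.fst d.snd) • toC (g d.fst d.snd)) Δ =
      ((∑ s ∈ B, ∏ d ∈ Δ, term nb g d.fst d.snd (s d.fst) (s d.snd) : GaussianInt) : ℂ) /
        ((∏ d ∈ Δ, term nb g d.fst d.snd false false : GaussianInt) : ℂ) := by
  rw [amplitude_smul hΔ (fun d => cf (g d.fst d.snd)) (fun d => cf_ne (hg _ _ d.adj))
    (fun d => toC (g d.fst d.snd))]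
  unfold amplitude
  rw [sum_perm h _ (fun σ => by simp) B hB]
  simp only [omega_toC, map_sum, map_prod]
  rfl

end Pool.Agent.H10Amp
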