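import Mathlib
import Pool.Agent.Lib.helper10.Amp

/-!
Evaluation of the graph amplitude for planar configurations with coordinates in a real
quadratic ring, for graphs with explicitly listed local permutations.
-/

namespace Pool.Agent.H10Amp

section loc

variable {V ι : Type} {G : SimpleGraph V}

/-- Explicit list of all permutations of each neighbourhood. -/
structure Loc (G : SimpleGraph V) (nb ni : V → ι → V → V) (D : V → List ι) : Prop where
  h1 : ∀ i c j, G.Adj i j → G.Adj i (nb i c j)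
  h1' : ∀ i c j, G.Adj i j → G.Adj i (ni i c j)
  h2 : ∀ i c j, G.Adj i j → ni i c (nb i c j) = j
  h2' : ∀ i c j, G.Adj i j → nb i c (ni i c j) = j
  h3 : ∀ i, ∀ c ∈ D i, ∀ c' ∈ D i, (∀ j, G.Adj i j → nb i c j = nb i c' j) → c = c'
  h4 : ∀ i (f : V → V), (∀ j, G.Adj i j → G.Adj i (f j)) →
    (∀ j k, G.Adj i j → G.Adj i k → f j = f k → j = k) →
    ∃ c ∈ D i, ∀ j, G.Adj i j → nb i c j = f j

def locPerm {nb ni : V → ι → V → V} {D : V → List ι} (h : Loc G nb ni D) (s : V → ι) :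
    Equiv.Perm G.Dart where
  toFun d := ⟨(d.fst, nb d.fst (s d.fst) d.snd), h.h1 _ _ _ d.adj⟩
  invFun d := ⟨(d.fst, ni d.fst (s d.fst) d.snd), h.h1' _ _ _ d.adj⟩
  left_inv d := dart_eq rfl (h.h2 _ _ _ d.adj)
  right_inv d := dart_eq rfl (h.h2' _ _ _ d.adj)

theorem sum_perm_loc {nb ni : V → ι → V → V} {D : V → List ι} (h : Loc G nb ni D)
    (A : Finset (Equiv.Perm G.Dart)) (hA : ∀ σ, σ ∈ A ↔ ∀ d, (σ d).fst = d.fst)
    (B : Finset (V → ι)) (hB : ∀ s, s ∈ B ↔ ∀ i, s i ∈ D i)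
    (F : Equiv.Perm G.Dart → ℂ) :
    ∑ σ ∈ A, F σ = ∑ s ∈ B, F (locPerm h s) := by
  classical
  symm
  refine Finset.sum_bij (fun s _ => locPerm h s) ?_ ?_ ?_ (fun _ _ => rfl)
  · intro s _
    rw [hA]
    intro d
    rfl
  · intro s hs t ht hst
    rw [hB] at hs ht
    funext i
    refine h.h3 i _ (hs i) _ (ht i) fun j hj => ?_
    have h1 : (locPerm h s ⟨(i, j), hj⟩).snd = (locPerm h t ⟨(i, j), hj⟩).snd := by
      rw [hst]
    exact h1
  · intro σ hσ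
    rw [hA] at hσ
    have key : ∀ i, ∃ c ∈ D i, ∀ j (hj : G.Adj i j), nb i c j = (σ ⟨(i, j), hj⟩).snd := by
      intro i
      obtain ⟨c, hc, hc2⟩ := h.h4 i (fun j => if hj : G.Adj i j then (σ ⟨(i, j), hj⟩).snd else j)
        (fun j hj => by
          rw [dif_pos hj]
          have := (σ ⟨(i, j), hj⟩).adj
          rwa [hσ] at this)
        (fun j k hj hk hjk => by
          rw [dif_pos hj, dif_pos hk] at hjk
          have h1 : σ ⟨(i, j), hj⟩ = σ ⟨(i, k), hk⟩ := dart_eq (by rw [hσ, hσ]) hjk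
          exact congrArg (fun d => d.snd) (σ.injective h1))
      refine ⟨c, hc, fun j hj => ?_⟩
      rw [hc2 j hj, dif_pos hj]
    choose s hs hs2 using key
    refine ⟨s, (hB s).2 hs, ?_⟩
    ext1 d
    exact dart_eq (hσ d).symm (hs2 _ _ d.adj)

end loc

/-- Nested sum over a list of lists of choices. -/
def nest {ι R : Type} [AddCommMonoid R] : List (List ι) → (List ι → R) → R
  | [], F => F []
  | l :: ls, F => (l.map fun c => nest ls fun t => F (c :: t)).sum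

theorem sum_pi_nest {ι R : Type} [DecidableEq ι] [AddCommMonoid R] (n : ℕ) :
    ∀ (D : Fin n → List ι) (_ : ∀ i, (D i).Nodup) (F : List ι → R),
      ∑ s ∈ Fintype.piFinset (fun i => (D i).toFinset), F (List.ofFn s) =
        nest (List.ofFn D) F := by
  induction n with
  | zero =>
    intro D _ F
    simp [nest]
  | succ n ih =>
    intro D hD F
    rw [List.ofFn_succ, nest, ← List.sum_toFinset _ (hD 0)]
    simp only [← ih (fun i => D i.succ) (fun i => hD i.succ)]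
    rw [← Finset.sum_product']
    symm
    refine Finset.sum_bij' (fun p _ => Fin.cons p.1 p.2) (fun s _ => (s 0, Fin.tail s))
      ?_ ?_ ?_ ?_ ?_
    · intro p hp
      rw [Finset.mem_product, Fintype.mem_piFinset] at hp
      rw [Fintype.mem_piFinset]
      intro i
      refine Fin.cases ?_ (fun k => ?_) i
      · exact hp.1
      · exact hp.2 k
    · intro s hs
      rw [Fintype.mem_piFinset] at hs
      rw [Finset.mem_product, Fintype.mem_piFinset]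
      exact ⟨hs 0, fun k => hs k.succ⟩
    · intro p _
      simp
    · intro s _
      simp
    · intro p _
      rw [List.ofFn_succ]
      simp

section quad

variable {d : ℤ}

/-- A decidable sufficient condition for positivity in the real quadratic ring. -/
def PosZ (l : ℤ√d) : Prop :=
  (0 < l.re ∧ l.im ^ 2 * d < l.re ^ 2) ∨ (0 < l.im ∧ l.re ^ 2 < l.im ^ 2 * d)

instance (l : ℤ√d) : Decidable (PosZ l) := by unfold PosZ; infer_instance

theorem PosZ.pos (hd : 0 ≤ d) {l : ℤ√d} (h : PosZ l) : 0 < Zsqrtd.toReal hd l := by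
  have hd' : (0 : ℝ) ≤ d := by exact_mod_cast hd
  have e : ((l.im : ℝ) * Real.sqrt d) ^ 2 = (l.im : ℝ) ^ 2 * d := by
    rw [mul_pow, Real.sq_sqrt hd']
  rw [Zsqrtd.toReal_apply]
  rcases h with ⟨h1, h2⟩ | ⟨h1, h2⟩
  · have h1' : (0 : ℝ) < l.re := by exact_mod_cast h1
    have h2' : ((l.im : ℝ) * Real.sqrt d) ^ 2 < (l.re : ℝ) ^ 2 := by
      rw [e]; exact_mod_cast h2
    have := (abs_lt_of_sq_lt_sq' h2' h1'.le).1
    linarith
  · have h1' : (0 : ℝ) < l.im := by exact_mod_cast h1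
    have h2' : (l.re : ℝ) ^ 2 < ((l.im : ℝ) * Real.sqrt d) ^ 2 := by
      rw [e]; exact_mod_cast h2
    have := (abs_lt_of_sq_lt_sq' h2' (by positivity)).1
    linarith

def omQ (a b : ℤ√d × ℤ√d) : ℤ√d := a.1 * b.2 - a.2 * b.1

noncomputable def toCQ (hd : 0 ≤ d) (a : ℤ√d × ℤ√d) : Fin 2 → ℂ :=
  ![(Zsqrtd.toReal hd a.1 : ℂ), (Zsqrtd.toReal hd a.2 : ℂ)]

noncomputable def toEQ (hd : 0 ≤ d) (p : ℤ√d × ℤ√d) : EuclideanSpace ℝ (Fin 3) :=
  WithLp.toLp 2 ![Zsqrtd.toReal hd p.1, 0, Zsqrtd.toReal hd p.2]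

theorem omega_toCQ (hd : 0 ≤ d) (a b : ℤ√d × ℤ√d) :
    omega (toCQ hd a) (toCQ hd b) = (Zsqrtd.toReal hd (omQ a b) : ℂ) := by
  simp only [omega, toCQ, omQ, map_sub, map_mul, Matrix.cons_val_zero, Matrix.cons_val_one]
  push_cast
  ring

def GoodQ (p q : ℤ√d × ℤ√d) (l : ℤ√d) (a : ℤ√d × ℤ√d) : Prop :=
  PosZ l ∧ PosZ (a.1 * a.1 + a.2 * a.2) ∧ q.1 - p.1 = l * (2 * (a.1 * a.2)) ∧
    q.2 - p.2 = l * (a.1 * a.1 - a.2 * a.2)

instance (p q : ℤ√d × ℤ√d) (l : ℤ√d) (a : ℤ√d × ℤ√d) : Decidable (GoodQ p q l a) := by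
  unfold GoodQ; infer_instance

noncomputable def cfQ (hd : 0 ≤ d) (a : ℤ√d × ℤ√d) : ℂ :=
  ((Real.sqrt (Zsqrtd.toReal hd (a.1 * a.1 + a.2 * a.2)))⁻¹ : ℝ)

theorem cfQ_ne (hd : 0 ≤ d) {a : ℤ√d × ℤ√d} (h : PosZ (a.1 * a.1 + a.2 * a.2)) :
    cfQ hd a ≠ 0 := by
  unfold cfQ
  exact_mod_cast (inv_pos.2 (Real.sqrt_pos.2 (h.pos hd))).ne'

theorem goodQ_spinor (hd : 0 ≤ d) {p q : ℤ√d × ℤ√d} {l : ℤ√d} {a : ℤ√d × ℤ√d}
    (h : GoodQ p q l a) :
    toEQ hd p ≠ toEQ hd q ∧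
    (‖(cfQ hd a • toCQ hd a) 0‖ ^ 2 + ‖(cfQ hd a • toCQ hd a) 1‖ ^ 2 = 1 ∧
    (pauli (‖toEQ hd q - toEQ hd p‖⁻¹ • (toEQ hd q - toEQ hd p))).mulVec
      (cfQ hd a • toCQ hd a) = cfQ hd a • toCQ hd a) := by
  obtain ⟨hl, hn, h0, h2⟩ := h
  have hl' := hl.pos hd
  have hn' := hn.pos hd
  have e0 := congrArg (Zsqrtd.toReal hd) h0
  have e2 := congrArg (Zsqrtd.toReal hd) h2
  unfold cfQ toCQ toEQ
  simp only [map_sub, map_mul, map_add, map_ofNat] at e0 e2 hn' ⊢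
  generalize Zsqrtd.toReal hd l = L at *
  generalize Zsqrtd.toReal hd a.1 = x at *
  generalize Zsqrtd.toReal hd a.2 = y at *
  generalize Zsqrtd.toReal hd p.1 = p1 at *
  generalize Zsqrtd.toReal hd p.2 = p2 at *
  generalize Zsqrtd.toReal hd q.1 = q1 at *
  generalize Zsqrtd.toReal hd q.2 = q2 at *
  have hnorm : ‖(WithLp.toLp 2 ![q1, 0, q2] : EuclideanSpace ℝ (Fin 3)) -
      WithLp.toLp 2 ![p1, 0, p2]‖ = L * (x * x + y * y) := by
    rw [EuclideanSpace.norm_eq, Real.sqrt_eq_iff_mul_self_eq (by positivity) (by positivity)]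
    simp only [Fin.sum_univ_three, PiLp.sub_apply, Real.norm_eq_abs, sq_abs]
    simp only [Matrix.cons_val_zero, Matrix.cons_val_one, Matrix.cons_val_two, Matrix.head_cons,
      Matrix.tail_cons]
    rw [e0, e2]
    ring
  refine ⟨?_, ?_, ?_⟩
  · intro hc
    rw [hc, sub_self, norm_zero] at hnorm
    exact absurd hnorm (ne_of_lt (by positivity))
  · simp only [Pi.smul_apply, smul_eq_mul, norm_mul, mul_pow, Complex.norm_real,
      Real.norm_eq_abs, sq_abs, inv_pow, Real.sq_sqrt hn'.le, Matrix.cons_val_zero,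
      Matrix.cons_val_one]
    rw [← mul_add, inv_mul_eq_div, div_eq_one_iff_eq hn'.ne']
    ring
  · rw [Matrix.mulVec_smul]
    congr 1
    rw [hnorm]
    have u0 : (((L * (x * x + y * y))⁻¹ • ((WithLp.toLp 2 ![q1, 0, q2] : EuclideanSpace ℝ (Fin 3)) -
        WithLp.toLp 2 ![p1, 0, p2])) 0 : ℝ) = (2 * (x * y)) / (x * x + y * y) := by
      simp only [PiLp.smul_apply, PiLp.sub_apply, Matrix.cons_val_zero, smul_eq_mul]
      rw [e0]; field_simp
    have u1 : (((L * (x * x + y * y))⁻¹ • ((WithLp.toLp 2 ![q1, 0, q2] : EuclideanSpace ℝ (Fin 3)) -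
        WithLp.toLp 2 ![p1, 0, p2])) 1 : ℝ) = 0 := by
      simp only [PiLp.smul_apply, PiLp.sub_apply, Matrix.cons_val_one, Matrix.cons_val_zero,
        smul_eq_mul, sub_self, mul_zero]
    have u2 : (((L * (x * x + y * y))⁻¹ • ((WithLp.toLp 2 ![q1, 0, q2] : EuclideanSpace ℝ (Fin 3)) -
        WithLp.toLp 2 ![p1, 0, p2])) 2 : ℝ) = (x * x - y * y) / (x * x + y * y) := by
      simp only [PiLp.smul_apply, PiLp.sub_apply, Matrix.cons_val_two, Matrix.head_cons,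
        Matrix.tail_cons, smul_eq_mul]
      rw [e2]; field_simp
    unfold pauli
    rw [u0, u1, u2]
    have hn2 : ((x : ℂ) ^ 2 + y ^ 2) ≠ 0 := by
      have : x ^ 2 + y ^ 2 ≠ 0 := by rw [sq, sq]; exact hn'.ne'
      exact_mod_cast this
    have hn3 : ((y : ℂ) ^ 2 + x ^ 2) ≠ 0 := by rw [add_comm]; exact hn2
    ext t
    fin_cases t
    · simp [Matrix.mulVec, dotProduct]
      field_simp
      ring
    · simp [Matrix.mulVec, dotProduct]
      field_simp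
      ring

def termQ {V ι : Type} (nb : V → ι → V → V) (g : V → V → ℤ√d × ℤ√d) (i j : V) (b c : ι) : ℤ√d :=
  omQ (g i (nb i b j)) (g j (nb j c i))

theorem amplitude_eq_zero (hd : 0 ≤ d) {V ι : Type} [Fintype V] {G : SimpleGraph V}
    {nb ni : V → ι → V → V} {D : V → List ι} (h : Loc G nb ni D) {Δ : Finset G.Dart}
    (hΔ : IsOrientation G Δ) (g : V → V → ℤ√d × ℤ√d)
    (hg : ∀ i j, G.Adj i j → PosZ ((g i j).1 * (g i j).1 + (g i j).2 * (g i j).2))
    (B : Finset (V → ι)) (hB : ∀ s, s ∈ B ↔ ∀ i, s i ∈ D i)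
    (h0 : ∑ s ∈ B, ∏ e ∈ Δ, termQ nb g e.fst e.snd (s e.fst) (s e.snd) = 0) :
    amplitude G (fun e => cfQ hd (g e.fst e.snd) • toCQ hd (g e.fst e.snd)) Δ = 0 := by
  rw [amplitude_smul hΔ (fun e => cfQ hd (g e.fst e.snd)) (fun e => cfQ_ne hd (hg _ _ e.adj))
    (fun e => toCQ hd (g e.fst e.snd))]
  unfold amplitude
  rw [sum_perm_loc h _ (fun σ => by simp) B hB]
  have h1 := congrArg (fun z => ((Zsqrtd.toReal hd z : ℝ) : ℂ)) h0
  simp only [map_sum, map_prod, map_zero, Complex.ofReal_sum, Complex.ofReal_prod,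
    Complex.ofReal_zero] at h1
  simp only [omega_toCQ]
  rw [div_eq_zero_iff]
  exact Or.inl h1

theorem den_ne (hd : 0 ≤ d) {V : Type} {G : SimpleGraph V} (Δ : Finset G.Dart)
    (g : V → V → ℤ√d × ℤ√d)
    (hg : ∀ i j, G.Adj i j → PosZ ((g i j).1 * (g i j).1 + (g i j).2 * (g i j).2))
    (hp : ∀ e ∈ Δ, PosZ (omQ (g e.fst e.snd) (g e.snd e.fst))) :
    ∏ e ∈ Δ, omega (cfQ hd (g e.fst e.snd) • toCQ hd (g e.fst e.snd))
      (cfQ hd (g e.symm.fst e.symm.snd) • toCQ hd (g e.symm.fst e.symm.snd)) ≠ 0 := by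
  rw [Finset.prod_ne_zero_iff]
  intro e he
  rw [omega_smul, omega_toCQ]
  refine mul_ne_zero (mul_ne_zero (cfQ_ne hd (hg _ _ e.adj)) (cfQ_ne hd (hg _ _ e.symm.adj))) ?_
  exact_mod_cast ((hp e he).pos hd).ne'

end quad

end Pool.Agent.H10Amp
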