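import Mathlib

/-! Alon-Tarsi orientations and coefficients of the graph polynomial. -/

namespace Pool.Agent.At

open Finset MvPolynomial

section
variable {V : Type} [Fintype V] [DecidableEq V]

/-- `D` is an orientation of `G` -/
def Ori (G : SimpleGraph V) (D : Finset (V × V)) : Prop :=
  (∀ p ∈ D, G.Adj p.1 p.2) ∧ ∀ u v, G.Adj u v → ((u, v) ∈ D ↔ (v, u) ∉ D)

/-- out-degree of `v` in the arc set `F` -/
def od (F : Finset (V × V)) (v : V) : ℕ := #(F.filter fun p => p.1 = v)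

/-- in-degree of `v` in the arc set `F` -/
def idg (F : Finset (V × V)) (v : V) : ℕ := #(F.filter fun p => p.2 = v)

/-- number of even spanning Eulerian subgraphs -/
def EE (D : Finset (V × V)) : ℕ := #(D.powerset.filter fun F => (∀ v, od F v = idg F v) ∧ Even #F)

/-- number of odd spanning Eulerian subgraphs -/
def EO (D : Finset (V × V)) : ℕ := #(D.powerset.filter fun F => (∀ v, od F v = idg F v) ∧ Odd #F)

/-- the Alon-Tarsi number of `G` is at most `k` -/
def ATle (G : SimpleGraph V) (k : ℕ) : Prop := ∃ D, Ori G D ∧ EE D ≠ EO D ∧ ∀ v, od D v + 1 ≤ k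

variable {S : Type} [CommRing S] {ξ : V → S} {Λ : S →+ ℤ} {K : ℕ} {c : ℤ} {G : SimpleGraph V}

lemma l1 (h : ∀ e : V → ℕ, Λ (∏ v, ξ v ^ e v) = if ∀ v, e v = K then c else 0) (D : Finset (V × V)) :
    Λ (∏ p ∈ D, (ξ p.1 - ξ p.2)) =
      c * ∑ F ∈ D.powerset, if ∀ v, od (D \ F) v + idg F v = K then (-1) ^ #F else 0 := by
  rw [prod_sub, map_sum, mul_sum]
  refine sum_congr rfl fun F _ => ?_
  have a : ∏ p ∈ D \ F, ξ p.1 = ∏ v, ξ v ^ od (D \ F) v := by
    rw [← prod_fiberwise _ Prod.fst]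
    exact prod_congr rfl fun v _ => by rw [od, ← prod_const]; exact prod_congr rfl fun p q => by rw [(mem_filter.1 q).2]
  have b : ∏ p ∈ F, ξ p.2 = ∏ v, ξ v ^ idg F v := by
    rw [← prod_fiberwise _ Prod.snd]
    exact prod_congr rfl fun v _ => by rw [idg, ← prod_const]; exact prod_congr rfl fun p q => by rw [(mem_filter.1 q).2]
  have : ((-1 : S) ^ #F) = (((-1 : ℤ) ^ #F : ℤ) : S) := by simp
  rw [a, b, mul_assoc, ← prod_mul_distrib, this, ← zsmul_eq_mul, map_zsmul]
  simp only [← pow_add, h, smul_eq_mul]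
  split_ifs <;> simp [mul_comm]

lemma l2 {D E : Finset (V × V)} (h : Ori G D) (g : Ori G E) : #D = #E ∧
    ∃ k : ℕ, ∏ p ∈ D, (ξ p.1 - ξ p.2) = ((-1 : ℤ) ^ k) • ∏ p ∈ E, (ξ p.1 - ξ p.2) := by
  have e : D \ E = (E \ D).map ⟨Prod.swap, Prod.swap_injective⟩ := by
    ext ⟨u, v⟩
    simp only [mem_sdiff, mem_map, Function.Embedding.coeFn_mk, Prod.exists, Prod.swap_prod_mk, Prod.mk.injEq]
    refine ⟨fun ⟨a, b⟩ => ⟨v, u, ⟨?_, (h.2 _ _ (h.1 _ a)).1 a⟩, rfl, rfl⟩, ?_⟩
    · exact (g.2 _ _ (h.1 _ a).symm).2 b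
    · rintro ⟨_, _, ⟨a, b⟩, rfl, rfl⟩
      exact ⟨(h.2 _ _ (g.1 _ a).symm).2 b, (g.2 _ _ (g.1 _ a)).1 a⟩
  refine ⟨?_, #(E \ D), ?_⟩
  · rw [← card_sdiff_add_card_inter D E, ← card_sdiff_add_card_inter E D, e, card_map, inter_comm]
  · rw [← prod_inter_mul_prod_sdiff D E, ← prod_inter_mul_prod_sdiff E D, e, prod_map, inter_comm]
    simp only [Function.Embedding.coeFn_mk, Prod.fst_swap, Prod.snd_swap]
    rw [show ∏ x ∈ E \ D, (ξ x.2 - ξ x.1) = ∏ x ∈ E \ D, -(ξ x.1 - ξ x.2) by simp, prod_neg]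
    simp; ring

lemma l3 (h : ∀ e : V → ℕ, Λ (∏ v, ξ v ^ e v) = if ∀ v, e v = K then c else 0) {D : Finset (V × V)}
    (g : ∀ v, od D v = K) : Λ (∏ p ∈ D, (ξ p.1 - ξ p.2)) = c * (EE D - EO D) := by
  rw [l1 h, EE, EO, card_filter, card_filter]
  push_cast
  rw [← sum_sub_distrib]
  refine congrArg _ (sum_congr rfl fun F hF => ?_)
  have : ∀ v, od (D \ F) v + od F v = K := fun v => by
    rw [← g v, od, od, od, ← card_union_of_disjoint (disjoint_filter_filter sdiff_disjoint), ← filter_union,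
      sdiff_union_of_subset (mem_powerset.1 hF)]
  have : (∀ v, od (D \ F) v + idg F v = K) ↔ ∀ v, od F v = idg F v :=
    forall_congr' fun v => by have := this v; omega
  simp only [this]
  rcases Nat.even_or_odd #F with e | e
  · simp [e, Nat.not_odd_iff_even.2 e]
  · simp [e, Nat.not_even_iff_odd.2 e, e.neg_one_pow]; split_ifs <;> simp

lemma key {E : Finset (V × V)} (g : Ori G E) (hc : #E = K * Fintype.card V) (c0 : c ≠ 0)
    (h : ∀ e : V → ℕ, Λ (∏ v, ξ v ^ e v) = if ∀ v, e v = K then c else 0) :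
    ATle G (K + 1) ↔ Λ (∏ p ∈ E, (ξ p.1 - ξ p.2)) ≠ 0 := by
  have k : ∀ D, Ori G D → (∀ v, od D v = K) → (EE D ≠ EO D ↔ Λ (∏ p ∈ E, (ξ p.1 - ξ p.2)) ≠ 0) := fun D a b => by
    obtain ⟨k, e⟩ := (l2 (ξ := ξ) g a).2
    rw [e, map_zsmul, l3 h b]
    simp [c0, sub_eq_zero]
  constructor
  · rintro ⟨D, a, b, d⟩
    refine (k D a fun v => ?_).1 b
    have s : ∑ v, od D v = ∑ _v : V, K := by
      rw [sum_const, card_univ, smul_eq_mul, mul_comm, ← hc, ← (l2 (ξ := ξ) a g).1]
      exact (card_eq_sum_card_fiberwise (f := Prod.fst) fun _ _ => mem_univ _).symm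
    exact (sum_eq_sum_iff_of_le fun v _ => by have := d v; omega).1 s v (mem_univ _)
  · intro n
    have m := n
    rw [l1 h] at m
    obtain ⟨F, hF, e⟩ := exists_ne_zero_of_sum_ne_zero (right_ne_zero_of_mul m)
    have e : ∀ v, od (E \ F) v + idg F v = K := by_contra fun q => e (if_neg q)
    have hF := mem_powerset.1 hF
    have o : Ori G (E \ F ∪ F.map ⟨Prod.swap, Prod.swap_injective⟩) := by
      have t : ∀ u v, (u, v) ∈ F.map ⟨Prod.swap, Prod.swap_injective⟩ ↔ (v, u) ∈ F := fun u v =>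
        mem_map' _ (a := (v, u))
      refine ⟨fun ⟨u, v⟩ p => ?_, fun u v a => ?_⟩
      · rcases mem_union.1 p with p | p
        · exact g.1 _ (mem_sdiff.1 p).1
        · exact (g.1 _ (hF ((t _ _).1 p))).symm
      · have := g.2 u v a
        have := @hF (u, v)
        have := @hF (v, u)
        simp only [mem_union, mem_sdiff, t]; tauto
    have q : ∀ v, od (E \ F ∪ F.map ⟨Prod.swap, Prod.swap_injective⟩) v = K := fun v => by
      rw [← e v, od, filter_union, card_union_of_disjoint (disjoint_filter_filter ?_), filter_map, card_map]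
      · rfl
      · refine disjoint_left.2 fun p a b => ?_
        obtain ⟨r, s, rfl⟩ := mem_map.1 b
        exact (g.2 _ _ (g.1 _ (hF s))).1 (hF s) (mem_sdiff.1 a).1
    exact ⟨_, o, (k _ o q).2 n, fun v => (q v).le.trans_lt (Nat.lt_succ_self _)⟩

end

variable {σ : Type} [DecidableEq σ] {d : σ →₀ ℕ} {w : σ}

lemma zero {T : MvPolynomial σ ℤ} (h : T ∈ supported ℤ {w}ᶜ) {k : ℕ} (e : k ≠ d w) :
    coeff d (X w ^ k * T) = 0 := by
  rw [X_pow_eq_monomial, coeff_monomial_mul']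
  split_ifs with l
  · rw [one_mul]
    by_contra n
    refine mem_supported.1 h ((mem_vars_iff_mem_support w).2 ⟨_, mem_support_iff.2 n, ?_⟩) rfl
    have := l w
    simp at this ⊢; omega
  · rfl

lemma one0 (S : List (MvPolynomial σ ℤ)) (h : ∀ u ∈ S, u ∈ supported ℤ {w}ᶜ) : ∀ j, ∀ T ∈ supported ℤ {w}ᶜ,
    j + S.length ≤ d w → coeff d (X w ^ j * (S.map (X w + ·)).prod * T) = coeff d (X w ^ (j + S.length) * T) := by
  induction S with
  | nil => simp
  | cons a S ih =>
    intro j T t e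
    simp only [List.mem_cons, forall_eq_or_imp, List.length_cons] at h e
    have x := ih h.2 (j + 1) T t (by omega)
    have y := ih h.2 j (a * T) (mul_mem h.1 t) (by omega)
    rw [zero (mul_mem h.1 t) (by omega)] at y
    rw [List.length_cons, show j + (S.length + 1) = j + 1 + S.length by omega, ← x]
    refine Eq.trans ?_ (add_zero _)
    rw [← y, ← coeff_add]
    simp only [List.map_cons, List.prod_cons]; ring_nf

lemma one (S : List (MvPolynomial σ ℤ)) (h : ∀ u ∈ S, u ∈ supported ℤ {w}ᶜ) : ∀ j, ∀ T ∈ supported ℤ {w}ᶜ,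
    j + S.length = d w + 1 → coeff d (X w ^ j * (S.map (X w + ·)).prod * T) = coeff d (X w ^ d w * S.sum * T) := by
  induction S with
  | nil => intro j T t e; simpa using zero t (by simp at e; omega)
  | cons a S ih =>
    intro j T t e
    simp only [List.mem_cons, forall_eq_or_imp, List.length_cons] at h e
    have x := ih h.2 (j + 1) T t (by omega)
    have y := one0 (d := d) S h.2 j (a * T) (mul_mem h.1 t) (by omega)
    rw [show j + S.length = d w by omega] at y
    rw [List.sum_cons, mul_add, add_mul, coeff_add, ← x, mul_assoc _ a, ← y, ← coeff_add]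
    simp only [List.map_cons, List.prod_cons]; ring_nf

lemma cong {J S : Type} [DecidableEq J] [CommRing S] (Λ : S → ℤ) (s : Finset J) (A B : J → S) (U : J → Submonoid S)
    (h : ∀ i ∈ s, ∀ T ∈ U i, Λ (A i * T) = Λ (B i * T)) (g : ∀ i ∈ s, ∀ j ∈ s, i ≠ j → A j ∈ U i ∧ B j ∈ U i) :
    ∀ T, (∀ i ∈ s, T ∈ U i) → Λ ((∏ i ∈ s, A i) * T) = Λ ((∏ i ∈ s, B i) * T) := by
  induction s using Finset.induction_on with
  | empty => simp
  | insert a s n ih =>
    intro T t
    simp only [mem_insert, forall_eq_or_imp] at h g t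
    have m : ∀ j ∈ s, a ≠ j := fun j q e => n (e ▸ q)
    rw [prod_insert n, prod_insert n, mul_assoc, h.1 _ (mul_mem (prod_mem fun j q => (g.1.2 j q (m j q)).1) t.1),
      mul_left_comm, ih h.2 (fun i q => (g.2 i q).2) _ fun i q => mul_mem ((g.2 i q).1 (m i q).symm).2 (t.2 i q)]
    ring_nf

def Pos (p : MvPolynomial σ ℤ) : Prop := ∀ m, 0 ≤ coeff m p

lemma Pos.mul {p q : MvPolynomial σ ℤ} (a : Pos p) (b : Pos q) : Pos (p * q) ∧
    ∀ d, coeff d (p * q) ≠ 0 ↔ ∃ x y, x + y = d ∧ coeff x p ≠ 0 ∧ coeff y q ≠ 0 := by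
  simp only [Pos, coeff_mul]
  refine ⟨fun m => sum_nonneg fun x _ => mul_nonneg (a _) (b _), fun d => ?_⟩
  simp [sum_eq_zero_iff_of_nonneg fun x _ => mul_nonneg (a (Prod.fst x)) (b (Prod.snd x)), not_or]

lemma pos {J : Type} [DecidableEq J] (s : Finset J) (f : J → MvPolynomial σ ℤ) (h : ∀ j ∈ s, Pos (f j)) :
    Pos (∏ j ∈ s, f j) ∧ ∀ d, coeff d (∏ j ∈ s, f j) ≠ 0 ↔
      ∃ l : J → σ →₀ ℕ, ∑ j ∈ s, l j = d ∧ ∀ j ∈ s, coeff (l j) (f j) ≠ 0 := by
  induction s using Finset.induction_on with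
  | empty => exact ⟨fun m => by simp [coeff_one]; split_ifs <;> simp, fun d => by simp [coeff_one]⟩
  | insert a s n ih =>
    simp only [mem_insert, forall_eq_or_imp] at h
    obtain ⟨p, q⟩ := ih h.2
    simp only [prod_insert n, sum_insert n, mem_insert, forall_eq_or_imp]
    refine ⟨(h.1.mul p).1, fun d => ((h.1.mul p).2 d).trans ⟨?_, fun ⟨l, x, y, z⟩ => ⟨_, _, x, y, (q _).2 ⟨l, rfl, z⟩⟩⟩⟩
    rintro ⟨x, y, rfl, b, c⟩
    obtain ⟨l, rfl, e⟩ := (q _).1 c
    have m : ∀ j ∈ s, Function.update l a x j = l j := fun j r => Function.update_of_ne (ne_of_mem_of_not_mem r n) _ _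
    exact ⟨Function.update l a x, by rw [sum_congr rfl m]; simp, by simpa, fun j r => by rw [m j r]; exact e j r⟩

lemma pad {ω : σ → ℕ} {P : MvPolynomial σ ℤ} (h : IsWeightedHomogeneous ω P (Finsupp.weight ω d))
    (u : MvPolynomial σ ℤ) (S : List σ) (g : ∀ a ∈ S, ω a ≠ 0) : ∀ T,
    coeff d (P * ((S.map fun a => u - X a).prod * T)) = coeff d (P * (u ^ S.length * T)) := by
  induction S with
  | nil => simp
  | cons a S ih =>
    intro T
    simp only [List.mem_cons, forall_eq_or_imp] at g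
    have z : coeff d (P * (X a * ((S.map fun a => u - X a).prod * T))) = 0 := by
      rw [coeff_mul]
      refine sum_eq_zero fun ⟨x, y⟩ e => by_contra fun n => ?_
      have p := h (left_ne_zero_of_mul n)
      have q := right_ne_zero_of_mul n
      rw [coeff_X_mul'] at q
      have r : a ∈ y.support := by_contra fun r => q (if_neg r)
      have := Finsupp.le_weight_of_ne_zero' ω (Finsupp.mem_support_iff.1 r)
      rw [← mem_antidiagonal.1 e, map_add] at p
      have := g.1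
      dsimp only at p; omega
    have y := ih g.2 (u * T)
    rw [List.length_cons, pow_succ, mul_assoc _ u, ← y]
    refine Eq.trans ?_ (sub_zero _)
    rw [← z, ← coeff_sub]
    simp only [List.map_cons, List.prod_cons]; ring_nf

end Pool.Agent.At
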