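import Pool.Agent.Lib.helper10.Occ3
import Pool.Agent.Lib.helper10.At1

/-! The graph of the reduction from 3SAT to the Alon-Tarsi number, and its exact cover system. -/

namespace Pool.Agent.At

open Pool.Agent.Cx Pool.Agent.Cx.Oc Finset MvPolynomial

abbrev Ix := (ℕ × ℕ) × ℕ
abbrev Id := ℕ × Ix

def gad (φ : F) (i : Ix) : Prop := i.2 < 2 ∧ i.1.2 < 3 * φ.length
instance (φ : F) : DecidablePred (gad φ) := fun _ => by unfold gad; infer_instance
def tt (φ : F) (j : ℕ × ℕ) : Ix := if cf φ j.1 j.2 ∧ j.2 < j.1 then ((j.2, j.1), 1) else (j, 1)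
def ps (φ : F) (i : Ix) : List Ix :=
  if i.1.2 < 3 * φ.length then
    if i.2 < 2 then [(i.1, 0), tt φ i.1, if i.2 = 0 then ((i.1.1, i.1.2 + 1), 0) else (i.1, 2)]
    else if cf φ i.1.1 i.1.2 then (if i.1.1 < i.1.2 then [(i.1, 1), (i.1, 2), ((i.1.2, i.1.1), 2)] else [(i.1, 1)])
    else [(i.1, 1), (i.1, 2)]
  else if i.2 = 0 then (List.range 3).map fun a => ((3 * (i.1.1 / 3) + a, if i.1.1 % 3 = 0 then i.1.2 else 0), 0)
  else [i]
def ng (i : Ix) : Ix := if i.2 = 0 then (i.1, 2) else ((i.1.1, i.1.2 + 1), 0)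
def co (φ : F) (v : Id) : List Id :=
  if v.1 = 0 then (ps φ v.2).map (2, ·) ++ (if gad φ v.2 then [(1, v.2)] else []) else
  if v.1 = 1 then (if gad φ v.2 then [(2, ng v.2)] else []) else
  if v.1 = 3 then (List.range 6).map fun k => (4, (0, 0), k) else []
def pm (φ : F) (v : Id) : ℕ := if v.1 < 3 then 4 - v.1 - (co φ v).length else 0
def hs (m : ℕ) : List Id := (List.range m).map fun k => (3, (0, 0), k)
def nb (φ : F) (v : Id) : List Id := co φ v ++ hs (pm φ v)
def ids (φ : F) : List Id :=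
  List.range 3 ×ˢ (List.range (3 * φ.length) ×ˢ List.range (3 * φ.length + 1)) ×ˢ List.range 3 ++
    [3, 4] ×ˢ [(0, 0)] ×ˢ List.range 6
def red (φ : F) : List (List Bool) := mat (ids φ) fun u v => decide (v ∈ nb φ u ∨ u ∈ nb φ v)

lemma red_pt : PT red := by
  have b0 : PT ids := by unfold ids; fun_prop
  have b1 : PT fun z : F × ℕ × ℕ => tt z.1 z.2 := PP.ite (by fun_prop) (by fun_prop) (by fun_prop)
  have b2 : PT fun z : F × Ix => if z.2.2 = 0 then ((z.2.1.1, z.2.1.2 + 1), 0) else (z.2.1, 2) :=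
    PP.ite (by fun_prop) (by fun_prop) (by fun_prop)
  have b3 : PT fun i : Ix => if i.1.1 % 3 = 0 then i.1.2 else 0 := PP.ite (by fun_prop) (by fun_prop) (by fun_prop)
  have b4 : PT fun z : F × Ix => ps z.1 z.2 := PP.ite (by fun_prop) (PP.ite (by fun_prop) (by fun_prop)
    (PP.ite (by fun_prop) (PP.ite (by fun_prop) (by fun_prop) (by fun_prop)) (by fun_prop)))
    (PP.ite (by fun_prop) (by fun_prop) (by fun_prop))
  have b5 : PT ng := PP.ite (by fun_prop) (by fun_prop) (by fun_prop)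
  have b6 : PP fun z : F × Id => gad z.1 z.2.2 := by unfold gad; fun_prop
  have b7 : PT fun z : F × Id => co z.1 z.2 := PP.ite (by fun_prop) (PT.append (by fun_prop)
    (PP.ite b6 (by fun_prop) (by fun_prop))) (PP.ite (by fun_prop) (PP.ite b6 (by fun_prop) (by fun_prop))
    (PP.ite (by fun_prop) (PT.const _) (PT.const _)))
  have b8 : PT fun z : F × Id => pm z.1 z.2 := PP.ite (by fun_prop) (by fun_prop) (by fun_prop)
  have b9 : PT fun z : F × Id => nb z.1 z.2 := by unfold nb hs; fun_prop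
  exact PT.mat b0 (PP.decide (by fun_prop))

variable {φ : F}

def JJ (φ : F) : Finset (ℕ × ℕ) := range (3 * φ.length) ×ˢ range (3 * φ.length + 1)
def II (φ : F) : Finset Ix := JJ φ ×ˢ range 3

lemma mem_II {i : Ix} : i ∈ II φ ↔ i.1.1 < 3 * φ.length ∧ i.1.2 ≤ 3 * φ.length ∧ i.2 < 3 := by
  simp [II, JJ, Nat.lt_succ_iff, and_assoc]

lemma mem_ids {v : Id} : v ∈ ids φ ↔ (v.1 < 3 ∧ v.2 ∈ II φ) ∨ ((v.1 = 3 ∨ v.1 = 4) ∧ v.2.1 = (0, 0) ∧ v.2.2 < 6) := by
  obtain ⟨t, ⟨o, p⟩, k⟩ := v
  simp only [ids, List.mem_append, List.mem_product, List.mem_range, mem_II, List.mem_cons, List.not_mem_nil,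
    or_false, Nat.lt_succ_iff, and_assoc]

lemma nd_ids : (ids φ).Nodup := by
  refine List.nodup_append.2 ⟨List.nodup_range.product ((List.nodup_range.product List.nodup_range).product
    List.nodup_range), by decide, ?_⟩
  rintro ⟨t, a⟩ p _ q rfl
  simp only [List.mem_product, List.mem_range, List.mem_cons, List.not_mem_nil, or_false] at p q
  omega

lemma sp {M : Type} [CommMonoid M] (g : Id → M) : ∏ v ∈ (ids φ).toFinset, g v =
    (∏ i ∈ II φ, (g (0, i) * g (1, i) * g (2, i))) * ∏ k ∈ range 6, (g (3, (0, 0), k) * g (4, (0, 0), k)) := by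
  have : (ids φ).toFinset = range 3 ×ˢ II φ ∪ {3, 4} ×ˢ {(0, 0)} ×ˢ range 6 := by
    ext ⟨t, ⟨o, p⟩, k⟩; simp [mem_ids]; grind
  rw [this, prod_union (disjoint_left.2 fun v p q => by simp at p q; omega), prod_product, prod_comm, prod_product,
    prod_pair (by simp)]
  simp [prod_range_succ, prod_mul_distrib, -mul_eq_mul_left_iff, mul_assoc]

lemma ps_ok {i : Ix} (h : i ∈ II φ) : (∀ x ∈ ps φ i, x ∈ II φ) ∧ (ps φ i).Nodup ∧ (ps φ i).length ≤ 3 ∧
    (gad φ i → (ps φ i).length = 3 ∧ ng i ∈ II φ) := by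
  obtain ⟨⟨o, p⟩, k⟩ := i
  simp only [mem_II, gad] at h ⊢
  unfold ps tt ng
  split_ifs <;> simp [List.range_succ] at * <;> omega

lemma nb_ok {v : Id} (h : v ∈ ids φ) : (∀ u ∈ nb φ v, u ∈ ids φ) ∧ (nb φ v).Nodup := by
  obtain ⟨t, i⟩ := v
  have : pm φ (t, i) ≤ 4 := by unfold pm; split_ifs <;> omega
  have a : (∀ u ∈ co φ (t, i), u ∈ ids φ ∧ u.1 ≠ 3) ∧ (co φ (t, i)).Nodup := by
    rcases mem_ids.1 h with ⟨-, h⟩ | h
    · obtain ⟨a, b, -, c⟩ := ps_ok h
      have := b.map (f := fun x => ((2, x) : Id)) fun _ _ e => (Prod.ext_iff.1 e).2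
      unfold co
      split_ifs <;> simp [mem_ids, List.nodup_append, List.range_succ, *, -Prod.forall, -Prod.exists] <;> grind
    · unfold co
      split_ifs <;> simp_all [mem_ids, List.range_succ]
  refine ⟨fun u e => (List.mem_append.1 e).elim (fun e => (a.1 u e).1) fun e => ?_,
    List.nodup_append.2 ⟨a.2, List.nodup_range.map fun _ _ e => by simpa using e, fun u e w q r => ?_⟩⟩
  · obtain ⟨k, e', rfl⟩ := List.mem_map.1 e
    have := List.mem_range.1 e'
    simp [mem_ids]; omega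
  · obtain ⟨k, -, rfl⟩ := List.mem_map.1 q
    exact (a.1 u e).2 (by rw [r])

lemma nb_lt {u v : Id} (h : u ∈ nb φ v) : v.1 < u.1 := by
  unfold nb co pm hs at h
  split_ifs at h <;> simp at h <;> grind

noncomputable def sg (v : Id) : Id →₀ ℕ := Finsupp.single v 1
noncomputable def opt (φ : F) (i : Ix) : List (Id →₀ ℕ) :=
  if gad φ i then (if i.2 = 0 then [sg (2, i.1, 0) + sg (2, tt φ i.1), sg (2, (i.1.1, i.1.2 + 1), 0) + sg (2, i.1, 2)]
    else [0, 0]) else (ps φ i).map fun x => sg (2, x)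

lemma bw {l : Ix → Id →₀ ℕ} (h1 : ∀ i ∈ II φ, l i ∈ opt φ i) (h2 : ∀ x, (∑ i ∈ II φ, l i) (2, x) ≤ 1) : Sat3 φ := by
  have am : ∀ i ∈ II φ, ∀ j ∈ II φ, ∀ x, i ≠ j → l i (2, x) ≠ 0 → l j (2, x) = 0 := fun i a j b x n e => by
    have := h2 x
    rw [Finsupp.finsetSum_apply] at this
    have := (add_le_sum (f := fun i => l i (2, x)) (fun _ _ => Nat.zero_le _) a b n).trans this
    omega
  have ch : ∀ o < 3 * φ.length, ∀ p < 3 * φ.length, ∀ j ∈ II φ, j ≠ ((o, p), 0) → l j (2, (o, p + 1), 0) ≠ 0 →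
      l ((o, p), 0) = sg (2, (o, p), 0) + sg (2, tt φ (o, p)) := fun o a p b j c n e => by
    have m : ((o, p), 0) ∈ II φ := by simp [mem_II, a, b.le]
    have := am _ c _ m _ n e
    have q := h1 _ m
    simp only [opt, gad, b, Nat.ofNat_pos, and_self, if_true, List.mem_cons, List.not_mem_nil, or_false] at q
    exact q.resolve_right fun q => by simp [q, sg] at this
  have : ∀ c < φ.length, ∃ o, o / 3 = c ∧ ∀ p < 3 * φ.length,
      l ((o, p), 0) = sg (2, (o, p), 0) + sg (2, tt φ (o, p)) := fun c a => by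
    have m : ((3 * c, 3 * φ.length), 0) ∈ II φ := by simp [mem_II, a]
    have q := h1 _ m
    simp only [opt, gad, ps, lt_irrefl, and_false, if_false, if_true, List.map_map, List.mem_map, List.mem_range,
      Nat.mul_mod_right, Function.comp] at q
    obtain ⟨k, b, q⟩ := q
    refine ⟨3 * (3 * c / 3) + k, by omega, fun p e => ?_⟩
    generalize ho : 3 * (3 * c / 3) + k = o at q
    have ol : o < 3 * φ.length := by omega
    obtain ⟨n, e⟩ : ∃ n, p + n + 1 = 3 * φ.length := ⟨3 * φ.length - p - 1, by omega⟩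
    induction n generalizing p with
    | zero => exact ch o ol p (by omega) _ m (by simp; omega) (by rw [← q, show p + 1 = 3 * φ.length by omega]; simp [sg])
    | succ n ih =>
      exact ch o ol p (by omega) ((o, p + 1), 0) (by simp [mem_II, ol]; omega) (by simp)
        (by simp [ih (p + 1) (by omega) (by omega), sg])
  choose! o o1 o2 using this
  refine sat_of o1 fun c a d b e => ?_
  have n : o c ≠ o d := fun q => cf_irrefl _ (q ▸ e)
  have t : tt φ (o c, o d) = tt φ (o d, o c) := by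
    simp only [tt, e, e.symm, true_and]; split_ifs <;> first | rfl | omega
  have := am ((o c, o d), 0) (by simp [mem_II, e.1, e.2.1.le]) ((o d, o c), 0) (by simp [mem_II, e.2.1, e.1.le])
    (tt φ (o c, o d)) (by simp [n]) (by simp [o2 c a _ e.2.1, sg])
  simp [o2 d b _ e.1, sg, t] at this

lemma fw (h : Sat3 φ) : ∃ l : Ix → Id →₀ ℕ, ∑ i ∈ II φ, l i = ∑ i ∈ II φ, sg (2, i) ∧ ∀ i ∈ II φ, l i ∈ opt φ i := by
  classical
  obtain ⟨c, c1, c2⟩ := of_sat h
  obtain ⟨ch, hc⟩ : ∃ ch : ℕ → Prop, ∀ o, ch o ↔ o = c (o / 3) := ⟨_, fun _ => .rfl⟩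
  have nc : ∀ o p, cf φ o p → ch o → ¬ ch p := fun o p e a b =>
    c2 (o / 3) (p / 3) (by rwa [← (hc o).1 a, ← (hc p).1 b])
  have : ∀ g : ℕ → ℕ → ℕ → Ix, ∃ π : Ix → Ix, ∀ o p k, π ((o, p), k) = g o p k := fun g =>
    ⟨fun i => g i.1.1 i.1.2 i.2, fun _ _ _ => rfl⟩
  obtain ⟨π, hπ⟩ := this fun o p k => if p < 3 * φ.length then
      if k = 0 then (if ch o then ((o, p), 0) else ((o, p + 1), 0)) else
      if k = 1 then (if ch o then tt φ (o, p) else ((o, p), 2)) else
      if cf φ o p ∧ p < o then ((o, p), 1) else if ch o then ((o, p), 2) else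
      if cf φ o p ∧ ch p then ((p, o), 2) else ((o, p), 1)
    else if k = 0 then ((3 * (o / 3) + (c (o / 3) % 3 + o % 3) % 3, if o % 3 = 0 then p else 0), 0) else ((o, p), k)
  have ir := cf_irrefl (φ := φ)
  have p1 : ∀ i ∈ II φ, π i ∈ ps φ i := by
    rintro ⟨⟨o, p⟩, k⟩ m
    have : cf φ o p → o ≠ p := fun e q => ir _ (q ▸ e)
    simp only [mem_II] at m
    obtain rfl | rfl | rfl : k = 0 ∨ k = 1 ∨ k = 2 := by omega
    · by_cases a : p < 3 * φ.length <;> by_cases b : ch o <;> simp [hπ, ps, a, b] <;> omega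
    · by_cases a : p < 3 * φ.length <;> by_cases b : ch o <;> simp [hπ, ps, a, b]
    · by_cases a : p < 3 * φ.length
      · by_cases e : cf φ o p
        · rcases (this e).lt_or_gt with q | q <;> by_cases b : ch o <;> by_cases b' : ch p <;>
          simp [hπ, ps, a, b, b', e, q, q.not_gt]
        · by_cases b : ch o <;> simp [hπ, ps, a, b, e]
      · simp [hπ, ps, a]
  have p2 : Set.SurjOn π (II φ) (II φ) := by
    rintro ⟨⟨o, p⟩, k⟩ m
    have w : ∀ i, i ∈ II φ → π i = ((o, p), k) → ((o, p), k) ∈ π '' II φ := fun i a b => ⟨i, a, b⟩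
    simp only [mem_coe, mem_II] at m w
    have := c1 (o / 3)
    by_cases a : p < 3 * φ.length
    swap
    · rcases Nat.eq_zero_or_pos k with rfl | z
      · by_cases b : ch o
        · refine w ((3 * (o / 3), p), 0) (by dsimp only; omega) ?_
          have := (hc o).1 b
          simp [hπ, a]; omega
        · refine w ((o, p - 1), 0) (by dsimp only; omega) ?_
          simp [hπ, b, show p - 1 < 3 * φ.length by omega]; omega
      · exact w ((o, p), k) m (by simp [hπ, a, z.ne'])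
    obtain rfl | rfl | rfl : k = 0 ∨ k = 1 ∨ k = 2 := by omega
    · by_cases b : ch o
      · exact w ((o, p), 0) m (by simp [hπ, a, b])
      · rcases Nat.eq_zero_or_pos p with rfl | z
        · have := (hc o).not.1 b
          refine w ((3 * (o / 3) + (o % 3 + 3 - c (o / 3) % 3) % 3, 3 * φ.length), 0) (by dsimp only; omega) ?_
          have q : (3 * (o / 3) + (o % 3 + 3 - c (o / 3) % 3) % 3) / 3 = o / 3 := by omega
          simp only [hπ, q, lt_irrefl, if_false, if_true]
          rw [if_neg (by omega)]; simp; omega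
        · refine w ((o, p - 1), 0) (by dsimp only; omega) ?_
          simp [hπ, b, show p - 1 < 3 * φ.length by omega]; omega
    · by_cases e : cf φ o p ∧ p < o
      · exact w ((o, p), 2) (by dsimp only; omega) (by simp [hπ, a, e])
      by_cases b : ch o
      · exact w ((o, p), 1) m (by simp only [hπ, tt, a, b, e]; simp)
      by_cases e' : cf φ o p ∧ ch p
      · have : o ≠ p := fun q => ir _ (q ▸ e'.1)
        have : o < p := by have := e'.1; simp only [this, true_and] at e; omega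
        exact w ((p, o), 1) (by dsimp only; omega) (by simp [hπ, tt, m.1, e'.2, e'.1.symm, this])
      · exact w ((o, p), 2) (by dsimp only; omega) (by simp only [hπ, a, b, e, e']; simp)
    · by_cases b : ch o
      · by_cases e : cf φ o p ∧ p < o
        · exact w ((p, o), 2) (by dsimp only; omega) (by simp [hπ, m.1, b, e.1.symm, nc _ _ e.1 b, e.2.not_gt])
        · exact w ((o, p), 2) m (by simp only [hπ, a, b, e]; simp)
      · exact w ((o, p), 1) (by dsimp only; omega) (by simp [hπ, a, b])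
  have p3 : Set.MapsTo π (II φ) (II φ) := fun i m => (ps_ok m).1 _ (p1 i m)
  refine ⟨fun i => if gad φ i then (if i.2 = 0 then sg (2, π i) + sg (2, π (i.1, 1)) else 0) else sg (2, π i), ?_, ?_⟩
  · rw [← sum_nbij π p3 (injOn_of_surjOn_of_card_le π p3 p2 le_rfl) p2 (f := fun i => sg (2, π i))
      (g := fun i => sg (2, i)) fun _ _ => rfl,
      II, sum_product, sum_product]
    refine sum_congr rfl fun j _ => ?_
    by_cases e : j.2 < 3 * φ.length <;> simp [sum_range_succ, gad, e]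
  · rintro ⟨⟨o, p⟩, k⟩ m
    have := p1 _ m
    simp only [opt]
    split_ifs with a b
    · obtain rfl : k = 0 := b
      by_cases e : ch o <;> simp [hπ, show p < _ from a.2, e]
    · simp
    · exact List.mem_map_of_mem this

end Pool.Agent.At
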