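import Pool.Agent.Lib.helper10.NPDefs

/-! Chip-firing on digraphs given by matrices of arc multiplicities. -/

namespace Pool.Agent.Chip

/-- the number of arcs from `u` to `v` -/
def arc (A : List (List ℕ)) (u v : ℕ) : ℕ := (A.getD u []).getD v 0

/-- a square matrix with zero diagonal: a loopless directed multigraph on `0, ..., n-1` -/
def IsMulti (A : List (List ℕ)) : Prop := (∀ r ∈ A, r.length = A.length) ∧ ∀ u, arc A u u = 0

/-- no parallel arcs -/
def IsSimple (A : List (List ℕ)) : Prop := ∀ u v, arc A u v ≤ 1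

/-- out-degree -/
def deg (A : List (List ℕ)) (u : ℕ) : ℕ := ∑ v ∈ Finset.range A.length, arc A u v

/-- `y` arises from `x` by one legal firing -/
def Step (A : List (List ℕ)) (x y : ℕ → ℤ) : Prop :=
  ∃ v < A.length, 0 ≤ x v - deg A v ∧
    y = fun w => x w - (if w = v then (deg A v : ℤ) else 0) + arc A v w

/-- the chip distribution given by a list -/
def cfg (x : List ℕ) : ℕ → ℤ := fun v => x.getD v 0

/-- no infinite legal game starts at `x` -/
def Terminating (A : List (List ℕ)) (x : ℕ → ℤ) : Prop :=
  ¬ ∃ s : ℕ → ℕ → ℤ, s 0 = x ∧ ∀ i, Step A (s i) (s (i + 1))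

/-- some finite legal game leads from `x` to `y` -/
def Reach (A : List (List ℕ)) (x y : ℕ → ℤ) : Prop := Relation.ReflTransGen (Step A) x y

end Pool.Agent.Chip
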