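import Pool.Agent.Lib.helper10.NPPred

/-! The list of literal occurrences of a formula. -/

namespace Pool.Agent.Cx

abbrev Occ := List (ℕ × ℕ × Bool)

/-- occurrences of literals, with the number of their clause -/
def occ (φ : CNF) : Occ := φ.zipIdx.flatMap fun c => c.1.map fun l => (c.2, l)

/-- clause, variable and sign of occurrence number `s` -/
def cl (O : Occ) (s : ℕ) : ℕ := (O.getD s (0, 0, false)).1
def vr (O : Occ) (s : ℕ) : ℕ := (O.getD s (0, 0, false)).2.1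
def sg (O : Occ) (s : ℕ) : ℕ := (O.getD s (0, 0, false)).2.2.toNat

variable {α : Type} [Enc α]

@[fun_prop] lemma PT.occ {φ : α → CNF} (h : PT φ) : PT (fun a => occ (φ a)) := by
  unfold Cx.occ; fun_prop

@[fun_prop] lemma PT.cl {O : α → Occ} {s : α → ℕ} (hO : PT O) (hs : PT s) :
    PT (fun a => cl (O a) (s a)) := by
  unfold Cx.cl; fun_prop

@[fun_prop] lemma PT.vr {O : α → Occ} {s : α → ℕ} (hO : PT O) (hs : PT s) :
    PT (fun a => vr (O a) (s a)) := by
  unfold Cx.vr; fun_prop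

@[fun_prop] lemma PT.sg {O : α → Occ} {s : α → ℕ} (hO : PT O) (hs : PT s) :
    PT (fun a => sg (O a) (s a)) := by
  unfold Cx.sg; fun_prop

lemma sg_le (O : Occ) (s : ℕ) : sg O s ≤ 1 := Bool.toNat_le _

lemma mem_occ {φ : CNF} {x : ℕ × ℕ × Bool} :
    x ∈ occ φ ↔ ∃ h : x.1 < φ.length, x.2 ∈ φ[x.1] := by
  obtain ⟨j, l⟩ := x
  simp only [occ, List.mem_flatMap, List.mem_map, Prod.mk.injEq, Prod.exists,
    List.mem_zipIdx_iff_getElem?]
  constructor
  · rintro ⟨c, i, h, a, b, h1, rfl, rfl⟩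
    obtain ⟨h2, rfl⟩ := List.getElem?_eq_some_iff.1 h
    exact ⟨h2, h1⟩
  · rintro ⟨h, h1⟩
    exact ⟨_, j, List.getElem?_eq_getElem h, l.1, l.2, h1, rfl, rfl⟩

lemma cl_lt {φ : CNF} {s : ℕ} (hs : s < (occ φ).length) : cl (occ φ) s < φ.length := by
  rw [cl, List.getD_eq_getElem _ _ hs]; exact (mem_occ.1 (List.getElem_mem hs)).1

lemma vr_lt {φ : CNF} {s : ℕ} (hs : s < (occ φ).length) : vr (occ φ) s < size φ := by
  rw [vr, List.getD_eq_getElem _ _ hs]
  obtain ⟨h1, h2⟩ := mem_occ.1 (List.getElem_mem hs)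
  exact var_lt_size (List.getElem_mem h1) h2

/-- a satisfying assignment with a true occurrence chosen in each clause -/
lemma Sat.choice {φ : CNF} (h : Sat φ) : ∃ (τ σ : ℕ → ℕ), (∀ v, τ v ≤ 1) ∧ ∀ j < φ.length,
    σ j < (occ φ).length ∧ cl (occ φ) (σ j) = j ∧ sg (occ φ) (σ j) = τ (vr (occ φ) (σ j)) := by
  obtain ⟨τ, hτ⟩ := h
  have : ∀ j, ∃ s, j < φ.length → s < (occ φ).length ∧ cl (occ φ) s = j ∧
      sg (occ φ) s = (τ (vr (occ φ) s)).toNat := by
    intro j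
    by_cases hj : j < φ.length
    · obtain ⟨l, h1, h2⟩ := hτ _ (List.getElem_mem hj)
      obtain ⟨s, hs, e⟩ := List.getElem_of_mem (mem_occ.2 ⟨hj, h1⟩ : (j, l) ∈ occ φ)
      exact ⟨s, fun _ => ⟨hs, by rw [cl, List.getD_eq_getElem _ _ hs, e],
        by rw [sg, vr, List.getD_eq_getElem _ _ hs, e, h2]⟩⟩
    · exact ⟨0, fun h => absurd h hj⟩
  choose σ hσ using this
  exact ⟨fun v => (τ v).toNat, σ, fun v => Bool.toNat_le _, hσ⟩

/-- a consistent set of occurrences meeting every clause gives a satisfying assignment -/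
lemma sat_of_set {φ : CNF} (T : ℕ → Prop)
    (h1 : ∀ j < φ.length, ∃ s < (occ φ).length, T s ∧ cl (occ φ) s = j)
    (h2 : ∀ s < (occ φ).length, ∀ t < (occ φ).length, T s → T t → vr (occ φ) s = vr (occ φ) t →
      sg (occ φ) s = sg (occ φ) t) : Sat φ := by
  classical
  refine ⟨fun v => decide (∃ s < (occ φ).length, T s ∧ vr (occ φ) s = v ∧ sg (occ φ) s = 1),
    fun c hc => ?_⟩
  obtain ⟨j, hj, rfl⟩ := List.getElem_of_mem hc
  obtain ⟨s, hs, hT, e⟩ := h1 j hj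
  obtain ⟨b1, b2⟩ := mem_occ.1 (List.getElem_mem hs)
  have e1 : vr (occ φ) s = ((occ φ)[s]).2.1 := by rw [vr, List.getD_eq_getElem _ _ hs]
  have e2 : sg (occ φ) s = ((occ φ)[s]).2.2.toNat := by rw [sg, List.getD_eq_getElem _ _ hs]
  rw [cl, List.getD_eq_getElem _ _ hs] at e
  refine ⟨((occ φ)[s]).2, by simpa only [e] using b2, ?_⟩
  cases hb : ((occ φ)[s]).2.2
  · simp only [decide_eq_false_iff_not]
    rintro ⟨t, ht, hT', e', e''⟩
    have := h2 s hs t ht hT hT' (e1.trans e'.symm)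
    rw [e2, hb, e''] at this
    simp at this
  · simp only [decide_eq_true_eq]
    exact ⟨s, hs, hT, e1, by rw [e2, hb]; rfl⟩

end Pool.Agent.Cx
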