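import Pool.Agent.Lib.helper10.ChipDefs
import Pool.Agent.Lib.helper10.NPOcc

/-! General facts on chip-firing. -/

namespace Pool.Agent.Chip

open Finset

variable {A : List (List ℕ)} {x : ℕ → ℤ}

/-- the distribution after firing each `u` exactly `z u` times -/
def aft (A : List (List ℕ)) (x : ℕ → ℤ) (z : ℕ → ℕ) (w : ℕ) : ℤ :=
  x w - deg A w * z w + ∑ u ∈ range A.length, (arc A u w : ℤ) * z u

def inc (z : ℕ → ℕ) (v : ℕ) : ℕ → ℕ := fun w => z w + if w = v then 1 else 0

inductive Game (A : List (List ℕ)) (x : ℕ → ℤ) : (ℕ → ℕ) → Prop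
  | nil : Game A x fun _ => 0
  | fire {z v} : Game A x z → v < A.length → 0 ≤ aft A x z v - deg A v → Game A x (inc z v)

lemma aft_zero : aft A x (fun _ => 0) = x := by ext; simp [aft]

lemma aft_inc {z : ℕ → ℕ} {v : ℕ} (hv : v < A.length) : aft A x (inc z v) =
    fun w => aft A x z w - (if w = v then (deg A v : ℤ) else 0) + arc A v w := by
  ext w
  simp only [aft, inc, Nat.cast_add, mul_add, sum_add_distrib, Nat.cast_ite, Nat.cast_one,
    Nat.cast_zero, mul_ite, mul_one, mul_zero, sum_ite_eq', mem_range, hv, if_true]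
  split_ifs with h
  · subst h; ring
  · ring

lemma Game.step {z : ℕ → ℕ} {y : ℕ → ℤ} (h : Game A x z) (hs : Step A (aft A x z) y) :
    ∃ v < A.length, Game A x (inc z v) ∧ y = aft A x (inc z v) :=
  let ⟨v, hv, h1, h2⟩ := hs
  ⟨v, hv, h.fire hv h1, by rw [h2, aft_inc hv]⟩

lemma reach_iff {y : ℕ → ℤ} : Reach A x y ↔ ∃ z, Game A x z ∧ y = aft A x z := by
  constructor
  · intro h
    induction h with
    | refl => exact ⟨_, .nil, aft_zero.symm⟩
    | tail _ hs ih =>
      obtain ⟨z, hz, rfl⟩ := ih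
      obtain ⟨v, -, h⟩ := hz.step hs
      exact ⟨_, h⟩
  · rintro ⟨z, hz, rfl⟩
    induction hz with
    | nil => rw [aft_zero]; exact .refl
    | fire _ hv h ih => exact ih.tail ⟨_, hv, h, aft_inc hv⟩

lemma nonneg_inc {z : ℕ → ℕ} {v w : ℕ} (hv : v < A.length) (h : 0 ≤ aft A x z v - deg A v)
    (hw : 0 ≤ aft A x z w) : 0 ≤ aft A x (inc z v) w := by
  rw [aft_inc hv]
  simp only
  split_ifs with e
  · subst e; positivity
  · simp only [sub_zero]; positivity

lemma Game.nonneg (hx : ∀ v, 0 ≤ x v) {z : ℕ → ℕ} (h : Game A x z) : ∀ w, 0 ≤ aft A x z w := by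
  induction h with
  | nil => rwa [aft_zero]
  | fire _ hv h ih => exact fun w => nonneg_inc hv h (ih w)

/-- least action principle -/
lemma Game.le {z y : ℕ → ℕ} (hy : ∀ v < A.length, aft A x y v < deg A v) (h : Game A x z) :
    ∀ w, z w ≤ y w := by
  induction h with
  | nil => simp
  | @fire z v _ hv h ih =>
    intro w
    simp only [inc]
    split_ifs with e
    · subst e
      by_contra hh
      have e : z w = y w := by have := ih w; omega
      have h1 := hy w hv
      have : ∑ u ∈ range A.length, (arc A u w : ℤ) * z u ≤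
          ∑ u ∈ range A.length, (arc A u w : ℤ) * y u :=
        sum_le_sum fun u _ => by have := ih u; gcongr
      simp only [aft, e] at h h1
      omega
    · exact ih w

lemma term_of_stable {y : ℕ → ℕ} (hy : ∀ v < A.length, aft A x y v < deg A v) :
    Terminating A x := by
  rintro ⟨s, h0, hs⟩
  have : ∀ i, ∃ z, Game A x z ∧ s i = aft A x z ∧ ∑ v ∈ range A.length, z v = i := by
    intro i
    induction i with
    | zero => exact ⟨_, .nil, by rw [aft_zero, h0], by simp⟩
    | succ i ih =>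
      obtain ⟨z, h1, h2, h3⟩ := ih
      obtain ⟨v, hv, h4, h5⟩ := h1.step (h2 ▸ hs i)
      exact ⟨_, h4, h5, by simp [inc, sum_add_distrib, h3, hv]⟩
  obtain ⟨z, h1, -, h3⟩ := this (∑ v ∈ range A.length, y v + 1)
  have := sum_le_sum (s := range A.length) fun v _ => h1.le hy v
  omega

lemma stable_of_term (h : Terminating A x) :
    ∃ z, Game A x z ∧ ∀ v < A.length, aft A x z v < deg A v := by
  by_contra hh
  have : ∀ z : {z // Game A x z}, ∃ z' : {z // Game A x z},
      Step A (aft A x z.1) (aft A x z'.1) := by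
    rintro ⟨z, hz⟩
    by_contra h'
    refine hh ⟨z, hz, fun v hv => ?_⟩
    by_contra h''
    exact h' ⟨⟨_, hz.fire hv (by omega)⟩, v, hv, by simp only; omega, aft_inc hv⟩
  choose f hf using this
  exact h ⟨fun i => aft A x (f^[i] ⟨_, .nil⟩).1, aft_zero, fun i => by
    simp only [Function.iterate_succ_apply']; exact hf _⟩

lemma sum_aft (z : ℕ → ℕ) : ∑ w ∈ range A.length, aft A x z w = ∑ w ∈ range A.length, x w := by
  simp only [aft, sum_add_distrib, sum_sub_distrib]
  rw [sum_comm]
  simp [deg, sum_mul]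

/-- all vertices except `0` are nonnegative and stable -/
def Settled (A : List (List ℕ)) (x : ℕ → ℤ) (z : ℕ → ℕ) : Prop :=
  ∀ v < A.length, v ≠ 0 → 0 ≤ aft A x z v ∧ aft A x z v < deg A v

lemma settle (ρ : ℕ → ℕ) (h0 : ρ 0 = 0)
    (hρ : ∀ u < A.length, u ≠ 0 → 0 < deg A u ∧ ∀ v < A.length, 0 < arc A u v → ρ v < ρ u)
    (z : ℕ → ℕ) (hz : ∀ v < A.length, v ≠ 0 → 0 ≤ aft A x z v) :
    ∃ z', (Game A x z → Game A x z') ∧ z' 0 = z 0 ∧ Settled A x z' := by
  have pos : ∀ z, (∀ v < A.length, v ≠ 0 → 0 ≤ aft A x z v) →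
      0 ≤ ∑ w ∈ range A.length, (ρ w : ℤ) * aft A x z w := fun z hz => sum_nonneg fun w hw => by
    by_cases e : w = 0
    · simp [e, h0]
    · have := hz w (by simpa using hw) e; positivity
  generalize hk : (∑ w ∈ range A.length, (ρ w : ℤ) * aft A x z w).toNat = k
  induction k using Nat.strong_induction_on generalizing z with
  | _ k ih =>
    by_cases h : Settled A x z
    · exact ⟨z, id, rfl, h⟩
    · simp only [Settled, not_forall, not_and, not_lt] at h
      obtain ⟨v, hv, e, h⟩ := h
      have h1 : 0 ≤ aft A x z v - deg A v := by have := h (hz v hv e); omega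
      have h2 : ∀ w < A.length, w ≠ 0 → 0 ≤ aft A x (inc z v) w := fun w hw e =>
        nonneg_inc hv h1 (hz w hw e)
      have h3 : ∑ w ∈ range A.length, (ρ w : ℤ) * aft A x (inc z v) w <
          ∑ w ∈ range A.length, (ρ w : ℤ) * aft A x z w := by
        obtain ⟨a, b⟩ := hρ v hv e
        have : ∑ w ∈ range A.length, ρ w * arc A v w < ∑ w ∈ range A.length, ρ v * arc A v w := by
          obtain ⟨w, hw, c⟩ : ∃ w ∈ range A.length, 0 < arc A v w := by
            by_contra hh
            push Not at hh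
            rw [deg, sum_eq_zero fun w hw => by have := hh w hw; omega] at a
            omega
          refine sum_lt_sum (fun u hu => ?_) ⟨w, hw, ?_⟩
          · by_cases c : 0 < arc A v u
            · have := b u (by simpa using hu) c; gcongr
            · simp [show arc A v u = 0 by omega]
          · have := b w (by simpa using hw) c; gcongr
        rw [← mul_sum] at this
        simp only [aft_inc hv, mul_add, mul_sub, sum_add_distrib, sum_sub_distrib, mul_ite, mul_zero,
          sum_ite_eq', mem_range, hv, if_true]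
        have : ∑ w ∈ range A.length, (ρ w : ℤ) * arc A v w < ρ v * deg A v := by
          exact_mod_cast this
        omega
      obtain ⟨z', a, b, c⟩ := ih _ (by have := pos _ h2; omega) (inc z v) h2 rfl
      exact ⟨z', fun g => a (g.fire hv h1), by simp [b, inc, e.symm], c⟩

/-- the matrix of a function -/
def matN (N : ℕ) (f : ℕ → ℕ → ℕ) : List (List ℕ) :=
  (List.range N).map fun u => (List.range N).map fun v => f u v

@[simp] lemma matN_length (N : ℕ) (f : ℕ → ℕ → ℕ) : (matN N f).length = N := by simp [matN]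

lemma arc_matN (N : ℕ) (f : ℕ → ℕ → ℕ) (u v : ℕ) :
    arc (matN N f) u v = if u < N ∧ v < N then f u v else 0 := by
  by_cases hu : u < N <;> by_cases hv : v < N <;>
    simp [arc, matN, List.getD_eq_getElem?_getD, hu, hv]

/-- subdivision of multiple arcs -/
def sub (N K : ℕ) (a : ℕ → ℕ → ℕ) (u v : ℕ) : ℕ :=
  if u < N then (if N ≤ v ∧ (v - N) % K < a u ((v - N) / K) then 1 else 0)
  else if v = (u - N) / K then 1 else 0

lemma sum_mul_range {M : Type} [AddCommMonoid M] (N K : ℕ) (f : ℕ → M) :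
    ∑ c ∈ range (K * N), f c = ∑ j ∈ range N, ∑ l ∈ range K, f (K * j + l) := by
  induction N with
  | zero => simp
  | succ N ih => rw [mul_add, mul_one, sum_range_add, ih, sum_range_succ]

lemma divmod {D j q : ℕ} (h : q < D) : (D * j + q) / D = j ∧ (D * j + q) % D = q := by
  constructor
  · rw [Nat.mul_add_div (by omega), Nat.div_eq_of_lt h]; rfl
  · rw [Nat.mul_add_mod, Nat.mod_eq_of_lt h]

lemma sum_lt_ite {K a : ℕ} (h : a ≤ K) : ∑ l ∈ range K, (if l < a then 1 else 0) = a := by
  rw [← card_filter]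
  have : (range K).filter (· < a) = range a := by ext; simp; omega
  simp [this]

section
variable {N K : ℕ} {a : ℕ → ℕ → ℕ}

lemma sum_sub_range {M : Type} [AddCommMonoid M] (f : ℕ → M) : ∑ c ∈ range (N + K * N), f c =
    ∑ i ∈ range N, f i + ∑ j ∈ range N, ∑ l ∈ range K, f (N + (K * j + l)) := by
  rw [sum_range_add, sum_mul_range]

lemma lt_sub {j l : ℕ} (hj : j < N) (hl : l < K) : N + (K * j + l) < N + K * N := by nlinarith

lemma arc_sub1 {u j l : ℕ} (hu : u < N) (hj : j < N) (hl : l < K) :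
    arc (matN (N + K * N) (sub N K a)) u (N + (K * j + l)) = if l < a u j then 1 else 0 := by
  simp [arc_matN, sub, hu, lt_sub hj hl, (divmod hl).1, (divmod hl).2, Nat.lt_add_right]

lemma arc_sub2 {u v : ℕ} (hu : u < N) (hv : v < N) :
    arc (matN (N + K * N) (sub N K a)) u v = 0 := by
  simp [arc_matN, sub, hu]; omega

lemma arc_sub3 {v j l : ℕ} (hj : j < N) (hl : l < K) :
    arc (matN (N + K * N) (sub N K a)) (N + (K * j + l)) v = if v = j then 1 else 0 := by
  simp only [arc_matN, sub, lt_sub hj hl, (divmod hl).1, Nat.add_sub_cancel_left, true_and,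
    show ¬ (N + (K * j + l) < N) by omega, if_false]
  split_ifs <;> first | rfl | omega

lemma deg_sub1 {u : ℕ} (hu : u < N) (ha : ∀ j < N, a u j ≤ K) :
    deg (matN (N + K * N) (sub N K a)) u = ∑ j ∈ range N, a u j := by
  rw [deg, matN_length, sum_sub_range, sum_eq_zero fun i hi => arc_sub2 hu (by simpa using hi),
    zero_add]
  refine sum_congr rfl fun j hj => ?_
  rw [sum_congr rfl fun l hl => arc_sub1 hu (by simpa using hj) (by simpa using hl),
    sum_lt_ite (ha j (by simpa using hj))]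

lemma deg_sub2 {j l : ℕ} (hj : j < N) (hl : l < K) :
    deg (matN (N + K * N) (sub N K a)) (N + (K * j + l)) = 1 := by
  simp only [deg, arc_sub3 hj hl, matN_length, sum_ite_eq', mem_range]
  rw [if_pos (by omega)]

lemma dec_sub {v : ℕ} (h1 : N ≤ v) (h2 : v < N + K * N) :
    ∃ j < N, ∃ l < K, v = N + (K * j + l) := by
  have hK : 0 < K := by
    by_contra h; simp [show K = 0 by omega] at h2; omega
  refine ⟨(v - N) / K, ?_, (v - N) % K, Nat.mod_lt _ hK, by rw [Nat.div_add_mod]; omega⟩
  rw [Nat.div_lt_iff_lt_mul hK, mul_comm]; omega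

lemma aft_sub (hN : 0 < N) (ha : ∀ u < N, ∀ j < N, a u j ≤ K) (hx : ∀ v, N ≤ v → x v = 0)
    {z : ℕ → ℕ} (h : Settled (matN (N + K * N) (sub N K a)) x z) :
    (∀ v, N ≤ v → v < N + K * N → aft (matN (N + K * N) (sub N K a)) x z v = 0) ∧
    ∀ j < N, aft (matN (N + K * N) (sub N K a)) x z j =
      x j - (∑ p ∈ range N, a j p : ℕ) * z j + ∑ i ∈ range N, (a i j : ℤ) * z i := by
  have h1 : ∀ v, N ≤ v → v < N + K * N → aft (matN (N + K * N) (sub N K a)) x z v = 0 := by
    intro v a b
    obtain ⟨j, hj, l, hl, rfl⟩ := dec_sub a b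
    have := h _ (by rw [matN_length]; exact b) (by omega)
    rw [deg_sub2 hj hl] at this
    omega
  refine ⟨h1, fun j hj => ?_⟩
  have h2 : ∀ l < K, (z (N + (K * j + l)) : ℤ) =
      ∑ i ∈ range N, (if l < a i j then 1 else 0 : ℕ) * (z i : ℤ) := by
    intro l hl
    have := h1 _ (by omega) (lt_sub hj hl)
    rw [aft, deg_sub2 hj hl, hx _ (by omega), matN_length, sum_sub_range,
      sum_congr rfl fun i hi => by rw [arc_sub1 (by simpa using hi) hj hl],
      sum_eq_zero fun i hi => sum_eq_zero fun l' hl' => by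
        rw [arc_sub3 (by simpa using hi) (by simpa using hl'), if_neg (by simp at hi; omega)]; simp]
      at this
    omega
  rw [aft, deg_sub1 hj (ha j hj), matN_length, sum_sub_range]
  congr 1
  rw [sum_eq_zero fun i hi => by rw [arc_sub2 (by simpa using hi) hj]; simp, zero_add,
    sum_congr rfl fun i hi => sum_congr rfl fun l hl => by
      rw [arc_sub3 (by simpa using hi) (by simpa using hl)]]
  rw [sum_eq_single j (fun b _ e => by simp [e.symm]) (by simp [hj])]
  simp only [if_true, Nat.cast_one, one_mul]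
  rw [sum_congr rfl fun l hl => h2 l (by simpa using hl), sum_comm]
  refine sum_congr rfl fun i hi => ?_
  rw [← sum_mul, ← Nat.cast_sum, sum_lt_ite (ha i (by simpa using hi) j hj)]

lemma sub_graph : IsMulti (matN (N + K * N) (sub N K a)) ∧
    IsSimple (matN (N + K * N) (sub N K a)) := by
  refine ⟨⟨by simp [matN], fun u => ?_⟩, fun u v => ?_⟩
  · rw [arc_matN]
    split_ifs with h
    · by_cases hu : u < N
      · simp [sub, hu]
      · obtain ⟨j, hj, l, hl, rfl⟩ := dec_sub (not_lt.1 hu) h.1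
        simp [sub, (divmod hl).1]; omega
    · rfl
  · simp only [arc_matN, sub]; split_ifs <;> omega

lemma sub_settle (hN : 0 < N) (ha : ∀ u < N, ∀ j < N, a u j ≤ K) (ρ : ℕ → ℕ) (h0 : ρ 0 = 0)
    (hρ : ∀ u < N, u ≠ 0 → 0 < ∑ j ∈ range N, a u j ∧ ∀ v < N, 0 < a u v → ρ v < ρ u)
    (z : ℕ → ℕ) (hz : ∀ v < N + K * N, v ≠ 0 → 0 ≤ aft (matN (N + K * N) (sub N K a)) x z v) :
    ∃ z', (Game (matN (N + K * N) (sub N K a)) x z → Game (matN (N + K * N) (sub N K a)) x z') ∧
      z' 0 = z 0 ∧ Settled (matN (N + K * N) (sub N K a)) x z' := by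
  refine settle (fun v => if v < N then 2 * ρ v else 2 * ρ ((v - N) / K) + 1) (by simp [hN, h0])
    (fun u hu e => ?_) z (by simpa using hz)
  rw [matN_length] at hu ⊢
  by_cases h : u < N
  · refine ⟨deg_sub1 h (ha u h) ▸ (hρ u h e).1, fun v hv c => ?_⟩
    by_cases h' : v < N
    · simp [arc_sub2 h h'] at c
    · obtain ⟨j, hj, l, hl, rfl⟩ := dec_sub (not_lt.1 h') hv
      rw [arc_sub1 h hj hl] at c
      have := (hρ u h e).2 j hj (by split_ifs at c <;> omega)
      simp [h, (divmod hl).1]; omega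
  · obtain ⟨j, hj, l, hl, rfl⟩ := dec_sub (not_lt.1 h) hu
    refine ⟨by simp [deg_sub2 hj hl], fun v hv c => ?_⟩
    rw [arc_sub3 hj hl] at c
    have : v = j := by split_ifs at c <;> omega
    simp [this, hj, (divmod hl).1]

end

end Pool.Agent.Chip
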