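import Pool.Agent.Lib.helper10.ChipLib

/-! A binary counter made of chip-firing vertices tests all assignments of a formula. -/

namespace Pool.Agent.Chip

open Finset Pool.Agent.Cx

def lsum (n : ℕ) (f : ℕ → ℕ) : ℕ := ((List.range n).map f).sum

lemma lsum_eq (n : ℕ) (f : ℕ → ℕ) : lsum n f = ∑ i ∈ range n, f i := by
  induction n with
  | zero => rfl
  | succ n ih => rw [sum_range_succ, ← ih]; simp [lsum, List.range_succ]

lemma PT.lsum {α : Type} [Enc α] {n : α → ℕ} {f : α → ℕ → ℕ} (hn : PT n)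
    (hf : PT fun p : α × ℕ => f p.1 p.2) : PT fun a => lsum (n a) (f a) :=
  PT.sum (PT.map hf (PT.range hn))

def gg (O : Occ) (t s : ℕ) : ℕ :=
  if vr O s = t then (if sg O s = 1 then O.length + 1 else 1)
  else if vr O s + 1 = t then (if sg O s = 1 then 2 else O.length) else 0

def cf (O : Occ) (t j : ℕ) : ℕ := lsum O.length fun s => if cl O s = j then gg O t s else 0

def EE (O : Occ) : ℕ := O.length * (O.length + 2) + 1

def hh (O : Occ) (n t : ℕ) : ℕ := (n + 1 - t) * EE O

def am (O : Occ) (m n i p : ℕ) : ℕ :=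
  if i ≤ n + 1 then
    (if p = 0 then (if i = 0 then 0 else 2 * EE O - lsum m (cf O i))
    else if p < 2 * n + 3 then (if p = i + 1 ∨ p = n + 2 + i then hh O n i else 0)
    else cf O i (p - (2 * n + 3)))
  else if p = 0 then (if i < 2 * n + 3 then 2 * hh O n (i - (n + 2)) else O.length + 2) else 0

def xq (O : Occ) (j : ℕ) : ℕ :=
  (lsum O.length fun s => if cl O s = j then (if sg O s = 1 then 0 else O.length + 1) else 0) %
    (O.length + 2)

def xm (O : Occ) (m n i : ℕ) : ℕ :=
  if i = 0 then m * (O.length + 2) + lsum (2 * n + 3 + m) (am O m n 0) - (O.length + 1) - lsum m (xq O)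
  else if i ≤ n + 1 then 0 else if i < 2 * n + 3 then hh O n (i - (n + 2))
  else if i < 2 * n + 3 + m then xq O (i - (2 * n + 3)) else 0

def ym (O : Occ) (m n i : ℕ) : ℕ :=
  if i = n + 1 then hh O n n else if i = 2 * n + 2 then 0 else xm O m n i

def KK (O : Occ) (n : ℕ) : ℕ := 2 * ((n + 1) * EE O) + O.length + 2

def NN (O : Occ) (m n : ℕ) : ℕ := 2 * n + 3 + m + KK O n * (2 * n + 3 + m)

def AA (O : Occ) (m n : ℕ) : List (List ℕ) :=
  matN (2 * n + 3 + m + KK O n * (2 * n + 3 + m)) (sub (2 * n + 3 + m) (KK O n) (am O m n))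

def xl (O : Occ) (m n : ℕ) : List ℕ := (List.range (NN O m n)).map (xm O m n)

def yl (O : Occ) (m n : ℕ) : List ℕ := (List.range (NN O m n)).map (ym O m n)

section pt
variable {α : Type} [Enc α] {O : α → Occ} {m n i p : α → ℕ}

@[fun_prop] lemma gg_pt (hO : PT O) (hi : PT i) (hp : PT p) : PT fun a => gg (O a) (i a) (p a) := by
  unfold gg; fun_prop

@[fun_prop] lemma cf_pt (hO : PT O) (hi : PT i) (hp : PT p) : PT fun a => cf (O a) (i a) (p a) :=
  PT.lsum (by fun_prop) (by fun_prop)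

@[fun_prop] lemma EE_pt (hO : PT O) : PT fun a => EE (O a) := by unfold EE; fun_prop

@[fun_prop] lemma hh_pt (hO : PT O) (hi : PT i) (hp : PT p) : PT fun a => hh (O a) (i a) (p a) := by
  unfold hh; fun_prop

@[fun_prop] lemma am_pt (hO : PT O) (hm : PT m) (hn : PT n) (hi : PT i) (hp : PT p) :
    PT fun a => am (O a) (m a) (n a) (i a) (p a) := by
  have : PT fun a => lsum (m a) (cf (O a) (i a)) := PT.lsum hm (by fun_prop)
  unfold am
  refine PP.ite (by fun_prop) (PP.ite (by fun_prop) (PP.ite (by fun_prop) (by fun_prop)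
    (by fun_prop)) (PP.ite (by fun_prop) (PP.ite (by fun_prop) (by fun_prop) (by fun_prop))
    (by fun_prop))) (PP.ite (by fun_prop) (PP.ite (by fun_prop) (by fun_prop) (by fun_prop))
    (by fun_prop))

@[fun_prop] lemma xq_pt (hO : PT O) (hi : PT i) : PT fun a => xq (O a) (i a) :=
  PT.mod (PT.lsum (by fun_prop) (by fun_prop)) (by fun_prop)

@[fun_prop] lemma xm_pt (hO : PT O) (hm : PT m) (hn : PT n) (hi : PT i) :
    PT fun a => xm (O a) (m a) (n a) (i a) := by
  have h1 : PT fun a => lsum (m a) (xq (O a)) := PT.lsum hm (by fun_prop)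
  have h2 : PT fun a => lsum (2 * n a + 3 + m a) (am (O a) (m a) (n a) 0) :=
    PT.lsum (by fun_prop) (by fun_prop)
  unfold xm
  refine PP.ite (by fun_prop) (by fun_prop) (PP.ite (by fun_prop) (by fun_prop)
    (PP.ite (by fun_prop) (by fun_prop) (PP.ite (by fun_prop) (by fun_prop) (by fun_prop))))

@[fun_prop] lemma ym_pt (hO : PT O) (hm : PT m) (hn : PT n) (hi : PT i) :
    PT fun a => ym (O a) (m a) (n a) (i a) := by
  unfold ym
  refine PP.ite (by fun_prop) (by fun_prop) (PP.ite (by fun_prop) (by fun_prop) (by fun_prop))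

@[fun_prop] lemma KK_pt (hO : PT O) (hn : PT n) : PT fun a => KK (O a) (n a) := by
  unfold KK; fun_prop

@[fun_prop] lemma xl_pt (hO : PT O) (hm : PT m) (hn : PT n) : PT fun a => xl (O a) (m a) (n a) := by
  unfold xl NN; exact PT.map (by fun_prop) (by fun_prop)

@[fun_prop] lemma yl_pt (hO : PT O) (hm : PT m) (hn : PT n) : PT fun a => yl (O a) (m a) (n a) := by
  unfold yl NN; exact PT.map (by fun_prop) (by fun_prop)

@[fun_prop] lemma AA_pt (hO : PT O) (hm : PT m) (hn : PT n) : PT fun a => AA (O a) (m a) (n a) := by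
  have : PT fun q : (α × ℕ) × ℕ => sub (2 * n q.1.1 + 3 + m q.1.1) (KK (O q.1.1) (n q.1.1))
      (am (O q.1.1) (m q.1.1) (n q.1.1)) q.1.2 q.2 := by
    unfold sub
    refine PP.ite (by fun_prop) (PP.ite (by fun_prop) (by fun_prop) (by fun_prop))
      (PP.ite (by fun_prop) (by fun_prop) (by fun_prop))
  unfold AA matN
  exact PT.map (PT.map this (by fun_prop)) (by fun_prop)

end pt

variable {O : Occ} {m n : ℕ}

lemma splitN {M : Type} [AddCommMonoid M] (f : ℕ → M) : ∑ i ∈ range (2 * n + 3 + m), f i =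
    f 0 + ∑ t ∈ range (n + 1), f (t + 1) + ∑ t ∈ range (n + 1), f (n + 2 + t) +
      ∑ j ∈ range m, f (2 * n + 3 + j) := by
  rw [sum_range_add, show 2 * n + 3 = (n + 1 + 1) + (n + 1) by ring, sum_range_add, sum_range_succ',
    add_comm (f 0)]

lemma EE_pos : 0 < EE O := by simp [EE]

lemma sum_cl (f : ℕ → ℕ) (B : ℕ) (hf : ∀ s, f s ≤ B) :
    ∑ j ∈ range m, ∑ s ∈ range O.length, (if cl O s = j then f s else 0) ≤ O.length * B := by
  rw [sum_comm]
  refine (sum_le_card_nsmul _ _ B fun s _ => ?_).trans (by simp)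
  rw [sum_ite_eq]; split_ifs
  · exact hf s
  · omega

lemma cf_le (t : ℕ) : ∑ j ∈ range m, cf O t j ≤ EE O := by
  simp only [cf, lsum_eq]
  refine (sum_cl _ (O.length + 2) fun s => ?_).trans (by simp [EE])
  unfold gg; split_ifs <;> omega

lemma am1 {i t : ℕ} (ht : t ≤ n) : am O m n i (t + 1) = if i = t then hh O n t else 0 := by
  unfold am; split_ifs <;> first | omega | simp_all

lemma am2 {i t : ℕ} (ht : t ≤ n) : am O m n i (n + 2 + t) = if i = t then hh O n t else 0 := by
  have : hh O n (n + 1) = 0 := by simp [hh]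
  unfold am; split_ifs <;> first | omega | (rw [show i = n + 1 by omega, this]) | simp_all

lemma am3 {i j : ℕ} : am O m n i (2 * n + 3 + j) = if i ≤ n + 1 then cf O i j else 0 := by
  unfold am; split_ifs <;> first | omega | simp

lemma sum_am (i : ℕ) : ∑ p ∈ range (2 * n + 3 + m), am O m n i p =
    am O m n i 0 + if i ≤ n + 1 then 2 * hh O n i + ∑ j ∈ range m, cf O i j else 0 := by
  rw [splitN, sum_congr rfl fun t ht => am1 (by simpa [Nat.lt_succ_iff] using ht),
    sum_congr rfl fun t ht => am2 (by simpa [Nat.lt_succ_iff] using ht)]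
  simp only [am3, sum_ite_eq, mem_range]
  have : i = n + 1 → hh O n i = 0 := by rintro rfl; simp [hh]
  split_ifs <;> first | omega | simp

lemma deg1 {t : ℕ} (ht : t ≤ n) : ∑ p ∈ range (2 * n + 3 + m), am O m n (t + 1) p = 2 * hh O n t := by
  have h1 := cf_le (O := O) (m := m) (t + 1)
  have h2 : hh O n t = hh O n (t + 1) + EE O := by
    rw [hh, hh, show n + 1 - t = (n + 1 - (t + 1)) + 1 by omega, add_mul, one_mul]
  rw [sum_am, am, lsum_eq]
  simp only [show t + 1 ≤ n + 1 by omega, if_true, Nat.succ_ne_zero, if_false]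
  omega

lemma deg2 {t : ℕ} (ht : t ≤ n) :
    ∑ p ∈ range (2 * n + 3 + m), am O m n (n + 2 + t) p = 2 * hh O n t := by
  rw [sum_am, am]
  simp [show ¬ n + 2 + t ≤ n + 1 by omega, show n + 2 + t < 2 * n + 3 by omega]

lemma deg3 {j : ℕ} : ∑ p ∈ range (2 * n + 3 + m), am O m n (2 * n + 3 + j) p = O.length + 2 := by
  rw [sum_am, am]
  simp [show ¬ 2 * n + 3 + j ≤ n + 1 by omega]

lemma am_le : ∀ u < 2 * n + 3 + m, ∀ j < 2 * n + 3 + m, am O m n u j ≤ KK O n := by
  intro u _ j hj
  have h1 : ∀ t, hh O n t ≤ (n + 1) * EE O := fun t => Nat.mul_le_mul_right _ (by omega)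
  have h2 : EE O ≤ (n + 1) * EE O := Nat.le_mul_of_pos_left _ (by omega)
  have h3 := h1 u
  have h4 := h1 (u - (n + 2))
  unfold am KK
  split_ifs <;> try omega
  have := (single_le_sum (f := cf O u) (fun _ _ => Nat.zero_le _)
    (mem_range.2 (show j - (2 * n + 3) < m by omega))).trans (cf_le u)
  omega

lemma hh_pos {t : ℕ} (ht : t ≤ n) : 0 < hh O n t := Nat.mul_pos (by omega) EE_pos

lemma AA_settle {x : ℕ → ℤ} (z : ℕ → ℕ) (hz : ∀ v, v ≠ 0 → 0 ≤ aft (AA O m n) x z v) :
    ∃ z', (Game (AA O m n) x z → Game (AA O m n) x z') ∧ z' 0 = z 0 ∧ Settled (AA O m n) x z' := by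
  refine sub_settle (by omega) am_le
    (fun v => if v = 0 then 0 else if v ≤ n + 1 then n + 3 - v else 1) (by simp) (fun u hu e => ?_) z
    fun v _ => hz v
  constructor
  · rcases (by omega : u ≤ n + 1 ∨ (n + 2 ≤ u ∧ u < 2 * n + 3) ∨ 2 * n + 3 ≤ u) with h | h | h
    · obtain ⟨t, rfl⟩ : ∃ t, u = t + 1 := ⟨u - 1, by omega⟩
      have := hh_pos (O := O) (show t ≤ n by omega); rw [deg1 (by omega)]; omega
    · obtain ⟨t, rfl⟩ : ∃ t, u = n + 2 + t := ⟨u - (n + 2), by omega⟩
      have := hh_pos (O := O) (show t ≤ n by omega); rw [deg2 (by omega)]; omega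
    · obtain ⟨t, rfl⟩ : ∃ t, u = 2 * n + 3 + t := ⟨u - (2 * n + 3), by omega⟩
      rw [deg3]; omega
  · intro v _ h
    unfold am at h
    split_ifs at h ⊢ <;> omega

lemma cfg_xl : cfg (xl O m n) = fun v => (xm O m n v : ℤ) := by
  ext v
  by_cases h : v < NN O m n
  · simp [cfg, xl, List.getD_eq_getElem?_getD, h]
  · have : xm O m n v = 0 := by unfold xm NN at *; split_ifs <;> omega
    simp [cfg, xl, List.getD_eq_getElem?_getD, h, this]

lemma cfg_yl : cfg (yl O m n) = fun v => (ym O m n v : ℤ) := by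
  ext v
  by_cases h : v < NN O m n
  · simp [cfg, yl, List.getD_eq_getElem?_getD, h]
  · have : ym O m n v = 0 := by unfold ym xm NN at *; split_ifs <;> omega
    simp [cfg, yl, List.getD_eq_getElem?_getD, h, this]

lemma two_cases {h w : ℤ} (hp : 0 < h) (h1 : 0 ≤ h * w) (h2 : h * w < 2 * h) : w = 0 ∨ w = 1 := by
  have a : 0 ≤ w := by by_contra hh; nlinarith
  have b : w < 2 := by by_contra hh; nlinarith
  omega

/-- number of true occurrences in clause `j` under the assignment given by the bits of `c` -/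
def cnt (O : Occ) (c j : ℕ) : ℕ :=
  ∑ s ∈ range O.length, if cl O s = j then (if sg O s = c / 2 ^ vr O s % 2 then 1 else 0) else 0

lemma struct (hv : ∀ s < O.length, vr O s < n) {z : ℕ → ℕ}
    (h : Settled (AA O m n) (cfg (xl O m n)) z) :
    (∀ t ≤ n, aft (AA O m n) (cfg (xl O m n)) z (t + 1) = hh O n t * (z 0 / 2 ^ t % 2 : ℕ) ∧
      aft (AA O m n) (cfg (xl O m n)) z (n + 2 + t) = hh O n t * (1 - (z 0 / 2 ^ t % 2 : ℕ))) ∧
    (∀ j < m, aft (AA O m n) (cfg (xl O m n)) z (2 * n + 3 + j) =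
      if cnt O (z 0) j = 0 then 0 else (O.length + 2 : ℤ) - cnt O (z 0) j) ∧
    (∀ v, 2 * n + 3 + m ≤ v → aft (AA O m n) (cfg (xl O m n)) z v = 0) ∧
    aft (AA O m n) (cfg (xl O m n)) z 0 + ∑ j ∈ range m, aft (AA O m n) (cfg (xl O m n)) z
      (2 * n + 3 + j) = xm O m n 0 + ∑ j ∈ range m, (xq O j : ℤ) := by
  have hx : ∀ v, 2 * n + 3 + m ≤ v → cfg (xl O m n) v = 0 := by
    intro v h; simp only [cfg_xl, xm]; split_ifs <;> first | omega | simp
  obtain ⟨a1, a2⟩ := aft_sub (by omega) am_le hx h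
  have hd : ∀ v < 2 * n + 3 + m, deg (AA O m n) v = ∑ p ∈ range (2 * n + 3 + m), am O m n v p :=
    fun v h => deg_sub1 h (am_le v h)
  have hs : ∀ v < 2 * n + 3 + m, v ≠ 0 → 0 ≤ aft (AA O m n) (cfg (xl O m n)) z v ∧
      aft (AA O m n) (cfg (xl O m n)) z v < (∑ p ∈ range (2 * n + 3 + m), am O m n v p : ℕ) :=
    fun v h' e => hd v h' ▸ h v (by simp [AA]; omega) e
  have b1 : ∀ t ≤ n, aft (AA O m n) (cfg (xl O m n)) z (t + 1) = hh O n t * (z t - 2 * z (t + 1)) := by
    intro t ht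
    rw [AA, a2 _ (by omega), deg1 ht, cfg_xl]
    simp [am1 ht, xm, ht, show t < 2 * n + 3 + m by omega]; ring
  have b2 : ∀ t ≤ n, aft (AA O m n) (cfg (xl O m n)) z (n + 2 + t) =
      hh O n t * (1 + z t - 2 * z (n + 2 + t)) := by
    intro t ht
    rw [AA, a2 _ (by omega), deg2 ht, cfg_xl]
    simp [am2 ht, xm, show t < 2 * n + 3 + m by omega, show ¬ n + 2 + t ≤ n + 1 by omega,
      show n + 2 + t < 2 * n + 3 by omega]; ring
  have b3 : ∀ t ≤ n, z (t + 1) = z t / 2 := by
    intro t ht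
    have := hs (t + 1) (by omega) (by omega)
    rw [b1 t ht, deg1 ht] at this
    have := two_cases (by exact_mod_cast hh_pos ht) this.1 (by exact_mod_cast this.2)
    omega
  have b4 : ∀ t ≤ n + 1, z t = z 0 / 2 ^ t := by
    intro t ht
    induction t with
    | zero => simp
    | succ t ih => rw [b3 t (by omega), ih (by omega), Nat.div_div_eq_div_mul, pow_succ]
  have c1 : ∀ t ≤ n, aft (AA O m n) (cfg (xl O m n)) z (t + 1) = hh O n t * (z 0 / 2 ^ t % 2 : ℕ) ∧
      aft (AA O m n) (cfg (xl O m n)) z (n + 2 + t) = hh O n t * (1 - (z 0 / 2 ^ t % 2 : ℕ)) := by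
    intro t ht
    have := hs (n + 2 + t) (by omega) (by omega)
    rw [b2 t ht, deg2 ht] at this
    have := two_cases (by exact_mod_cast hh_pos ht) this.1 (by exact_mod_cast this.2)
    rw [b1 t ht, b2 t ht, ← b4 t (by omega), b3 t ht]
    constructor <;> congr 1 <;> omega
  have c3 : ∀ v, 2 * n + 3 + m ≤ v → aft (AA O m n) (cfg (xl O m n)) z v = 0 := by
    intro v h
    by_cases h' : v < 2 * n + 3 + m + KK O n * (2 * n + 3 + m)
    · exact a1 v h h'
    · simp [aft, hx v h, deg, AA, arc_matN, h']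
  refine ⟨c1, fun j hj => ?_, c3, ?_⟩
  · have h1 := hs (2 * n + 3 + j) (by omega) (by omega)
    have h2 : cnt O (z 0) j ≤ O.length := by
      refine (sum_le_card_nsmul _ _ 1 fun s _ => ?_).trans (by simp)
      split_ifs <;> omega
    have h3 : (O.length + 2 : ℤ) ∣ aft (AA O m n) (cfg (xl O m n)) z (2 * n + 3 + j) +
        cnt O (z 0) j := by
      have e1 : ∑ i ∈ range (2 * n + 3 + m), (am O m n i (2 * n + 3 + j) : ℤ) * z i =
          ∑ s ∈ range O.length, ∑ i ∈ range (n + 2),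
            ((if cl O s = j then gg O i s else 0 : ℕ) : ℤ) * z i := by
        rw [show 2 * n + 3 + m = (n + 2) + (n + 1 + m) by ring, sum_range_add, sum_comm,
          sum_eq_zero (s := range (n + 1 + m)) fun i _ => by
            simp [am3, show ¬ n + 2 + i ≤ n + 1 by omega], add_zero]
        refine sum_congr rfl fun i hi => ?_
        rw [am3, if_pos (by simp at hi; omega), cf, lsum_eq, Nat.cast_sum, sum_mul]
      have e2 : (O.length + 2 : ℤ) ∣ ∑ s ∈ range O.length,
          (((if cl O s = j then (if sg O s = 1 then 0 else O.length + 1) else 0 : ℕ) : ℤ) +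
          ∑ i ∈ range (n + 2), ((if cl O s = j then gg O i s else 0 : ℕ) : ℤ) * z i +
          ((if cl O s = j then (if sg O s = z 0 / 2 ^ vr O s % 2 then 1 else 0) else 0 : ℕ) : ℤ)) := by
        refine dvd_sum fun s hs => ?_
        have h4 := hv s (by simpa using hs)
        by_cases e : cl O s = j
        · simp only [e, if_true]
          rw [sum_eq_add (vr O s) (vr O s + 1) (by omega) (fun c _ h => by
            simp [gg, h.1.symm, h.2.symm]) (by simp; omega) (by simp; omega),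
            ← b4 _ (by omega), b3 _ h4.le]
          have h5 := sg_le O s
          obtain ⟨w, hw⟩ : ∃ w, w = z (vr O s) / 2 := ⟨_, rfl⟩
          rcases (by omega : z (vr O s) = 2 * w ∨ z (vr O s) = 2 * w + 1) with e | e <;>
            rcases (by omega : sg O s = 0 ∨ sg O s = 1) with e' | e' <;>
            simp [gg, ← hw, e', show z (vr O s) % 2 = z (vr O s) - 2 * w by omega] <;> simp [e]
          · exact ⟨1 + w, by ring⟩
          · exact ⟨2 * w, by ring⟩
          · exact ⟨1 + w, by ring⟩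
          · exact ⟨2 * w + 1, by ring⟩
        · simp [e]
      rw [AA, a2 _ (by omega), deg3, cfg_xl, e1, cnt]
      simp only [sum_add_distrib, ← Nat.cast_sum] at e2
      simp only [xm, show 2 * n + 3 + j ≠ 0 by omega, show ¬ 2 * n + 3 + j ≤ n + 1 by omega,
        show ¬ 2 * n + 3 + j < 2 * n + 3 by omega, show 2 * n + 3 + j < 2 * n + 3 + m by omega,
        if_true, if_false, Nat.add_sub_cancel_left, xq, lsum_eq]
      generalize (∑ s ∈ range O.length, if cl O s = j then
        (if sg O s = 1 then 0 else O.length + 1) else 0) = P at *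
      have e3 : ((P % (O.length + 2) : ℕ) : ℤ) = P - (O.length + 2) * (P / (O.length + 2) : ℕ) := by
        have := Nat.mod_add_div P (O.length + 2)
        zify at this ⊢; omega
      rw [e3]
      obtain ⟨w, hw⟩ := e2
      exact ⟨w - (P / (O.length + 2) : ℕ) - z (2 * n + 3 + j), by push_cast at hw ⊢; linarith⟩
    rw [deg3] at h1
    obtain ⟨w, hw⟩ := h3
    have := two_cases (h := O.length + 2) (w := w) (by omega) (by omega) (by push_cast at h1; omega)
    push_cast at h1
    rcases this with rfl | rfl <;> split_ifs <;> omega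
  · have := sum_aft (A := AA O m n) (x := cfg (xl O m n)) z
    rw [AA, matN_length, sum_range_add, sum_range_add _ (2 * n + 3 + m), ← AA,
      sum_eq_zero (s := range (KK O n * _)) fun i _ => c3 _ (by omega),
      sum_eq_zero (s := range (KK O n * _)) fun i _ => hx _ (by omega), splitN, splitN,
      add_assoc (aft _ _ _ 0), ← sum_add_distrib, add_assoc (cfg _ 0), ← sum_add_distrib,
      sum_congr rfl (g := fun t => (hh O n t : ℤ)) fun t ht => by
        obtain ⟨a, b⟩ := c1 t (by simpa [Nat.lt_succ_iff] using ht); rw [a, b]; ring,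
      sum_congr (f := fun t => cfg _ (t + 1) + _) rfl (g := fun t => (hh O n t : ℤ)) fun t ht => by
        simp only [mem_range] at ht
        simp [cfg_xl, xm, show t ≤ n by omega, show ¬ n + 2 + t ≤ n + 1 by omega,
          show n + 2 + t < 2 * n + 3 by omega],
      sum_congr (f := fun j => cfg _ (2 * n + 3 + j)) rfl (g := fun j => (xq O j : ℤ)) fun j hj => by
        simp only [mem_range] at hj
        simp [cfg_xl, xm, show ¬ 2 * n + 3 + j ≤ n + 1 by omega, hj]] at this
    simp only [cfg_xl] at this ⊢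
    omega

lemma active (hv : ∀ s < O.length, vr O s < n) {z : ℕ → ℕ}
    (h : Settled (AA O m n) (cfg (xl O m n)) z) :
    aft (AA O m n) (cfg (xl O m n)) z 0 < deg (AA O m n) 0 ↔ ∀ j < m, cnt O (z 0) j ≠ 0 := by
  obtain ⟨-, h2, -, h4⟩ := struct hv h
  have hd : deg (AA O m n) 0 = ∑ p ∈ range (2 * n + 3 + m), am O m n 0 p :=
    deg_sub1 (by omega) (am_le 0 (by omega))
  have h5 : O.length + 1 ≤ ∑ p ∈ range (2 * n + 3 + m), am O m n 0 p := by
    rw [sum_am]
    have : EE O ≤ hh O n 0 := Nat.le_mul_of_pos_left _ (by omega)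
    have : O.length ≤ O.length * (O.length + 2) := Nat.le_mul_of_pos_right _ (by omega)
    simp only [EE] at *
    simp; omega
  have h6 : ∑ j ∈ range m, xq O j ≤ m * (O.length + 2) :=
    (sum_le_card_nsmul _ _ (O.length + 2) fun j _ => (Nat.mod_lt _ (by omega)).le).trans (by simp)
  have h7 : ∑ j ∈ range m, cnt O (z 0) j ≤ O.length := by
    simpa [cnt] using sum_cl (O := O) (m := m)
      (fun s => if sg O s = z 0 / 2 ^ vr O s % 2 then 1 else 0) 1 fun s => by split_ifs <;> omega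
  rw [sum_congr rfl fun j hj => h2 j (by simpa using hj), ← Nat.cast_sum] at h4
  simp only [xm, if_true, lsum_eq] at h4
  rw [hd]
  constructor
  · intro h j hj e
    have : ∑ j ∈ range m, (if cnt O (z 0) j = 0 then 0 else (O.length + 2 : ℤ) - cnt O (z 0) j) +
        (O.length + 2) ≤ ∑ j ∈ range m, (O.length + 2 : ℤ) := by
      rw [← add_sum_erase _ _ (mem_range.2 hj), ← add_sum_erase _ _ (mem_range.2 hj), if_pos e]
      have := sum_le_sum (s := (range m).erase j) (f := fun j => if cnt O (z 0) j = 0 then 0 else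
        (O.length + 2 : ℤ) - cnt O (z 0) j) (g := fun _ => (O.length + 2 : ℤ)) fun i _ => by
          split_ifs <;> omega
      omega
    simp only [sum_const, card_range, nsmul_eq_mul] at this
    have e : ((m * (O.length + 2) : ℕ) : ℤ) = m * (O.length + 2) := by push_cast; rfl
    omega
  · intro h
    rw [sum_congr rfl fun j hj => if_neg (h j (by simpa using hj)), sum_sub_distrib,
      ← Nat.cast_sum] at h4
    simp only [sum_const, card_range, nsmul_eq_mul] at h4
    have e : ((m * (O.length + 2) : ℕ) : ℤ) = m * (O.length + 2) := by push_cast; rfl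
    omega

lemma cnt_ne {c j : ℕ} : cnt O c j ≠ 0 ↔
    ∃ s < O.length, cl O s = j ∧ sg O s = c / 2 ^ vr O s % 2 := by
  simp only [cnt, ne_eq, sum_eq_zero_iff, mem_range, ite_eq_right_iff, one_ne_zero, not_forall]
  constructor
  · rintro ⟨s, a, b, c, -⟩; exact ⟨s, a, b, c⟩
  · rintro ⟨s, a, b, c⟩; exact ⟨s, a, b, c, id⟩

lemma exists_bits (τ : ℕ → ℕ) (hτ : ∀ v, τ v ≤ 1) (n : ℕ) :
    ∃ c < 2 ^ n, ∀ v < n, c / 2 ^ v % 2 = τ v := by
  induction n generalizing τ with
  | zero => exact ⟨0, by simp, by simp⟩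
  | succ n ih =>
    obtain ⟨c, h1, h2⟩ := ih (fun v => τ (v + 1)) fun v => hτ _
    have := hτ 0
    refine ⟨2 * c + τ 0, by rw [pow_succ]; omega, fun v hv => ?_⟩
    cases v with
    | zero => simp; omega
    | succ v =>
      rw [pow_succ', ← Nat.div_div_eq_div_mul, show (2 * c + τ 0) / 2 = c by omega]
      exact h2 v (by omega)

lemma sat_iff (φ : CNF) : (Sat φ → ∃ c < 2 ^ size φ, ∀ j < φ.length, cnt (occ φ) c j ≠ 0) ∧
    ∀ c, (∀ j < φ.length, cnt (occ φ) c j ≠ 0) → Sat φ := by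
  constructor
  · intro h
    obtain ⟨τ, σ, h1, h2⟩ := h.choice
    obtain ⟨c, a, b⟩ := exists_bits τ h1 (size φ)
    refine ⟨c, a, fun j hj => cnt_ne.2 ?_⟩
    obtain ⟨c1, c2, c3⟩ := h2 j hj
    exact ⟨_, c1, c2, by rw [b _ (vr_lt c1), c3]⟩
  · intro c h
    refine sat_of_set (fun s => sg (occ φ) s = c / 2 ^ vr (occ φ) s % 2) (fun j hj => ?_)
      fun s _ t _ a b e => by rw [a, b, e]
    obtain ⟨s, a, b, d⟩ := cnt_ne.1 (h j hj)
    exact ⟨s, a, d, b⟩

lemma cfg_nonneg (l : List ℕ) (v : ℕ) : 0 ≤ cfg l v := by simp [cfg]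

lemma exists_settled (c : ℕ) : ∃ z, z 0 = c ∧ Settled (AA O m n) (cfg (xl O m n)) z := by
  obtain ⟨z, -, h1, h2⟩ := AA_settle (O := O) (m := m) (n := n) (x := cfg (xl O m n))
    (fun v => if v = 0 then c else 0) fun v e => by
      have := cfg_nonneg (xl O m n) v
      simp only [aft, e, if_false, Nat.cast_zero, mul_zero, sub_zero]; positivity
  exact ⟨z, by simpa using h1, h2⟩

lemma stable_of_cnt (hv : ∀ s < O.length, vr O s < n) {c : ℕ} (h : ∀ j < m, cnt O c j ≠ 0) :
    ∃ z, z 0 = c ∧ ∀ v < (AA O m n).length, aft (AA O m n) (cfg (xl O m n)) z v < deg (AA O m n) v := by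
  obtain ⟨z, rfl, h2⟩ := exists_settled (O := O) (m := m) (n := n) c
  refine ⟨z, rfl, fun v hv' => ?_⟩
  by_cases e : v = 0
  · exact e ▸ (active hv h2).2 h
  · exact (h2 v hv' e).2

theorem halt_iff (φ : CNF) : Sat φ ↔ Terminating (AA (occ φ) φ.length (size φ))
    (cfg (xl (occ φ) φ.length (size φ))) := by
  constructor
  · intro h
    obtain ⟨c, -, h⟩ := (sat_iff φ).1 h
    obtain ⟨z, -, h⟩ := stable_of_cnt (fun s => vr_lt) h
    exact term_of_stable h
  · intro h
    obtain ⟨z, h1, h2⟩ := stable_of_term h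
    exact (sat_iff φ).2 _ ((active (fun s => vr_lt) fun v hv _ =>
      ⟨h1.nonneg (cfg_nonneg _) v, h2 v hv⟩).1 (h2 0 (by simp [AA])))

lemma bit_pow {t : ℕ} (ht : t ≤ n) : 2 ^ n / 2 ^ t % 2 = if t = n then 1 else 0 := by
  rw [Nat.pow_div ht (by omega)]
  split_ifs with h
  · simp [h]
  · rw [show n - t = (n - t - 1) + 1 by omega, pow_succ]; simp

lemma aft_eq_y (hv : ∀ s < O.length, vr O s < n) {z : ℕ → ℕ}
    (h : Settled (AA O m n) (cfg (xl O m n)) z) (hz : z 0 = 2 ^ n) :
    aft (AA O m n) (cfg (xl O m n)) z = cfg (yl O m n) := by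
  have h0 : Settled (AA O m n) (cfg (xl O m n)) fun _ => 0 := by
    intro v hv' e
    rw [aft_zero]
    refine ⟨cfg_nonneg _ _, ?_⟩
    rw [AA, matN_length] at hv'
    by_cases h : v < 2 * n + 3 + m
    · rw [AA, deg_sub1 h (am_le v h), cfg_xl]
      rcases (by omega : v ≤ n + 1 ∨ (n + 2 ≤ v ∧ v < 2 * n + 3) ∨ 2 * n + 3 ≤ v) with h | h | h
      · obtain ⟨t, rfl⟩ : ∃ t, v = t + 1 := ⟨v - 1, by omega⟩
        have := hh_pos (O := O) (show t ≤ n by omega); rw [deg1 (by omega)]; simp [xm, h, this]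
      · obtain ⟨t, rfl⟩ : ∃ t, v = n + 2 + t := ⟨v - (n + 2), by omega⟩
        have := hh_pos (O := O) (show t ≤ n by omega); rw [deg2 (by omega)]
        simp [xm, h.2, show ¬ n + 2 + t ≤ n + 1 by omega]; omega
      · obtain ⟨t, rfl⟩ : ∃ t, v = 2 * n + 3 + t := ⟨v - (2 * n + 3), by omega⟩
        have : xq O t < O.length + 2 := Nat.mod_lt _ (by omega)
        rw [deg3]; simp [xm, show ¬ 2 * n + 3 + t ≤ n + 1 by omega, show t < m by omega]; omega
    · obtain ⟨j, hj, l, hl, rfl⟩ := dec_sub (not_lt.1 h) hv'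
      rw [AA, deg_sub2 hj hl]
      simp only [cfg_xl, xm]; split_ifs <;> first | omega | simp
  obtain ⟨a1, a2, a3, a4⟩ := struct hv h
  obtain ⟨-, b2, -, b4⟩ := struct hv h0
  have c : ∀ j, cnt O (z 0) j = cnt O 0 j := fun j => sum_congr rfl fun s hs => by
    have := hv s (by simpa using hs)
    rw [hz, bit_pow this.le, if_neg (show vr O s ≠ n by omega)]; simp
  have d : ∀ j < m, aft (AA O m n) (cfg (xl O m n)) z (2 * n + 3 + j) =
      cfg (xl O m n) (2 * n + 3 + j) := fun j hj => by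
    rw [a2 j hj, c, ← b2 j hj, aft_zero]
  rw [sum_congr rfl fun j hj => d j (by simpa using hj)] at a4
  rw [aft_zero] at b4
  ext v
  rcases (by omega : v = 0 ∨ (1 ≤ v ∧ v ≤ n + 1) ∨ (n + 2 ≤ v ∧ v < 2 * n + 3) ∨
    (2 * n + 3 ≤ v ∧ v < 2 * n + 3 + m) ∨ 2 * n + 3 + m ≤ v) with h | h | h | h | h
  · have : cfg (yl O m n) 0 = cfg (xl O m n) 0 := by simp [cfg_xl, cfg_yl, ym]
    subst h; omega
  · obtain ⟨t, rfl⟩ : ∃ t, v = t + 1 := ⟨v - 1, by omega⟩
    rw [(a1 t (by omega)).1, hz, bit_pow (by omega)]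
    simp only [cfg_yl, ym, xm]; split_ifs <;> first | omega | simp_all
  · obtain ⟨t, rfl⟩ : ∃ t, v = n + 2 + t := ⟨v - (n + 2), by omega⟩
    rw [(a1 t (by omega)).2, hz, bit_pow (by omega)]
    simp only [cfg_yl, ym, xm]; split_ifs <;> first | omega | simp_all
  · obtain ⟨t, rfl⟩ : ∃ t, v = 2 * n + 3 + t := ⟨v - (2 * n + 3), by omega⟩
    rw [d t (by omega)]
    simp only [cfg_yl, cfg_xl, ym]; split_ifs <;> first | omega | rfl
  · rw [a3 v h]
    simp only [cfg_yl, ym, xm]; split_ifs <;> first | omega | simp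

theorem reach_iff_unsat (φ : CNF) : Sat φ ↔ ¬ Reach (AA (occ φ) φ.length (size φ))
    (cfg (xl (occ φ) φ.length (size φ))) (cfg (yl (occ φ) φ.length (size φ))) := by
  have hv : ∀ s < (occ φ).length, vr (occ φ) s < size φ := fun s => vr_lt
  constructor
  · intro h hr
    obtain ⟨c, hc, h⟩ := (sat_iff φ).1 h
    obtain ⟨z, rfl, hz⟩ := stable_of_cnt hv h
    obtain ⟨y, h1, h2⟩ := reach_iff.1 hr
    obtain ⟨w, h3, h4⟩ := exists_settled (O := occ φ) (m := φ.length) (n := size φ) (2 ^ size φ)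
    have h5 : Settled _ _ y := fun v a b => by rw [← h2, ← aft_eq_y hv h4 h3]; exact h4 v a b
    have h6 := ((struct hv h5).1 _ le_rfl).1
    have h7 := h1.le hz 0
    have h8 := hh_pos (O := occ φ) (le_refl (size φ))
    rw [← h2, Nat.div_eq_of_lt (by omega)] at h6
    simp [cfg_yl, ym] at h6; omega
  · intro h
    by_contra hs
    have : ∀ c, ∃ z, Game (AA (occ φ) φ.length (size φ)) (cfg (xl (occ φ) φ.length (size φ))) z ∧
        z 0 = c ∧ Settled (AA (occ φ) φ.length (size φ)) (cfg (xl (occ φ) φ.length (size φ))) z := by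
      intro c
      induction c with
      | zero =>
        obtain ⟨z, a, b, d⟩ := AA_settle _ fun v _ => Game.nil.nonneg (cfg_nonneg _) v
        exact ⟨z, a .nil, b, d⟩
      | succ c ih =>
        obtain ⟨z, a, b, d⟩ := ih
        have e := a.fire (v := 0) (by simp [AA]) (by
          have := mt (fun h => (sat_iff φ).2 _ ((active hv d).1 h)) hs; omega)
        obtain ⟨z', a', b', d'⟩ := AA_settle _ fun v _ => e.nonneg (cfg_nonneg _) v
        exact ⟨z', a' e, by simp [b', inc, b], d'⟩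
    obtain ⟨z, a, b, d⟩ := this (2 ^ size φ)
    exact h (reach_iff.2 ⟨z, a, (aft_eq_y hv d b).symm⟩)

lemma AA_graph : IsMulti (AA O m n) ∧ IsSimple (AA O m n) := sub_graph

lemma xl_length : (xl O m n).length = (AA O m n).length := by simp [xl, AA, NN]

lemma yl_length : (yl O m n).length = (AA O m n).length := by simp [yl, AA, NN]

end Pool.Agent.Chip
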