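import Mathlib

/-! Graph classes defined by cliques and stable sets. -/

namespace Pool.Agent.Cis

variable {V : Type}

/-- every maximal clique meets every maximal stable set -/
def CIS (G : SimpleGraph V) : Prop :=
  ∀ C S : Set V, Maximal G.IsClique C → Maximal G.IsIndepSet S → (C ∩ S).Nonempty

/-- every edge lies in a clique that meets every maximal stable set -/
def EdgeStrong (G : SimpleGraph V) : Prop :=
  ∀ u v, G.Adj u v → ∃ C : Set V, G.IsClique C ∧ u ∈ C ∧ v ∈ C ∧
    ∀ S : Set V, Maximal G.IsIndepSet S → (C ∩ S).Nonempty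

/-- the triangle condition -/
def Triangle (G : SimpleGraph V) : Prop :=
  ∀ S : Set V, Maximal G.IsIndepSet S → ∀ u v, G.Adj u v → u ∉ S → v ∉ S →
    ∃ s ∈ S, G.Adj u s ∧ G.Adj v s

/-- the maximal stable sets are exactly the vertex sets of weight `t` -/
def Equistable (G : SimpleGraph V) : Prop :=
  ∃ t : ℕ, 0 < t ∧ ∃ w : V → ℕ, ∀ S : Finset V, Maximal G.IsIndepSet (S : Set V) ↔ ∑ v ∈ S, w v = t

end Pool.Agent.Cis
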