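import Pool.Agent.Lib.helper10.CisRed

/-! Certificates: vertex sets as bit lists, maximal cliques and maximal stable sets. -/

namespace Pool.Agent.Cis

open Pool.Agent.Cx

def vset (n : ℕ) (w : List Bool) : Set (Fin n) := {v | w.getD v false = true}

lemma exists_vset {n : ℕ} (S : Set (Fin n)) : ∃ w : List Bool, size w ≤ 4 * n + 1 ∧ vset n w = S := by
  classical
  refine ⟨List.ofFn fun v => decide (v ∈ S), ?_, ?_⟩
  · have := size_list_le (List.ofFn fun v => decide (v ∈ S)) 3 fun a _ => size_bool a
    simpa [mul_comm] using this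
  · ext v; simp [vset]

def isG (M : List (List Bool)) : Prop :=
  (¬ ∃ r ∈ M, r.length ≠ M.length) ∧
    ¬ ∃ i < M.length, ent M i i = true ∨ ∃ j < M.length, ent M i j = true ∧ ¬ ent M j i = true

lemma isG_iff (M : List (List Bool)) : isG M ↔ IsGraph M := by
  unfold isG IsGraph Entry ent
  push Not
  refine and_congr_right fun h => ⟨fun g => ?_, fun g i _ => ⟨g.1 i, fun j _ => g.2 i j⟩⟩
  have : ∀ i j, (M.getD i []).getD j false = true → i < M.length ∧ j < M.length := fun i j e => by
    by_cases hi : i < M.length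
    · refine ⟨hi, ?_⟩
      by_contra hj
      rw [List.getD_eq_default _ _ (by
        rw [List.getD_eq_getElem _ _ hi, h _ (List.getElem_mem hi)]; omega)] at e
      simp at e
    · rw [List.getD_eq_default M _ (by omega)] at e
      simp at e
  exact ⟨fun i e => (g i (this _ _ e).1).1 e, fun i j e => (g i (this _ _ e).1).2 j (this _ _ e).2 e⟩

lemma pp_isGraph : PP IsGraph := by
  rw [← funext fun M => propext (isG_iff M)]
  unfold isG; fun_prop

lemma adj_iff {M : List (List Bool)} (h : IsGraph M) (a b : Fin M.length) :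
    (graphOf M).Adj a b ↔ ent M a b = true := by
  simp only [graphOf, SimpleGraph.fromRel_adj]
  exact ⟨fun e => e.2.elim id (h.2.2 _ _), fun e => ⟨fun c => h.2.1 a (c ▸ e), Or.inl e⟩⟩

def mI (M : List (List Bool)) (w : List Bool) : Prop :=
  (¬ ∃ i < M.length, ∃ j < M.length, w.getD i false = true ∧ w.getD j false = true ∧ ent M i j = true) ∧
    ¬ ∃ i < M.length, ¬ w.getD i false = true ∧
      ¬ ∃ j < M.length, w.getD j false = true ∧ ent M i j = true

def mC (M : List (List Bool)) (w : List Bool) : Prop :=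
  (¬ ∃ i < M.length, ∃ j < M.length, w.getD i false = true ∧ w.getD j false = true ∧ i ≠ j ∧
    ¬ ent M i j = true) ∧ ¬ ∃ i < M.length, ¬ w.getD i false = true ∧
      ¬ ∃ j < M.length, w.getD j false = true ∧ ¬ ent M i j = true

@[fun_prop] lemma pp_mI {α : Type} [Enc α] {M : α → List (List Bool)} {w : α → List Bool} (hM : PT M)
    (hw : PT w) : PP fun a => mI (M a) (w a) := by unfold mI; fun_prop

@[fun_prop] lemma pp_mC {α : Type} [Enc α] {M : α → List (List Bool)} {w : α → List Bool} (hM : PT M)
    (hw : PT w) : PP fun a => mC (M a) (w a) := by unfold mC; fun_prop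

lemma mI_iff {M : List (List Bool)} (h : IsGraph M) (w : List Bool) :
    Maximal (graphOf M).IsIndepSet (vset _ w) ↔ mI M w := by
  simp only [maxI_iff, adj_iff h, vset, Set.mem_ofPred_eq, Fin.forall_iff, Fin.exists_iff, mI,
    exists_prop]
  push Not
  exact and_congr ⟨fun g i hi j hj a => g i hi a j hj, fun g i hi a j hj => g i hi j hj a⟩ Iff.rfl

lemma mC_iff {M : List (List Bool)} (h : IsGraph M) (w : List Bool) :
    Maximal (graphOf M).IsClique (vset _ w) ↔ mC M w := by
  simp only [maxC_iff, adj_iff h, vset, Set.mem_ofPred_eq, Fin.forall_iff, Fin.exists_iff, mC,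
    exists_prop, ne_eq, Fin.ext_iff]
  push Not
  exact and_congr ⟨fun g i hi j hj a => g i hi a j hj, fun g i hi a j hj => g i hi j hj a⟩ Iff.rfl

end Pool.Agent.Cis
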