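import Pool.Agent.Lib.helper10.NPOcc

/-! CLIQUE as a starting point for reductions. -/

namespace Pool.Agent.Cx

/-- entry of a 0-1 matrix -/
def ent (M : List (List Bool)) (i j : ℕ) : Bool := (M.getD i []).getD j false

@[fun_prop] lemma PT.ent {α : Type} [Enc α] {M : α → List (List Bool)} {i j : α → ℕ} (hM : PT M)
    (hi : PT i) (hj : PT j) : PT (fun a => ent (M a) (i a) (j a)) := by
  unfold Cx.ent; fun_prop

/-- a clique of size `k` -/
def HasClq (M : List (List Bool)) (k : ℕ) : Prop :=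
  ∃ S : Finset ℕ, (∀ u ∈ S, u < M.length) ∧ S.card = k ∧
    ∀ u ∈ S, ∀ v ∈ S, u ≠ v → ent M u v = true

def compat (O : Occ) (s t : ℕ) : Prop :=
  s < O.length ∧ t < O.length ∧ cl O s ≠ cl O t ∧ (vr O s ≠ vr O t ∨ sg O s = sg O t)

instance (O : Occ) (s t : ℕ) : Decidable (compat O s t) := by unfold compat; infer_instance

def clqB (O : Occ) (m : ℕ) : List (List Bool) × ℕ :=
  (mat (List.range (O.length + m)) fun s t => decide (compat O s t), m)

def pad2 (φ : CNF) : CNF := [(0, true), (0, false)] :: [(0, true), (0, false)] :: φ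

lemma sat_pad2 (φ : CNF) : Sat φ ↔ Sat (pad2 φ) := by
  constructor
  · rintro ⟨τ, h⟩
    refine ⟨τ, fun c hc => ?_⟩
    simp only [pad2, List.mem_cons] at hc
    rcases hc with rfl | rfl | hc
    · cases h : τ 0 <;> simp [h]
    · cases h : τ 0 <;> simp [h]
    · exact h c hc
  · rintro ⟨τ, h⟩
    exact ⟨τ, fun c hc => h c (by simp [pad2, hc])⟩

lemma ent_clqB (O : Occ) (m s t : ℕ) : ent (clqB O m).1 s t = true ↔ compat O s t := by
  rw [ent, clqB, mat_get]
  simp only [List.length_range, List.getElem_range, decide_eq_true_eq, exists_and_left, exists_prop]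
  constructor
  · tauto
  · intro h
    have h1 : s < O.length + m := by have := h.1; omega
    have h2 : t < O.length + m := by have := h.2.1; omega
    tauto

lemma sat_iff_clq (φ : CNF) (hm : 2 ≤ φ.length) :
    Sat φ ↔ HasClq (clqB (occ φ) φ.length).1 φ.length := by
  constructor
  · intro h
    obtain ⟨τ, σ, -, h⟩ := h.choice
    refine ⟨(Finset.range φ.length).image σ, fun u hu => ?_, ?_, fun u hu v hv e => ?_⟩
    · obtain ⟨j, hj, rfl⟩ := Finset.mem_image.1 hu
      have := (h j (by simpa using hj)).1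
      simp [clqB]; omega
    · rw [Finset.card_image_of_injOn, Finset.card_range]
      intro a ha b hb e
      rw [← (h a (by simpa using ha)).2.1, e, (h b (by simpa using hb)).2.1]
    · obtain ⟨j, hj, rfl⟩ := Finset.mem_image.1 hu
      obtain ⟨j', hj', rfl⟩ := Finset.mem_image.1 hv
      obtain ⟨a1, a2, a3⟩ := h j (by simpa using hj)
      obtain ⟨b1, b2, b3⟩ := h j' (by simpa using hj')
      refine (ent_clqB _ _ _ _).2 ⟨a1, b1, by rw [a2, b2]; rintro rfl; exact e rfl, ?_⟩
      by_cases h : vr (occ φ) (σ j) = vr (occ φ) (σ j')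
      · exact Or.inr (by rw [a3, b3, h])
      · exact Or.inl h
  · rintro ⟨S, -, h2, h3⟩
    simp only [ent_clqB] at h3
    have h4 : ∀ s ∈ S, s < (occ φ).length := by
      intro s hs
      obtain ⟨t, ht, e⟩ := Finset.exists_mem_ne (s := S) (by omega) s
      exact (h3 t ht s hs e).2.1
    refine sat_of_set (· ∈ S) (fun j hj => ?_) fun s _ t _ hs ht e => ?_
    · have := Finset.surjOn_of_injOn_of_card_le (s := S) (t := Finset.range φ.length) (cl (occ φ))
        (fun s hs => by simpa using cl_lt (h4 s hs))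
        (fun s hs t ht e => by by_contra h; exact (h3 s hs t ht h).2.2.1 e) (by simp [h2])
      obtain ⟨s, hs, e⟩ := this (by simpa using hj : j ∈ _)
      exact ⟨s, h4 s hs, hs, e⟩
    · by_cases h : s = t
      · rw [h]
      · exact (h3 s hs t ht h).2.2.2.resolve_left (by simp [e])

/-- reduce from CLIQUE: the matrix is a graph, `2 ≤ k ≤ n` -/
theorem Hard.of_clique {β : Type} [Enc β] {Q : β → Prop} {r : List (List Bool) × ℕ → β} (hr : PT r)
    (e : ∀ M k, IsGraph M → 2 ≤ k → k ≤ M.length → (HasClq M k ↔ Q (r (M, k)))) : Hard Q := by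
  have h1 : PT (fun p : Occ × ℕ => clqB p.1 p.2) := by
    have : PT (fun p : (Occ × ℕ) × ℕ × ℕ => decide (compat p.1.1 p.2.1 p.2.2)) :=
      PP.decide (by unfold compat; fun_prop)
    exact (PT.mat (by fun_prop) this).pair (by fun_prop)
  have h2 : PT (fun φ : CNF => clqB (occ (pad2 φ)) (pad2 φ).length) :=
    PT.comp (f := fun φ : CNF => (occ (pad2 φ), (pad2 φ).length)) h1 (by unfold pad2; fun_prop)
  refine hard_sat.red (hr.comp h2) fun φ => (sat_pad2 φ).trans
    ((sat_iff_clq _ (by simp [pad2])).trans (e _ _ ⟨mat_row _ _, fun i h => ?_, fun i j h => ?_⟩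
      (by simp [pad2]) (by simp [clqB])))
  · exact ((ent_clqB _ _ _ _).1 h).2.2.1 rfl
  · obtain ⟨a, b, c, d⟩ := (ent_clqB _ _ _ _).1 h
    exact (ent_clqB _ _ _ _).2 ⟨b, a, c.symm, d.imp Ne.symm Eq.symm⟩

end Pool.Agent.Cx
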