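import Pool.Agent.Lib.helper10.NPOcc

/-! Satisfiability with clauses given as rows of a matrix: entry 0 absent, 1 positive, else negative. -/

namespace Pool.Agent.Cx

def MatSat (n : ℕ) (K : List (List ℕ)) : Prop :=
  ∃ y : ℕ → Bool, ∀ κ ∈ K, ∃ s < n, κ.getD s 0 ≠ 0 ∧ (κ.getD s 0 = 1 ↔ y s = true)

def matK (O : Occ) (m : ℕ) : List (List ℕ) :=
  ((List.range m).map fun j => (List.range O.length).map fun s => if cl O s = j then 1 else 0) ++
  ((List.range O.length ×ˢ List.range O.length).filter fun p =>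
      decide (vr O p.1 = vr O p.2 ∧ sg O p.1 ≠ sg O p.2)).map fun p =>
    (List.range O.length).map fun r => if r = p.1 ∨ r = p.2 then 2 else 0

lemma getD_range_map (n s : ℕ) (f : ℕ → ℕ) :
    ((List.range n).map f).getD s 0 = if s < n then f s else 0 := by
  split_ifs with h
  · simp [h]
  · rw [List.getD_eq_default _ _ (by simpa using h)]

lemma sat_iff_matSat (φ : CNF) : Sat φ ↔ MatSat ((occ φ).length + 1) (matK (occ φ) φ.length) := by
  constructor
  · intro h
    obtain ⟨τ, σ, -, h⟩ := h.choice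
    refine ⟨fun s => decide (sg (occ φ) s = τ (vr (occ φ) s)), fun κ hκ => ?_⟩
    simp only [matK, List.mem_append, List.mem_map, List.mem_range, List.mem_filter, Prod.exists,
      List.mem_product, decide_eq_true_eq] at hκ
    rcases hκ with ⟨j, hj, rfl⟩ | ⟨s, t, ⟨⟨hs, ht⟩, h1, h2⟩, rfl⟩
    · obtain ⟨a1, a2, a3⟩ := h j hj
      exact ⟨σ j, by omega, by simp [getD_range_map, a1, a2, a3]⟩
    · by_cases e : sg (occ φ) s = τ (vr (occ φ) s)
      · exact ⟨t, by omega, by
          simp only [getD_range_map, ht, or_true, if_true, decide_eq_true_eq, ← h1]; omega⟩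
      · exact ⟨s, by omega, by simp [getD_range_map, hs, e]⟩
  · rintro ⟨y, h⟩
    refine sat_of_set (fun s => y s = true) (fun j hj => ?_) fun s hs t ht a1 a2 e => ?_
    · obtain ⟨s, -, h1, h2⟩ := h _ (List.mem_append_left _ (List.mem_map_of_mem (List.mem_range.2 hj)))
      rw [getD_range_map] at h1 h2
      split_ifs at h1 h2 with b1 b2 <;> try omega
      exact ⟨s, b1, h2.1 rfl, b2⟩
    · by_contra hc
      obtain ⟨r, -, h1, h2⟩ := h _ (List.mem_append_right _ (List.mem_map_of_mem (a := (s, t))
        (by simp [hs, ht, e, hc])))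
      rw [getD_range_map] at h1 h2
      split_ifs at h1 h2 with b1 b2 <;> try omega
      rcases b2 with rfl | rfl <;> simp_all

theorem Hard.of_matSat {β : Type} [Enc β] {Q : β → Prop} {r : ℕ × List (List ℕ) → β} (hr : PT r)
    (e : ∀ n K, 0 < n → (MatSat n K ↔ Q (r (n, K)))) : Hard Q := by
  refine hard_sat.red (r := fun φ => r ((occ φ).length + 1, matK (occ φ) φ.length)) (hr.comp ?_)
    fun φ => (sat_iff_matSat φ).trans (e _ _ (by omega))
  unfold matK
  refine PT.pair (by fun_prop) (PT.append (PT.map (PT.map (PP.ite (by fun_prop) (by fun_prop)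
    (by fun_prop)) (by fun_prop)) (by fun_prop)) (PT.map (PT.map (PP.ite (by fun_prop) (by fun_prop)
    (by fun_prop)) (by fun_prop)) (PT.filter (PP.decide (by fun_prop)) (by fun_prop))))

end Pool.Agent.Cx
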