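import Pool.Agent.Lib.helper10.CisDefs
import Pool.Agent.Lib.helper10.NPMatSat
import Pool.Agent.Lib.helper10.NPClique

/-! The conflict graph of partial assignments: CIS when the formula is unsatisfiable, and not a
triangle graph when it is satisfiable. -/

namespace Pool.Agent.Cis

open Pool.Agent.Cx Finset

section general
variable {V : Type} {G : SimpleGraph V}

lemma maxI_iff {S : Set V} : Maximal G.IsIndepSet S ↔
    (∀ u ∈ S, ∀ v ∈ S, ¬ G.Adj u v) ∧ ∀ v ∉ S, ∃ s ∈ S, G.Adj v s := by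
  constructor
  · intro h
    refine ⟨fun u hu v hv a => h.1 hu hv a.ne a, fun v hv => ?_⟩
    by_contra hc
    push Not at hc
    refine hv (h.2 (y := insert v S) ?_ (Set.subset_insert _ _) (Set.mem_insert _ _))
    rintro a (rfl | ha) b (rfl | hb) e
    exacts [absurd rfl e, hc b hb, fun h => hc a ha h.symm, h.1 ha hb e]
  · rintro ⟨h1, h2⟩
    refine ⟨fun u hu v hv _ => h1 u hu v hv, fun T hT e v hv => ?_⟩
    by_contra hc
    obtain ⟨s, hs, a⟩ := h2 v hc
    exact hT hv (e hs) a.ne a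

lemma maxC_iff {C : Set V} : Maximal G.IsClique C ↔
    (∀ u ∈ C, ∀ v ∈ C, u ≠ v → G.Adj u v) ∧ ∀ v ∉ C, ∃ s ∈ C, ¬ G.Adj v s := by
  constructor
  · intro h
    refine ⟨fun u hu v hv a => h.1 hu hv a, fun v hv => ?_⟩
    by_contra hc
    push Not at hc
    exact hv (h.2 (y := insert v C) (h.1.insert fun b hb _ => hc b hb) (Set.subset_insert _ _)
      (Set.mem_insert _ _))
  · rintro ⟨h1, h2⟩
    refine ⟨fun u hu v hv => h1 u hu v hv, fun T hT e v hv => ?_⟩
    by_contra hc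
    obtain ⟨s, hs, a⟩ := h2 v hc
    exact a (hT hv (e hs) fun e => hc (e ▸ hs))

lemma ext_max [Finite V] {P : Set V → Prop} {A : Set V} (h : P A) : ∃ B, A ⊆ B ∧ Maximal P B :=
  Finite.exists_le_maximal h

lemma CIS.edge [Finite V] (h : CIS G) : EdgeStrong G := fun u v a => by
  obtain ⟨C, c1, c2⟩ := ext_max (P := G.IsClique) (A := {u, v}) (by simpa using fun _ => a)
  exact ⟨C, c2.1, c1 (by simp), c1 (by simp), fun S hS => h C S c2 hS⟩

lemma EdgeStrong.tri (h : EdgeStrong G) : Triangle G := fun S hS u v a hu hv => by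
  obtain ⟨C, c1, c2, c3, c4⟩ := h u v a
  obtain ⟨s, s1, s2⟩ := c4 S hS
  exact ⟨s, s2, c1 c2 s1 fun e => hu (e ▸ s2), c1 c3 s1 fun e => hv (e ▸ s2)⟩

lemma Equistable.tri [Fintype V] (h : Equistable G) : Triangle G := fun S hS u v a hu hv => by
  classical
  obtain ⟨t, -, w, h⟩ := h
  by_contra hc
  push Not at hc
  obtain ⟨s1, s2⟩ := maxI_iff.1 hS
  have key : ∀ u, u ∉ S → ∃ P : Finset V, Maximal G.IsIndepSet (P : Set V) ∧ u ∈ P ∧
      ∀ s ∈ S, s ∈ P ↔ ¬ G.Adj u s := fun u hu => by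
    obtain ⟨P, p1, p2⟩ := ext_max (P := G.IsIndepSet) (A := insert u {s ∈ S | ¬ G.Adj u s}) (by
      rintro a (rfl | ha) b (rfl | hb) e
      exacts [absurd rfl e, hb.2, fun h => ha.2 h.symm, s1 a ha.1 b hb.1])
    refine ⟨P.toFinset, by simpa, by simpa using p1 (by simp), fun s hs => ⟨fun e a => ?_,
      fun e => by simpa using p1 (Or.inr ⟨hs, e⟩)⟩⟩
    exact p2.1 (p1 (by simp)) (by simpa using e) a.ne a
  obtain ⟨P, p1, p2, p3⟩ := key u hu
  obtain ⟨Q, q1, q2, q3⟩ := key v hv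
  have e1 : P ∩ Q ⊆ S.toFinset := fun x hx => by
    rw [mem_inter] at hx
    by_contra h'
    obtain ⟨s, hs, a⟩ := s2 x (by simpa using h')
    by_cases e : G.Adj u s
    · exact q1.1 hx.2 ((q3 s hs).2 (hc s hs e)) a.ne a
    · exact p1.1 hx.1 ((p3 s hs).2 e) a.ne a
  have e2 : S.toFinset ⊆ P ∪ Q := fun s hs => by
    rw [Set.mem_toFinset] at hs
    rw [mem_union, p3 s hs, q3 s hs]; have := hc s hs; tauto
  have e3 := sum_union_inter (s₁ := P) (s₂ := Q) (f := w)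
  have e4 := sum_sdiff (f := w) e2
  have e5 : Disjoint ((P ∪ Q) \ S.toFinset) (P ∩ Q) := disjoint_sdiff_self_left.mono_right e1
  have e6 := (h (((P ∪ Q) \ S.toFinset) ∪ (P ∩ Q))).2 (by
    rw [sum_union e5]
    have := (h P).1 p1
    have := (h Q).1 q1
    have := (h S.toFinset).1 (by simpa)
    omega)
  exact e6.1 (by simp [p2, hu]) (by simp [q2, hv]) a.ne a

lemma CIS.equi [Fintype V] (h : CIS G) : Equistable G := by
  classical
  have : ∀ p : V × V, ∃ C : Set V, Maximal G.IsClique C ∧ p.1 ∈ C ∧ (G.Adj p.1 p.2 → p.2 ∈ C) := by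
    rintro ⟨u, v⟩
    by_cases a : G.Adj u v
    · obtain ⟨C, c1, c2⟩ := ext_max (P := G.IsClique) (A := {u, v}) (by simpa using fun _ => a)
      exact ⟨C, c2, c1 (by simp), fun _ => c1 (by simp)⟩
    · obtain ⟨C, c1, c2⟩ := ext_max (P := G.IsClique) (A := {u}) (by simp)
      exact ⟨C, c2, c1 (by simp), fun e => absurd e a⟩
  choose Q q1 q2 q3 using this
  obtain ⟨C, -, c1⟩ := ext_max (P := G.IsClique) (A := ∅) (by simp)
  obtain ⟨S, -, c2⟩ := ext_max (P := G.IsIndepSet) (A := ∅) (by simp [SimpleGraph.IsIndepSet])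
  obtain ⟨v0, -⟩ := h C S c1 c2
  let e := (Fintype.equivFin (V × V)).symm
  let B := Fintype.card V + 2
  refine ⟨∑ i : Fin (Fintype.card (V × V)), B ^ i.1, sum_pos (fun _ _ => by positivity) ⟨e.symm (v0, v0), by simp⟩,
    fun v => ∑ i, if v ∈ Q (e i) then B ^ i.1 else 0, fun T => ?_⟩
  have a1 : ∀ i, #{v ∈ T | v ∈ Q (e i)} < B := fun i => by
    have := card_le_univ {v ∈ T | v ∈ Q (e i)}
    omega
  rw [sum_comm, sum_congr rfl (g := fun i => #{v ∈ T | v ∈ Q (e i)} * B ^ i.1) fun i _ => by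
    rw [← sum_filter, sum_const, smul_eq_mul]]
  trans ∀ p, #{v ∈ T | v ∈ Q p} = 1
  · constructor
    · intro hT p
      obtain ⟨s, s1, s2⟩ := h _ _ (q1 p) hT
      refine card_eq_one.2 ⟨s, eq_singleton_iff_unique_mem.2 ⟨mem_filter.2 ⟨s2, s1⟩, fun x hx => ?_⟩⟩
      by_contra c
      rw [mem_filter] at hx
      exact hT.1 hx.1 s2 c ((q1 p).1 hx.2 s1 c)
    · intro hT
      refine maxI_iff.2 ⟨fun u hu v hv a => a.ne (card_le_one.1 (hT (u, v)).le u
        (mem_filter.2 ⟨hu, q2 _⟩) v (mem_filter.2 ⟨hv, q3 _ a⟩)), fun v hv => ?_⟩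
      obtain ⟨s, hs⟩ := card_pos.1 (hT (v, v)).ge
      rw [mem_filter] at hs
      exact ⟨s, hs.1, (q1 _).1 (q2 (v, v)) hs.2 fun (e : v = s) => hv (e ▸ hs.1)⟩
  · constructor
    · intro hT; simp [hT]
    · intro hT p
      have := finFunctionFinEquiv.injective (a₁ := fun i => ⟨_, a1 i⟩)
        (a₂ := fun _ => ⟨1, by omega⟩) (Fin.ext (by
          simpa only [finFunctionFinEquiv_apply, one_mul] using hT))
      simpa using congrFun this (e.symm p)

end general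

def ke (K : List (List ℕ)) (j y : ℕ) : ℕ := (K.getD j []).getD y 0

def val (K : List (List ℕ)) (p : ℕ × ℕ × ℕ) (y : ℕ) : ℕ :=
  if ke K p.1 y ≠ 0 then (if ke K p.1 y = 1 then 2 else 1) else if y = p.2.1 then p.2.2 else 0

def conf (n : ℕ) (K : List (List ℕ)) (p q : ℕ × ℕ × ℕ) : Prop :=
  (p.1 ≠ q.1 ∧ p.1 < K.length ∧ q.1 < K.length) ∨
    ∃ y < n, val K p y ≠ 0 ∧ val K q y ≠ 0 ∧ val K p y ≠ val K q y

instance (n : ℕ) (K : List (List ℕ)) (p q : ℕ × ℕ × ℕ) : Decidable (conf n K p q) := by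
  unfold conf; infer_instance

lemma ke_len (K : List (List ℕ)) (y : ℕ) : ke K K.length y = 0 := by simp [ke]

section
variable {V : Type} {G : SimpleGraph V} {n : ℕ} {K : List (List ℕ)} {f : V → ℕ × ℕ × ℕ}
  (h1 : ∀ a b, G.Adj a b ↔ conf n K (f a) (f b))
  (h2 : ∀ p, (∃ a, f a = p) ↔ p.1 ≤ K.length ∧ p.2.1 < n ∧ (p.2.2 = 1 ∨ p.2.2 = 2)) (hn : 0 < n)
include h1 h2 hn

lemma cis (hK : ¬ MatSat n K) : CIS G := fun C S hC hS => by
  classical
  have v1 : ∀ a y, val K (f a) y ≠ 0 → val K (f a) y = 1 ∨ val K (f a) y = 2 := fun a y => by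
    have := (h2 _).1 ⟨a, rfl⟩
    unfold val; split_ifs <;> omega
  obtain ⟨s1, s2⟩ := maxI_iff.1 hS
  obtain ⟨τ, t1, t2⟩ : ∃ τ : ℕ → ℕ, (∀ y, τ y = 1 ∨ τ y = 2) ∧
      ∀ s ∈ S, ∀ y < n, val K (f s) y ≠ 0 → val K (f s) y = τ y := by
    refine ⟨fun y => if h : ∃ s ∈ S, val K (f s) y ≠ 0 then val K (f h.choose) y else 1,
      fun y => ?_, fun s hs y hy e => ?_⟩
    · simp only
      split_ifs with h
      exacts [v1 _ _ h.choose_spec.2, Or.inl rfl]
    · have h : ∃ s ∈ S, val K (f s) y ≠ 0 := ⟨s, hs, e⟩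
      simp only [dif_pos h]
      by_contra c
      exact s1 s hs _ h.choose_spec.1 ((h1 _ _).2 (Or.inr ⟨y, hy, e, h.choose_spec.2, c⟩))
  obtain ⟨j, j1, j2, j3⟩ : ∃ j < K.length, (∀ s ∈ S, (f s).1 = j ∨ (f s).1 = K.length) ∧
      ∀ y < n, ke K j y ≠ 0 → τ y = if ke K j y = 1 then 2 else 1 := by
    by_cases c : ∃ s ∈ S, (f s).1 < K.length
    · obtain ⟨s, hs, c⟩ := c
      refine ⟨_, c, fun s' hs' => ?_, fun y hy e => ?_⟩
      · by_contra c'
        have := (h2 _).1 ⟨s', rfl⟩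
        exact s1 s hs s' hs' ((h1 _ _).2 (Or.inl (by omega)))
      · rw [← t2 s hs y hy (by unfold val; split_ifs <;> omega), val, if_pos e]
    · unfold MatSat at hK
      push Not at hK c
      obtain ⟨κ, hκ, e⟩ := hK fun y => decide (τ y = 1)
      obtain ⟨j, hj, rfl⟩ := List.getElem_of_mem hκ
      refine ⟨j, hj, fun s hs => ?_, fun y hy e' => ?_⟩
      · have := (h2 _).1 ⟨s, rfl⟩
        have := c s hs
        omega
      · simp only [ke, List.getD_eq_getElem _ _ hj] at e' ⊢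
        have := e y hy e'
        have := t1 y
        rw [decide_eq_true_eq, ne_eq, decide_eq_true_eq] at *
        split_ifs <;> omega
  have m1 : ∀ a, (f a).1 = j ∨ (f a).1 = K.length →
      (∀ y < n, val K (f a) y ≠ 0 → val K (f a) y = τ y) → a ∈ S := fun a a1 a2 => by
    by_contra c
    obtain ⟨s, hs, e⟩ := s2 a c
    rcases (h1 _ _).1 e with e | ⟨y, hy, e1, e2, e3⟩
    · have := j2 s hs; omega
    · exact e3 ((a2 y hy e1).trans (t2 s hs y hy e2).symm)
  have m2 : ∀ a y, (f a).1 = j ∨ (f a).1 = K.length → ke K j y = 0 → val K (f a) y ≠ 0 →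
      y = (f a).2.1 := fun a y a1 a2 => by
    have : ke K (f a).1 y = 0 := by rcases a1 with e | e <;> simp [e, a2, ke_len]
    unfold val; split_ifs <;> omega
  obtain ⟨c1, c2⟩ := maxC_iff.1 hC
  obtain ⟨x, x1, x2⟩ : ∃ x < n, ∀ c ∈ C, (f c).1 = j ∨ (f c).1 = K.length →
      ke K j (f c).2.1 = 0 → (f c).2.1 = x := by
    by_cases c : ∃ c ∈ C, ((f c).1 = j ∨ (f c).1 = K.length) ∧ ke K j (f c).2.1 = 0
    · obtain ⟨c, hc, a1, a2⟩ := c
      refine ⟨_, ((h2 _).1 ⟨c, rfl⟩).2.1, fun c' hc' b1 b2 => ?_⟩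
      by_contra e
      rcases (h1 _ _).1 (c1 c hc c' hc' fun e' => e (by rw [e'])) with e' | ⟨y, hy, e1, e2, e3⟩
      · omega
      by_cases k : ke K j y = 0
      · exact e ((m2 _ _ b1 k e2).symm.trans (m2 _ _ a1 k e1))
      · have z : ∀ d, (f d).1 = j ∨ (f d).1 = K.length → ke K j (f d).2.1 = 0 → val K (f d) y ≠ 0 →
            val K (f d) y = if ke K j y = 1 then 2 else 1 := by
          rintro d (d1 | d1) d2 d3
          · rw [val, d1, if_pos k]
          · rw [val, d1, ke_len, if_neg (by simp), if_neg fun (e : y = _) => k (e ▸ d2)] at d3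
            exact absurd rfl d3
        exact e3 ((z _ a1 a2 e1).trans (z _ b1 b2 e2).symm)
    · exact ⟨0, hn, fun c' hc' b1 b2 => absurd ⟨c', hc', b1, b2⟩ c⟩
  obtain ⟨w, hw⟩ := (h2 (j, x, τ x)).2 ⟨j1.le, x1, t1 x⟩
  have w1 : ∀ y < n, ke K j y ≠ 0 ∨ y = x → val K (f w) y = τ y := fun y hy e => by
    by_cases k : ke K j y = 0
    · obtain rfl := e.resolve_left (by simpa)
      simp [hw, val, k]
    · simp only [hw, val, if_pos k, j3 y hy k]
  have w2 : w ∈ S := m1 w (by simp [hw]) fun y hy e => w1 y hy (by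
    by_contra c; push Not at c; simp [hw, val, c] at e)
  by_contra hc
  obtain ⟨c, c3, c4⟩ := c2 w fun e => hc ⟨w, e, w2⟩
  have := (h2 _).1 ⟨c, rfl⟩
  by_cases e : (f c).1 = j ∨ (f c).1 = K.length
  · refine hc ⟨c, c3, m1 c e fun y hy e1 => ?_⟩
    by_contra e2
    have : val K (f w) y = τ y := w1 y hy (by
      by_contra k; push Not at k
      have := m2 c y e k.1 e1
      exact k.2 (this.trans (x2 c c3 e (this ▸ k.1))))
    have := t1 y
    exact c4 ((h1 _ _).2 (Or.inr ⟨y, hy, by omega, e1, by omega⟩))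
  · exact c4 ((h1 _ _).2 (Or.inl (by simp only [hw]; omega)))

lemma ntri (hK : MatSat n K) (hm : 2 ≤ K.length) (hd : ∀ y, ke K 0 y = 0 ∨ ke K 1 y = 0) :
    ¬ Triangle G := fun h => by
  obtain ⟨τ, hτ⟩ := hK
  let t : ℕ → ℕ := fun y => if τ y then 1 else 2
  have t1 : ∀ y, t y = 1 ∨ t y = 2 := fun y => by simp only [t]; split_ifs <;> simp
  have lit : ∀ y < n, ∃ s, f s = (K.length, y, t y) := fun y hy => (h2 _).2 ⟨le_rfl, hy, t1 y⟩
  have vl : ∀ x b y, val K (K.length, x, b) y = if y = x then b else 0 := by simp [val, ke_len]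
  obtain ⟨u, hu⟩ := (h2 (0, 0, t 0)).2 ⟨by omega, hn, t1 0⟩
  obtain ⟨v, hv⟩ := (h2 (1, 0, t 0)).2 ⟨by omega, hn, t1 0⟩
  suffices hS : Maximal G.IsIndepSet {s | ∃ y, f s = (K.length, y, t y)} by
    obtain ⟨s, ⟨y, hy⟩, a1, a2⟩ := h _ hS u v
      ((h1 _ _).2 (Or.inl (by simp [hu, hv]; omega))) (by simp [hu]; omega) (by simp [hv]; omega)
    rw [h1, hy] at a1 a2
    obtain ⟨z, -, b1, b2, b3⟩ := a1.resolve_left (by simp)
    obtain ⟨z', -, c1, c2, c3⟩ := a2.resolve_left (by simp)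
    simp only [vl] at b2 b3 c2 c3
    simp only [hu, hv, val] at b1 b3 c1 c3
    obtain rfl : z = y := by by_contra c; simp [c] at b2
    obtain rfl : z' = z := by by_contra c; simp [c] at c2
    rcases hd z' with e | e <;> simp only [e] at b1 b3 c1 c3 <;> by_cases c : z' = 0 <;> simp [c] at *
  refine maxI_iff.2 ⟨?_, ?_⟩
  · rintro a ⟨x, hx⟩ b ⟨y, hy⟩ e
    rw [h1, hx, hy] at e
    obtain ⟨z, -, b1, b2, b3⟩ := e.resolve_left (by simp)
    simp only [vl] at b1 b2 b3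
    obtain rfl : z = x := by by_contra c; simp [c] at b1
    obtain rfl : z = y := by by_contra c; simp [c] at b2
    exact b3 rfl
  · intro a ha
    obtain ⟨a1, a2, a3⟩ := (h2 _).1 ⟨a, rfl⟩
    suffices ∃ y < n, val K (f a) y ≠ 0 ∧ val K (f a) y ≠ t y by
      obtain ⟨y, hy, b1, b2⟩ := this
      obtain ⟨s, hs⟩ := lit y hy
      have := t1 y
      exact ⟨s, ⟨y, hs⟩, (h1 _ _).2 (Or.inr ⟨y, hy, b1, by simp [hs, vl]; omega, by simpa [hs, vl]⟩)⟩
    rcases a1.lt_or_eq with c | c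
    · obtain ⟨y, hy, b1, b2⟩ := hτ _ (List.getElem_mem c)
      refine ⟨y, hy, ?_⟩
      simp only [val, ke, List.getD_eq_getElem _ _ c, if_pos b1, t, ← b2]
      split_ifs <;> simp
    · refine ⟨_, a2, ?_⟩
      simp only [val, c, ke_len]
      refine ⟨by simp; omega, fun e => ha ⟨(f a).2.1, ?_⟩⟩
      rw [← c, ← e]; simp

end

def verts (n m : ℕ) : List (ℕ × ℕ × ℕ) := List.range (m + 1) ×ˢ List.range n ×ˢ [1, 2]

def pad (K : List (List ℕ)) : List (List ℕ) := [1] :: [0, 1] :: K.map fun r => 0 :: 0 :: r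

def red (I : ℕ × List (List ℕ)) : List (List Bool) :=
  mat (verts (I.1 + 2) (pad I.2).length) fun p q => decide (conf (I.1 + 2) (pad I.2) p q)

lemma red_pt : PT red := by
  unfold red verts
  refine PT.mat (by unfold pad; fun_prop) (PP.decide ?_)
  have hp : PT pad := by unfold pad; fun_prop
  have hv : PT fun z : List (List ℕ) × (ℕ × ℕ × ℕ) × ℕ => val z.1 z.2.1 z.2.2 := by
    unfold val ke
    exact PP.ite (by fun_prop) (PP.ite (by fun_prop) (by fun_prop) (by fun_prop))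
      (PP.ite (by fun_prop) (by fun_prop) (by fun_prop))
  unfold conf
  fun_prop

lemma pad_sat (n : ℕ) (K : List (List ℕ)) : MatSat n K ↔ MatSat (n + 2) (pad K) := by
  simp only [MatSat, pad, List.forall_mem_cons, List.forall_mem_map]
  constructor
  · rintro ⟨y, h⟩
    refine ⟨fun s => if s < 2 then true else y (s - 2), ⟨0, by simp⟩, ⟨1, by simp⟩, fun κ hκ => ?_⟩
    obtain ⟨s, a1, a2⟩ := h κ hκ
    exact ⟨s + 2, by omega, by simpa using a2⟩
  · rintro ⟨y, -, -, h⟩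
    refine ⟨fun s => y (s + 2), fun κ hκ => ?_⟩
    obtain ⟨_ | _ | s, a1, a2⟩ := h κ hκ
    · simp at a2
    · simp at a2
    · exact ⟨s, by omega, by simpa using a2⟩

theorem hard_between {Q : ∀ {V : Type}, SimpleGraph V → Prop}
    (q1 : ∀ (N : ℕ) (G : SimpleGraph (Fin N)), CIS G → Q G)
    (q2 : ∀ (N : ℕ) (G : SimpleGraph (Fin N)), Q G → Triangle G) :
    Hard fun M => ¬ (IsGraph M ∧ Q (graphOf M)) := by
  refine Hard.of_matSat red_pt fun n K _ => ?_
  have sy : ∀ p q, conf (n + 2) (pad K) p q → conf (n + 2) (pad K) q p := by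
    unfold conf
    rintro p q (h | ⟨y, h⟩)
    exacts [Or.inl (by omega), Or.inr ⟨y, by omega⟩]
  have ir : ∀ p, ¬ conf (n + 2) (pad K) p p := by simp [conf]
  have g : IsGraph (red (n, K)) := ⟨mat_row _ _, fun i h => by
      obtain ⟨_, _, h⟩ := (mat_get _ _ i i).1 h
      exact ir _ (by simpa using h), fun i j h => by
      obtain ⟨hi, hj, h⟩ := (mat_get _ _ i j).1 h
      exact (mat_get _ _ j i).2 ⟨hj, hi, by simpa using sy _ _ (by simpa using h)⟩⟩
  let f : Fin (red (n, K)).length → ℕ × ℕ × ℕ := fun i =>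
    (verts (n + 2) (pad K).length)[i.1]'(by simpa [red] using i.2)
  have h1 : ∀ a b, (graphOf (red (n, K))).Adj a b ↔ conf (n + 2) (pad K) (f a) (f b) := fun a b => by
    have ha : a.1 < (verts (n + 2) (pad K).length).length := by simpa [red] using a.2
    have hb : b.1 < (verts (n + 2) (pad K).length).length := by simpa [red] using b.2
    simp only [graphOf, SimpleGraph.fromRel_adj, Entry, red, mat_get, ha, hb, exists_true_left,
      decide_eq_true_eq]
    exact ⟨fun h => h.2.elim id (sy _ _), fun h => ⟨fun e => ir _ (e ▸ h), Or.inl h⟩⟩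
  have h2 : ∀ p, (∃ a, f a = p) ↔ p.1 ≤ (pad K).length ∧ p.2.1 < n + 2 ∧ (p.2.2 = 1 ∨ p.2.2 = 2) := by
    rintro ⟨a, b, c⟩
    trans (a, b, c) ∈ verts (n + 2) (pad K).length
    · exact ⟨fun ⟨i, e⟩ => e ▸ List.getElem_mem _, fun h =>
        let ⟨i, hi, e⟩ := List.getElem_of_mem h; ⟨⟨i, by simpa [red] using hi⟩, e⟩⟩
    · simp [verts, Nat.lt_succ_iff]
  rw [pad_sat]
  refine ⟨fun h a => ntri h1 h2 (by omega) h (by simp [pad]) ?_ (q2 _ _ a.2), fun h => ?_⟩
  · rintro (_ | _ | y) <;> simp [ke, pad]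
  · by_contra c
    exact h ⟨g, q1 _ _ (cis h1 h2 (by omega) c)⟩

end Pool.Agent.Cis
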