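import Pool.Agent.Lib.helper10.Kit

/-! Closure under an inflationary polynomial-time rule. -/

namespace Pool.Agent.Cx

open Polynomial Function

def cstep (n : ℕ) (c : List ℕ → ℕ → Bool) (D : List ℕ) : List ℕ := (List.range n).filter (c D)

def clo (n : ℕ) (c : List ℕ → ℕ → Bool) (D : List ℕ) : List ℕ := (cstep n c)^[n + 2] D

lemma mem_cstep {n : ℕ} {c : List ℕ → ℕ → Bool} {D : List ℕ} {x : ℕ} :
    x ∈ cstep n c D ↔ x < n ∧ c D x = true := by simp [cstep]

lemma PT.clo {α : Type} [Enc α] {n : α → ℕ} {c : α → List ℕ → ℕ → Bool} {D : α → List ℕ}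
    (hn : PT n) (hc : PT fun p : (α × List ℕ) × ℕ => c p.1.1 p.1.2 p.2) (hD : PT D) :
    PT fun a => clo (n a) (c a) (D a) := by
  obtain ⟨q, hq⟩ := hn.bound
  refine PT.iterate_add (g := fun a => cstep (n a) (c a)) (PT.filter hc (by fun_prop))
    (by fun_prop) hD ((2 * q + 2) * q + 1) fun a b => ?_
  have h1 := size_list_le (cstep (n a) (c a) b) (2 * n a + 1) fun x hx => by
    have := (mem_cstep.1 hx).1
    simp; omega
  have h2 : (cstep (n a) (c a) b).length ≤ n a := (List.length_filter_le _ _).trans (by simp)
  have h3 := hq a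
  simp only [size_nat] at h3
  simp only [eval_add, eval_mul, eval_one, eval_ofNat]
  have : (cstep (n a) (c a) b).length * (2 * n a + 1 + 1) ≤
    q.eval (Cx.size a) * (2 * q.eval (Cx.size a) + 2) := Nat.mul_le_mul (by omega) (by omega)
  nlinarith

variable {n : ℕ} {c : List ℕ → ℕ → Bool} (hc : ∀ D x, x ∈ D → c D x = true) (D : List ℕ)

lemma clo_ind {P : ℕ → Prop} (h0 : ∀ x ∈ D, P x)
    (h : ∀ E, (∀ x ∈ E, P x) → ∀ x < n, c E x = true → P x) : ∀ x ∈ clo n c D, P x := by
  unfold clo
  induction n + 2 with
  | zero => exact h0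
  | succ k ih => rw [iterate_succ_apply']; exact fun x hx => h _ ih x (mem_cstep.1 hx).1 (mem_cstep.1 hx).2

include hc

lemma sub_clo {x : ℕ} (hx : x ∈ D) (hn : x < n) : x ∈ clo n c D := by
  unfold clo
  induction n + 2 with
  | zero => exact hx
  | succ k ih => rw [iterate_succ_apply']; exact mem_cstep.2 ⟨hn, hc _ _ ih⟩

lemma clo_fix {x : ℕ} (hn : x < n) (h : c (clo n c D) x = true) : x ∈ clo n c D := by
  have : ∀ k, cstep n c ((cstep n c)^[k + 1] D) = (cstep n c)^[k + 1] D ∨
      k ≤ ((cstep n c)^[k + 1] D).length := fun k => by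
    induction k with
    | zero => simp
    | succ k ih =>
      rw [iterate_succ_apply' _ (k + 1)]
      by_cases e : cstep n c ((cstep n c)^[k + 1] D) = (cstep n c)^[k + 1] D
      · exact Or.inl (by rw [e, e])
      · have s : ((cstep n c)^[k + 1] D).Sublist (cstep n c ((cstep n c)^[k + 1] D)) := by
          rw [iterate_succ_apply']
          generalize (cstep n c)^[k] D = E
          have : (cstep n c (cstep n c E)).filter (c E) = cstep n c E := by
            rw [cstep, List.filter_filter]
            refine List.filter_congr fun x hx => ?_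
            by_cases b : c E x = true
            · simp [b, hc _ x (mem_cstep.2 ⟨by simpa using hx, b⟩)]
            · simp [b]
          have s := List.filter_sublist (l := cstep n c (cstep n c E)) (p := c E)
          rwa [this] at s
        have := s.length_le
        have := mt s.eq_of_length (Ne.symm e)
        have := ih.resolve_left e
        omega
  have e := (this (n + 1)).resolve_right (by
    rw [iterate_succ_apply']
    exact not_le.2 (Nat.lt_succ_of_le ((List.length_filter_le _ _).trans (by simp))))
  exact (show cstep n c (clo n c D) = clo n c D from e) ▸ mem_cstep.2 ⟨hn, h⟩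

end Pool.Agent.Cx
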