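import Pool.Agent.Lib.helper10.CisMem

/-! A graph given by a relation on an explicit list; sizes of vertex sets given as bit lists. -/

namespace Pool.Agent.Cx

open Pool.Agent.Cis

lemma graph_kit {β : Type} (E : List β) (r : β → β → Prop) [DecidableRel r]
    (sy : ∀ p q, r p q → r q p) (ir : ∀ p, ¬ r p p) (nd : E.Nodup) {M : List (List Bool)}
    (hM : M = mat E fun p q => decide (r p q)) : IsGraph M ∧ ∃ f : Fin M.length → β,
      (∀ a b, (graphOf M).Adj a b ↔ r (f a) (f b)) ∧ (∀ p, (∃ a, f a = p) ↔ p ∈ E) ∧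
      f.Injective ∧ ∀ a : Fin M.length, E[a.1]? = some (f a) := by
  subst hM
  have l : ∀ a : Fin (mat E fun p q => decide (r p q)).length, a.1 < E.length := fun a => by
    simpa using a.2
  refine ⟨⟨mat_row _ _, fun i h => ?_, fun i j h => ?_⟩, fun i => E[i.1]'(l i), fun a b => ?_,
    fun p => ⟨fun ⟨i, e⟩ => e ▸ List.getElem_mem _, fun h =>
      let ⟨i, hi, e⟩ := List.getElem_of_mem h; ⟨⟨i, by simpa using hi⟩, e⟩⟩,
    fun a b e => Fin.ext (nd.getElem_inj_iff.1 e), fun a => by simp [l a]⟩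
  · obtain ⟨_, _, h⟩ := (mat_get _ _ i i).1 h
    exact ir _ (by simpa using h)
  · obtain ⟨hi, hj, h⟩ := (mat_get _ _ i j).1 h
    exact (mat_get _ _ j i).2 ⟨hj, hi, by simpa using sy _ _ (by simpa using h)⟩
  · simp only [graphOf, SimpleGraph.fromRel_adj, Entry, mat_get, l a, l b, exists_true_left,
      decide_eq_true_eq]
    exact ⟨fun h => h.2.elim id (sy _ _), fun h => ⟨fun e => ir _ (e ▸ h), Or.inl h⟩⟩

def cnt (n : ℕ) (w : List Bool) : ℕ := (List.range n).countP fun i => w.getD i false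

@[fun_prop] lemma PT.cnt {α : Type} [Enc α] {n : α → ℕ} {w : α → List Bool} (hn : PT n)
    (hw : PT w) : PT fun a => cnt (n a) (w a) := by unfold Cx.cnt; fun_prop

lemma ncard_vset (n : ℕ) (w : List Bool) : (vset n w).ncard = cnt n w := by
  rw [← Set.ncard_image_of_injective _ Fin.val_injective, cnt, List.countP_eq_length_filter,
    ← List.toFinset_card_of_nodup (List.nodup_range.filter _), ← Set.ncard_coe_finset]
  congr 1
  ext i
  simp [vset, Fin.exists_iff, and_comm]

end Pool.Agent.Cx
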