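import Pool.Agent.Lib.helper10.ConDefs
import Pool.Agent.Lib.helper10.Kit

/-! Contraction along a list of edges. -/

namespace Pool.Agent.Cx.Con

open SimpleGraph Relation

variable {V : Type} {G : SimpleGraph V} {L : List (V × V)}

def R (L : List (V × V)) : V → V → Prop := ReflTransGen fun a b => (a, b) ∈ L ∨ (b, a) ∈ L
def CA (G : SimpleGraph V) (L : List (V × V)) (a b : V) : Prop :=
  ∃ a' b', R L a a' ∧ R L b b' ∧ G.Adj a' b'
def A (G : SimpleGraph V) (L : List (V × V)) (a b : V) : Prop := ¬ R L a b ∧ CA G L a b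
def N (G : SimpleGraph V) (L : List (V × V)) (a b : V) : Prop := ¬ R L a b ∧ ¬ CA G L a b
def St (A N : V → V → Prop) : Prop := ∃ c a b d e, A c a ∧ A c b ∧ N a b ∧ A c d ∧ N a d ∧ N b d ∧
  A c e ∧ N a e ∧ N b e ∧ N d e
def Tr (A N : V → V → Prop) : Prop := ∃ a b c v, A a b ∧ A a c ∧ A b c ∧ N v a ∧ N v b ∧ N v c
def Has (H : Σ n : ℕ, SimpleGraph (Fin n)) (G : SimpleGraph V) (L : List (V × V)) : Prop :=
  ∃ z : Fin H.1 → V, ∀ i j, i ≠ j → ¬ R L (z i) (z j) ∧ (H.2.Adj i j ↔ CA G L (z i) (z j))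
def Sol (G : SimpleGraph V) (k : ℕ) (P : List (V × V) → Prop) : Prop :=
  ∃ L : List (V × V), L.length ≤ k ∧ (∀ p ∈ L, G.Adj p.1 p.2) ∧ P L

lemma R.refl (a : V) : R L a a := ReflTransGen.refl
lemma R.trans {a b c : V} (h : R L a b) (g : R L b c) : R L a c := ReflTransGen.trans h g
lemma R.symm {a b : V} (h : R L a b) : R L b a := by
  induction h with
  | refl => exact .refl _
  | tail _ e ih => exact ReflTransGen.head e.symm ih
lemma CA.symm {a b : V} (h : CA G L a b) : CA G L b a :=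
  let ⟨a', b', x, y, z⟩ := h; ⟨b', a', y, x, z.symm⟩
lemma A.symm {a b : V} (h : A G L a b) : A G L b a := ⟨fun x => h.1 x.symm, h.2.symm⟩
lemma N.symm {a b : V} (h : N G L a b) : N G L b a := ⟨fun x => h.1 x.symm, fun x => h.2 x.symm⟩

lemma emb {F : Finset (Sym2 V)} (h : ∀ a b, s(a, b) ∈ F ↔ (a, b) ∈ L ∨ (b, a) ∈ L)
    (hL : ∀ p ∈ L, G.Adj p.1 p.2) (H : Σ n : ℕ, SimpleGraph (Fin n)) :
    IsEmpty (H.2 ↪g contract G F) ↔ ¬ Has H G L := by
  have r : ∀ a b, (fromEdgeSet (F : Set (Sym2 V))).connectedComponentMk a =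
      (fromEdgeSet (F : Set (Sym2 V))).connectedComponentMk b ↔ R L a b := fun a b => by
    rw [ConnectedComponent.eq, reachable_iff_reflTransGen, R]
    congr! 3 with a b
    simp only [fromEdgeSet_adj, Finset.mem_coe, h, and_iff_left_iff_imp]
    rintro (e | e)
    exacts [(hL _ e).ne, (hL _ e).ne']
  have c : ∀ a b, (contract G F).Adj ((fromEdgeSet (F : Set (Sym2 V))).connectedComponentMk a)
      ((fromEdgeSet (F : Set (Sym2 V))).connectedComponentMk b) ↔ ¬ R L a b ∧ CA G L a b := fun a b => by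
    simp only [contract, fromRel_adj, ne_eq, r, ConnectedComponent.mem_supp_iff]
    refine and_congr_right fun _ => ⟨?_, fun ⟨a', b', x, y, z⟩ => Or.inl ⟨a', x.symm, b', y.symm, z⟩⟩
    rintro (⟨a', x, b', y, z⟩ | ⟨a', x, b', y, z⟩)
    exacts [⟨a', b', x.symm, y.symm, z⟩, ⟨b', a', y.symm, x.symm, z.symm⟩]
  rw [← not_nonempty_iff, not_iff_not]
  constructor
  · rintro ⟨f⟩
    choose z hz using fun i => (f i).exists_rep
    have hz : ∀ i, (fromEdgeSet (F : Set (Sym2 V))).connectedComponentMk (z i) = f i := hz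
    refine ⟨z, fun i j e => ?_⟩
    have : ¬ R L (z i) (z j) := by rw [← r, hz, hz]; exact fun x => e (f.injective x)
    exact ⟨this, by rw [← f.map_adj_iff, ← hz, ← hz, c]; simp [this]⟩
  · rintro ⟨z, hz⟩
    refine ⟨⟨⟨fun i => connectedComponentMk _ (z i), fun i j e => ?_⟩, fun {i j} => ?_⟩⟩
    · by_contra x
      exact (hz i j x).1 ((r _ _).1 e)
    · by_cases e : i = j
      · simp [e]
      · simp [c, hz i j e]

lemma freeCon (𝓕 : Set (Σ n : ℕ, SimpleGraph (Fin n))) (z : List (List Bool) × ℕ) :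
    FreeCon 𝓕 z ↔ IsGraph z.1 ∧ Sol (graphOf z.1) z.2 fun L => ∀ H ∈ 𝓕, ¬ Has H (graphOf z.1) L := by
  refine and_congr_right fun _ => ⟨fun ⟨F, a, b, c⟩ => ?_, fun ⟨L, a, b, c⟩ => ?_⟩
  · have : ∀ p ∈ F.toList.map Quot.out, (graphOf z.1).Adj p.1 p.2 := by
      simp only [List.mem_map, Finset.mem_toList]
      rintro _ ⟨e, he, rfl⟩
      have := a he
      rwa [← e.out_eq] at this
    refine ⟨F.toList.map Quot.out, by simpa, this, fun H hH => (emb (fun x y => ?_) this H).1 (c H hH)⟩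
    simp only [List.mem_map, Finset.mem_toList]
    constructor
    · intro h
      have := Sym2.eq_iff.1 (show s(s(x, y).out.1, s(x, y).out.2) = s(x, y) from s(x, y).out_eq)
      exact this.imp (fun e => ⟨_, h, Prod.ext e.1 e.2⟩) fun e => ⟨_, h, Prod.ext e.1 e.2⟩
    · rintro (⟨e, he, h⟩ | ⟨e, he, h⟩)
      · rwa [← e.out_eq, h] at he
      · rw [← e.out_eq, h] at he
        rwa [Sym2.eq_swap]
  · refine ⟨(L.map fun p => s(p.1, p.2)).toFinset, fun e h => by
      obtain ⟨p, g, rfl⟩ := List.mem_map.1 (List.mem_toFinset.1 h); exact b p g, (List.toFinset_card_le _).trans (by simpa), fun H hH => (emb (fun x y => ?_) b H).2 (c H hH)⟩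
    simp only [List.mem_toFinset, List.mem_map, Sym2.eq_iff, Prod.exists]
    exact ⟨by rintro ⟨_, _, h, ⟨rfl, rfl⟩ | ⟨rfl, rfl⟩⟩ <;> simp [h],
      fun h => h.elim (fun h => ⟨_, _, h, by simp⟩) fun h => ⟨_, _, h, by simp⟩⟩

lemma has_st : Has K14 G L ↔ St (A G L) (N G L) := by
  constructor
  · rintro ⟨z, h⟩
    have a : ∀ i : Fin 5, i ≠ 0 → A G L (z (0 : Fin 5)) (z i) := fun i e =>
      ⟨(h _ _ e.symm).1, (h _ _ e.symm).2.1 (by simp [K14, e.symm])⟩
    have n : ∀ i j : Fin 5, i ≠ 0 → j ≠ 0 → i ≠ j → N G L (z i) (z j) := fun i j e f g =>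
      ⟨(h _ _ g).1, fun x => by simpa [K14, e, f] using (h _ _ g).2.2 x⟩
    exact ⟨_, z (1 : Fin 5), z (2 : Fin 5), z (3 : Fin 5), z (4 : Fin 5), by
      refine ⟨a _ ?_, a _ ?_, n _ _ ?_ ?_ ?_, a _ ?_, n _ _ ?_ ?_ ?_, n _ _ ?_ ?_ ?_, a _ ?_,
        n _ _ ?_ ?_ ?_, n _ _ ?_ ?_ ?_, n _ _ ?_ ?_ ?_⟩ <;> decide⟩
  · rintro ⟨c, a, b, d, e, h1, h2, h3, h4, h5, h6, h7, h8, h9, h10⟩
    have := And.intro h1.symm <| And.intro h2.symm <| And.intro h3.symm <| And.intro h4.symm <|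
      And.intro h5.symm <| And.intro h6.symm <| And.intro h7.symm <| And.intro h8.symm <|
      And.intro h9.symm h10.symm
    refine ⟨![c, a, b, d, e], ?_⟩
    simp only [A, N] at *
    simp [K14, Fin.forall_fin_succ, *]

lemma has_tr : Has K1K3 G L ↔ Tr (A G L) (N G L) := by
  constructor
  · rintro ⟨z, h⟩
    have a : ∀ i : Fin 4, i ≠ 0 → N G L (z (0 : Fin 4)) (z i) := fun i e =>
      ⟨(h _ _ e.symm).1, fun x => by simpa [K1K3] using (h _ _ e.symm).2.2 x⟩
    have n : ∀ i j : Fin 4, i ≠ 0 → j ≠ 0 → i ≠ j → A G L (z i) (z j) := fun i j e f g =>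
      ⟨(h _ _ g).1, (h _ _ g).2.1 (by simp [K1K3, e, f, g])⟩
    exact ⟨z (1 : Fin 4), z (2 : Fin 4), z (3 : Fin 4), _, by
      refine ⟨n _ _ ?_ ?_ ?_, n _ _ ?_ ?_ ?_, n _ _ ?_ ?_ ?_, a _ ?_, a _ ?_, a _ ?_⟩ <;> decide⟩
  · rintro ⟨a, b, c, v, h1, h2, h3, h4, h5, h6⟩
    have := And.intro h1.symm <| And.intro h2.symm <| And.intro h3.symm <| And.intro h4.symm <|
      And.intro h5.symm h6.symm
    refine ⟨![v, a, b, c], ?_⟩
    simp only [A, N] at *
    simp [K1K3, Fin.forall_fin_succ, *]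

/-- not an end of a contracted edge -/
def U (L : List (V × V)) (a : V) : Prop := ∀ p ∈ L, p.1 ≠ a ∧ p.2 ≠ a

lemma U.eq {a b : V} (h : U L a) (r : R L a b) : a = b := by
  rcases ReflTransGen.cases_head r with e | ⟨c, e | e, -⟩
  exacts [e, absurd rfl (h _ e).1, absurd rfl (h _ e).2]

lemma U.ca {a b : V} (h : U L b) : CA G L a b ↔ ∃ a', R L a a' ∧ G.Adj a' b :=
  ⟨fun ⟨a', _, x, y, z⟩ => ⟨a', x, h.eq y ▸ z⟩, fun ⟨a', x, z⟩ => ⟨a', b, x, .refl _, z⟩⟩

lemma U.a {a a' b : V} (h : U L b) (e : a ≠ b) (r : R L a a') (j : G.Adj a' b) : A G L a b :=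
  ⟨fun x => e (h.eq x.symm).symm, h.ca.2 ⟨a', r, j⟩⟩

lemma U.n {a b : V} (g : U L a) (h : U L b) (e : a ≠ b) (j : ¬ G.Adj a b) : N G L a b :=
  ⟨fun x => e (g.eq x), fun x => let ⟨_, r, x⟩ := h.ca.1 x; j (g.eq r ▸ x)⟩

def tch [DecidableEq V] (L : List (V × V)) : Finset V := (L.flatMap fun p => [p.1, p.2]).toFinset

lemma mem_tch [DecidableEq V] {a : V} : a ∈ tch L ↔ ¬ U L a := by
  simp only [tch, U, List.mem_toFinset, List.mem_flatMap, List.mem_cons, List.not_mem_nil, or_false,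
    not_forall, not_and_or, not_not, exists_prop, @eq_comm _ a]

lemma card_tch [DecidableEq V] : (tch L).card ≤ 2 * L.length :=
  (List.toFinset_card_le _).trans (by simp [List.length_flatMap, mul_comm])

open Classical in
lemma card_cl [Fintype V] (L : List (V × V)) (S : Finset V) :
    (Finset.univ.filter fun a => ∃ u ∈ S, R L u a).card ≤ S.card + L.length := by
  induction L generalizing S with
  | nil =>
    refine Finset.card_le_card fun a h => ?_
    obtain ⟨u, h, r⟩ := (Finset.mem_filter.1 h).2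
    exact U.eq (L := []) (by simp [U]) r ▸ h
  | cons p L ih =>
    obtain ⟨T, a, b, c⟩ : ∃ T, S ⊆ T ∧ T.card ≤ S.card + 1 ∧
        ((∃ u ∈ T, R L u p.1) ↔ ∃ u ∈ T, R L u p.2) := by
      by_cases h : ∃ u ∈ S, R L u p.1
      · exact ⟨insert p.2 S, by simp, Finset.card_insert_le _ _,
          iff_of_true (h.imp fun _ h => ⟨by simp [h.1], h.2⟩) ⟨_, by simp, .refl _⟩⟩
      by_cases g : ∃ u ∈ S, R L u p.2
      · exact ⟨insert p.1 S, by simp, Finset.card_insert_le _ _,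
          iff_of_true ⟨_, by simp, .refl _⟩ (g.imp fun _ h => ⟨by simp [h.1], h.2⟩)⟩
      exact ⟨S, le_rfl, by simp, iff_of_false h g⟩
    refine (Finset.card_le_card fun x h => ?_).trans ((ih T).trans (by simp; omega))
    simp only [Finset.mem_filter, Finset.mem_univ, true_and] at h ⊢
    obtain ⟨u, h, r⟩ := h
    induction r with
    | refl => exact ⟨u, a h, .refl _⟩
    | tail _ e ih =>
      simp only [List.mem_cons] at e
      rcases e with (rfl | e) | rfl | e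
      exacts [c.1 ih, ih.imp fun _ h => ⟨h.1, h.2.tail (Or.inl e)⟩, c.2 ih,
        ih.imp fun _ h => ⟨h.1, h.2.tail (Or.inr e)⟩]

end Pool.Agent.Cx.Con
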