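import Pool.Agent.Lib.helper10.Clo

/-! Positions in lists, numbers in binary, counting over ranges, search problems. -/

namespace Pool.Agent.Cx

open Polynomial Finset

/-- the value of a binary numeral, least significant bit first -/
def bin : List Bool → ℕ
  | [] => 0
  | b :: l => b.toNat + 2 * bin l

def mb (l : List Bool) (v : ℕ) : ℕ := min (bin l) v

variable {α β : Type} [Enc α] [Enc β]

@[fun_prop] lemma PT.mb {l : α → List Bool} {v : α → ℕ} (hl : PT l) (hv : PT v) :
    PT fun a => mb (l a) (v a) := by
  obtain ⟨q, hq⟩ := hv.bound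
  have e : ∀ (v : ℕ) (l : List Bool),
      l.reverse.foldl (fun c b => Min.min (b.toNat + 2 * c) v) 0 = Cx.mb l v := fun v l => by
    rw [List.foldl_reverse]
    induction l with
    | nil => simp [Cx.mb, bin]
    | cons b l ih => simp only [List.foldr_cons, ih, Cx.mb, bin]; omega
  refine (PT.foldl (f := fun a c b => Min.min (b.toNat + 2 * c) (v a)) (l := fun a => (l a).reverse)
    (init := fun _ => 0) (by fun_prop) (by fun_prop) (by fun_prop) q fun a i => ?_).of_eq
    fun a => (e _ _).symm
  rw [← List.reverse_reverse (List.take i _), e]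
  have := hq a
  simp only [size_nat, Cx.mb] at *; omega

@[fun_prop] lemma PT.idxOf {x : α → ℕ} {l : α → List ℕ} (hx : PT x) (hl : PT l) :
    PT fun a => (l a).idxOf (x a) := by
  have e : ∀ (x : ℕ) (l : List ℕ),
      l.idxOf x = (List.range l.length).countP fun i => decide (¬ x ∈ l.take (i + 1)) := fun x l => by
    induction l with
    | nil => simp
    | cons b l ih =>
      rw [List.length_cons, List.range_succ_eq_map, List.countP_cons, List.countP_map, List.idxOf_cons]
      by_cases h : b = x
      · simp [h]
      · simp [h, Ne.symm h, ih, Function.comp_def, Bool.cond_eq_ite]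
  exact (PT.countP (PP.decide (by fun_prop)) (by fun_prop)).of_eq fun a => e _ _

lemma PT.card2 {n m : α → ℕ} {P : α → ℕ × ℕ → Prop} {inst : ∀ a, DecidablePred (P a)} (hn : PT n)
    (hm : PT m) (hP : PP fun x : α × ℕ × ℕ => P x.1 x.2) :
    PT fun a => ((Finset.range (n a) ×ˢ Finset.range (m a)).filter (P a)).card :=
  (PT.countP (f := fun a y => decide (P a y)) (l := fun a => List.range (n a) ×ˢ List.range (m a))
    (PP.decide hP) (by fun_prop)).of_eq fun a => by
    rw [List.countP_eq_length_filter,
      ← List.toFinset_card_of_nodup ((List.nodup_range.product List.nodup_range).filter _)]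
    congr 1; ext ⟨x, y⟩; simp

lemma PT.sumRange {n : α → ℕ} {f : α → ℕ → ℕ} (hn : PT n) (hf : PT fun x : α × ℕ => f x.1 x.2) :
    PT fun a => ∑ i ∈ Finset.range (n a), f a i :=
  (PT.sum (PT.map hf (PT.range hn))).of_eq fun a => by
    rw [← List.sum_toFinset _ List.nodup_range, List.toFinset_range]

theorem polyTime_fun [Dec α] {g : α → β} (hg : PT g) :
    ∃ f, PolyTime f ∧ ∀ a, f (enc a) = enc (g a) :=
  ⟨_, polyTime_of_PT (g := fun x => g (decode x)) (by fun_prop), fun a => by simp⟩

end Pool.Agent.Cx
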