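import Pool.Agent.Lib.helper10.Con1
import Pool.Agent.Lib.helper10.Kit2

/-! Reductions from DOMINATING SET to contraction problems. -/

namespace Pool.Agent.Cx.Con

open SimpleGraph Relation Pool.Agent.Cis

abbrev Vx := ℕ × ℕ × ℕ

def ok (m n k : ℕ) (p : Vx) : Prop := p.1 < m ∧ p.2.2 ≤ 2 * k ∧ (1 < p.1 ∨ p.2.2 = 0) ∧
  (((p.1 = 1 ∨ p.1 = 2) ∧ p.2.1 < n) ∨ (p.1 ≠ 1 ∧ p.1 ≠ 2 ∧ p.2.1 = 0))
def dom (M : List (List Bool)) (v w : ℕ) : Prop := v = w ∨ ent M v w = true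
def rr (t : List (ℕ × ℕ)) (M : List (List Bool)) (p q : Vx) : Prop := p ≠ q ∧ ((p.1, q.1) ∈ t ∨
  (q.1, p.1) ∈ t ∨ (p.1 = 1 ∧ q.1 = 2 ∧ dom M p.2.1 q.2.1) ∨ (q.1 = 1 ∧ p.1 = 2 ∧ dom M q.2.1 p.2.1))
instance (m n k : ℕ) : DecidablePred (ok m n k) := fun _ => by unfold ok; infer_instance
instance (t : List (ℕ × ℕ)) (M : List (List Bool)) : DecidableRel (rr t M) := fun _ _ => by
  unfold rr dom; infer_instance
def verts (m n k : ℕ) : List Vx :=
  (List.range m ×ˢ List.range (n + 1) ×ˢ List.range (2 * k + 1)).filter fun p => decide (ok m n k p)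
def red (t : List (ℕ × ℕ)) (m : ℕ) (I : List (List Bool) × ℕ) : List (List Bool) × ℕ :=
  (mat (verts m I.1.length I.2) fun p q => decide (rr t I.1 p q), I.2)

lemma mem_verts {m n k : ℕ} {p : Vx} : p ∈ verts m n k ↔ ok m n k p := by
  obtain ⟨i, j, s⟩ := p
  simp only [verts, List.mem_filter, List.mem_product, List.mem_range, decide_eq_true_eq,
    and_iff_right_iff_imp, ok]
  omega

lemma red_pt (t : List (ℕ × ℕ)) (m : ℕ) : PT (red t m) := by
  have b1 : PT fun p : ℕ × ℕ => verts m p.1 p.2 :=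
    PT.filter (PP.decide (by unfold ok; fun_prop)) (by fun_prop)
  refine PT.pair (PT.mat (by fun_prop) (PP.decide ?_)) (by fun_prop)
  unfold rr dom; fun_prop

def T0 (t : List (ℕ × ℕ)) (p q : ℕ) : Prop := (p, q) ∈ t ∨ (q, p) ∈ t
def T1 (t : List (ℕ × ℕ)) (p q : ℕ) : Prop := T0 t p q ∨ (p = 2 ∧ q = 1) ∨ (q = 2 ∧ p = 1)
def T2 (t : List (ℕ × ℕ)) (p q : ℕ) : Prop := T0 t p q ∨ (p = 2 ∧ q = 0) ∨ (q = 2 ∧ p = 0)
instance (t : List (ℕ × ℕ)) : DecidableRel (T0 t) := fun _ _ => by unfold T0; infer_instance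
instance (t : List (ℕ × ℕ)) : DecidableRel (T1 t) := fun _ _ => by unfold T1; infer_instance
instance (t : List (ℕ × ℕ)) : DecidableRel (T2 t) := fun _ _ => by unfold T2; infer_instance

theorem w2 {H : Σ n : ℕ, SimpleGraph (Fin n)} {t : List (ℕ × ℕ)} {m : ℕ} (h01 : (0, 1) ∈ t)
    (hm : 2 < m) (h12 : ¬ T0 t 1 2) (h1 : ∀ q < m, q ≠ 0 → T0 t 1 q → T0 t 0 q)
    (fw : ∀ (V : Type) (G : SimpleGraph V) (L : List (V × V)) (π : V → ℕ), (∀ a, π a < m) →
      (∀ a b, A G L a b → T1 t (π a) (π b) ∨ T2 t (π a) (π b)) →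
      (∀ a b, N G L a b → ¬ T2 t (π a) (π b) ∧ (π a ≠ 0 ∨ π b ≠ 0)) → ¬ Has H G L)
    (bw : ∀ (V : Type) (G : SimpleGraph V) (L : List (V × V)) (π : V → ℕ) (u : V), π u = 0 →
      (∀ p ∈ L, G.Adj p.1 p.2) → (∀ a b, G.Adj a b → T1 t (π a) (π b)) →
      (∀ a b, π a ≠ π b → T0 t (π a) (π b) → G.Adj a b) → (∀ i, 2 < i → i < m → ∃ a, U L a ∧ π a = i) →
      ¬ Has H G L → ∀ d, U L d → π d = 2 → ∃ a, R L u a ∧ π a = 1 ∧ G.Adj a d) :
    W2Hard (FreeCon {H}) Prod.snd := by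
  classical
  refine ⟨fun x => enc (red t m (decode x)), id, polyTime_of_PT ((red_pt t m).comp (by fun_prop)),
    .id, fun M k hM => ⟨red t m (M, k), by simp, ?_, le_rfl⟩⟩
  obtain ⟨h0, f, h1', h2, h3, -⟩ := graph_kit (verts m M.length k) (rr t M)
    (fun p q h => ⟨h.1.symm, by have := h.2; tauto⟩) (fun p h => h.1 rfl)
    ((List.nodup_range.product (List.nodup_range.product List.nodup_range)).filter _)
    (M := (red t m (M, k)).1) rfl
  simp only [freeCon, h0, true_and, Set.mem_singleton_iff, forall_eq, mem_verts] at h2 ⊢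
  change _ ↔ Sol _ k _
  generalize graphOf (red t m (M, k)).1 = G at *
  generalize (red t m (M, k)).1.length = n at *
  obtain ⟨u, hu⟩ := (h2 (0, 0, 0)).2 (by simp [ok]; omega)
  have : Nonempty (Fin n) := ⟨u⟩
  have hg : ∀ p, ok m M.length k p → f (Function.invFun f p) = p := fun p h =>
    Function.invFun_eq ((h2 p).2 h)
  have hf : ∀ a, ok m M.length k (f a) := fun a => (h2 _).1 ⟨a, rfl⟩
  have hs : ∀ v : Fin M.length, f (Function.invFun f (1, v, 0)) = (1, v.1, 0) := fun v =>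
    hg _ (by simp [ok]; omega)
  generalize Function.invFun f = g at *
  have h4 : ∀ a, (f a).1 = 0 → a = u := fun a e => h3 (by
    have := hf a; unfold ok at this; rw [hu]; ext <;> simp <;> omega)
  constructor
  · rintro ⟨S, s1, s2⟩
    obtain ⟨L, hL⟩ : ∃ L, L = S.toList.map fun v : Fin M.length => (u, g (1, v.1, 0)) := ⟨_, rfl⟩
    have w1 : ∀ a b, R L a b → a = b ∨ ((a = u ∨ ∃ v ∈ S, a = g (1, v, 0)) ∧
        (b = u ∨ ∃ v ∈ S, b = g (1, v, 0))) := fun a b r => by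
      induction r with
      | refl => simp
      | tail _ e ih =>
        simp only [hL, List.mem_map, Finset.mem_toList, Prod.mk.injEq] at e
        rcases e with ⟨v, a, rfl, rfl⟩ | ⟨v, a, rfl, rfl⟩
        · exact Or.inr ⟨ih.elim Or.inl And.left, Or.inr ⟨v, a, rfl⟩⟩
        · exact Or.inr ⟨ih.elim (fun e => Or.inr ⟨v, a, e⟩) And.left, Or.inl rfl⟩
    have w2 : ∀ a, (a = u ∨ ∃ v ∈ S, a = g (1, v, 0)) → R L u a := by
      rintro _ (rfl | ⟨v, a, rfl⟩)
      exacts [.refl _, ReflTransGen.single (Or.inl (hL ▸ List.mem_map.2 ⟨v, by simpa, rfl⟩))]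
    have w3 : ∀ a, (a = u ∨ ∃ v ∈ S, a = g (1, v, 0)) → (f a).1 = 0 ∨ (f a).1 = 1 := by
      rintro _ (rfl | ⟨v, a, rfl⟩) <;> simp [hu, hs]
    refine ⟨L, by simpa [hL], ?_, fw _ _ _ (fun a => if a = u ∨ ∃ v ∈ S, a = g (1, v, 0) then 0 else (f a).1)
      (fun a => by have := (hf a).1; split_ifs <;> omega) ?_ ?_⟩
    · simp only [hL, List.mem_map]
      rintro _ ⟨v, -, rfl⟩
      simp [h1', hu, hs, rr, h01]
    · have : ∀ a b, (a = u ∨ ∃ v ∈ S, a = g (1, v, 0)) → ¬ (b = u ∨ ∃ v ∈ S, b = g (1, v, 0)) →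
          A G L a b → T2 t 0 (f b).1 := by
        rintro a b x y ⟨-, a', b', r, s, e⟩
        obtain rfl := (w1 _ _ s).resolve_right fun h => y h.1
        have := w3 a' ((w1 _ _ r).elim (fun e => e ▸ x) And.right)
        have z := h1 _ (hf b).1 fun e => y (Or.inl (h4 _ e))
        have e := ((h1' _ _).1 e).2
        unfold T2 T0 at *
        grind
      intro a b e
      split_ifs with x y y
      · exact absurd ((w2 _ x).symm.trans (w2 _ y)) e.1
      · exact Or.inr (this _ _ x y e)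
      · have := this _ _ y x e.symm
        unfold T2 T0 at *; tauto
      · obtain ⟨-, a', b', r, s, e⟩ := e
        obtain rfl := (w1 _ _ s).resolve_right fun h => y h.1
        obtain rfl := (w1 _ _ r).resolve_right fun h => x h.1
        have e := ((h1' _ _).1 e).2
        unfold T1 T0; tauto
    · have : ∀ a b, (a = u ∨ ∃ v ∈ S, a = g (1, v, 0)) → ¬ (b = u ∨ ∃ v ∈ S, b = g (1, v, 0)) →
          N G L a b → ¬ T2 t 0 (f b).1 := by
        rintro a b x y ⟨-, e⟩ z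
        by_cases c : (f b).1 = 2
        · have := hf b
          obtain ⟨v, v1, v2⟩ : ∃ v ∈ S, dom M v.1 (f b).2.1 :=
            (s2 ⟨(f b).2.1, by unfold ok at this; omega⟩).elim (fun h => ⟨_, h, Or.inl rfl⟩)
              fun ⟨v, a, e⟩ => ⟨v, a, Or.inr ((adj_iff hM _ _).1 e)⟩
          exact e ⟨g (1, v, 0), b, (w2 _ x).symm.trans (w2 _ (Or.inr ⟨v, v1, rfl⟩)), .refl _,
            (h1' _ _).2 ⟨fun e => by rw [← e, hs] at c; simp at c, by simp [hs, c, v2]⟩⟩
        · refine e ⟨u, b, (w2 _ x).symm, .refl _, (h1' _ _).2 ⟨fun e => y (Or.inl (h3 e).symm), ?_⟩⟩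
          unfold T2 T0 at z
          have : (f b).1 ≠ 0 := fun e => y (Or.inl (h4 _ e))
          rw [hu]; grind
      intro a b e
      have z : ∀ a, ¬ (a = u ∨ ∃ v ∈ S, a = g (1, v, 0)) → (f a).1 ≠ 0 := fun a y e => y (Or.inl (h4 _ e))
      split_ifs with x y y
      · exact absurd ((w2 _ x).symm.trans (w2 _ y)) e.1
      · exact ⟨this _ _ x y e, Or.inr (z _ y)⟩
      · have := this _ _ y x e.symm
        exact ⟨by unfold T2 T0 at *; tauto, Or.inl (z _ x)⟩
      · refine ⟨fun c => e.2 ⟨a, b, .refl _, .refl _, (h1' _ _).2 ⟨fun q => e.1 (h3 q ▸ .refl _), ?_⟩⟩,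
          Or.inl (z _ x)⟩
        have := z _ x
        have := z _ y
        unfold T2 T0 at c; tauto
  · rintro ⟨L, l1, l2, l3⟩
    have un : ∀ i v, (∀ j ≤ 2 * k, ok m M.length k (i, v, j)) → ∃ a, U L a ∧ (f a).1 = i ∧ (f a).2.1 = v :=
      fun i v h => by
        obtain ⟨a, x, y⟩ := Finset.exists_mem_notMem_of_card_lt_card (s := tch L)
          (t := (Finset.range (2 * k + 1)).image fun j => g (i, v, j)) (by
            rw [Finset.card_image_of_injOn fun a x b y e => by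
              simp only [Finset.coe_range, Set.mem_Iio] at x y
              simpa [hg, h a (by omega), h b (by omega)] using congrArg f e]
            have := card_tch (L := L); simp; omega)
        obtain ⟨j, x', rfl⟩ := Finset.mem_image.1 x
        exact ⟨_, by simpa [mem_tch] using y, by
          rw [hg _ (h j (Nat.lt_succ_iff.1 (Finset.mem_range.1 x')))]; simp⟩
    refine ⟨Finset.univ.filter fun v : Fin M.length => R L u (g (1, v.1, 0)), ?_, fun w => ?_⟩
    · have := card_cl L {u}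
      refine (Finset.card_le_card_of_injOn (fun v : Fin M.length => g (1, v.1, 0)) (t := (Finset.univ.filter
        fun a => ∃ u' ∈ ({u} : Finset _), R L u' a).erase u) (fun v h => ?_) fun a _ b _ e => ?_).trans ?_
      · have : g (1, v, 0) ≠ u := fun e => by simpa [hu, hs] using congrArg f e
        simpa [this] using h
      · simpa [hs, Fin.ext_iff] using congrArg f e
      · rw [Finset.card_erase_of_mem (by simp [R.refl])]; simp at this ⊢; omega
    · obtain ⟨d, d1, d2, d3⟩ := un 2 w fun j _ => by simp [ok]; omega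
      obtain ⟨a, a1, a2, a3⟩ := bw _ G L (fun a => (f a).1) u (by simp [hu]) l2
        (fun a b e => by have := ((h1' _ _).1 e).2; unfold T1 T0; tauto)
        (fun a b x y => (h1' _ _).2 ⟨fun e => x (by rw [e]), by unfold T0 at y; tauto⟩)
        (fun i x y => (un i 0 fun j _ => by simp [ok]; omega).imp fun _ h => ⟨h.1, h.2.1⟩) l3 d d1 d2
      have a4 := ((h1' _ _).1 a3).2
      have := hf a
      have e : g (1, (⟨(f a).2.1, by unfold ok at this; omega⟩ : Fin M.length), 0) = a := h3 (by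
        rw [hs]; unfold ok at this; ext <;> simp <;> omega)
      simp only [a2, d2, d3, T0] at a4 h12
      rcases (show dom M (f a).2.1 w by grind) with c | c
      · exact Or.inl (by simpa [← c, e] using a1)
      · exact Or.inr ⟨_, by simpa [e] using a1, (adj_iff hM ⟨(f a).2.1, by unfold ok at this; omega⟩ _).2 c⟩

def TA (t : List (ℕ × ℕ)) (p q : ℕ) : Prop := T1 t p q ∨ T2 t p q
def TN (t : List (ℕ × ℕ)) (p q : ℕ) : Prop := ¬ T2 t p q ∧ (p ≠ 0 ∨ q ≠ 0)
instance (t : List (ℕ × ℕ)) : DecidableRel (TA t) := fun _ _ => by unfold TA; infer_instance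
instance (t : List (ℕ × ℕ)) : DecidableRel (TN t) := fun _ _ => by unfold TN; infer_instance

set_option synthInstance.maxSize 1000 in
theorem w2_tr : W2Hard (FreeCon {K1K3}) Prod.snd := by
  refine w2 (t := [(0, 1), (0, 3), (0, 4), (3, 4)]) (m := 5) (by simp) (by simp) (by decide)
    (by decide) (fun V G L π p a n h => ?_) fun V G L π u p0 l a b c h d d1 d2 => ?_
  · obtain ⟨x, y, z, v, h1, h2, h3, h4, h5, h6⟩ := has_tr.1 h
    generalize ht : [(0, 1), (0, 3), (0, 4), (3, 4)] = t at a n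
    have : ¬ ∃ x < 5, ∃ y < 5, TA t x y ∧ ∃ z < 5, TA t x z ∧ TA t y z ∧ ∃ v < 5, TN t v x ∧ TN t v y ∧
        TN t v z := by subst ht; decide
    exact this ⟨_, p x, _, p y, a _ _ h1, _, p z, a _ _ h2, a _ _ h3, _, p v, n _ _ h4, n _ _ h5, n _ _ h6⟩
  · obtain ⟨x, x1, x2⟩ := c 3 (by simp) (by simp)
    obtain ⟨y, y1, y2⟩ := c 4 (by simp) (by simp)
    have ne : ∀ {a b}, π a ≠ π b → a ≠ b := fun e c => e (c ▸ rfl)
    by_contra e
    refine h (has_tr.2 ⟨u, x, y, d, x1.a (ne (by omega)) (.refl _) (b _ _ (by omega) (by rw [p0, x2]; decide)),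
      y1.a (ne (by omega)) (.refl _) (b _ _ (by omega) (by rw [p0, y2]; decide)),
      y1.a (ne (by omega)) (.refl _) (b _ _ (by omega) (by rw [x2, y2]; decide)),
      N.symm ⟨fun r => ne (by omega) (d1.eq r.symm), fun r => ?_⟩,
      d1.n x1 (ne (by omega)) fun r => by have := a _ _ r; rw [d2, x2] at this; revert this; decide,
      d1.n y1 (ne (by omega)) fun r => by have := a _ _ r; rw [d2, y2] at this; revert this; decide⟩)
    obtain ⟨z, z1, z2⟩ := d1.ca.1 r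
    exact e ⟨z, z1, by have := a _ _ z2; simpa [T1, T0, d2] using this, z2⟩

set_option synthInstance.maxSize 1000 in
theorem w2_st : W2Hard (FreeCon {K14}) Prod.snd := by
  refine w2 (t := [(0, 1), (0, 3), (0, 4), (0, 5), (1, 1), (1, 3), (3, 3), (4, 4), (5, 5), (2, 5),
    (2, 2), (2, 6), (6, 6), (5, 7), (7, 7), (5, 8), (8, 8)]) (m := 9) (by simp) (by simp) (by decide)
    (by decide) (fun V G L π p a n h => ?_) fun V G L π u p0 l a b c h d d1 d2 => ?_
  · obtain ⟨x, y, z, v, w, h1, h2, h3, h4, h5, h6, h7, h8, h9, h10⟩ := has_st.1 h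
    generalize ht : [(0, 1), (0, 3), (0, 4), (0, 5), (1, 1), (1, 3), (3, 3), (4, 4), (5, 5), (2, 5),
      (2, 2), (2, 6), (6, 6), (5, 7), (7, 7), (5, 8), (8, 8)] = t at a n
    have : ¬ ∃ x < 9, ∃ y < 9, TA t x y ∧ ∃ z < 9, TA t x z ∧ TN t y z ∧ ∃ v < 9, TA t x v ∧ TN t y v ∧
        TN t z v ∧ ∃ w < 9, TA t x w ∧ TN t y w ∧ TN t z w ∧ TN t v w := by
      subst ht; decide +kernel
    exact this ⟨_, p x, _, p y, a _ _ h1, _, p z, a _ _ h2, n _ _ h3, _, p v, a _ _ h4, n _ _ h5,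
      n _ _ h6, _, p w, a _ _ h7, n _ _ h8, n _ _ h9, n _ _ h10⟩
  · obtain ⟨x3, y3, z3⟩ := c 3 (by simp) (by simp)
    obtain ⟨x4, y4, z4⟩ := c 4 (by simp) (by simp)
    obtain ⟨x5, y5, z5⟩ := c 5 (by simp) (by simp)
    obtain ⟨x6, y6, z6⟩ := c 6 (by simp) (by simp)
    obtain ⟨x7, y7, z7⟩ := c 7 (by simp) (by simp)
    obtain ⟨x8, y8, z8⟩ := c 8 (by simp) (by simp)
    have ne : ∀ {a b}, π a ≠ π b → a ≠ b := fun e c => e (c ▸ rfl)
    generalize ht : [(0, 1), (0, 3), (0, 4), (0, 5), (1, 1), (1, 3), (3, 3), (4, 4), (5, 5), (2, 5),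
      (2, 2), (2, 6), (6, 6), (5, 7), (7, 7), (5, 8), (8, 8)] = t at a b
    have aa : ∀ {x y z i j}, U L z → R L x y → π y = i → π z = j → π x ≠ j ∧ i ≠ j ∧ T0 t i j → A G L x z := by
      rintro x y z _ _ s r rfl rfl e
      exact s.a (ne e.1) r (b _ _ e.2.1 e.2.2)
    have nn : ∀ {x y i j}, U L x → U L y → π x = i → π y = j → i ≠ j ∧ ¬ T1 t i j → N G L x y := by
      rintro x y _ _ s r rfl rfl e
      exact s.n r (ne e.1) fun c => e.2 (a _ _ c)
    have r0 := R.refl (L := L) u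
    have k : ∀ y, R L u y → π y ≠ 5 ∧ π y ≠ 2 := fun y r => ⟨fun e => h (has_st.2 ⟨u, x3, x4, x7, x8, by
      subst ht
      refine ⟨aa y3 r0 p0 z3 ?_, aa y4 r0 p0 z4 ?_, nn y3 y4 z3 z4 ?_, aa y7 r e z7 ?_, nn y3 y7 z3 z7 ?_,
        nn y4 y7 z4 z7 ?_, aa y8 r e z8 ?_, nn y3 y8 z3 z8 ?_, nn y4 y8 z4 z8 ?_, nn y7 y8 z7 z8 ?_⟩ <;>
      (try rw [p0]) <;> decide⟩), fun e => h (has_st.2 ⟨u, x3, x4, x5, x6, by
      subst ht
      refine ⟨aa y3 r0 p0 z3 ?_, aa y4 r0 p0 z4 ?_, nn y3 y4 z3 z4 ?_, aa y5 r0 p0 z5 ?_, nn y3 y5 z3 z5 ?_,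
        nn y4 y5 z4 z5 ?_, aa y6 r e z6 ?_, nn y3 y6 z3 z6 ?_, nn y4 y6 z4 z6 ?_, nn y5 y6 z5 z6 ?_⟩ <;>
      (try rw [p0]) <;> decide⟩)⟩
    have k2 : ∀ y, R L u y → π y = 0 ∨ π y = 1 ∨ π y = 3 ∨ π y = 4 := fun y r => by
      induction r with
      | refl => simp [p0]
      | tail r e ih =>
        have := k _ (r.tail e)
        have := a _ _ (e.elim (l _) fun e => (l _ e).symm)
        subst ht
        simp [T1, T0] at this; omega
    have un : ∀ {x i}, U L x → π x = i → i = 2 ∨ 6 < i → (∀ y, R L u y → G.Adj y x → π y ≠ 1) →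
        N G L u x := fun {x i} s e z q => ⟨fun r => ne (by omega) (s.eq r.symm), fun r => by
      obtain ⟨y, r, j⟩ := s.ca.1 r
      have := k2 _ r
      have := q _ r j
      have := a _ _ j
      subst ht
      simp [T1, T0] at this; omega⟩
    have q : ∀ {x i}, π x = i → 6 < i → ∀ y, R L u y → G.Adj y x → π y ≠ 1 := fun e z y _ j => by
      have := a _ _ j
      subst ht
      simp [T1, T0] at this; omega
    by_contra e
    refine h (has_st.2 ⟨x5, u, d, x7, x8, (aa y5 r0 p0 z5 ?_).symm, aa d1 (.refl _) z5 d2 ?_,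
      un d1 d2 (by simp) fun y r j c => e ⟨y, r, c, j⟩, aa y7 (.refl _) z5 z7 ?_,
      un y7 z7 (by simp) (q z7 (by simp)), nn d1 y7 d2 z7 ?_, aa y8 (.refl _) z5 z8 ?_,
      un y8 z8 (by simp) (q z8 (by simp)), nn d1 y8 d2 z8 ?_, nn y7 y8 z7 z8 ?_⟩) <;>
    subst ht <;> (try rw [p0]) <;> (try rw [z5]) <;> decide

end Pool.Agent.Cx.Con
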