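import Pool.Agent.Lib.helper10.Con1

/-! Structure of the target class and moving a solution to a bounded set of vertices. -/

namespace Pool.Agent.Cx.Con

open SimpleGraph Relation Finset

variable {V : Type} {G : SimpleGraph V} {L : List (V × V)}

open Classical in
lemma greedy (G : SimpleGraph V) (S : Finset V) (q : ℕ)
    (h : ∀ y ∈ S, (S.filter fun x => ¬ Gᶜ.Adj y x).card ≤ q) (hS : 3 * q < S.card) :
    ∃ a ∈ S, ∃ b ∈ S, ∃ c ∈ S, ∃ d ∈ S, Gᶜ.Adj a b ∧ Gᶜ.Adj a c ∧ Gᶜ.Adj b c ∧ Gᶜ.Adj a d ∧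
      Gᶜ.Adj b d ∧ Gᶜ.Adj c d := by
  obtain ⟨a, a1⟩ := card_pos.1 (show 0 < S.card by omega)
  have a2 := h a a1
  obtain ⟨b, b1, b2⟩ := exists_mem_notMem_of_card_lt_card (t := S) (a2.trans_lt (by omega))
  have b3 := (card_union_le _ _).trans (add_le_add a2 (h b b1))
  obtain ⟨c, c1, c2⟩ := exists_mem_notMem_of_card_lt_card (t := S) (b3.trans_lt (by omega))
  have c3 := (card_union_le _ _).trans (add_le_add b3 (h c c1))
  obtain ⟨d, d1, d2⟩ := exists_mem_notMem_of_card_lt_card (t := S) (c3.trans_lt (by omega))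
  simp only [mem_union, mem_filter, b1, c1, d1, true_and, not_or, not_not] at b2 c2 d2
  exact ⟨a, a1, b, b1, c, c1, d, d1, b2, c2.1, c2.2, d2.1.1, d2.1.2, d2.2⟩

open Classical in
lemma struct [Fintype V] (h1 : ¬ St (A G L) (N G L)) (h2 : ¬ Tr (A G L) (N G L)) :
    ∃ Γ ∈ [G, Gᶜ], ∀ v, U L v → (univ.filter (Γ.Adj v)).card ≤ 36 + 2 * L.length := by
  have aa : ∀ {a b}, U L b → G.Adj a b → A G L a b := fun h e => h.a e.ne (.refl _) e
  have nn : ∀ {a b}, U L a → U L b → Gᶜ.Adj a b → N G L a b := fun g h e => g.n h e.1 e.2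
  have st : ∀ (c) (S : Finset V) q, (∀ y ∈ S, U L y ∧ G.Adj c y) →
      (∀ y ∈ S, (S.filter fun x => ¬ Gᶜ.Adj y x).card ≤ q) → S.card ≤ 3 * q := fun c S q h g => by
    by_contra e
    obtain ⟨a, a1, b, b1, x, c1, d, d1, e1, e2, e3, e4, e5, e6⟩ := greedy G S q g (not_le.1 e)
    have a1 := h a a1; have b1 := h b b1; have c1 := h x c1; have d1 := h d d1
    exact h1 ⟨c, a, b, x, d, aa a1.1 a1.2, aa b1.1 b1.2, nn a1.1 b1.1 e1, aa c1.1 c1.2, nn a1.1 c1.1 e2,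
      nn b1.1 c1.1 e3, aa d1.1 d1.2, nn a1.1 d1.1 e4, nn b1.1 d1.1 e5, nn c1.1 d1.1 e6⟩
  have ind : ∀ (c) (S : Finset V), (∀ y ∈ S, U L y ∧ G.Adj c y) → (∀ x ∈ S, ∀ y ∈ S, ¬ G.Adj x y) →
      S.card ≤ 3 := fun c S h g => st c S 1 h fun y hy => (card_le_card (t := {y}) fun x hx => by
      simp only [mem_filter, compl_adj, not_and, not_not, mem_singleton] at hx ⊢
      by_contra e
      exact g _ hy _ hx.1 (hx.2 (Ne.symm e))).trans (by simp)
  have fin : ∀ (Γ : SimpleGraph V) v, (univ.filter fun x => U L x ∧ Γ.Adj v x).card ≤ 36 →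
      (univ.filter (Γ.Adj v)).card ≤ 36 + 2 * L.length := fun Γ v h =>
    (card_le_card (t := (univ.filter fun x => U L x ∧ Γ.Adj v x) ∪ tch L) fun x hx => by
      simp only [mem_union, mem_filter, mem_tch] at *; tauto).trans
      ((card_union_le _ _).trans (add_le_add h card_tch))
  by_cases t : ∃ a b c, U L a ∧ U L b ∧ U L c ∧ G.Adj a b ∧ G.Adj a c ∧ G.Adj b c
  · obtain ⟨a, b, c, a1, b1, c1, e1, e2, e3⟩ := t
    refine ⟨Gᶜ, by simp, fun v hv => fin _ _ ?_⟩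
    have : ∀ e, (univ.filter fun x => (U L x ∧ Gᶜ.Adj v x) ∧ G.Adj e x).card ≤ 12 := fun e =>
      st e _ 4 (fun y h => by simp only [mem_filter] at h; tauto) fun y hy => by
        refine (card_le_card (t := insert y (univ.filter fun x => (U L x ∧ Gᶜ.Adj v x) ∧ G.Adj y x))
          fun x hx => ?_).trans ((card_insert_le _ _).trans (Nat.succ_le_succ (ind y _ (fun y h => by
            simp only [mem_filter] at h; tauto) fun x hx z hz e => ?_)))
        · simp only [mem_filter, mem_insert, compl_adj G y] at *; tauto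
        · simp only [mem_filter] at hx hy hz
          exact h2 ⟨y, x, z, v, aa hx.2.1.1 hx.2.2, aa hz.2.1.1 hz.2.2, aa hz.2.1.1 e,
            nn hv hy.2.1.1 hy.2.1.2, nn hv hx.2.1.1 hx.2.1.2, nn hv hz.2.1.1 hz.2.1.2⟩
    refine (card_le_card fun x hx => ?_).trans ((card_union_le _ _).trans (add_le_add
      ((card_union_le _ _).trans (add_le_add (this a) (this b))) (this c)))
    simp only [mem_filter, mem_union, mem_univ, true_and] at hx ⊢
    simp only [hx, true_and]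
    by_contra e
    simp only [not_or] at e
    exact h2 ⟨a, b, c, x, aa b1 e1, aa c1 e2, aa c1 e3,
      hx.1.n a1 (fun q => e.1.2 (q ▸ e1.symm)) fun q => e.1.1 q.symm,
      hx.1.n b1 (fun q => e.1.1 (q ▸ e1)) fun q => e.1.2 q.symm,
      hx.1.n c1 (fun q => e.1.1 (q ▸ e2)) fun q => e.2 q.symm⟩
  · refine ⟨G, by simp, fun v hv => fin _ _ ((ind v _ (fun y h => (mem_filter.1 h).2)
      fun x hx y hy e => t ?_).trans (by simp))⟩
    simp only [mem_filter] at hx hy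
    exact ⟨v, x, y, hv, hx.2.1, hy.2.1, hx.2.2, hy.2.2, e⟩

lemma chain (P : ℕ → V → Prop) (h : ∀ j a, P j a → P (j + 1) a) (S : Finset V) :
    ∃ j ≤ S.card, ∀ a ∈ S, P (j + 1) a → P j a := by
  classical
  by_contra e
  push Not at e
  have : ∀ j ≤ S.card + 1, j ≤ (S.filter (P j)).card := fun j hj => by
    induction j with
    | zero => simp
    | succ j ih =>
      obtain ⟨a, a1, a2, a3⟩ := e j (by omega)
      exact (ih (by omega)).trans_lt (card_lt_card ⟨fun x => by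
        simp only [mem_filter]; exact And.imp_right (h _ _), fun c => by
          have := c (mem_filter.2 ⟨a1, a2⟩); simp [a3] at this⟩)
  have := (this _ le_rfl).trans (card_filter_le _ _)
  omega

variable (Γ : SimpleGraph V) (X : Set V)

/-- at distance at most `r` in `Γ - X` -/
def Nr : ℕ → V → V → Prop
  | 0, a, b => a = b
  | r + 1, a, b => ∃ c, Nr r a c ∧ (c = b ∨ (Γ.Adj c b ∧ c ∉ X ∧ b ∉ X))

def Sim (ρ : ℕ) (v w : V) : Prop := ∃ φ : V → V → Prop,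
  (∀ r ≤ ρ, ∀ a, Nr Γ X r v a → ∃ b, Nr Γ X r w b ∧ φ a b) ∧
  (∀ r ≤ ρ, ∀ b, Nr Γ X r w b → ∃ a, Nr Γ X r v a ∧ φ a b) ∧
  (∀ a b c d, φ a b → φ c d → (a = c ↔ b = d) ∧ (Γ.Adj a c ↔ Γ.Adj b d)) ∧
  ∀ a b, φ a b → ∀ x ∈ X, (Γ.Adj a x ↔ Γ.Adj b x)

variable {Γ X}

lemma Nr.mono {r s : ℕ} {a b : V} (h : Nr Γ X r a b) (e : r ≤ s) : Nr Γ X s a b := by
  induction e with
  | refl => exact h
  | step _ ih => exact ⟨_, ih, Or.inl rfl⟩

lemma Nr.add {r s : ℕ} {a b c : V} (h : Nr Γ X r a b) (g : Nr Γ X s b c) : Nr Γ X (r + s) a c := by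
  induction s generalizing c with
  | zero => exact g ▸ h
  | succ s ih => exact let ⟨d, x, y⟩ := g; ⟨d, ih x, y⟩

lemma Nr.symm {r : ℕ} {a b : V} (h : Nr Γ X r a b) : Nr Γ X r b a := by
  induction r generalizing b with
  | zero => exact Eq.symm h
  | succ r ih =>
    obtain ⟨c, x, y⟩ := h
    rw [add_comm]
    exact Nr.add ⟨b, rfl, y.imp Eq.symm fun y => ⟨y.1.symm, y.2.2, y.2.1⟩⟩ (ih x)

lemma Nr.out {r : ℕ} {a b : V} (h : Nr Γ X r a b) (e : a ∉ X) : b ∉ X := by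
  induction r generalizing b with
  | zero => exact h ▸ e
  | succ r ih => exact let ⟨c, x, y⟩ := h; y.elim (fun y => y ▸ ih x) fun y => y.2.2

lemma swap {ρ : ℕ} {v w : V} (hv : v ∉ X) (hw : w ∉ X) (h : Sim Γ X ρ v w)
    (d : ∀ a, Nr Γ X ρ v a → ¬ Nr Γ X ρ w a) : ∃ (f : V → V) (σ : ℕ → V → V), ∀ r < ρ,
      (∀ a, σ r (σ r a) = a) ∧ (∀ a, Nr Γ X r v a → σ r a = f a ∧ Nr Γ X r w (f a)) ∧
      (∀ a, ¬ Nr Γ X r v a → ¬ Nr Γ X r w a → σ r a = a) ∧
      ∀ a b, (Nr Γ X (r + 1) v a ∨ Nr Γ X (r + 1) w a → Nr Γ X r v a ∨ Nr Γ X r w a) →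
        (Nr Γ X (r + 1) v b ∨ Nr Γ X (r + 1) w b → Nr Γ X r v b ∨ Nr Γ X r w b) →
        (Γ.Adj (σ r a) (σ r b) ↔ Γ.Adj a b) := by
  classical
  obtain ⟨φ, h1, h2, h3, h4⟩ := h
  have : Nonempty V := ⟨v⟩
  choose! f hf using h1 ρ le_rfl
  choose! g hg using h2 ρ le_rfl
  refine ⟨f, fun r a => if Nr Γ X r v a then f a else if Nr Γ X r w a then g a else a, fun r hr => ?_⟩
  have f1 : ∀ a, Nr Γ X r v a → Nr Γ X r w (f a) ∧ φ a (f a) := fun a e => by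
    obtain ⟨b, x, y⟩ := h1 r hr.le a e
    rw [← (h3 _ _ _ _ y (hf a (e.mono hr.le)).2).1.1 rfl]; exact ⟨x, y⟩
  have g1 : ∀ a, Nr Γ X r w a → Nr Γ X r v (g a) ∧ φ (g a) a := fun a e => by
    obtain ⟨b, x, y⟩ := h2 r hr.le a e
    rw [← (h3 _ _ _ _ y (hg a (e.mono hr.le)).2).1.2 rfl]; exact ⟨x, y⟩
  have d1 : ∀ a, Nr Γ X r v a → ¬ Nr Γ X r w a := fun a x y => d a (x.mono hr.le) (y.mono hr.le)
  have d2 : ∀ a b, Nr Γ X r v a → Nr Γ X r w b → ¬ Γ.Adj a b := fun a b x y e =>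
    d b (Nr.mono (r := r + 1) ⟨a, x, Or.inr ⟨e, x.out hv, y.out hw⟩⟩ hr) (y.mono hr.le)
  have d3 : ∀ a b c, φ a b → Nr Γ X r v a → Nr Γ X r w b → ¬ (Nr Γ X (r + 1) v c ∨ Nr Γ X (r + 1) w c) →
      (Γ.Adj a c ↔ Γ.Adj b c) := fun a b c e x y z => by
    by_cases q : c ∈ X
    · exact h4 _ _ e _ q
    · exact iff_of_false (fun j => z (Or.inl ⟨a, x, Or.inr ⟨j, x.out hv, q⟩⟩))
        fun j => z (Or.inr ⟨b, y, Or.inr ⟨j, y.out hw, q⟩⟩)
  refine ⟨fun a => ?_, fun a e => ⟨if_pos e, (f1 a e).1⟩, fun a x y => by simp [x, y], fun a b x y => ?_⟩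
  · by_cases x : Nr Γ X r v a
    · have := f1 a x
      simp only [x, if_true, this.1, if_neg fun e => d1 _ e this.1]
      exact (h3 _ _ _ _ (g1 _ this.1).2 this.2).1.2 rfl
    by_cases y : Nr Γ X r w a
    · have := g1 a y
      simp only [x, y, if_true, if_false, this.1]
      exact (h3 _ _ _ _ (f1 _ this.1).2 this.2).1.1 rfl
    simp [x, y]
  · dsimp only
    split_ifs with a1 b1 b2 a2 b1 b2 b1 b2
    · exact (h3 _ _ _ _ (f1 a a1).2 (f1 b b1).2).2.symm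
    · exact iff_of_false (fun e => d2 _ _ (g1 b b2).1 (f1 a a1).1 e.symm) (d2 _ _ a1 b2)
    · exact (d3 _ _ _ (f1 a a1).2 a1 (f1 a a1).1 (by tauto)).symm
    · exact iff_of_false (d2 _ _ (g1 a a2).1 (f1 b b1).1) fun e => d2 _ _ b1 a2 e.symm
    · exact (h3 _ _ _ _ (g1 a a2).2 (g1 b b2).2).2
    · exact d3 _ _ _ (g1 a a2).2 (g1 a a2).1 a2 (by tauto)
    · rw [Γ.adj_comm, Γ.adj_comm a]; exact (d3 _ _ _ (f1 b b1).2 b1 (f1 b b1).1 (by tauto)).symm
    · rw [Γ.adj_comm, Γ.adj_comm a]; exact d3 _ _ _ (g1 b b2).2 (g1 b b2).1 b2 (by tauto)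
    · rfl

def Bad (G : SimpleGraph V) (L : List (V × V)) : Prop := St (A G L) (N G L) ∨ Tr (A G L) (N G L)

lemma Bad.loc [DecidableEq V] {L' : List (V × V)} (h : ∀ Z : Finset V, Z.card ≤ 5 → ∃ σ : V → V, ∀ a ∈ Z, ∀ b ∈ Z,
    (A G L a b → A G L' (σ a) (σ b)) ∧ (N G L a b → N G L' (σ a) (σ b))) (b : Bad G L) : Bad G L' := by
  rcases b with ⟨c, a, b, d, e, h1, h2, h3, h4, h5, h6, h7, h8, h9, h10⟩ | ⟨a, b, c, v, h1, h2, h3, h4, h5, h6⟩
  · obtain ⟨σ, h⟩ := h {c, a, b, d, e} card_le_five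
    simp only [mem_insert, mem_singleton, forall_eq_or_imp, forall_eq] at h
    exact Or.inl ⟨σ c, σ a, σ b, σ d, σ e, by simp only [*, true_imp_iff] at h; simp only [h, and_self]⟩
  · obtain ⟨σ, h⟩ := h {a, b, c, v} (card_le_four.trans (by simp))
    simp only [mem_insert, mem_singleton, forall_eq_or_imp, forall_eq] at h
    exact Or.inr ⟨σ a, σ b, σ c, σ v, by simp only [*, true_imp_iff] at h; simp only [h, and_self]⟩

lemma R.map {L' : List (V × V)} (s : V → V) (h : ∀ a b, (a, b) ∈ L → (s a, s b) ∈ L') {a b : V}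
    (r : R L a b) : R L' (s a) (s b) := by
  induction r with
  | refl => exact .refl _
  | tail _ e ih => exact ih.tail (e.imp (h _ _) (h _ _))

theorem exch (hG : Γ ∈ [G, Gᶜ]) {S : Set V} {k ρ : ℕ} (hρ : 6 * (2 * k + 1) ≤ ρ)
    (hS : ∀ v ∉ S, v ∉ X ∧ ∀ T : Finset V, T.card ≤ 2 * k → ∃ w ∉ X, Sim Γ X ρ v w ∧
      (∀ a, Nr Γ X ρ w a → a ∈ S) ∧ ∀ t ∈ T, ¬ Nr Γ X (ρ + ρ) t w) (h : Sol G k fun L => ¬ Bad G L) :
    Sol G k fun L => ¬ Bad G L ∧ ∀ a, ¬ U L a → a ∈ S := by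
  classical
  obtain ⟨L, l1, l2, l3⟩ := h
  induction hm : ((tch L).filter (· ∉ S)).card using Nat.strong_induction_on generalizing L with
  | _ m ih =>
  by_cases c : ∀ a, ¬ U L a → a ∈ S
  · exact ⟨L, l1, l2, l3, c⟩
  push Not at c
  obtain ⟨v, v1, v2⟩ := c
  have tk : (tch L).card ≤ 2 * k := card_tch.trans (by omega)
  obtain ⟨w, w1, w2, w3, w4⟩ := (hS v v2).2 _ tk
  simp only [mem_tch] at w4
  obtain ⟨f, σ, hσ⟩ := swap (hS v v2).1 w1 w2 fun a x y => w4 v v1 (x.add y.symm)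
  obtain ⟨j, j1, j2⟩ := chain (fun j => Nr Γ X (6 * j) v) (fun j a e => e.mono (by omega)) (tch L)
  simp only [mem_tch] at j2
  have t1 : ∀ r ≤ ρ, ∀ t, ¬ U L t → ¬ Nr Γ X r w t := fun r e t x y => w4 t x (y.symm.mono (by omega))
  have t2 : ∀ i < 6, ∀ t, ¬ U L t → σ (6 * j + i) t = σ (6 * j) t := fun i e t x => by
    by_cases y : Nr Γ X (6 * j) v t
    · rw [((hσ _ (by omega)).2.1 t y).1, ((hσ _ (by omega)).2.1 t (y.mono (by omega))).1]
    · rw [(hσ _ (by omega)).2.2.1 t y (t1 _ (by omega) t x), (hσ _ (by omega)).2.2.1 t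
        (fun z => y (j2 t x (z.mono (by omega)))) (t1 _ (by omega) t x)]
  have t3 : ∀ p ∈ L, ¬ U L p.1 ∧ ¬ U L p.2 := fun p e => ⟨fun x => (x p e).1 rfl, fun x => (x p e).2 rfl⟩
  have t4 : ∀ a, ¬ U (L.map (Prod.map (σ (6 * j)) (σ (6 * j)))) a →
      Nr Γ X (6 * j) w a ∨ (¬ U L a ∧ ¬ Nr Γ X (6 * j) v a) := fun a x => by
    obtain ⟨t, x', rfl⟩ : ∃ t, ¬ U L t ∧ σ (6 * j) t = a := by
      simp only [U, List.mem_map, forall_exists_index, and_imp, forall_apply_eq_imp_iff₂, not_forall,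
        not_and_or, not_not] at x
      obtain ⟨p, x, y⟩ := x
      exact y.elim (fun y => ⟨_, (t3 p x).1, y⟩) fun y => ⟨_, (t3 p x).2, y⟩
    by_cases y : Nr Γ X (6 * j) v t
    · have := (hσ _ (by omega)).2.1 t y
      exact Or.inl (this.1 ▸ this.2)
    · rw [(hσ _ (by omega)).2.2.1 t y (t1 _ (by omega) t x')]; exact Or.inr ⟨x', y⟩
  have t5 : ∀ i < 6, ∀ a, ¬ U L a → Nr Γ X (6 * j + i + 1) v a ∨ Nr Γ X (6 * j + i + 1) w a →
      Nr Γ X (6 * j + i) v a ∨ Nr Γ X (6 * j + i) w a := fun i e a x y => Or.inl ((j2 a x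
    ((y.resolve_right (t1 _ (by omega) a x)).mono (by omega))).mono (by omega))
  have t6 : ∀ r < ρ, ∀ a b, (Nr Γ X (r + 1) v a ∨ Nr Γ X (r + 1) w a → Nr Γ X r v a ∨ Nr Γ X r w a) →
      (Nr Γ X (r + 1) v b ∨ Nr Γ X (r + 1) w b → Nr Γ X r v b ∨ Nr Γ X r w b) →
      (G.Adj (σ r a) (σ r b) ↔ G.Adj a b) := fun r e a b x y => by
    have := (hσ r e).2.2.2 a b x y
    have i : σ r a = σ r b ↔ a = b := (Function.Involutive.injective (hσ r e).1).eq_iff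
    simp only [List.mem_cons, List.not_mem_nil, or_false] at hG
    rcases hG with rfl | rfl
    · exact this
    · by_cases c : a = b
      · simp [c]
      · simpa [i, c, not_iff_not] using this
  refine ih _ ?_ (L.map (Prod.map (σ (6 * j)) (σ (6 * j)))) (by simpa) ?_ (fun b => l3 (b.loc fun Z hZ => ?_)) rfl
  · refine hm ▸ card_lt_card ⟨fun a x => ?_, fun x => ?_⟩
    · simp only [mem_filter, mem_tch] at x ⊢
      exact ⟨((t4 a x.1).resolve_left fun y => x.2 (w3 a (y.mono (by omega)))).1, x.2⟩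
    · have := x (show v ∈ _ by simp [mem_tch, v1, v2])
      simp only [mem_filter, mem_tch] at this
      exact (t4 v this.1).elim (t1 _ (by omega) v v1) fun y => y.2 (Nr.mono (r := 0) rfl (by omega))
  · simp only [List.mem_map, forall_exists_index, and_imp, forall_apply_eq_imp_iff₂]
    exact fun p e => (t6 _ (by omega) _ _ (t5 0 (by omega) _ (t3 p e).1) (t5 0 (by omega) _ (t3 p e).2)).2
      (l2 p e)
  obtain ⟨i, i1, i2⟩ := chain (fun i a => Nr Γ X (6 * j + i) v a ∨ Nr Γ X (6 * j + i) w a)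
    (fun i a e => e.imp (·.mono (by omega)) (·.mono (by omega))) Z
  have s1 := (hσ (6 * j + i) (by omega)).1
  have s2 : ∀ a b, (a, b) ∈ L.map (Prod.map (σ (6 * j)) (σ (6 * j))) ↔
      (σ (6 * j + i) a, σ (6 * j + i) b) ∈ L := fun a b => by
    simp only [List.mem_map, Prod.exists, Prod.map, Prod.mk.injEq]
    constructor
    · rintro ⟨c, d, e, rfl, rfl⟩
      rwa [← t2 i (by omega) c (t3 _ e).1, ← t2 i (by omega) d (t3 _ e).2, s1, s1]
    · exact fun e => ⟨_, _, e, by rw [← t2 i (by omega) _ (t3 _ e).1, s1],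
        by rw [← t2 i (by omega) _ (t3 _ e).2, s1]⟩
  generalize L.map (Prod.map (σ (6 * j)) (σ (6 * j))) = L' at *
  have s3 : ∀ a b, R L' a b ↔ R L (σ (6 * j + i) a) (σ (6 * j + i) b) := fun a b =>
    ⟨R.map _ fun _ _ => (s2 _ _).1, fun e => by
      have := R.map (L' := L') (σ (6 * j + i)) (fun _ _ e => by simpa only [s2, s1] using e) e
      rwa [s1, s1] at this⟩
  have s4 : ∀ a ∈ Z, ∀ b, R L' a b → Nr Γ X (6 * j + i + 1) v b ∨ Nr Γ X (6 * j + i + 1) w b →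
      Nr Γ X (6 * j + i) v b ∨ Nr Γ X (6 * j + i) w b := fun a x b e => by
    by_cases c : U L' b
    · exact c.eq e.symm ▸ i2 a x
    · exact (t4 b c).elim (fun y _ => Or.inr (y.mono (by omega))) fun y => t5 i (by omega) b y.1
  have s5 : ∀ a ∈ Z, ∀ b ∈ Z, CA G L' a b ↔ CA G L (σ (6 * j + i) a) (σ (6 * j + i) b) :=
    fun a x b y => ⟨fun ⟨c, d, e1, e2, e⟩ => ⟨_, _, (s3 _ _).1 e1, (s3 _ _).1 e2,
      (t6 _ (by omega) _ _ (s4 a x c e1) (s4 b y d e2)).2 e⟩, fun ⟨c, d, e1, e2, e⟩ => by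
      rw [← s1 c, ← s3] at e1
      rw [← s1 d, ← s3] at e2
      exact ⟨_, _, e1, e2, (t6 _ (by omega) _ _ (s4 a x _ e1) (s4 b y _ e2)).1 (by rwa [s1, s1])⟩⟩
  exact ⟨σ (6 * j + i), fun a x b y => by simp [A, N, s3, s5 a x b y]⟩

end Pool.Agent.Cx.Con
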