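import Pool.Agent.Lib.helper10.NPGraph

/-! Edge contraction to graphs without given induced subgraphs. -/

namespace Pool.Agent.Cx

open SimpleGraph

/-- `G / F`: the vertices are the components of `(V, F)`; two of them are adjacent when an edge of
`G` joins them -/
def contract {V : Type} (G : SimpleGraph V) (F : Finset (Sym2 V)) :
    SimpleGraph (fromEdgeSet (F : Set (Sym2 V))).ConnectedComponent :=
  fromRel fun C D => ∃ u ∈ C.supp, ∃ v ∈ D.supp, G.Adj u v

/-- contracting some set of at most `k` edges leaves no induced copy of a member of the family -/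
def FreeCon (𝓕 : Set (Σ n : ℕ, SimpleGraph (Fin n))) (z : List (List Bool) × ℕ) : Prop :=
  IsGraph z.1 ∧ ∃ F : Finset (Sym2 (Fin z.1.length)), (F : Set _) ⊆ (graphOf z.1).edgeSet ∧
    F.card ≤ z.2 ∧ ∀ H ∈ 𝓕, IsEmpty (H.2 ↪g contract (graphOf z.1) F)

/-- the star with four leaves -/
def K14 : Σ n : ℕ, SimpleGraph (Fin n) := ⟨5, fromRel fun a _ => a = 0⟩

/-- a triangle and an isolated vertex -/
def K1K3 : Σ n : ℕ, SimpleGraph (Fin n) := ⟨4, fromRel fun a b => a ≠ 0 ∧ b ≠ 0⟩

/-- DOMINATING SET reduces to `P` in polynomial time with a computable bound on the parameter -/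
def W2Hard {α : Type} [Enc α] (P : α → Prop) (κ : α → ℕ) : Prop :=
  ∃ (F : List Bool → List Bool) (g : ℕ → ℕ), PolyTime F ∧ Computable g ∧
    ∀ (M : List (List Bool)) (k : ℕ), IsGraph M → ∃ a, F (enc (M, k)) = enc a ∧
      ((∃ S : Finset (Fin M.length), S.card ≤ k ∧ ∀ v, v ∈ S ∨ ∃ u ∈ S, (graphOf M).Adj u v) ↔ P a) ∧
      κ a ≤ g k

end Pool.Agent.Cx
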