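import Mathlib

/-! Short straight-line programs in powers of a finite union of groups. -/

namespace Pool.Agent.Cr

section
variable {M M' : Type} [Monoid M] [Monoid M']

inductive Slp (A : Set M) : List M → Prop
  | nil : Slp A []
  | gen {a L} : a ∈ A ∨ a = 1 → Slp A L → Slp A (a :: L)
  | mul {x y L} : x ∈ L → y ∈ L → Slp A L → Slp A (x * y :: L)

def Cost (A : Set M) (c : ℕ) (x : M) : Prop := ∃ L, Slp A L ∧ L.length ≤ c ∧ x ∈ L

variable {A B : Set M} {L L' : List M} {c d : ℕ} {x y : M}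

lemma Slp.mono (h : Slp A L) (e : A ⊆ B) : Slp B L := by
  induction h with
  | nil => exact .nil
  | gen a _ ih => exact .gen (a.imp_left (@e _)) ih
  | mul a b _ ih => exact .mul a b ih

lemma Slp.ext (h : Slp A L) (h' : Slp (A ∪ {x | x ∈ L}) L') :
    ∃ L'', Slp A L'' ∧ L''.length ≤ L'.length + L.length ∧ ∀ x, x ∈ L' ∨ x ∈ L → x ∈ L'' := by
  induction h' with
  | nil => exact ⟨L, h, by simp, by simp⟩
  | @gen a K g _ ih =>
    obtain ⟨Q, q1, q2, q3⟩ := ih
    by_cases e : a ∈ L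
    · refine ⟨Q, q1, by simp; omega, ?_⟩
      rintro x (g | g)
      · rcases List.mem_cons.1 g with rfl | g
        · exact q3 _ (Or.inr e)
        · exact q3 _ (Or.inl g)
      · exact q3 _ (Or.inr g)
    · refine ⟨a :: Q, .gen (g.imp_left fun g => g.resolve_right e) q1, by simp; omega, ?_⟩
      simp only [List.mem_cons]
      exact fun x g => by have := q3 x; tauto
  | @mul a b K ha hb _ ih =>
    obtain ⟨Q, q1, q2, q3⟩ := ih
    refine ⟨a * b :: Q, .mul (q3 _ (Or.inl ha)) (q3 _ (Or.inl hb)) q1, by simp; omega, ?_⟩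
    simp only [List.mem_cons]
    exact fun x g => by have := q3 x; tauto

lemma Cost.mono (h : Cost A c x) (e : A ⊆ B) (f : c ≤ d) : Cost B d x :=
  let ⟨L, a, b, g⟩ := h; ⟨L, a.mono e, b.trans f, g⟩

lemma Cost.le (h : Cost A c x) (f : c ≤ d) : Cost A d x := h.mono subset_rfl f

lemma Cost.gen (h : x ∈ A) : Cost A 1 x := ⟨[x], .gen (Or.inl h) .nil, by simp, by simp⟩

lemma Cost.one : Cost A 1 1 := ⟨[1], .gen (Or.inr rfl) .nil, by simp, by simp⟩

lemma Cost.mul (h : Cost A c x) (g : Cost A d y) : Cost A (c + d + 1) (x * y) := by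
  obtain ⟨L, a1, a2, a3⟩ := h
  obtain ⟨K, b1, b2, b3⟩ := g
  obtain ⟨Q, q1, q2, q3⟩ := a1.ext (b1.mono Set.subset_union_left)
  exact ⟨x * y :: Q, .mul (q3 _ (Or.inr a3)) (q3 _ (Or.inl b3)) q1, by simp; omega, by simp⟩

lemma Cost.pow (h : Cost A c x) (m : ℕ) : Cost A (m * (c + 1) + 1) (x ^ m) := by
  induction m with
  | zero => simpa using Cost.one
  | succ m ih => rw [pow_succ]; exact (ih.mul h).le (by nlinarith)

lemma Slp.mem (h : Slp A L) : ∀ x ∈ L, x ∈ Submonoid.closure A := by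
  induction h with
  | nil => simp
  | gen a _ ih =>
    refine List.forall_mem_cons.2 ⟨?_, ih⟩
    rcases a with a | rfl
    · exact Submonoid.subset_closure a
    · exact one_mem _
  | mul a b _ ih => exact List.forall_mem_cons.2 ⟨mul_mem (ih _ a) (ih _ b), ih⟩

lemma Cost.mem (h : Cost A c x) : x ∈ Submonoid.closure A := let ⟨_, a, _, g⟩ := h; a.mem _ g

lemma Cost.ext (h : Slp A L) (g : Cost (A ∪ {x | x ∈ L}) c x) : Cost A (c + L.length) x := by
  obtain ⟨K, b1, b2, b3⟩ := g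
  obtain ⟨Q, q1, q2, q3⟩ := h.ext b1
  exact ⟨Q, q1, by omega, q3 _ (Or.inl b3)⟩

lemma Cost.lift {f : M → M'} (f1 : f 1 = 1)
    (f2 : ∀ x y, f (x * y) = f x * f y ∨ f (y * x) = f x * f y) {y : M'}
    (h : Cost (f '' A) c y) : ∃ x, Cost A c x ∧ f x = y := by
  obtain ⟨K, b1, b2, b3⟩ := h
  have : ∃ L, Slp A L ∧ L.map f = K := by
    clear b2 b3
    induction b1 with
    | nil => exact ⟨[], .nil, rfl⟩
    | gen a _ ih =>
      obtain ⟨L, h, rfl⟩ := ih
      rcases a with ⟨a, g, rfl⟩ | rfl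
      · exact ⟨a :: L, .gen (Or.inl g) h, rfl⟩
      · exact ⟨1 :: L, .gen (Or.inr rfl) h, by simp [f1]⟩
    | mul a b _ ih =>
      obtain ⟨L, h, rfl⟩ := ih
      obtain ⟨x, a', rfl⟩ := List.mem_map.1 a
      obtain ⟨y, b', rfl⟩ := List.mem_map.1 b
      rcases f2 x y with e | e
      · exact ⟨x * y :: L, .mul a' b' h, by simp [e]⟩
      · exact ⟨y * x :: L, .mul b' a' h, by simp [e]⟩
  obtain ⟨L, h, rfl⟩ := this
  obtain ⟨x, a, rfl⟩ := List.mem_map.1 b3
  exact ⟨x, ⟨L, h, by simpa using b2, a⟩, rfl⟩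

lemma closure_map {f : M → M'} (f1 : f 1 = 1)
    (f2 : ∀ x y, f (x * y) = f x * f y ∨ f (x * y) = f y * f x)
    (h : x ∈ Submonoid.closure A) : f x ∈ Submonoid.closure (f '' A) := by
  induction h using Submonoid.closure_induction with
  | mem x h => exact Submonoid.subset_closure ⟨x, h, rfl⟩
  | one => rw [f1]; exact one_mem _
  | mul x y _ _ a b => rcases f2 x y with e | e <;> rw [e] <;> apply mul_mem <;> assumption

/-- the reachability lemma of Babai and Szemerédi -/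
lemma reach {G : Type} [Group G] [Finite G] (v : G → M) (hv : ∀ g h, v (g * h) = v g * v h)
    (Y : Set G) (hY : ∀ y ∈ Y, Cost A c (v y) ∧ Cost A c (v y⁻¹)) (h1 : Cost A c (v 1)) (t : ℕ)
    (ht : Nat.card G < 2 ^ t) {g : G} (hg : g ∈ Submonoid.closure Y) :
    Cost A (4 * t + 3 + (c + t * (2 * (4 * t + 4 + c)))) (v g) := by
  classical
  have key : ∀ i ≤ t, ∃ L, Slp A L ∧ L.length ≤ c + i * (2 * (4 * t + 4 + c)) ∧
      ∃ K : Finset G, 1 ∈ K ∧ (K.card = 2 ^ i ∨
        ∀ g ∈ Submonoid.closure Y, ∃ a ∈ K, ∃ b ∈ K, g = a⁻¹ * b) ∧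
      ∀ u ∈ K, Cost (A ∪ {x | x ∈ L}) (2 * i + 1) (v u) ∧
        Cost (A ∪ {x | x ∈ L}) (2 * i + 1) (v u⁻¹) := by
    intro i hi
    induction i with
    | zero =>
      obtain ⟨L, a, b, e⟩ := h1
      refine ⟨L, a, by simpa using b, {1}, by simp, by simp, ?_⟩
      simpa using Cost.gen (A := A ∪ {x | x ∈ L}) (Or.inr e)
    | succ i ih =>
      obtain ⟨L, a1, a2, K, k1, k2, k3⟩ := ih (by omega)
      by_cases cl : ∀ g ∈ Submonoid.closure Y, ∃ a ∈ K, ∃ b ∈ K, g = a⁻¹ * b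
      · exact ⟨L, a1, by nlinarith, K, k1, Or.inr cl, fun u hu =>
          ⟨(k3 u hu).1.le (by omega), (k3 u hu).2.le (by omega)⟩⟩
      have k2 := k2.resolve_right cl
      obtain ⟨a, ha, b, hb, y, hy, hz⟩ : ∃ a ∈ K, ∃ b ∈ K, ∃ y ∈ Y,
          ∀ a' ∈ K, ∀ b' ∈ K, a⁻¹ * b * y ≠ a'⁻¹ * b' := by
        by_contra! g
        refine cl fun x hx => ?_
        induction hx using Submonoid.closure_induction_right with
        | one => exact ⟨1, k1, 1, k1, by simp⟩
        | mul_right x _ y hy ih =>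
          obtain ⟨a, ha, b, hb, rfl⟩ := ih
          exact g a ha b hb y hy
      set z := a⁻¹ * b * y with ez
      have c1 : Cost (A ∪ {x | x ∈ L}) (4 * t + 4 + c) (v z) := by
        rw [ez, hv, hv]
        exact (((k3 a ha).2.mul (k3 b hb).1).mul ((hY y hy).1.mono Set.subset_union_left le_rfl)).le
          (by omega)
      have c2 : Cost (A ∪ {x | x ∈ L}) (4 * t + 4 + c) (v z⁻¹) := by
        rw [show z⁻¹ = y⁻¹ * b⁻¹ * a by simp [ez, mul_assoc], hv, hv]
        exact ((((hY y hy).2.mono Set.subset_union_left le_rfl).mul (k3 b hb).2).mul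
          (k3 a ha).1).le (by omega)
      obtain ⟨L1, p1, p2, p3⟩ := c1
      obtain ⟨L2, q1, q2, q3⟩ := c2
      obtain ⟨L3, r1, r2, r3⟩ := p1.ext (q1.mono Set.subset_union_left)
      obtain ⟨L4, s1, s2, s3⟩ := a1.ext r1
      have sub : A ∪ {x | x ∈ L} ⊆ A ∪ {x | x ∈ L4} :=
        Set.union_subset_union_right _ fun x hx => s3 x (Or.inr hx)
      have z1 : Cost (A ∪ {x | x ∈ L4}) 1 (v z) :=
        Cost.gen (Or.inr (s3 _ (Or.inl (r3 _ (Or.inr p3)))))
      have z2 : Cost (A ∪ {x | x ∈ L4}) 1 (v z⁻¹) :=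
        Cost.gen (Or.inr (s3 _ (Or.inl (r3 _ (Or.inl q3)))))
      refine ⟨L4, s1, by nlinarith, K ∪ K.image (· * z), by simp [k1], Or.inl ?_, fun u hu => ?_⟩
      · rw [Finset.card_union_of_disjoint, Finset.card_image_of_injective _ (mul_left_injective z),
          k2, pow_succ, mul_two]
        rw [Finset.disjoint_left]
        intro u hu hu'
        obtain ⟨w, hw, rfl⟩ := Finset.mem_image.1 hu'
        exact hz w hw _ hu (by simp)
      · rcases Finset.mem_union.1 hu with hu | hu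
        · exact ⟨(k3 u hu).1.mono sub (by omega), (k3 u hu).2.mono sub (by omega)⟩
        · obtain ⟨w, hw, rfl⟩ := Finset.mem_image.1 hu
          rw [mul_inv_rev, hv w z, hv z⁻¹ w⁻¹]
          have w1 := ((k3 w hw).1.mono sub le_rfl).mul z1
          have w2 := z2.mul ((k3 w hw).2.mono sub le_rfl)
          exact ⟨w1, w2.le (show 1 + (2 * i + 1) + 1 ≤ 2 * (i + 1) + 1 by omega)⟩
  obtain ⟨L, a1, a2, K, -, k2, k3⟩ := key t le_rfl
  have : K.card ≤ Nat.card G := by
    have := Fintype.ofFinite G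
    rw [Nat.card_eq_fintype_card]; exact Finset.card_le_univ K
  obtain ⟨a, ha, b, hb, rfl⟩ := k2.resolve_left (by omega) g hg
  rw [hv]
  exact (Cost.ext a1 ((k3 a ha).2.mul (k3 b hb).1)).le (by omega)

/-- `s` lies in the ideal generated by `t` -/
def Dv (t s : M) : Prop := ∃ p q, s = p * t * q

/-- `x` lies in the left ideal generated by `y` -/
def Lf (x y : M) : Prop := ∃ p, x = p * y

lemma Dv.rfl : Dv x x := ⟨1, 1, by simp⟩

lemma Dv.trans {z : M} (a : Dv x y) (b : Dv y z) : Dv x z := by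
  obtain ⟨p, q, rfl⟩ := a
  obtain ⟨r, s, rfl⟩ := b
  exact ⟨r * p, q * s, by simp only [mul_assoc]⟩

lemma Dv.left : Dv x (y * x) := ⟨y, 1, by simp⟩

lemma Dv.right : Dv x (x * y) := ⟨1, y, by simp⟩

lemma Lf.rfl : Lf x x := ⟨1, by simp⟩

lemma Lf.left : Lf (y * x) x := ⟨y, _root_.rfl⟩

lemma Lf.trans {z : M} (a : Lf x y) (b : Lf y z) : Lf x z := by
  obtain ⟨p, rfl⟩ := a
  obtain ⟨r, rfl⟩ := b
  exact ⟨p * r, by simp only [mul_assoc]⟩

lemma Lf.dv (a : Lf x y) : Dv y x := by obtain ⟨p, rfl⟩ := a; exact Dv.left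

variable {N : ℕ} (hN : ∀ x : M, x ^ (N + 3) = x)
include hN

lemma om_l (x : M) : x ^ (N + 2) * x = x := by rw [← pow_succ, hN]

lemma om_r (x : M) : x * x ^ (N + 2) = x := by rw [← pow_succ', hN]

lemma om_om (x : M) : x ^ (N + 2) * x ^ (N + 2) = x ^ (N + 2) := by
  conv_lhs => rw [pow_succ' x (N + 1), ← mul_assoc, ← pow_succ', om_l hN, ← pow_succ']

lemma stab {u s : M} (h : Dv (u * s) s) : Lf s (u * s) := by
  obtain ⟨p, q, e⟩ := h
  refine ⟨(p * u) ^ (N + 1) * p, ?_⟩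
  have : (p * u) ^ (N + 2) * s = s := by
    conv_lhs => rw [e, ← mul_assoc p, ← mul_assoc, ← mul_assoc, om_l hN, mul_assoc p, ← e]
  rw [mul_assoc, ← mul_assoc p, ← mul_assoc, ← pow_succ, this]

lemma dv_swap (a b : M) : Dv (b * a) (a * b) :=
  ⟨a, b * (a * b) ^ (N + 1), by
    conv_lhs => rw [← om_r hN (a * b), pow_succ']
    simp only [mul_assoc]⟩

lemma dv_mul {t t' s : M} (a : Dv t s) (b : Dv t' s) : Dv (t * t') s := by
  have : Dv (s * s) s := ⟨1, s ^ (N + 1), by rw [one_mul, mul_assoc, ← pow_succ', om_r hN]⟩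
  refine Dv.trans ?_ this
  obtain ⟨p, q, e⟩ := a
  obtain ⟨p', q', e'⟩ := b
  have : Dv (t * (q * p' * t')) (s * s) := ⟨p, q', by
    conv_lhs => rw [e']; lhs; rw [← e', e]
    simp only [mul_assoc]⟩
  refine Dv.trans ?_ this
  refine Dv.trans ?_ (dv_swap hN _ _)
  rw [mul_assoc]
  exact (dv_swap hN _ _).trans Dv.left

lemma dv_closure (h : ∀ a ∈ A, Dv a y) (g : x ∈ Submonoid.closure A) : Dv x y := by
  induction g using Submonoid.closure_induction with
  | mem x g => exact h x g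
  | one => exact ⟨y, 1, by simp⟩
  | mul a b _ _ p q => exact dv_mul hN p q

lemma om_eq {e g : M} (a : e * g = g) (b : Lf e g) : g ^ (N + 2) = e := by
  obtain ⟨p, b⟩ := b
  have : e * g ^ (N + 2) = e := by rw [b, mul_assoc, om_r hN]
  rw [← this, pow_succ' g (N + 1), ← mul_assoc, a]

end

end Pool.Agent.Cr
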