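import Pool.Agent.Lib.helper10.Cr1

/-! The induction on the height of the coordinates. -/

namespace Pool.Agent.Cr

open Submonoid

def c1 (N l : ℕ) : ℕ := (N + 2) * (l + l + 1 + 1) + 1 + l

def c2 (N l : ℕ) : ℕ := (N + 1) * (3 * c1 N l + 4 + 1) + 1 + (3 * c1 N l + 4)

def bs (N t l : ℕ) : ℕ := 4 * t + 3 + (c2 N l + t * (2 * (4 * t + 4 + c2 N l))) + c1 N l + 1

def bd (N s n k : ℕ) : ℕ → ℕ
  | 0 => 1
  | h + 1 => bs N (s * n + 1) (k * (bd N s n k h + 3) + 1)

section
variable {M : Type} [Monoid M] {N : ℕ} (hN : ∀ x : M, x ^ (N + 3) = x)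
include hN

/-- from cheap representatives of the left and right classes to cheap elements -/
lemma grp [Finite M] {B : Set M} {y : M} {l t : ℕ} (ht : Nat.card M < 2 ^ t) (hy : y ∈ closure B)
    (full : ∀ a ∈ B, Dv a y)
    (hl : ∀ z ∈ closure B, Dv z y → ∃ x, Cost B l x ∧ Lf x z ∧ Lf z x)
    (hr : ∃ r p q, Cost B l r ∧ r = y * p ∧ y = r * q) : Cost B (bs N t l) y := by
  obtain ⟨r, p, q, r1, r2, r3⟩ := hr
  obtain ⟨x, x1, x2, x3⟩ := hl y hy Dv.rfl
  obtain ⟨e, he⟩ : ∃ e, e = y ^ (N + 2) := ⟨_, rfl⟩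
  have ey : e * y = y := he ▸ om_l hN y
  have ye : y * e = y := he ▸ om_r hN y
  have ee : e * e = e := he ▸ om_om hN y
  have le : Lf e y := ⟨y ^ (N + 1), by rw [he, pow_succ]⟩
  have eB : e ∈ closure B := he ▸ pow_mem hy _
  have fl : ∀ z ∈ closure B, Dv z y := fun z hz => dv_closure hN full hz
  have ce : Cost B (c1 N l) e := by
    have : (r * x) ^ (N + 2) = e := om_eq hN (by rw [r2, ← mul_assoc, ← mul_assoc, ey])
      (le.trans (x3.trans (stab hN (dv_mul hN ((fl r r1.mem).trans x2.dv) Dv.rfl))))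
    exact (this ▸ (r1.mul x1).pow (N + 2)).le (by unfold c1; omega)
  have lc : l ≤ c1 N l := by unfold c1; omega
  let H := {g : M // g * e = g ∧ e * g = g ∧ g ^ (N + 2) = e}
  have e1 : ∀ m, e ^ (m + 1) = e := fun m => by
    induction m with
    | zero => simp
    | succ m ih => rw [pow_succ, ih, ee]
  let : Mul H := ⟨fun g h => ⟨g.1 * h.1, by rw [mul_assoc, h.2.1], by rw [← mul_assoc, g.2.2.1],
    om_eq hN (by rw [← mul_assoc, g.2.2.1]) ⟨h.1 ^ (N + 1) * g.1 ^ (N + 1), by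
      rw [mul_assoc, ← mul_assoc (g.1 ^ _), ← pow_succ, g.2.2.2, h.2.2.1, ← pow_succ, h.2.2.2]⟩⟩⟩
  let : One H := ⟨⟨e, ee, ee, e1 _⟩⟩
  let : Inv H := ⟨fun g => ⟨g.1 ^ (N + 1), by rw [pow_succ, mul_assoc, g.2.1],
    by rw [pow_succ', ← mul_assoc, g.2.2.1], by rw [← pow_mul, mul_comm, pow_mul, g.2.2.2, e1]⟩⟩
  let : Group H := Group.ofLeftAxioms (fun a b c => Subtype.ext (mul_assoc a.1 b.1 c.1))
    (fun a => Subtype.ext a.2.2.1) (fun a => Subtype.ext ((pow_succ _ _).symm.trans a.2.2.2))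
  have mk : ∀ z ∈ closure B, ∃ g : H, g.1 = e * z * e := fun z hz =>
    ⟨⟨e * z * e, by rw [mul_assoc, ee], by rw [← mul_assoc, ← mul_assoc, ee],
      om_eq hN (by rw [← mul_assoc, ← mul_assoc, ee])
        (stab hN (dv_mul hN (dv_mul hN Dv.rfl ((fl z hz).trans le.dv)) Dv.rfl))⟩, rfl⟩
  let Y : Set H := {g | Cost B (c2 N l) g.1 ∧ Cost B (c2 N l) (g⁻¹).1}
  have mY : ∀ g : H, Cost B (3 * c1 N l + 4) g.1 → g ∈ Y ∧ g⁻¹ ∈ Y := fun g h => by
    have a : Cost B (c2 N l) g.1 := h.le (by unfold c2; omega)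
    have b : Cost B (c2 N l) (g⁻¹).1 := (h.pow (N + 1)).le (by unfold c2; omega)
    exact ⟨⟨a, b⟩, b, by rwa [inv_inv]⟩
  have W : ∀ z ∈ closure B, ∃ r, Cost B (c1 N l) r ∧ ∃ g ∈ closure Y, e * z = g.1 * r := by
    intro z hz
    induction hz using closure_induction_right with
    | one => exact ⟨e, ce, 1, one_mem _, by rw [mul_one]; exact ee.symm⟩
    | mul_right z hz a ha ih =>
      obtain ⟨r, r1, g, hg, eg⟩ := ih
      have m : e * (z * a) ∈ closure B := mul_mem eB (mul_mem hz (subset_closure ha))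
      obtain ⟨r', s1, s2, ⟨u, s3⟩⟩ := hl _ m (fl _ m)
      obtain ⟨g1, h1⟩ := mk (r * a) (mul_mem r1.mem (subset_closure ha))
      obtain ⟨g2, h2⟩ := mk r' s1.mem
      have k1 := mY g1 (h1 ▸ ((ce.mul (r1.mul (Cost.gen ha))).mul ce).le (by omega))
      have k2 := mY g2 (h2 ▸ ((ce.mul (s1.le lc)).mul ce).le (by omega))
      refine ⟨r', s1.le lc, g * g1 * g2⁻¹,
        mul_mem (mul_mem hg (subset_closure k1.1)) (subset_closure k2.2), ?_⟩
      obtain ⟨i, hi⟩ : ∃ i, i = g2⁻¹ := ⟨_, rfl⟩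
      have i1 : i.1 * (e * r' * e) = e := by rw [← h2, hi]; exact congrArg Subtype.val (inv_mul_cancel g2)
      have qq : i.1 * r' * (i.1 * r') = i.1 * r' := by
        calc i.1 * r' * (i.1 * r') = i.1 * e * r' * (e * i.1 * r') := by rw [i.2.1, i.2.2.1]
          _ = i.1 * (e * r' * e) * i.1 * r' := by simp only [mul_assoc]
          _ = i.1 * r' := by rw [i1, i.2.2.1]
      obtain ⟨w, hw⟩ : Lf r' (i.1 * r') := stab hN (dv_mul hN ((fl _ (hi ▸ k2.1.2.mem)).trans
        ((le.dv.trans Dv.right).trans s2.dv)) Dv.rfl)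
      have rq : r' * (i.1 * r') = r' := by
        conv_lhs => lhs; rw [hw]
        rw [mul_assoc, qq, ← hw]
      rw [← hi]
      change _ = g.1 * g1.1 * i.1 * r'
      calc e * (z * a) = e * (z * a) * (i.1 * r') := by rw [s3, mul_assoc, rq]
        _ = g.1 * e * r * a * (e * i.1 * r') := by rw [← mul_assoc e, eg, g.2.1, i.2.2.1]
        _ = _ := by rw [h1]; simp only [mul_assoc]
  obtain ⟨r, r1, g, hg, eg⟩ := W y hy
  have := reach (A := B) (c := c2 N l) (fun g : H => g.1) (fun _ _ => rfl) Y (fun _ h => h)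
    (ce.le (by unfold c2; omega)) t
    ((Nat.card_le_card_of_injective _ Subtype.val_injective).trans_lt ht) hg
  rw [← ey, eg]
  exact this.mul r1

end

/-- a rank function for the ideal order -/
def Rank {S : Type} [Monoid S] (ρ : S → ℕ) : Prop :=
  (∀ s, 1 ≤ ρ s) ∧ (∀ t s, Dv t s → ρ t ≤ ρ s) ∧ ∀ t s, Dv t s → ρ s ≤ ρ t → Dv s t

/-- all tuples of rank at most `h` are cheap -/
def Main (N s n k h E : ℕ) : Prop := ∀ (S : Type) [Monoid S] [Finite S], Nat.card S ≤ s →
  (∀ x : S, x ^ (N + 3) = x) → ∀ ρ : S → ℕ, Rank ρ → ∀ (ι : Type) [Finite ι], Nat.card ι ≤ n →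
  ∀ A : Finset (ι → S), A.card ≤ k → ∀ y ∈ closure (A : Set (ι → S)), (∀ j, ρ (y j) ≤ h) →
  Cost (A : Set (ι → S)) E y

variable {N s n k h E : ℕ}

lemma left (IH : Main N s n k h E) {S : Type} [Monoid S] [Finite S] (hs : Nat.card S ≤ s)
    (hN : ∀ x : S, x ^ (N + 3) = x) {ρ : S → ℕ} (hρ : Rank ρ) {ι : Type} [Finite ι]
    (hn : Nat.card ι ≤ n) {A : Finset (ι → S)} (hk : A.card ≤ k) {y : ι → S}
    (hy : y ∈ closure (A : Set (ι → S))) (hh : ∀ j, ρ (y j) ≤ h + 1) :
    ∃ B ⊆ A, y ∈ closure (B : Set (ι → S)) ∧ (∀ a ∈ B, ∀ j, Dv (a j) (y j)) ∧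
      ∃ x u, Cost (B : Set (ι → S)) (B.card * (E + 3) + 1) x ∧ u ∈ closure (B : Set (ι → S)) ∧
      ∀ j, Lf (x j) (y j) ∧ Lf (y j) (x j) ∧ (ρ (y j) ≤ h → y j = u j * x j) := by
  classical
  induction hy using closure_induction_left with
  | one => exact ⟨∅, by simp, one_mem _, by simp, 1, 1, by simpa using Cost.one, one_mem _,
      fun j => ⟨Lf.rfl, Lf.rfl, by simp⟩⟩
  | mul_left c hc y hy ih =>
    have mono : ∀ j, ρ (y j) ≤ ρ (c j * y j) := fun j => hρ.2.1 _ _ Dv.left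
    obtain ⟨B, b1, b2, b3, x, u, x1, u1, x2⟩ := ih fun j => (mono j).trans (hh j)
    have fl : ∀ z ∈ closure (B : Set (ι → S)), ∀ j, Dv (z j) (y j) := fun z hz j => by
      induction hz using closure_induction with
      | mem z g => exact b3 z g j
      | one => exact ⟨y j, 1, by simp⟩
      | mul a b _ _ p q => exact dv_mul hN p q
    by_cases cB : c ∈ B
    · refine ⟨B, b1, mul_mem (subset_closure cB) b2, fun a ha j => (b3 a ha j).trans Dv.left,
        x, c * u, x1, mul_mem (subset_closure cB) u1, fun j => ⟨(x2 j).1.trans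
          (stab hN (dv_mul hN (b3 c cB j) Dv.rfl)), Lf.left.trans (x2 j).2.1, fun g => ?_⟩⟩
      simp only [Pi.mul_apply]
      rw [mul_assoc, ← (x2 j).2.2 ((mono j).trans g)]
    let f : (ι → S) → {j // ρ (y j) ≤ h} → S := fun z j => z j
    have m : y ^ (N + 2) * u ∈ closure (B : Set (ι → S)) := mul_mem (pow_mem b2 _) u1
    have := IH S hs hN ρ hρ {j // ρ (y j) ≤ h}
      ((Nat.card_le_card_of_injective _ Subtype.val_injective).trans hn) (B.image f)
      (Finset.card_image_le.trans ((Finset.card_le_card b1).trans hk)) (f (y ^ (N + 2) * u))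
      (by rw [Finset.coe_image]; exact closure_map rfl (fun _ _ => Or.inl rfl) m)
      fun j => (hρ.2.1 _ _ (fl _ m j)).trans j.2
    rw [Finset.coe_image] at this
    obtain ⟨z, z1, z2⟩ := this.lift rfl fun _ _ => Or.inl rfl
    have sub : (B : Set (ι → S)) ⊆ (insert c B : Finset _) := by simp
    have cm : c ∈ ((insert c B : Finset _) : Set (ι → S)) := by simp
    refine ⟨insert c B, Finset.insert_subset hc b1, mul_mem (subset_closure cm) (closure_mono sub b2),
      fun a ha j => ?_, c * (z * x), 1, ?_, one_mem _, fun j => ?_⟩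
    · rcases Finset.mem_insert.1 ha with rfl | ha
      · exact Dv.right
      · exact (b3 a ha j).trans Dv.left
    · rw [Finset.card_insert_of_notMem cB]
      exact ((Cost.gen cm).mul ((z1.mul x1).mono sub le_rfl)).le (by nlinarith)
    simp only [Pi.mul_apply, Pi.one_apply, one_mul]
    by_cases g : ρ (y j) ≤ h
    · have : z j * x j = y j := by
        have := congrFun z2 ⟨j, g⟩
        simp only [f, Pi.mul_apply, Pi.pow_apply] at this
        rw [this, mul_assoc, ← (x2 j).2.2 g, om_l hN]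
      rw [this]
      exact ⟨Lf.rfl, Lf.rfl, fun _ => rfl⟩
    · have d : Dv (c j * y j) (y j) := hρ.2.2 _ _ Dv.left ((hh j).trans (by omega))
      rw [← mul_assoc]
      exact ⟨Lf.left.trans ((x2 j).1.trans (stab hN d)), Lf.left.trans ((x2 j).2.1.trans (stab hN
        (dv_mul hN (dv_mul hN ((Dv.right.trans d).trans (x2 j).1.dv)
          ((fl z z1.mem j).trans (x2 j).1.dv)) Dv.rfl))), fun g' => absurd ((mono j).trans g') g⟩

lemma left' (IH : Main N s n k h E) {S : Type} [Monoid S] [Finite S] (hs : Nat.card S ≤ s)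
    (hN : ∀ x : S, x ^ (N + 3) = x) {ρ : S → ℕ} (hρ : Rank ρ) {ι : Type} [Finite ι]
    (hn : Nat.card ι ≤ n) {A : Finset (ι → S)} (hk : A.card ≤ k) {y : ι → S}
    (hy : y ∈ closure (A : Set (ι → S))) (hh : ∀ j, ρ (y j) ≤ h + 1) :
    ∃ x, Cost (A : Set (ι → S)) (k * (E + 3) + 1) x ∧ Lf x y ∧ Lf y x := by
  obtain ⟨B, b1, -, -, x, u, x1, -, x2⟩ := left IH hs hN hρ hn hk hy hh
  choose p hp using fun j => (x2 j).1
  choose q hq using fun j => (x2 j).2.1
  exact ⟨x, x1.mono b1 (by gcongr; exact (Finset.card_le_card b1).trans hk), ⟨p, funext hp⟩,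
    ⟨q, funext hq⟩⟩

open MulOpposite in
theorem main (h : ℕ) : Main N s n k h (bd N s n k h) := by
  classical
  induction h with
  | zero =>
    intro S _ _ _ _ ρ hρ ι _ _ A _ y _ hh
    rw [show y = 1 from funext fun j => absurd ((hρ.1 _).trans (hh j)) (by omega)]
    exact Cost.one
  | succ h IH =>
    intro S _ _ hs hN ρ hρ ι _ hn A hk y hy hh
    obtain ⟨B, b1, b2, b3, -⟩ := left IH hs hN hρ hn hk hy hh
    have hB := (Finset.card_le_card b1).trans hk
    refine (grp (N := N) (fun x => funext fun j => hN _) (t := s * n + 1) ?_ b2 (fun a ha => ?_)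
      (fun z hz d => left' IH hs hN hρ hn hB hz fun j => (hρ.2.1 _ _ ?_).trans (hh j)) ?_).mono b1
      le_rfl
    · rw [Nat.card_fun]
      calc Nat.card S ^ Nat.card ι ≤ (2 ^ s) ^ Nat.card ι :=
            Nat.pow_le_pow_left (hs.trans Nat.lt_two_pow_self.le) _
        _ ≤ (2 ^ s) ^ n := Nat.pow_le_pow_right (by positivity) hn
        _ < 2 ^ (s * n + 1) := by rw [← pow_mul]; exact Nat.pow_lt_pow_right (by norm_num) (by omega)
    · choose p q e using b3 a ha
      exact ⟨p, q, funext e⟩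
    · obtain ⟨p, q, e⟩ := d
      exact ⟨p j, q j, congrFun e j⟩
    have dv : ∀ t s : Sᵐᵒᵖ, Dv t s ↔ Dv t.unop s.unop := fun t s =>
      ⟨fun ⟨p, q, e⟩ => ⟨q.unop, p.unop, by rw [e]; simp [mul_assoc]⟩,
        fun ⟨p, q, e⟩ => ⟨op q, op p, unop_injective (by rw [e]; simp [mul_assoc])⟩⟩
    let f : (ι → S) → ι → Sᵐᵒᵖ := fun z j => op (z j)
    have : Finite Sᵐᵒᵖ := Finite.of_equiv S opEquiv
    obtain ⟨x, x1, ⟨p, x2⟩, ⟨q, x3⟩⟩ := left' IH (S := Sᵐᵒᵖ)
      ((Nat.card_congr opEquiv).symm.trans_le hs)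
      (fun x => unop_injective (by rw [unop_pow, hN])) (ρ := fun x => ρ x.unop)
      ⟨fun _ => hρ.1 _, fun t s d => hρ.2.1 _ _ ((dv _ _).1 d),
        fun t s d e => (dv _ _).2 (hρ.2.2 _ _ ((dv _ _).1 d) e)⟩ hn (A := B.image f)
      (Finset.card_image_le.trans hB) (y := f y)
      (by rw [Finset.coe_image]; exact closure_map rfl (fun _ _ => Or.inr rfl) b2) hh
    rw [Finset.coe_image] at x1
    obtain ⟨r, r1, rfl⟩ := x1.lift rfl fun _ _ => Or.inr rfl
    exact ⟨r, fun j => (p j).unop, fun j => (q j).unop, r1,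
      funext fun j => congrArg unop (congrFun x2 j), funext fun j => congrArg unop (congrFun x3 j)⟩

theorem cheap {S : Type} [Monoid S] [Finite S] (hS : ∀ a : S, ∃ x, a = a * x * a ∧ a * x = x * a) :
    ∃ N, ∀ (n : ℕ) (A : Finset (Fin n → S)), ∀ y ∈ closure (A : Set (Fin n → S)),
      Cost (A : Set (Fin n → S)) (bd N (Nat.card S) n A.card (Nat.card S)) y := by
  classical
  have := Fintype.ofFinite S
  have ex : ∀ a : S, ∃ d, 0 < d ∧ a ^ (d + 1) = a := fun a => by
    obtain ⟨x, h1, h2⟩ := hS a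
    have c : Commute a x := h2
    have e : ∀ m, a ^ (m + 1) * x ^ m = a := fun m => by
      induction m with
      | zero => simp
      | succ m ih =>
        rw [pow_succ a, pow_succ a, pow_succ' x, mul_assoc, mul_assoc, ← mul_assoc a x, h2,
          ← mul_assoc a, ← mul_assoc a, ← h1, ← mul_assoc, ← pow_succ, ih]
    obtain ⟨i, j, ij, h⟩ := Set.Finite.exists_lt_map_eq_of_forall_mem
      (f := fun i : ℕ => a ^ (i + 1)) (t := Set.univ) (by simp) Set.finite_univ
    obtain ⟨d, rfl⟩ := Nat.exists_eq_add_of_lt ij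
    refine ⟨d + 1, by omega, ?_⟩
    have := e i
    rw [h, show i + d + 1 + 1 = (d + 1) + (i + 1) by ring, pow_add, mul_assoc, e, ← pow_succ] at this
    exact this
  choose d d0 hd using ex
  have P : 0 < ∏ a, d a := Finset.prod_pos fun a _ => d0 a
  refine ⟨2 * ∏ a, d a - 2, fun n A y hy => main _ S le_rfl (fun x => ?_)
    (fun s => (Finset.univ.filter fun t => Dv t s).card) ⟨fun s => ?_, fun t s e => ?_,
      fun t s e g => ?_⟩ (Fin n) (by simp) A le_rfl y hy fun j => ?_⟩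
  · obtain ⟨m, hm⟩ := (Finset.dvd_prod_of_mem d (Finset.mem_univ x)).mul_left 2
    rw [show 2 * ∏ a, d a - 2 + 3 = 2 * ∏ a, d a + 1 by omega, hm]
    clear hm
    induction m with
    | zero => simp
    | succ m ih => rw [mul_add_one, add_assoc, pow_add, hd, ← pow_succ, ih]
  · exact Finset.card_pos.2 ⟨s, by simpa using Dv.rfl⟩
  · exact Finset.card_le_card fun u => by simpa using fun g => g.trans e
  · have := Finset.eq_of_subset_of_card_le (s := Finset.univ.filter fun u => Dv u t)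
      (t := Finset.univ.filter fun u => Dv u s) (fun u => by simpa using fun g => g.trans e) g
    have m : s ∈ Finset.univ.filter fun u => Dv u s := by simpa using Dv.rfl
    rw [← this] at m
    simpa using m
  · rw [Nat.card_eq_fintype_card]; exact Finset.card_le_univ _

end Pool.Agent.Cr
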