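import Pool.Agent.Lib.helper10.Kit

/-! Digraphs given by adjacency matrices. -/

namespace Pool.Agent.Cx.Dg

/-- `M` is a square 0-1 matrix with zero diagonal -/
def IsDi (M : List (List Bool)) : Prop := (∀ r ∈ M, r.length = M.length) ∧ ∀ i, ¬ Entry M i i

lemma di_kit {β : Type} (E : List β) (r : β → β → Prop) [DecidableRel r]
    (ir : ∀ p, ¬ r p p) (nd : E.Nodup) {M : List (List Bool)}
    (hM : M = mat E fun p q => decide (r p q)) : IsDi M ∧ ∃ f : Fin M.length → β,
      (∀ a b : Fin M.length, Entry M a b ↔ r (f a) (f b)) ∧ (∀ p, (∃ a, f a = p) ↔ p ∈ E) ∧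
      f.Injective := by
  subst hM
  have l : ∀ a : Fin (mat E fun p q => decide (r p q)).length, a.1 < E.length := fun a => by
    simpa using a.2
  refine ⟨⟨mat_row _ _, fun i h => ?_⟩, fun i => E[i.1]'(l i), fun a b => ?_,
    fun p => ⟨fun ⟨i, e⟩ => e ▸ List.getElem_mem _, fun h =>
      let ⟨i, hi, e⟩ := List.getElem_of_mem h; ⟨⟨i, by simpa using hi⟩, e⟩⟩,
    fun a b e => Fin.ext (nd.getElem_inj_iff.1 e)⟩
  · obtain ⟨_, _, h⟩ := (mat_get _ _ i i).1 h
    exact ir _ (by simpa using h)
  · simp only [Entry, mat_get, l a, l b, exists_true_left, decide_eq_true_eq]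

lemma pp_isDi : PP IsDi := by
  have : IsDi = fun M => (¬ ∃ r ∈ M, r.length ≠ M.length) ∧ ¬ ∃ i < M.length, ent M i i = true := by
    ext M
    unfold IsDi Entry ent
    push Not
    refine and_congr_right fun _ => ⟨fun g i _ => g i, fun g i e => ?_⟩
    by_cases hi : i < M.length
    · exact g i hi e
    · rw [List.getD_eq_default M _ (by omega)] at e
      simp at e
  rw [this]; fun_prop

end Pool.Agent.Cx.Dg
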