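import Pool.Agent.Lib.helper10.FPTDefs
import Pool.Agent.Lib.helper10.Clo

/-! Fixed-parameter algorithms from polynomial-time algorithms with an exponential padding. -/

namespace Pool.Agent.Cx

open Turing Function Polynomial

lemma Comp.tm2 {P N x y n} (h : Comp P N x y n) : Nonempty (TM2OutputsInTime (machine P)
    (x.map (Equiv.refl Bool).invFun) (some (y.map (Equiv.refl Bool).invFun)) n) := by
  have h1 := h (update (fun _ => []) 0 x) (by simp) (fun i hi _ => by simp [show i ≠ 0 by omega])
  refine ⟨⟨⟨h1.choose, ?_⟩, h1.choose_spec.1⟩⟩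
  have h2 := sim P.top (code P.top P (fun x => x) .halt) h1.choose_spec.2 le_rfl (fun x => x)
    .halt (fun _ => rfl)
  have e1 : ∀ y : List Bool, restr P.top (update (fun _ => []) 0 y) =
      fun k => @dite (List Bool) (k = (0 : Fin (P.top + 1))) (instDecidableEqFin _ _ _)
        (fun _ => y) (fun _ => []) := by
    intro y; funext k
    by_cases hk : k = 0
    · subst hk; simp [restr]
    · have : k.val ≠ 0 := fun e => hk (Fin.ext e)
      simp [restr, hk, this]
  generalize h1.choose = m at h2 ⊢
  rw [update_idem, e1, e1] at h2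
  have e2 : ∀ y : List Bool, List.map (Equiv.refl Bool).invFun y = y := fun y => List.map_id y
  have key : ∀ x x' y y' : List Bool, x' = x → y' = y →
      (flip bind (machine P).step)^[m] (some (initList (machine P) x)) =
        Option.map (haltList (machine P)) (some y) →
      (flip bind (machine P).step)^[m] (some (initList (machine P) x')) =
        Option.map (haltList (machine P)) (some y') := by
    intro x x' y y' h1 h2 h; subst h1 h2; exact h
  exact key _ _ _ _ (e2 _) (e2 _) h2

lemma Comp.seq {P Q N M x y z n m} (h : Comp P N x y n) (h' : Comp Q M y z m) :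
    Comp (.seq P Q) (max N M) x z (n + m) := fun s h0 h1 => by
  have e1 : RunLe P s _ _ := h s h0 (fun i hi hi' => h1 i hi (by omega))
  have e2 : RunLe Q _ _ _ := h' (update s 0 y) (by simp)
    (fun i hi hi' => by rw [update_of_ne (by omega)]; exact h1 i hi (by omega))
  rw [update_idem] at e2
  exact e1.seq e2

lemma iter_comp {α : Type} {ea : α → List Bool} {g : α → α} (hg : PTe ea ea g) :
    ∃ (P : Prog) (N : ℕ) (p : ℕ[X]), ∀ (n : ℕ) (a : α) (B : ℕ), (∀ i ≤ n, (ea (g^[i] a)).length ≤ B) →
      Comp P N (true :: (enc n ++ ea a)) (ea (g^[n] a)) (p.eval (n + B)) := by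
  obtain ⟨P, N1, p, h⟩ := hg
  obtain ⟨N, hN1, hN⟩ : ∃ N, N1 ≤ N ∧ 3 ≤ N := ⟨N1 + 3, by omega, by omega⟩
  refine ⟨.seq (.pop 0) (.seq parse (.seq (tr1 1 N (fun b => if b then [true] else []))
    (.loop N (.seq (.pop N) P)))), N + 1, C 40 * X + X * (p + C 2) + C 40,
    fun n a B hB s h0 h1 => ?_⟩
  have h11 : s 1 = [] := h1 1 le_rfl (by omega)
  have h12 : s 2 = [] := h1 2 (by omega) (by omega)
  have hsN : s N = [] := h1 N (by omega) (by omega)
  have e : enc n = (natBT n).code := rfl
  have n0 : N ≠ 0 := by omega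
  have n1 : N ≠ 1 := by omega
  refine RunLe.mono (RunLe.of_eq ((Run.pop 0 s).le.seq ((parse_run (natBT n) _ (ea a)
    (by simp [h0, e]) (by simp [h12])).seq ((tr1_run n1 _ 1 (by intro b; cases b <;> simp) _).seq
    (loop_iter hN1 n0 h _ n a _ ?_ ?_ ?_ hB)))) ?_) ?_
  · simp [n0.symm]
  · simp only [update_self, h11, List.append_nil, natBT_count, update_of_ne (show (1 : ℕ) ≠ 0 by omega),
      update_of_ne n1, update_of_ne n0, hsN, List.reverse_replicate]
  · intro i hi hi'
    by_cases hi1 : i = 1
    · subst hi1; simp [n1.symm]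
    · simp [show i ≠ 0 by omega, show i ≠ N by omega, hi1, h1 i hi (by omega)]
  · funext i
    by_cases hi : i = 0
    · subst hi; simp
    · by_cases hi1 : i = N
      · subst hi1; simp [hi, hsN]
      · by_cases hi2 : i = 1
        · subst hi2; simp [h11, hi1]
        · simp [hi, hi1, hi2]
  · simp only [eval_add, eval_mul, eval_C, eval_X, update_self]
    simp only [List.length_append, natBT_length, List.length_reverse,
      update_of_ne (show (1 : ℕ) ≠ 0 by omega), h11, List.length_nil]
    have := eval_mono p (Nat.le_add_left B n)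
    nlinarith [Nat.zero_le B]

lemma eval_le (p : ℕ[X]) : ∃ C c, ∀ n, p.eval n ≤ C * (n + 1) ^ c := by
  induction p using Polynomial.induction_on' with
  | add p q hp hq =>
    obtain ⟨C, c, h⟩ := hp
    obtain ⟨D, d, g⟩ := hq
    refine ⟨C + D, c + d, fun n => ?_⟩
    rw [eval_add, add_mul]
    exact add_le_add ((h n).trans (by gcongr <;> omega)) ((g n).trans (by gcongr <;> omega))
  | monomial k a => exact ⟨a, k, fun n => by rw [eval_monomial]; gcongr; omega⟩

lemma prim_pow : Primrec₂ ((· ^ ·) : ℕ → ℕ → ℕ) := Primrec₂.unpaired'.1 Nat.Primrec.pow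

theorem inFPT_of_pad {α : Type} [Enc α] {P : α → Prop} {κ j : α → ℕ} {F : α × ℕ → Bool} (hF : PT F)
    (hj : PT j) {h : ℕ → ℕ} (hh : Computable h) (hjh : ∀ a, j a ≤ h (κ a))
    (e : ∀ a, P a ↔ F (a, 2 ^ j a) = true) : InFPT P κ := by
  obtain ⟨q, hq⟩ := hj.bound
  obtain ⟨P1, N1, p1, h1⟩ : PT fun a => (j a, a, 1) := by fun_prop
  obtain ⟨P2, N2, p2, h2⟩ := iter_comp (show PT fun z : α × ℕ => (z.1, z.2 + z.2) by fun_prop)
  obtain ⟨P3, N3, p3, h3⟩ := PTe.comp (g := fun b : Bool => b) PTe.outBool hF
  have i : ∀ (a : α) n, (fun z : α × ℕ => (z.1, z.2 + z.2))^[n] (a, 1) = (a, 2 ^ n) := fun a n => by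
    induction n with
    | zero => rfl
    | succ n ih => rw [iterate_succ_apply', ih, pow_succ, mul_two]
  obtain ⟨C, c, hc⟩ := eval_le (p1 + p2.comp (q + (2 * X + 2)) + p3.comp (2 * X + 2))
  refine ⟨⟨machine _, Equiv.refl _, Equiv.refl _⟩, fun k => C * (2 ^ h k + 1) ^ c, c,
    fun a => F (a, 2 ^ j a), (Primrec.nat_mul.to_comp.comp (Computable.const C) (prim_pow.to_comp.comp
      (Computable.succ.comp (prim_pow.to_comp.comp (Computable.const 2) hh)) (Computable.const c))),
    fun a => ⟨e a, (((h1 a).seq ((i a _ ▸ h2 (j a) (a, 1) (2 * (size a + 2 ^ j a) + 2) fun n hn => by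
      have := Nat.pow_le_pow_right (show 0 < 2 by omega) hn
      rw [i]; change size (a, 2 ^ n) ≤ _; simp; omega).seq (h3 (a, 2 ^ j a)))).mono le_rfl ?_).tm2⟩⟩
  have a1 := hc (size a + 2 ^ j a)
  have a2 := eval_mono p1 (Nat.le_add_right (size a) (2 ^ j a))
  have a3 := (hq a).trans (eval_mono q (Nat.le_add_right (size a) (2 ^ j a)))
  have a4 := eval_mono p2 (show j a + (2 * (size a + 2 ^ j a) + 2) ≤ q.eval (size a + 2 ^ j a) +
    (2 * (size a + 2 ^ j a) + 2) by simp at a3; omega)
  have a5 := eval_mono p3 (show size (a, 2 ^ j a) ≤ 2 * (size a + 2 ^ j a) + 2 by simp; omega)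
  have a6 : (size a + 2 ^ j a + 1) ^ c ≤ (2 ^ h (κ a) + 1) ^ c * (size a + 1) ^ c := by
    have := Nat.pow_le_pow_right (show 0 < 2 by omega) (hjh a)
    rw [← mul_pow]; gcongr; nlinarith [Nat.zero_le (2 ^ h (κ a) * size a)]
  have a7 := Nat.mul_le_mul_left C a6
  simp only [eval_add, eval_comp, eval_mul, eval_X, eval_ofNat] at a1
  unfold size at *
  rw [mul_assoc]; omega

/-- all words of length at most `k` over `l`, as long as there are at most `m` of them -/
def words {β : Type} (l : List β) (k m : ℕ) : List (List β) :=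
  (fun L => ([] :: L.flatMap fun w => l.map fun x => x :: w).take m)^[k] [[]]

lemma words_len {β : Type} (l : List β) (k m : ℕ) : ∀ w ∈ words l k m, w.length ≤ k ∧ ∀ x ∈ w, x ∈ l := by
  induction k with
  | zero => simp [words]
  | succ k ih =>
    intro w hw
    rw [words, iterate_succ_apply'] at hw
    have := List.mem_of_mem_take hw
    simp only [List.mem_cons, List.mem_flatMap, List.mem_map] at this
    rcases this with rfl | ⟨v, hv, x, hx, rfl⟩
    · simp
    · have := ih v hv; simp [hx]; exact this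

lemma mem_words {β : Type} {l : List β} {k m : ℕ} (h : (l.length + 1) ^ k ≤ m) :
    (words l k m).length ≤ (l.length + 1) ^ k ∧
      ∀ w : List β, w.length ≤ k → (∀ x ∈ w, x ∈ l) → w ∈ words l k m := by
  induction k with
  | zero => simp [words]
  | succ k ih =>
    have p : 0 < (l.length + 1) ^ k := by positivity
    obtain ⟨a, b⟩ := ih (by rw [pow_succ] at h; nlinarith)
    have c : ([] :: (words l k m).flatMap fun w => l.map fun x => x :: w).length ≤
        (l.length + 1) ^ (k + 1) := by
      simp [List.length_flatMap, pow_succ]; nlinarith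
    rw [words, iterate_succ_apply', ← words, List.take_of_length_le (c.trans h)]
    refine ⟨c, fun w h1 h2 => ?_⟩
    rcases w with _ | ⟨x, w⟩
    · simp
    · simp at h1 h2; simp [h2.1, b w h1 h2.2]

@[fun_prop] lemma PT.words {α β : Type} [Enc α] [Enc β] {l : α → List β} {k m : α → ℕ} (hl : PT l)
    (hk : PT k) (hm : PT m) : PT fun a => words (l a) (k a) (m a) := by
  obtain ⟨p, hp⟩ := hl.bound
  obtain ⟨q, hq⟩ := hk.bound
  obtain ⟨r, hr⟩ := hm.bound
  refine PT.iterate (by fun_prop) hk (by fun_prop) ((r + 1) * (q * (p + 1) + 2) + 1) fun a i hi => ?_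
  have h1 := size_list_le (Cx.words (l a) i (m a)) (i * (Cx.size (l a) + 1) + 1) fun w hw => by
    obtain ⟨a1, a2⟩ := words_len _ _ _ w hw
    have := size_list_le w (Cx.size (l a)) fun x hx => (size_lt_of_mem (a2 x hx)).le
    have := Nat.mul_le_mul_right (Cx.size (l a) + 1) a1
    omega
  have h2 : (Cx.words (l a) i (m a)).length ≤ m a + 1 := by
    rcases i with _ | i
    · simp [Cx.words]
    · rw [Cx.words, iterate_succ_apply']; simp
  have := hp a
  have h3 := hq a
  have h4 := hr a
  simp only [size_nat] at h3 h4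
  simp only [eval_add, eval_mul, eval_one, eval_ofNat]
  refine h1.trans (Nat.add_le_add_right (Nat.mul_le_mul (by omega) ?_) 1)
  exact Nat.add_le_add_right (Nat.mul_le_mul (by omega) (by omega)) 2

end Pool.Agent.Cx
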