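import Pool.Agent.Lib.helper10.NPDefs

/-! Fixed-parameter tractability over Mathlib's multi-stack Turing machines. -/

namespace Pool.Agent.Cx

/-- A deterministic Turing machine, started on the code of any instance `a`, outputs the bit that
says whether `P a` holds within `f (κ a) * (|code| + 1) ^ c` steps, `f` computable. -/
def InFPT {α : Type} [Enc α] (P : α → Prop) (κ : α → ℕ) : Prop :=
  ∃ (M : Turing.TM2ComputableAux Bool Bool) (f : ℕ → ℕ) (c : ℕ) (D : α → Bool), Computable f ∧
    ∀ a, (P a ↔ D a = true) ∧ Nonempty (Turing.TM2OutputsInTime M.tm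
      ((enc a).map M.inputAlphabet.invFun) (some ([D a].map M.outputAlphabet.invFun))
      (f (κ a) * ((enc a).length + 1) ^ c))

end Pool.Agent.Cx
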