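import Pool.Agent.Lib.helper10.Univ

/-! Delayed diagonalisation (Ladner's method). -/

namespace Pool.Agent.Cx

open Function Polynomial Filter

def SS (V0 : List Bool × List Bool → Prop) (x : List Bool) : Prop :=
  ∃ w : List Bool, w.length ≤ x.length ∧ V0 (x, w)

def Acc (fl : ℕ → Prop) (G : List Bool → List (ℕ × ℕ)) (V : List Bool × ℕ × List Bool → Prop)
    (x : List Bool) : Prop :=
  ∀ e ∈ G x, ∃ w : List Bool, w.length ≤ e.1 ∧ (fl e.1 ∨ w = []) ∧ V (x, e.2, w)

@[irreducible] def dd (k : ℕ) : Desc × Desc := decode (bitsOf (k / 2))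

def Wit (V0 : List Bool × List Bool → Prop) (fl : ℕ → Prop) (k : ℕ) (x : List Bool) : Prop :=
  k % 2 = 0 ∧ ¬ (ev (dd k).1 x = true ↔ (fl x.length → SS V0 x)) ∨
    k % 2 = 1 ∧ ¬ (SS V0 x ↔ Acc fl (ev (dd k).1) (fun z => ev (dd k).2 z = true) x)

variable {α β : Type} [Enc α] [Enc β]

def tm (n : ℕ) (d : Desc) (a : α) : ℕ := cpow ((enc a).length + ck d) (ck d) n

def evB [Dec β] (n : ℕ) (d : Desc) (a : α) : β := decode (runT d (enc a) (tm n d a))

lemma evB_eq [Dec β] {n : ℕ} {d : Desc} {a : α} (h : tm n d a < n) : (evB n d a : β) = ev d a := by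
  rw [evB, ev, clk]
  rw [tm, cpow_eq] at *
  rw [min_eq_left (by omega)]

def WB (n j : ℕ) : List (List Bool) := words [false, true] j n

lemma mem_WB {n j : ℕ} (h : cpow 3 j n < n) {w : List Bool} : w ∈ WB n j ↔ w.length ≤ j :=
  ⟨fun g => (words_len _ _ _ _ g).1, fun g => (mem_words (by
    rw [cpow_eq] at h; simp; omega)).2 w g (by simp)⟩

lemma lt_of_cpow {n j : ℕ} (h : cpow 3 j n < n) : j < n := by
  rw [cpow_eq] at h
  have := Nat.lt_pow_self (n := j) (show 1 < 3 by omega)
  omega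

def Guard (n : ℕ) (d : Desc × Desc) (x : List Bool) : Prop :=
  cpow 3 x.length n < n ∧ tm n d.1 x < n ∧ ¬ ∃ e ∈ (evB n d.1 x : List (ℕ × ℕ)),
    ¬ (cpow 3 e.1 n < n ∧ ¬ ∃ w ∈ WB n e.1, ¬ tm n d.2 (x, e.2, w) < n)

def WitB (V0 : List Bool × List Bool → Prop) (F : List ℕ) (k : ℕ) (x : List Bool) : Prop :=
  Guard F.length (dd k) x ∧
  (k % 2 = 0 ∧ ¬ (evB F.length (dd k).1 x = true ↔ (¬ F.getD x.length 0 % 2 = 0 ∨
      ∃ w ∈ WB F.length x.length, V0 (x, w))) ∨
    k % 2 = 1 ∧ ¬ ((∃ w ∈ WB F.length x.length, V0 (x, w)) ↔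
      ¬ ∃ e ∈ (evB F.length (dd k).1 x : List (ℕ × ℕ)), ¬ ∃ w ∈ WB F.length e.1,
        (F.getD e.1 0 % 2 = 0 ∨ w = []) ∧ evB F.length (dd k).2 (x, e.2, w) = true))

variable {V0 : List Bool × List Bool → Prop}

lemma witB_iff {F : List ℕ} {k : ℕ} {x : List Bool} {fl : ℕ → Prop}
    (h : ∀ i < F.length, F.getD i 0 % 2 = 0 ↔ fl i) (g : Guard F.length (dd k) x) :
    WitB V0 F k x ↔ Wit V0 fl k x := by
  obtain ⟨g1, g2, g3⟩ := id g
  simp only [WitB, g, true_and, Wit, evB_eq g2, mem_WB g1, h _ (lt_of_cpow g1), ← imp_iff_not_or]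
  refine or_congr Iff.rfl (and_congr Iff.rfl (not_congr (iff_congr Iff.rfl ?_)))
  simp only [evB_eq g2, not_exists (p := fun e : ℕ × ℕ => _ ∧ _), not_and] at g3
  simp only [Acc, not_exists (p := fun e : ℕ × ℕ => _ ∧ _), not_and, not_not]
  refine forall₂_congr fun e he => exists_congr fun w => ?_
  have := g3 e he
  push Not at this
  obtain ⟨a, b⟩ := this
  rw [h _ (lt_of_cpow a), ← mem_WB a]
  exact and_congr_right fun hw => by rw [evB_eq (b w hw)]

lemma guard_ev (d : Desc × Desc) (x : List Bool) : ∀ᶠ n in atTop, Guard n d x := by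
  have a : ∀ b e, ∀ᶠ n in atTop, cpow b e n < n := fun b e =>
    (eventually_gt_atTop (b ^ e)).mono fun n h => by rw [cpow_eq]; omega
  have b : ∀ᶠ n in atTop, ∀ e ∈ (ev d.1 x : List (ℕ × ℕ)), cpow 3 e.1 n < n ∧
      ∀ w ∈ {w : List Bool | w.length ≤ e.1}, tm n d.2 (x, e.2, w) < n :=
    (eventually_all_finite (List.finite_toSet _)).2 fun e _ => (a _ _).and
      ((eventually_all_finite (List.finite_length_le Bool e.1)).2 fun w _ => a _ _)
  filter_upwards [a 3 x.length, a _ _, b] with n h1 h2 h3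
  refine ⟨h1, h2, ?_⟩
  rw [evB_eq h2]
  rintro ⟨e, he, h⟩
  exact h ⟨(h3 e he).1, fun ⟨w, hw, g⟩ => g ((h3 e he).2 w ((mem_WB (h3 e he).1).1 hw))⟩

def found (V0 : List Bool × List Bool → Prop) (F : List ℕ) : Prop :=
  ∃ j < F.length, ∃ x ∈ WB F.length j, WitB V0 F (F.getD (F.length - 1) 0) x

@[fun_prop] lemma PT.tm {γ : Type} [Enc γ] {n : γ → ℕ} {d : γ → Desc} {a : γ → α} (hn : PT n)
    (hd : PT d) (ha : PT a) : PT fun z => tm (n z) (d z) (a z) := by unfold Cx.tm ck; fun_prop

@[fun_prop] lemma PT.evB [Dec β] {γ : Type} [Enc γ] {n : γ → ℕ} {d : γ → Desc} {a : γ → α} (hn : PT n)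
    (hd : PT d) (ha : PT a) : PT fun z => (evB (n z) (d z) (a z) : β) := by unfold Cx.evB; fun_prop

@[fun_prop] lemma PT.dd {k : α → ℕ} (hk : PT k) : PT fun z => dd (k z) := by unfold Cx.dd; fun_prop

@[fun_prop] lemma PP.guard {n : α → ℕ} {d : α → Desc × Desc} {x : α → List Bool} (hn : PT n)
    (hd : PT d) (hx : PT x) : PP fun z => Guard (n z) (d z) (x z) := by unfold Guard WB; fun_prop

lemma PP.bool {p : α → Prop} (h : PP p) : ∃ f : α → Bool, PT f ∧ p = fun a => f a = true :=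
  let ⟨f, hf, e⟩ := h; ⟨f, hf, funext fun a => propext (e a)⟩

lemma pp_found (h0 : PP V0) : PP (found V0) := by
  obtain ⟨v, hv, rfl⟩ := h0.bool
  unfold found WitB WB; beta_reduce; fun_prop

open Classical in
noncomputable def FF (V0 : List Bool × List Bool → Prop) (n : ℕ) : List ℕ :=
  (fun F => F ++ [F.getD (F.length - 1) 0 + if found V0 F then 1 else 0])^[n] [0]

noncomputable def ff (V0 : List Bool × List Bool → Prop) (n : ℕ) : ℕ := (FF V0 n).getD n 0

open Classical in
lemma FF_spec (n : ℕ) : (FF V0 n).length = n + 1 ∧ (∀ x ∈ FF V0 n, x ≤ n) ∧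
    (∀ i ≤ n, (FF V0 n).getD i 0 = ff V0 i) ∧
      ff V0 (n + 1) = ff V0 n + if found V0 (FF V0 n) then 1 else 0 := by
  have s : ∀ n, FF V0 (n + 1) = FF V0 n ++ [(FF V0 n).getD ((FF V0 n).length - 1) 0 +
    if found V0 (FF V0 n) then 1 else 0] := fun n => iterate_succ_apply' _ _ _
  have : (FF V0 n).length = n + 1 ∧ (∀ x ∈ FF V0 n, x ≤ n) ∧ ∀ i ≤ n, (FF V0 n).getD i 0 = ff V0 i := by
    induction n with
    | zero => simp [FF, ff]
    | succ n ih =>
      obtain ⟨a, b, c⟩ := ih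
      refine ⟨by simp [s, a], fun x hx => ?_, fun i hi => ?_⟩
      · rw [s, List.mem_append, List.mem_singleton] at hx
        rcases hx with hx | rfl
        · exact (b x hx).trans (by omega)
        · have := b ((FF V0 n).getD ((FF V0 n).length - 1) 0) (by
            rw [List.getD_eq_getElem _ _ (by omega)]; exact List.getElem_mem _)
          split_ifs <;> omega
      · rcases hi.lt_or_eq with h | rfl
        · rw [s, List.getD_append _ _ _ _ (by omega), c i (by omega)]
        · rfl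
  refine ⟨this.1, this.2.1, this.2.2, ?_⟩
  rw [ff, s, List.getD_append_right _ _ _ _ (by omega), this.1]
  simp [ff]

theorem ladner (h0 : PP V0) (hS : ¬ PP (SS V0)) : ∃ fl : ℕ → Prop, PP fl ∧
    (¬ PP fun x : List Bool => fl x.length → SS V0 x) ∧
      ∀ G V, PT G → PP V → ¬ ∀ x, SS V0 x ↔ Acc fl G V x := by
  classical
  have p1 : PT (FF V0) := by
    have : PT fun F => if found V0 F then 1 else 0 := (pp_found h0).ite (PT.const _) (PT.const _)
    refine PT.iterate (g := fun _ F => F ++ [F.getD (F.length - 1) 0 + if found V0 F then 1 else 0])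
      (PT.id.snd.append (((PT.id.snd.getD (by fun_prop) (PT.const _)).add
        (this.comp PT.id.snd)).cons (PT.const _))) PT.id (PT.const _) ((X + 1) * (X + 1) + 1) fun n i hi => ?_
    have h := FF_spec (V0 := V0) i
    refine (size_list_le (FF V0 i) (2 * n + 1) fun x hx => by have := h.2.1 x hx; simp; omega).trans ?_
    simp only [h.1, eval_add, eval_mul, eval_X, eval_one, size_nat]; nlinarith
  have p3 : PT (ff V0) := p1.getD PT.id (PT.const _)
  have p2 : PP fun n => ff V0 n % 2 = 0 := by fun_prop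
  have t : ∀ n, ∀ i < (FF V0 n).length, (FF V0 n).getD i 0 % 2 = 0 ↔ ff V0 i % 2 = 0 := fun n i h => by
    have g := FF_spec (V0 := V0) n
    rw [g.2.2.1 i (by omega)]
  have l : ∀ n, (FF V0 n).getD ((FF V0 n).length - 1) 0 = ff V0 n := fun n => by
    rw [(FF_spec n).1]; rfl
  have key : ∀ k, ∃ n, ff V0 n = k := by
    intro k
    induction k with
    | zero => exact ⟨0, rfl⟩
    | succ k ih =>
      by_contra hc
      obtain ⟨N, hN⟩ := ih
      have c : ∀ n, N ≤ n → ff V0 n = k := fun n h => by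
        induction h with
        | refl => exact hN
        | @step m _ ih =>
          have := (FF_spec (V0 := V0) m).2.2.2
          have : ff V0 (m + 1) ≠ k + 1 := fun e => hc ⟨_, e⟩
          rw [Nat.succ_eq_add_one]
          split_ifs at * <;> omega
      have w : ∀ x, ¬ Wit V0 (fun n => ff V0 n % 2 = 0) k x := fun x hx => by
        obtain ⟨n, h1, h2⟩ := ((eventually_ge_atTop (N + 1)).and (guard_ev (dd k) x)).exists
        obtain ⟨n, rfl⟩ : ∃ m, n = m + 1 := ⟨n - 1, by omega⟩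
        have g := FF_spec (V0 := V0) n
        rw [← g.1] at h2
        have : found V0 (FF V0 n) := ⟨_, lt_of_cpow h2.1, x, (mem_WB h2.1).2 le_rfl, by
          rw [l, c n (by omega)]; exact (witB_iff (t n) h2).2 hx⟩
        have := c n (by omega)
        have := c (n + 1) (by omega)
        have := g.2.2.2
        split_ifs at * <;> omega
      simp only [Wit, not_or, not_and, not_not] at w
      have q : cpow 3 N (3 ^ N + 1) < 3 ^ N + 1 := by rw [cpow_eq]; omega
      have e1 := pt_ev (α := List Bool) (β := Bool) (dd k).1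
      have e2 := pt_ev (α := List Bool) (β := List (ℕ × ℕ)) (dd k).1
      have e3 := pt_ev (α := List Bool × ℕ × List Bool) (β := Bool) (dd k).2
      rcases Nat.mod_two_eq_zero_or_one k with hk | hk
      · obtain ⟨f, hf, e⟩ : PP fun x : List Bool => x ∈ (WB (3 ^ N + 1) N).filter (SS V0) ∨
            N ≤ x.length ∧ ev (dd k).1 x = true := by fun_prop
        refine hS ⟨f, hf, fun x => Iff.trans ?_ (e x)⟩
        beta_reduce
        rw [(w x).1 hk, List.mem_filter, mem_WB q, decide_eq_true_eq]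
        by_cases h : N ≤ x.length
        · simp [c _ h, hk, h]
        · simp [h]; omega
      · obtain ⟨f, hf, e⟩ : PP fun x : List Bool => ¬ ∃ e ∈ (ev (dd k).1 x : List (ℕ × ℕ)),
            ¬ ∃ w ∈ WB (3 ^ N + 1) N, w.length ≤ e.1 ∧ (ff V0 e.1 % 2 = 0 ∨ w = []) ∧
              ev (dd k).2 (x, e.2, w) = true := by fun_prop
        refine hS ⟨f, hf, fun x => Iff.trans ?_ (e x)⟩
        simp only [(w x).2 hk, Acc, not_exists (p := fun e : ℕ × ℕ => _ ∧ _), not_and, not_not, mem_WB q]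
        refine forall₂_congr fun e _ => exists_congr fun w => ⟨fun h => ⟨?_, h⟩, fun h => h.2⟩
        rcases h.2.1 with g | rfl
        · by_contra
          have := c e.1 (by omega); omega
        · simp
  have fin : ∀ k, ∃ x, Wit V0 (fun n => ff V0 n % 2 = 0) k x := fun k => by
    obtain ⟨n, hn⟩ := key (k + 1)
    have : ∃ m, ff V0 m ≤ k ∧ k < ff V0 (m + 1) := by
      by_contra! h
      have : ∀ m, ff V0 m ≤ k := fun m => by
        induction m with
        | zero => exact Nat.zero_le _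
        | succ m ih => exact h m ih
      have := this n; omega
    obtain ⟨m, a, b⟩ := this
    have g := (FF_spec (V0 := V0) m).2.2.2
    split_ifs at g with h
    · obtain ⟨-, -, x, -, h⟩ := h
      rw [l, show ff V0 m = k by omega] at h
      exact ⟨x, (witB_iff (t m) h.1).1 h⟩
    · omega
  refine ⟨_, p2, fun ⟨f, hf, e⟩ => ?_, fun G V hG ⟨f, hf, e⟩ h => ?_⟩
  · obtain ⟨d, hd⟩ := exists_ev hf
    obtain ⟨k, hk⟩ := exists_bits (d, d)
    obtain ⟨x, hx⟩ := fin (2 * k)
    simp [Wit, dd, hk, hd, ← e] at hx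
  · obtain ⟨d, hd⟩ := exists_ev hG
    obtain ⟨d', hd'⟩ := exists_ev hf
    obtain ⟨k, hk⟩ := exists_bits (d, d')
    obtain ⟨x, hx⟩ := fin (2 * k + 1)
    simp only [Wit, dd, show (2 * k + 1) / 2 = k by omega, hk, hd', ← e, funext hd] at hx
    rcases hx with hx | hx
    · omega
    · exact hx.2 (h x)

end Pool.Agent.Cx
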