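import Pool.Agent.Lib.helper10.FbDefs
import Pool.Agent.Lib.helper10.Ladner
import Pool.Agent.Lib.helper10.Clo

/-! Finitely bounded structures from anchored universal theories. -/

namespace Pool.Agent.Fb

open Pool.Agent.Cx Function Polynomial

abbrev Atom := ℕ × ℕ × ℕ
abbrev Cl := List Atom × List Atom
abbrev Inst := ℕ × List (ℕ × ℕ × ℕ × ℕ)

variable {V W : Type}

def Hold (C : ℕ → V → V → Prop) (g : ℕ → V) (a : Atom) : Prop := C a.1 (g a.2.1) (g a.2.2)

def Mod (T : List Cl) (C : ℕ → V → V → Prop) : Prop :=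
  ∀ c ∈ T, ∀ g : ℕ → V, (∀ a ∈ c.1, Hold C g a) → ∃ a ∈ c.2, Hold C g a

lemma Mod.pull {T : List Cl} {C : ℕ → W → W → Prop} (h : Mod T C) (f : V → W) :
    Mod T fun i a b => C i (f a) (f b) := fun c hc g => h c hc (f ∘ g)

def Bd (T : List Cl) (N : ℕ) : Prop := ∀ c ∈ T, ∀ a ∈ c.1 ++ c.2, a.1 < N ∧ a.2.1 < N ∧ a.2.2 < N

lemma exists_bd (T : List Cl) : ∃ N, 12 < N ∧ Bd T N := ⟨size T + 13, by omega, fun c hc a ha => by
  have h1 := size_lt_of_mem hc
  have h2 := size_lt_of_mem ha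
  have h3 := size_append c.1 c.2
  have h4 : size c = _ := size_pair c.1 c.2
  have h5 : size a = _ := size_pair a.1 a.2
  have h6 : size a.2 = _ := size_pair a.2.1 a.2.2
  simp only [size_nat] at *; omega⟩

def Ext (T : List Cl) (N : ℕ) (z : Inst) (s : ℕ) : Prop := ∃ C : ℕ → ℕ → ℕ → Prop, Mod T C ∧
  ∀ i < N, ∀ a < z.1, ∀ b < z.1, (i, s, a, b) ∈ z.2 → (C i a b ↔ i < 12)

def st {N : ℕ} (B : Str N V) (s : V) (i : ℕ) (a b : V) : Prop := ∃ h : i < N, (B ⟨i, h⟩ s a b ↔ i < 12)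

theorem exists_fb {T : List Cl} {N : ℕ} (hT : Bd T N) : ∃ (W : Type) (A : Str N W), FinBounded A ∧
    ∀ z, Hom (toStr N z) A ↔ ∀ s < z.1, Ext T N z s := by
  classical
  have cg : ∀ {V : Type} {C C' : ℕ → V → V → Prop}, (∀ i < N, ∀ a b, C i a b ↔ C' i a b) → Mod T C →
      Mod T C' := fun e h c hc g hb => by
    obtain ⟨a, ha, h⟩ := h c hc g fun a ha => (e _ (hT c hc a (by simp [ha])).1 _ _).2 (hb a ha)
    exact ⟨a, ha, (e _ (hT c hc a (by simp [ha])).1 _ _).1 h⟩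
  have her : ∀ {V W : Type} {B : Str N V} {A : Str N W}, Emb B A → (∀ s, Mod T (st A s)) →
      ∀ s, Mod T (st B s) := fun ⟨f, _, e⟩ h s =>
    cg (fun i hi a b => by simp only [st, e]) ((h (f s)).pull f)
  let W := {S : ℕ → ℕ → ℕ → ℕ → Prop // ∀ s, Mod T (S s)} × ℕ
  let A : Str N W := fun i x y z => (x.1.1 x.2 i y.2 z.2 ↔ i.1 < 12)
  have gA : ∀ s, Mod T (st A s) := fun s =>
    cg (fun i hi a b => by simp only [st, A, hi, exists_true_left]; tauto) ((s.1.2 s.2).pull Prod.snd)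
  refine ⟨W, A, ⟨{C | C.1 ≤ N + 1 ∧ ¬ ∀ s, Mod T (st C.2 s)}, ?_, fun n B => ⟨fun h C hC e =>
    hC.2 (her e (her h gA)), fun h => ?_⟩⟩, fun z => ⟨fun ⟨f, hf⟩ s hs => ?_, fun h => ?_⟩⟩
  · refine ((Set.finite_le_nat (N + 1)).biUnion fun k _ =>
      Set.finite_range (Sigma.mk (β := fun k => Str N (Fin k)) k)).subset ?_
    rintro ⟨k, C⟩ h
    exact Set.mem_biUnion h.1 ⟨C, rfl⟩
  · have g : ∀ s, Mod T (st B s) := fun s c hc g hb => by
      by_contra hn
      let X := insert s ((Finset.range N).image g)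
      have m : ∀ v, (if v < N then g v else s) ∈ X := fun v => by
        split_ifs with h
        · exact Finset.mem_insert_of_mem (Finset.mem_image_of_mem _ (Finset.mem_range.2 h))
        · exact Finset.mem_insert_self _ _
      let e : Fin X.card → Fin n := fun i => (X.equivFin.symm i).1
      refine h ⟨X.card, fun i a b c => B i (e a) (e b) (e c)⟩ ⟨(Finset.card_insert_le s ((Finset.range N).image g)).trans ?_,
        fun h => hn ?_⟩ ⟨e, Subtype.val_injective.comp X.equivFin.symm.injective, fun _ _ _ _ => Iff.rfl⟩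
      · simpa using Finset.card_image_le (s := Finset.range N) (f := g)
      · obtain ⟨a, ha, h⟩ := h (X.equivFin ⟨s, Finset.mem_insert_self _ _⟩) c hc
          (fun v => X.equivFin ⟨_, m v⟩) fun a ha => by
            simpa [Hold, st, e, hT c hc a (by simp [ha])] using hb a ha
        exact ⟨a, ha, by simpa [Hold, st, e, hT c hc a (by simp [ha])] using h⟩
    rcases n with _ | n
    · exact ⟨Fin.elim0, fun a => a.elim0, fun _ a => a.elim0⟩
    · refine ⟨fun a => (⟨fun s i a b => st B (Fin.ofNat _ s) i (Fin.ofNat _ a) (Fin.ofNat _ b),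
        fun s => (g _).pull _⟩, a.1), fun a b h => Fin.ext (congrArg Prod.snd h), fun i a b c => ?_⟩
      simp only [A, st, Fin.ofNat_val_eq_self, i.2, exists_true_left]; tauto
  · let f' : ℕ → W := fun a => if h : a < z.1 then f ⟨a, h⟩ else f ⟨s, hs⟩
    refine ⟨_, (gA (f ⟨s, hs⟩)).pull f', fun i hi a ha b hb h => ?_⟩
    have := hf ⟨i, hi⟩ ⟨s, hs⟩ ⟨a, ha⟩ ⟨b, hb⟩ h
    simp [st, f', ha, hb, hi, this]
  · rcases Nat.eq_zero_or_pos z.1 with e | e
    · exact ⟨fun a => absurd a.2 (by omega), fun _ a => absurd a.2 (by omega)⟩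
    · choose C h1 h2 using fun s => h (s % z.1) (Nat.mod_lt _ e)
      exact ⟨fun a => (⟨C, h1⟩, a.1), fun i a b c h => h2 a i i.2 b b.2 c c.2 (by
        rwa [Nat.mod_eq_of_lt a.2])⟩

end Pool.Agent.Fb
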