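import Pool.Agent.Lib.helper10.Fb1

/-! A polynomial-time predicate on unary numbers as a local system. -/

namespace Pool.Agent.Fb

open Pool.Agent.Cx Function Polynomial Turing

/-- the cells `s m t r j` of the computation on input `m` obey the rules `R` -/
structure Sys (fl : ℕ → Prop) (R : List Rule) (D A nK r0 r1 c0 cT cH cA : ℕ) (p : ℕ[X])
    (s : ℕ → ℕ → ℕ → ℕ → ℕ) : Prop where
  pos : 0 < D
  le : r1 ≤ nK
  lt : ∀ m t r j, r ≠ 0 → s m t r j < A
  fwd : ∀ m t, ∃ r ∈ R, (∀ x ∈ r.1, x.1 ≤ nK ∧ (x.1 = 0 → x.2.1 = 0) ∧ x.2.1 < D ∧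
        s m t x.1 x.2.1 = x.2.2) ∧
      ∀ k j, k ≤ nK → (k = 0 → j = 0) → (k, j, s m (t + 1) k j) ∈ r.2.1 ∨
        ∃ len, k ≠ 0 ∧ (k, len) ∈ r.2.2 ∧ len ≤ j ∧ s m (t + 1) k j = s m t k (j - len + D)
  bwd : ∀ m t, ∀ r ∈ R, (∀ x ∈ r.1, s m t x.1 x.2.1 = x.2.2) →
      (∀ x ∈ r.2.1, s m (t + 1) x.1 x.2.1 = x.2.2) ∧
        ∀ x ∈ r.2.2, ∀ j, s m (t + 1) x.1 (j + x.2) = s m t x.1 (j + D)
  init : ∀ m r j, r ≤ nK → s m 0 r j = if r = 0 then c0 else if r = r0 ∧ j < m then cT else 0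
  snd : ∀ m t, s m t 0 0 = cH → s m t r1 0 = cA → fl m
  cpl : ∀ m, fl m → s m (p.eval m) 0 0 = cH ∧ s m (p.eval m) r1 0 = cA

lemma exists_sys {fl : ℕ → Prop} (h : PP fl) :
    ∃ R D A nK r0 r1 c0 cT cH cA p s, Sys fl R D A nK r0 r1 c0 cT cH cA p s := by
  classical
  obtain ⟨f0, h0, rfl⟩ := h.bool
  obtain ⟨f, ⟨⟨tm, eI, eO⟩, p, hM⟩, hf⟩ := inP_of_PT (L := {x | f0 x.length = true})
    (f := fun x => f0 x.length) (by fun_prop) fun _ => Iff.rfl
  let _ := tm.kFin
  let _ := tm.ΛFin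
  let _ := tm.σFin
  let _ := tm.Γk₀Fin
  set U : Set (Σ k, tm.Γ k) := (⋃ l, syms (tm.m l)) ∪ Set.range (Sigma.mk tm.k₀) ∪
    Set.range (fun b => ⟨tm.k₁, eO.symm b⟩) with hUdef
  have hU : U.Finite := ((Set.finite_iUnion fun l => syms_finite _).union
    (Set.finite_range _)).union (Set.finite_range _)
  have hU1 : ∀ l, syms (tm.m l) ⊆ U := fun l x hx => Or.inl (Or.inl (Set.mem_iUnion.2 ⟨l, hx⟩))
  have hU2 : ∀ a, (⟨tm.k₀, a⟩ : Σ k, tm.Γ k) ∈ U := fun a => Or.inl (Or.inr ⟨a, rfl⟩)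
  have hU3 : ∀ b, (⟨tm.k₁, eO.symm b⟩ : Σ k, tm.Γ k) ∈ U := fun b => Or.inr ⟨b, rfl⟩
  obtain ⟨cc, A, hc0, hcA, hcc⟩ := exists_code U hU
  obtain ⟨lc, hlc⟩ := exists_injective_nat (Option tm.Λ × tm.σ)
  obtain ⟨R, D, hD0, hR⟩ := exists_system tm.m U hU lc hlc cc hcc
  let C : ℕ → ℕ → TM2.Cfg tm.Γ tm.Λ tm.σ := fun m t =>
    (next tm.m)^[t] (initList tm ((List.replicate m true).map eI.symm))
  have hi0 : ∀ L, (initList tm L).stk tm.k₀ = L := fun L => by simp [initList]
  have hi1 : ∀ L k, k ≠ tm.k₀ → (initList tm L).stk k = [] := fun L k hk => by simp [initList, hk]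
  have hCs : ∀ w t, C w (t + 1) = next tm.m (C w t) := fun w t => iterate_succ_apply' _ _ _
  have hval : ∀ w t k, ∀ a ∈ (C w t).stk k, (⟨k, a⟩ : Σ k, tm.Γ k) ∈ U := by
    intro w t
    induction t with
    | zero =>
      intro k a ha
      by_cases hk : k = tm.k₀
      · subst hk; exact hU2 a
      · have : (C w 0).stk k = [] := hi1 _ k hk
        simp [this] at ha
    | succ t ih => rw [hCs]; exact next_inv _ U hU1 _ ih
  have hfin : ∀ m t, C m (p.eval m + t) = haltList tm [eO.symm (f0 m)] := fun m t => by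
    obtain ⟨⟨n, h1⟩, h2⟩ := hM (List.replicate m true)
    have h3 := next_iter tm.m n _ _ h1
    obtain ⟨d, hd⟩ := Nat.exists_eq_add_of_le h2
    have e : f (List.replicate m true) = f0 m := by
      rw [Bool.eq_iff_iff, ← hf]; simp
    simp only [List.length_replicate] at hd
    simp only [C]
    rw [hd, add_assoc, iter_add, ← e]
    exact (congrArg _ h3).trans (iterate_fixed rfl _)
  refine ⟨R, D, A, Fintype.card tm.K, row tm.k₀, row tm.k₁, lc (some tm.main, tm.initialState),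
    cc _ (some (eI.symm true)), lc (none, tm.initialState), cc _ (some (eO.symm true)), p,
    fun m t => snap lc cc (C m t), hD0, row_le _, fun m t r j hr => ?_,
    fun m t => by rw [hCs]; exact (hR _ (hval m t)).1, fun m t => by rw [hCs]; exact (hR _ (hval m t)).2,
    fun m r j hr => ?_, fun m t a b => ?_, fun m h => ?_⟩
  · simp only [snap, if_neg hr]
    split_ifs
    · exact hcA _ _
    · exact lt_of_le_of_lt (Nat.zero_le _) (hcA tm.k₀ none)
  · by_cases h0 : r = 0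
    · subst h0; exact snap_zero _ _ _ _
    · obtain ⟨k, rfl⟩ := exists_row h0 hr
      rw [if_neg h0, snap_row]
      by_cases hk : k = tm.k₀
      · subst hk
        rw [show (C m 0).stk tm.k₀ = _ from hi0 _]
        by_cases hj : j < m <;> simp [hj, hc0]
      · rw [show (C m 0).stk k = [] from hi1 _ k hk, if_neg fun e => hk (row_inj e.1)]
        simp [hc0]
  · rw [snap_zero] at a
    have a := congrArg Prod.fst (hlc a)
    have : C m t = C m (p.eval m + t) := by
      simp only [C] at a ⊢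
      rw [add_comm, iter_add]
      generalize (next tm.m)^[t] _ = c at a
      obtain ⟨l, v, S⟩ := c
      cases a
      exact (iterate_fixed rfl _).symm
    rw [this, hfin, snap_row] at b
    have := hcc _ _ _ (by simpa [haltList] using hU3 _) (by simpa using hU3 _) b
    simpa [haltList] using this
  · have := hfin m 0
    rw [add_zero, h] at this
    rw [this, snap_zero, snap_row]
    simp [haltList]

end Pool.Agent.Fb
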