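import Pool.Agent.Lib.helper10.Fb2

/-! The theory that switches satisfiability constraints on when a computation accepts. -/

namespace Pool.Agent.Fb

open Pool.Agent.Cx Function Polynomial List

def pv (r a : ℕ) : ℕ := 15 + Nat.pair r a

def chain (o K : ℕ) : List Atom := (range K).map fun i => (1, 2 * i + o, 2 * (i + 1) + o)

def body (K : ℕ) (ρ : Rule) : List Atom := (0, 2, 2) :: (12, 0, 0) :: (1, 0, 1) ::
  (chain 2 K ++ ρ.1.map fun x => (pv x.1 x.2.2, 0, 2 * x.2.1 + 2))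

def TH (R : List Rule) (D A nK r0 r1 c0 cT cH cA K : ℕ) : List Cl :=
  [([(0, 0, 0), (0, 1, 1)], [(12, 0, 1)]), ([(12, 0, 1), (1, 0, 2), (1, 1, 3)], [(12, 2, 3)]),
    ([(12, 0, 1), (1, 1, 2)], [(13, 0, 2)]), ([(13, 0, 1), (1, 1, 2)], [(13, 0, 2)]),
    ([(0, 1, 1), (pv 0 cH, 0, 1), (pv r1 cA, 0, 1), (13, 2, 3), (2, 3, 3)], [(14, 2, 2)])] ++
  (range (nK + 1)).flatMap (fun r =>
    [([(0, 0, 0), (13, 1, 2), (2, 2, 2)], [(pv r (if r = 0 then c0 else if r = r0 then cT else 0), 0, 1)]),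
      ([(0, 0, 0), (12, 2, 1), (2, 2, 2)], [(pv r (if r = 0 then c0 else 0), 0, 1)]),
      ([(0, 0, 0), (13, 2, 1), (2, 2, 2)], [(pv r (if r = 0 then c0 else 0), 0, 1)])]) ++
  R.flatMap fun ρ => ρ.2.1.map (fun x => (body K ρ, [(pv x.1 x.2.2, 1, 2 * x.2.1 + 2)])) ++
    ρ.2.2.flatMap fun x => (range A).map fun a =>
      ((12, 3, 3) :: (pv x.1 a, 0, 2 * D + 3) :: (chain 3 K ++ body K ρ), [(pv x.1 a, 1, 2 * x.2 + 3)])

def TB : List Cl :=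
  [([(13, 0, 0)], []), ([(13, 0, 1), (2, 0, 0), (2, 1, 1)], []), ([(12, 0, 1), (3, 0, 0), (4, 1, 1)], [])] ++
  (range 2).flatMap fun a => (range 2).flatMap fun b => (range 2).map fun c =>
    ([(5 + a, 0, 1), (7 + b, 0, 2), (9 + c, 0, 3), (3 + a, 1, 1), (3 + b, 2, 2), (3 + c, 3, 3)], [])

def ch : Cl := ([(14, 0, 0)], [(3, 0, 0), (4, 0, 0)])

def Dp (B : ℕ → ℕ → ℕ → Prop) : ℕ → ℕ → Prop
  | 0, x => B 0 x x
  | k + 1, y => ∃ x, Dp B k x ∧ B 1 x y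

variable {fl : ℕ → Prop} {R : List Rule} {D A nK r0 r1 c0 cT cH cA K : ℕ} {p : ℕ[X]}
  {s : ℕ → ℕ → ℕ → ℕ → ℕ} {B C : ℕ → ℕ → ℕ → Prop}

lemma TH_shape {c : Cl} (hc : c ∈ TH R D A nK r0 r1 c0 cT cH cA K) :
    (∃ a, c.2 = [a]) ∧ ∀ a ∈ c.1, a.1 < 3 ∨ 12 ≤ a.1 := by
  have h1 : ∀ o, ∀ a ∈ chain o K, a.1 < 3 ∨ 12 ≤ a.1 := by simp [chain]
  have h0 : ∀ r a, 12 ≤ pv r a := fun r a => by unfold pv; omega
  have h2 : ∀ ρ, ∀ a ∈ body K ρ, a.1 < 3 ∨ 12 ≤ a.1 := fun ρ a h => by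
    simp only [body, mem_cons, mem_append, mem_map] at h
    rcases h with rfl | rfl | rfl | h | ⟨x, -, rfl⟩
    any_goals exact h1 _ _ h
    all_goals simp [h0]
  simp only [TH, mem_append, mem_cons, mem_flatMap, mem_map, not_mem_nil, or_false] at hc
  rcases hc with ((rfl | rfl | rfl | rfl | rfl) | ⟨r, -, rfl | rfl | rfl⟩) |
    ⟨ρ, -, ⟨x, -, rfl⟩ | ⟨x, -, a, -, rfl⟩⟩
  all_goals refine ⟨⟨_, rfl⟩, ?_⟩
  any_goals exact h2 ρ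
  rotate_right
  · simp only [mem_cons, mem_append, or_imp, forall_and]
    exact ⟨by simp, by simp [h0], h1 3, h2 ρ⟩
  all_goals simp [h0]

lemma eq_lt (h : Mod (TH R D A nK r0 r1 c0 cT cH cA K) C) (e : ∀ i < 12, ∀ a b, B i a b → C i a b) :
    (∀ k x y, Dp B k x → Dp B k y → C 12 x y) ∧
      ∀ l k x y, k < l → Dp B k x → Dp B l y → C 13 x y := by
  have a : ∀ k x y, Dp B k x → Dp B k y → C 12 x y := fun k => by
    induction k with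
    | zero =>
      intro x y a b
      simpa [Hold] using h ([(0, 0, 0), (0, 1, 1)], [(12, 0, 1)]) (by simp [TH]) ([x, y].getD · 0)
        (by simpa [Hold] using ⟨e 0 (by omega) _ _ a, e 0 (by omega) _ _ b⟩)
    | succ k ih =>
      rintro x y ⟨u, a, b⟩ ⟨v, c, d⟩
      simpa [Hold] using h ([(12, 0, 1), (1, 0, 2), (1, 1, 3)], [(12, 2, 3)]) (by simp [TH])
        ([u, v, x, y].getD · 0)
        (by simpa [Hold] using ⟨ih _ _ a c, e 1 (by omega) _ _ b, e 1 (by omega) _ _ d⟩)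
  refine ⟨a, fun l => ?_⟩
  induction l with
  | zero => simp
  | succ l ih =>
    rintro k x y hk b ⟨v, c, d⟩
    rcases (Nat.le_of_lt_succ hk).eq_or_lt with rfl | g
    · simpa [Hold] using h ([(12, 0, 1), (1, 1, 2)], [(13, 0, 2)]) (by simp [TH]) ([x, v, y].getD · 0)
        (by simpa [Hold] using ⟨a _ _ _ b c, e 1 (by omega) _ _ d⟩)
    · simpa [Hold] using h ([(13, 0, 1), (1, 1, 2)], [(13, 0, 2)]) (by simp [TH]) ([x, v, y].getD · 0)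
        (by simpa [Hold] using ⟨ih _ _ _ g b c, e 1 (by omega) _ _ d⟩)

def J (fl : ℕ → Prop) (s : ℕ → ℕ → ℕ → ℕ → ℕ) (B : ℕ → ℕ → ℕ → Prop) (m i a b : ℕ) : Prop :=
  (i < 12 ∧ B i a b) ∨ (i = 12 ∧ ∃ k, Dp B k a ∧ Dp B k b) ∨
    (i = 13 ∧ ∃ k l, k < l ∧ Dp B k a ∧ Dp B l b) ∨ (i = 14 ∧ fl m ∧ ∃ k < m, Dp B k a) ∨
      ∃ r k l, i = pv r (s m k r l) ∧ Dp B k a ∧ Dp B l b

section
variable {m a b : ℕ}
lemma pv_ne (r a : ℕ) : 15 ≤ pv r a := by unfold pv; omega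
lemma J_lt {i : ℕ} (h : i < 12) : J fl s B m i a b ↔ B i a b := by
  have : ∀ r c, i ≠ pv r c := fun r c => by have := pv_ne r c; omega
  simp [J, h, this, show i ≠ 12 by omega, show i ≠ 13 by omega, show i ≠ 14 by omega]
lemma J12 : J fl s B m 12 a b ↔ ∃ k, Dp B k a ∧ Dp B k b := by
  have : ∀ r c, 12 ≠ pv r c := fun r c => by have := pv_ne r c; omega
  simp [J, this]
lemma J13 : J fl s B m 13 a b ↔ ∃ k l, k < l ∧ Dp B k a ∧ Dp B l b := by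
  have : ∀ r c, 13 ≠ pv r c := fun r c => by have := pv_ne r c; omega
  simp only [J, this]; simp
lemma J14 : J fl s B m 14 a b ↔ fl m ∧ ∃ k < m, Dp B k a := by
  have : ∀ r c, 14 ≠ pv r c := fun r c => by have := pv_ne r c; omega
  simp [J, this]
lemma Jpv {r c : ℕ} : J fl s B m (pv r c) a b ↔ ∃ k l, s m k r l = c ∧ Dp B k a ∧ Dp B l b := by
  have := pv_ne r c
  rw [J, or_iff_right (by omega), or_iff_right (by omega), or_iff_right (by omega),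
    or_iff_right (by omega)]
  simp only [pv, Nat.add_left_cancel_iff, Nat.pair_eq_pair]
  exact ⟨fun ⟨_, k, l, ⟨rfl, e⟩, h⟩ => ⟨k, l, e.symm, h⟩, fun ⟨k, l, e, h⟩ => ⟨_, k, l, ⟨rfl, e.symm⟩, h⟩⟩
end

lemma chain_dp {m o k : ℕ} {g : ℕ → ℕ} (h : ∀ a ∈ chain o K, Hold (J fl s B m) g a) (h0 : Dp B k (g o)) :
    ∀ i ≤ K, Dp B (k + i) (g (2 * i + o)) := fun i hi => by
  induction i with
  | zero => simpa using h0
  | succ i ih =>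
    exact ⟨_, ih (by omega), (J_lt (by omega)).1 (h _ (mem_map.2 ⟨i, mem_range.2 hi, rfl⟩))⟩

lemma J_mod (S : Sys fl R D A nK r0 r1 c0 cT cH cA p s) (hD : D ≤ K)
    (hK : ∀ ρ ∈ R, (∀ x ∈ ρ.1 ++ ρ.2.1, x.2.1 ≤ K) ∧ ∀ x ∈ ρ.2.2, x.2 ≤ K) {m : ℕ}
    (u : ∀ k l x, Dp B k x → Dp B l x → k = l) (um : ∀ y l, B 2 y y → Dp B l y → l = m) :
    Mod (TH R D A nK r0 r1 c0 cT cH cA K) (J fl s B m) := by
  intro c hc g hb
  have bd : ∀ ρ ∈ R, (∀ a ∈ body K ρ, Hold (J fl s B m) g a) → ∃ t, Dp B t (g 0) ∧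
      Dp B (t + 1) (g 1) ∧ (∀ i ≤ K, Dp B i (g (2 * i + 2))) ∧ ∀ x ∈ ρ.1, s m t x.1 x.2.1 = x.2.2 := by
    intro ρ hρ h
    simp only [body, mem_cons, mem_append, or_imp, forall_and, forall_eq, Hold, J12,
      J_lt (show 0 < 12 by omega), J_lt (show 1 < 12 by omega), forall_mem_map, Jpv] at h
    obtain ⟨a, ⟨t, b, -⟩, c, d, e⟩ := h
    have f := chain_dp (k := 0) d a
    simp only [zero_add] at f
    refine ⟨t, b, ⟨_, b, c⟩, f, fun x hx => ?_⟩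
    obtain ⟨k, l, e1, e2, e3⟩ := e x hx
    rw [u _ _ _ b e2, u _ _ _ (f _ ((hK ρ hρ).1 x (by simp [hx]))) e3, e1]
  simp only [TH, mem_append, mem_cons, mem_flatMap, mem_map, not_mem_nil, or_false, mem_range] at hc
  rcases hc with ((rfl | rfl | rfl | rfl | rfl) | ⟨r, hr, rfl | rfl | rfl⟩) |
    ⟨ρ, hρ, ⟨x, hx, rfl⟩ | ⟨x, hx, a, -, rfl⟩⟩
  any_goals simp only [mem_cons, not_mem_nil, or_false, or_imp, forall_and, forall_eq, Hold, J12, J13,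
    J14, Jpv, J_lt (show 0 < 12 by omega), J_lt (show 1 < 12 by omega), J_lt (show 2 < 12 by omega),
    exists_eq_left, mem_append] at hb ⊢
  · exact ⟨0, hb⟩
  · obtain ⟨⟨k, a, b⟩, c, d⟩ := hb
    exact ⟨k + 1, ⟨_, a, c⟩, _, b, d⟩
  · obtain ⟨⟨k, a, b⟩, c⟩ := hb
    exact ⟨k, k + 1, by omega, a, _, b, c⟩
  · obtain ⟨⟨k, l, e, a, b⟩, c⟩ := hb
    exact ⟨k, l + 1, by omega, a, _, b, c⟩
  · obtain ⟨a, ⟨k, l, b1, b2, b3⟩, ⟨k', l', c1, c2, c3⟩, ⟨i, j, e, d1, d2⟩, f⟩ := hb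
    rw [u _ _ _ b3 (show Dp B 0 _ from a)] at b1
    rw [u _ _ _ c3 (show Dp B 0 _ from a), u _ _ _ c2 b2] at c1
    exact ⟨S.snd _ _ b1 c1, i, um _ _ f d2 ▸ e, d1⟩
  · obtain ⟨a, ⟨i, j, e, d1, d2⟩, f⟩ := hb
    exact ⟨0, i, by rw [S.init _ _ _ (by omega)]; simp [← um _ _ f d2, e], a, d1⟩
  · obtain ⟨a, ⟨i, d1, d2⟩, f⟩ := hb
    exact ⟨0, i, by rw [S.init _ _ _ (by omega)]; simp [← um _ _ f d1], a, d2⟩
  · obtain ⟨a, ⟨i, j, e, d1, d2⟩, f⟩ := hb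
    exact ⟨0, j, by rw [S.init _ _ _ (by omega)]; simp [← um _ _ f d1, e.le.not_gt], a, d2⟩
  · obtain ⟨t, a, b, c, d⟩ := bd ρ hρ hb
    exact ⟨_, _, (S.bwd m t ρ hρ d).1 x hx, b, c _ ((hK ρ hρ).1 x (by simp [hx]))⟩
  · obtain ⟨⟨j, e1, -⟩, ⟨k, l, e2, e3, e4⟩, e5, e6⟩ := hb
    obtain ⟨t, a, b, c, d⟩ := bd ρ hρ e6
    have f := chain_dp (k := j) e5 e1
    rw [u _ _ _ e3 a, u _ _ _ e4 (f D hD)] at e2
    exact ⟨_, _, ((S.bwd m t ρ hρ d).2 x hx j).trans e2, b, f _ ((hK ρ hρ).2 x hx)⟩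

end Pool.Agent.Fb
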