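import Pool.Agent.Lib.helper10.Fb3

/-! The least model of the Horn part and the verifier. -/

namespace Pool.Agent.Fb

open Pool.Agent.Cx Function Polynomial List

def cd (i a b : ℕ) : ℕ := Nat.pair i (Nat.pair a b)

def Sl (z : Inst) (s i a b : ℕ) : Prop := (i, s, a, b) ∈ z.2 ∧ a < z.1 ∧ b < z.1

def Wd (n N : ℕ) : List (List ℕ) := words (range n) N ((n + 1) ^ N)

def IM (T : List Cl) (N : ℕ) (z : Inst) (s : ℕ) : List ℕ :=
  clo ((N + (z.1 + 1) ^ 2 + 1) ^ 2) (fun E x => decide (x ∈ E ∨ ∃ c ∈ T, ∃ g ∈ Wd z.1 N,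
      (¬ ∃ a ∈ c.1, cd a.1 (g.getD a.2.1 0) (g.getD a.2.2 0) ∉ E) ∧
        ∃ a ∈ c.2, x = cd a.1 (g.getD a.2.1 0) (g.getD a.2.2 0)))
    ((z.2.filter fun f => decide (f.1 < 12 ∧ f.2.1 = s ∧ f.2.2.1 < z.1 ∧ f.2.2.2 < z.1)).map
      fun f => cd f.1 f.2.2.1 f.2.2.2)

def ModN (T : List Cl) (n : ℕ) (C : ℕ → ℕ → ℕ → Prop) : Prop :=
  ∀ c ∈ T, ∀ g : ℕ → ℕ, (∀ v, g v < n) → (∀ a ∈ c.1, Hold C g a) → ∃ a ∈ c.2, Hold C g a

variable {T : List Cl} {N : ℕ} {z : Inst} {s : ℕ}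

lemma cd_inj {i a b j c d : ℕ} : cd i a b = cd j c d ↔ i = j ∧ a = c ∧ b = d := by
  simp [cd, Nat.pair_eq_pair]

lemma cd_lt {i a b n : ℕ} (hi : i < N) (ha : a < n) (hb : b < n) :
    cd i a b < (N + (n + 1) ^ 2 + 1) ^ 2 := by
  have := (Nat.pair_lt_max_add_one_sq a b).trans_le
    (Nat.pow_le_pow_left (show max a b + 1 ≤ n + 1 by omega) 2)
  exact (Nat.pair_lt_max_add_one_sq _ _).trans_le (Nat.pow_le_pow_left (by omega) 2)

lemma wd_lt {n : ℕ} (h : 0 < n) {g : List ℕ} (hg : g ∈ Wd n N) (v : ℕ) : g.getD v 0 < n := by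
  rcases lt_or_ge v g.length with e | e
  · rw [getD_eq_getElem _ _ e]; exact mem_range.1 ((words_len _ _ _ g hg).2 _ (getElem_mem _))
  · rwa [getD_eq_default _ _ e]

lemma mem_wd {n : ℕ} {g : ℕ → ℕ} (h : ∀ v, g v < n) : (range N).map g ∈ Wd n N :=
  (mem_words (by simp)).2 _ (by simp) (by simp [h])

lemma hold_wd (hT : Bd T N) {c : Cl} (hc : c ∈ T) {a : Atom} (ha : a ∈ c.1 ++ c.2) (g : ℕ → ℕ) :
    ((range N).map g).getD a.2.1 0 = g a.2.1 ∧ ((range N).map g).getD a.2.2 0 = g a.2.2 := by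
  simp [hT c hc a ha]

lemma IM_le (h1 : ∀ c ∈ T, ∃ a, c.2 = [a]) {C : ℕ → ℕ → ℕ → Prop} (h : Mod T C)
    (e : ∀ i < 12, ∀ a b, Sl z s i a b → C i a b) {i a b : ℕ} (m : cd i a b ∈ IM T N z s) : C i a b := by
  refine clo_ind _ (P := fun x => ∀ i a b, x = cd i a b → C i a b) ?_ ?_ _ m i a b rfl
  · simp only [mem_map, mem_filter, decide_eq_true_eq]
    rintro _ ⟨⟨j, t, c, d⟩, ⟨f, g, rfl, g1, g2⟩, rfl⟩ i a b k
    obtain ⟨rfl, rfl, rfl⟩ := cd_inj.1 k
    exact e _ g _ _ ⟨f, g1, g2⟩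
  · simp only [decide_eq_true_eq]
    rintro E hE x - (hx | ⟨c, hc, g, -, k, u, hu, rfl⟩)
    · exact hE x hx
    · rintro i a b k'
      obtain ⟨rfl, rfl, rfl⟩ := cd_inj.1 k'
      obtain ⟨v, hv, f⟩ := h c hc (g.getD · 0) fun v hv =>
        hE _ (not_not.1 fun q => k ⟨v, hv, q⟩) _ _ _ rfl
      obtain ⟨w, hw⟩ := h1 c hc
      rw [hw, mem_singleton] at hu hv
      rw [hu, ← hv]; exact f

lemma IM_edb (hN : 12 < N) {i a b : ℕ} (hi : i < 12) (h : Sl z s i a b) : cd i a b ∈ IM T N z s :=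
  sub_clo (by simp +contextual) _ (mem_map.2 ⟨_, mem_filter.2 ⟨h.1, by simp [hi, h.2]⟩, rfl⟩)
    (cd_lt (by omega) h.2.1 h.2.2)

lemma IM_mod (hT : Bd T N) (h1 : ∀ c ∈ T, ∃ a, c.2 = [a]) :
    ModN T z.1 fun i a b => cd i a b ∈ IM T N z s := fun c hc g hg hb => by
  obtain ⟨a, ha⟩ := h1 c hc
  have m : a ∈ c.2 := by simp [ha]
  refine ⟨a, m, clo_fix (by simp +contextual) _ (cd_lt (hT c hc a (by simp [m])).1 (hg _) (hg _))
    (decide_eq_true (Or.inr ⟨c, hc, _, mem_wd hg, fun ⟨v, hv, q⟩ => q ?_, a, m, ?_⟩))⟩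
  · have := hold_wd hT hc (mem_append_left _ hv) g
    rw [this.1, this.2]; exact hb v hv
  · have := hold_wd hT hc (mem_append_right _ m) g
    rw [this.1, this.2]

def layer (z : Inst) (s k : ℕ) : List ℕ :=
  (fun L => (range z.1).filter fun y => decide (∃ x ∈ L, (1, s, x, y) ∈ z.2))^[k]
    ((range z.1).filter fun x => decide ((0, s, x, x) ∈ z.2))

lemma mem_layer {k y : ℕ} : y ∈ layer z s k ↔ Dp (Sl z s) k y := by
  have : ∀ k y, Dp (Sl z s) k y → y < z.1 := fun k y h => by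
    cases k
    · exact h.2.1
    · exact h.choose_spec.2.2.2
  induction k generalizing y with
  | zero => simp [layer, Dp, Sl, and_comm]
  | succ k ih =>
    rw [layer, iterate_succ_apply', ← layer]
    simp only [mem_filter, mem_range, decide_eq_true_eq, ih, Dp, Sl]
    exact ⟨fun ⟨a, x, b, c⟩ => ⟨x, b, c, this _ _ b, a⟩, fun ⟨x, b, c, _, a⟩ => ⟨a, x, b, c⟩⟩

def mk (z : Inst) (s : ℕ) : ℕ :=
  ((range z.1).find? fun k => decide (∃ y ∈ layer z s k, (2, s, y, y) ∈ z.2)).getD 0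

def Cw (H : List Cl) (N : ℕ) (z : Inst) (s : ℕ) (w : List Bool) (i a b : ℕ) : Prop :=
  cd i a b ∈ IM H N z s ∨ (a = b ∧ cd 14 a a ∈ IM H N z s ∧
    ∃ k < w.length, a ∈ layer z s k ∧ i = 3 + (w.getD k false).toNat)

def Ver (T H : List Cl) (N : ℕ) (z : Inst) (s : ℕ) (w : List Bool) : Prop :=
  (¬ ∃ c ∈ T, ∃ g ∈ Wd z.1 N, (¬ ∃ a ∈ c.1, ¬ Cw H N z s w a.1 (g.getD a.2.1 0) (g.getD a.2.2 0)) ∧
    ¬ ∃ a ∈ c.2, Cw H N z s w a.1 (g.getD a.2.1 0) (g.getD a.2.2 0)) ∧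
  ¬ ∃ f ∈ z.2, f.2.1 = s ∧ f.1 < N ∧ f.2.2.1 < z.1 ∧ f.2.2.2 < z.1 ∧
    ¬ (Cw H N z s w f.1 f.2.2.1 f.2.2.2 ↔ f.1 < 12)

section
variable {α : Type} [Enc α] {y : α → Inst} {t : α → ℕ}

@[fun_prop] lemma pt_IM (T : List Cl) (N : ℕ) (hy : PT y) (ht : PT t) : PT fun a => IM T N (y a) (t a) :=
  PT.clo (c := fun a E x => decide (x ∈ E ∨ ∃ c ∈ T, ∃ g ∈ Wd (y a).1 N,
      (¬ ∃ a ∈ c.1, cd a.1 (g.getD a.2.1 0) (g.getD a.2.2 0) ∉ E) ∧
        ∃ a ∈ c.2, x = cd a.1 (g.getD a.2.1 0) (g.getD a.2.2 0))) (by fun_prop)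
    (PP.decide (by unfold Wd cd; fun_prop)) (by unfold cd; fun_prop)

@[fun_prop] lemma pt_layer {k : α → ℕ} (hy : PT y) (ht : PT t) (hk : PT k) :
    PT fun a => layer (y a) (t a) (k a) := by
  obtain ⟨q, hq⟩ := hy.fst.range.bound
  refine PT.iterate (g := fun a L => (range (y a).1).filter fun v =>
    decide (∃ x ∈ L, (1, t a, x, v) ∈ (y a).2)) (by fun_prop) hk (by fun_prop) q fun a i _ => ?_
  refine (size_le_of_sublist ?_).trans (hq a)
  cases i with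
  | zero => exact filter_sublist
  | succ i => rw [iterate_succ_apply']; exact filter_sublist

@[fun_prop] lemma pt_mk (hy : PT y) (ht : PT t) : PT fun a => mk (y a) (t a) := by
  unfold mk; fun_prop

lemma pp_ver (T H : List Cl) (N : ℕ) {w : α → List Bool} (hy : PT y) (ht : PT t) (hw : PT w) :
    PP fun a => Ver T H N (y a) (t a) (w a) := by
  unfold Ver Cw Wd cd; fun_prop

end

lemma ver_iff {H : List Cl} (hT : Bd T N) (hs : s < z.1) {w : List Bool} : Ver T H N z s w ↔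
    ModN T z.1 (Cw H N z s w) ∧ ∀ i < N, ∀ a b, Sl z s i a b → (Cw H N z s w i a b ↔ i < 12) := by
  unfold Ver
  push Not
  refine and_congr ⟨fun h c hc g hg hb => ?_, fun h c hc g hg hb => h c hc _ (wd_lt (by omega) hg) hb⟩
    ⟨fun h i hi a b e => h _ e.1 rfl hi e.2.1 e.2.2, ?_⟩
  · obtain ⟨a, ha, e⟩ := h c hc _ (mem_wd hg) fun v hv => by
      have := hold_wd hT hc (mem_append_left _ hv) g
      rw [this.1, this.2]; exact hb v hv
    have := hold_wd hT hc (mem_append_right _ ha) g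
    rw [this.1, this.2] at e
    exact ⟨a, ha, e⟩
  · rintro h ⟨i, t, a, b⟩ e rfl hi ha hb
    exact h i hi a b ⟨e, ha, hb⟩

variable {fl : ℕ → Prop} {R : List Rule} {D A nK r0 r1 c0 cT cH cA K : ℕ} {p : ℕ[X]}
  {σ : ℕ → ℕ → ℕ → ℕ → ℕ}

lemma uniq {B C : ℕ → ℕ → ℕ → Prop} (h : Mod (TH R D A nK r0 r1 c0 cT cH cA K) C) (hB : Mod TB C)
    (e : ∀ i < 12, ∀ a b, B i a b → C i a b) : (∀ k l x, Dp B k x → Dp B l x → k = l) ∧
      ∀ k l x y, B 2 x x → B 2 y y → Dp B k x → Dp B l y → k = l := by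
  have q := (eq_lt h e).2
  have a : ∀ x, ¬ C 13 x x := fun x g => by
    simpa using hB ([(13, 0, 0)], []) (by simp [TB]) (fun _ => x) (by simpa [Hold] using g)
  have b : ∀ x y, C 13 x y → C 2 x x → ¬ C 2 y y := fun x y g g1 g2 => by
    simpa using hB ([(13, 0, 1), (2, 0, 0), (2, 1, 1)], []) (by simp [TB]) ([x, y].getD · 0)
      (by simpa [Hold] using ⟨g, g1, g2⟩)
  refine ⟨fun k l x c d => ?_, fun k l x y f g c d => ?_⟩ <;> rcases lt_trichotomy k l with m | m | m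
  any_goals exact m
  · exact absurd (q _ _ _ _ m c d) (a _)
  · exact absurd (q _ _ _ _ m d c) (a _)
  · exact absurd (e _ (by omega) _ _ g) (b _ _ (q _ _ _ _ m c d) (e _ (by omega) _ _ f))
  · exact absurd (e _ (by omega) _ _ f) (b _ _ (q _ _ _ _ m d c) (e _ (by omega) _ _ g))

theorem ext_iff (S : Sys fl R D A nK r0 r1 c0 cT cH cA p σ) (hD : D ≤ K)
    (hK : ∀ ρ ∈ R, (∀ x ∈ ρ.1 ++ ρ.2.1, x.2.1 ≤ K) ∧ ∀ x ∈ ρ.2.2, x.2 ≤ K) (hN : 12 < N)
    (hT : Bd (ch :: (TH R D A nK r0 r1 c0 cT cH cA K ++ TB)) N) (hs : s < z.1) :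
    Ext (ch :: (TH R D A nK r0 r1 c0 cT cH cA K ++ TB)) N z s ↔ ∃ w : List Bool, w.length ≤ mk z s ∧
      (fl (mk z s) ∨ w = []) ∧ Ver (ch :: (TH R D A nK r0 r1 c0 cT cH cA K ++ TB))
        (TH R D A nK r0 r1 c0 cT cH cA K) N z s w := by
  classical
  simp only [ver_iff hT hs]
  refine ⟨fun ⟨C, hC, hf⟩ => ?_, fun ⟨w, _, _, h1, h2⟩ => ⟨fun i a b => Cw _ N z s w i (a % z.1) (b % z.1),
    fun c hc g hb => h1 c hc (fun v => g v % z.1) (fun _ => Nat.mod_lt _ (by omega)) hb,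
    fun i hi a ha b hb e => by
      beta_reduce; rw [Nat.mod_eq_of_lt ha, Nat.mod_eq_of_lt hb]; exact h2 i hi a b ⟨e, ha, hb⟩⟩⟩
  have e : ∀ i < 12, ∀ a b, Sl z s i a b → C i a b := fun i hi a b h =>
    (hf i (by omega) a h.2.1 b h.2.2 h.1).2 hi
  have mH : Mod (TH R D A nK r0 r1 c0 cT cH cA K) C := fun c hc => hC c (by simp [hc])
  have mB : Mod TB C := fun c hc => hC c (by simp [hc])
  have sh : ∀ c ∈ TH R D A nK r0 r1 c0 cT cH cA K, ∃ a, c.2 = [a] := fun c hc => (TH_shape hc).1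
  obtain ⟨u, u'⟩ := uniq mH mB e
  have um : ∀ y l, Sl z s 2 y y → Dp (Sl z s) l y → l = mk z s := fun y l a b => by
    have : ∀ l y, Dp (Sl z s) l y → ∀ i ≤ l, ∃ x < z.1, Dp (Sl z s) i x := fun l => by
      induction l with
      | zero => exact fun y h i hi => ⟨y, h.2.1, Nat.le_zero.1 hi ▸ h⟩
      | succ l ih =>
        rintro y ⟨x, g, g'⟩ i hi
        rcases hi.eq_or_lt with rfl | hi
        · exact ⟨y, g'.2.2, x, g, g'⟩
        · exact ih x g i (by omega)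
    choose! f f1 f2 using this l y b
    have := Finset.card_le_card_of_injOn (s := Finset.range (l + 1)) (t := Finset.range z.1) f
      (fun i hi => by simpa using f1 i (by simpa [Nat.lt_succ_iff] using hi)) fun i hi j hj g =>
        u _ _ _ (f2 i (by simpa [Nat.lt_succ_iff] using hi)) (g ▸ f2 j (by simpa [Nat.lt_succ_iff] using hj))
    unfold mk
    cases h : (range z.1).find? fun k => decide (∃ y ∈ layer z s k, (2, s, y, y) ∈ z.2) with
    | none => exact absurd (decide_eq_true ⟨y, mem_layer.2 b, a.1⟩) (find?_eq_none.1 h l (by simpa using this))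
    | some k =>
      have h := find?_some h
      obtain ⟨x, g, g'⟩ := of_decide_eq_true h
      have : x < z.1 := by
        cases k <;> simp only [layer, iterate_succ_apply', iterate_zero_apply, mem_filter, mem_range] at g <;>
          exact g.1
      exact u' _ _ _ _ a ⟨g', this, this⟩ b (mem_layer.1 g)
  have hJ := J_mod S hD hK u um
  have c14 : ∀ a, C 14 a a → C 3 a a ∨ C 4 a a := fun a h => by
    simpa [Hold, ch] using hC ch (by simp) (fun _ => a) (by simpa [Hold, ch] using h)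
  refine ⟨if fl (mk z s) then (range (mk z s)).map fun k => decide (∃ x, Dp (Sl z s) k x ∧ C 4 x x) else [],
    by split_ifs <;> simp, by split_ifs with h <;> simp [h], ?_⟩
  generalize hw : (if fl (mk z s) then _ else []) = w
  have le : ∀ i a b, Cw (TH R D A nK r0 r1 c0 cT cH cA K) N z s w i a b → C i a b := by
    rintro i a b (h | ⟨rfl, h, k, hk, g, rfl⟩)
    · exact IM_le sh mH e h
    · have := c14 a (IM_le sh mH e h)
      subst hw
      split_ifs at hk ⊢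
      · rw [getD_eq_getElem _ _ hk, getElem_map, getElem_range]
        by_cases q : ∃ x, Dp (Sl z s) k x ∧ C 4 x x
        · rw [decide_eq_true q]
          obtain ⟨x, q, q'⟩ := q
          refine this.resolve_left fun t => ?_
          simpa using mB ([(12, 0, 1), (3, 0, 0), (4, 1, 1)], []) (by simp [TB]) ([a, x].getD · 0)
            (by simpa [Hold] using ⟨(eq_lt mH e).1 _ _ _ (mem_layer.1 g) q, t, q'⟩)
        · rw [decide_eq_false q]
          exact this.resolve_right fun t => q ⟨a, mem_layer.1 g, t⟩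
      · simp at hk
  have im : ∀ i a b, i < 3 ∨ 12 ≤ i → Cw (TH R D A nK r0 r1 c0 cT cH cA K) N z s w i a b →
      cd i a b ∈ IM (TH R D A nK r0 r1 c0 cT cH cA K) N z s := by
    rintro i a b hi (h | ⟨-, -, k, -, -, rfl⟩)
    · exact h
    · have := Bool.toNat_le (w.getD k false); omega
  refine ⟨fun c hc g hg hb => ?_, fun i hi a b h =>
    ⟨fun q => (hf i hi a h.2.1 b h.2.2 h.1).1 (le _ _ _ q), fun q => Or.inl (IM_edb hN q h)⟩⟩
  rcases mem_cons.1 hc with rfl | hc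
  · have h := im _ _ _ (by simp) (hb _ mem_cons_self)
    obtain ⟨q, k, hk, t⟩ := J14.1 (IM_le sh hJ (fun i hi a b h => (J_lt hi).2 h) h)
    have : k < w.length := by simp [← hw, q, hk]
    cases v : w.getD k false
    · exact ⟨_, mem_cons_self, Or.inr ⟨rfl, h, k, this, mem_layer.2 t, by rw [v]; rfl⟩⟩
    · exact ⟨(4, 0, 0), by simp [ch], Or.inr ⟨rfl, h, k, this, mem_layer.2 t, by rw [v]; rfl⟩⟩
  rcases mem_append.1 hc with hc | hc
  · obtain ⟨a, ha, h⟩ := IM_mod (z := z) (s := s) (fun c hc => hT c (by simp [hc])) sh c hc g hg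
      fun a ha => im _ _ _ ((TH_shape hc).2 a ha) (hb a ha)
    exact ⟨a, ha, Or.inl h⟩
  · obtain ⟨a, ha, -⟩ := mB c hc g fun a ha => le _ _ _ (hb a ha)
    have : ∀ c ∈ TB, c.2 = [] := by decide
    simp [this c hc] at ha

end Pool.Agent.Fb
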