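import Pool.Agent.Lib.helper10.NPPred

/-! 3SAT is NP-hard. -/

namespace Pool.Agent.Cx

abbrev Lit := ℕ × Bool

def Sat3 (φ : List (Lit × Lit × Lit)) : Prop :=
  ∃ τ : ℕ → Bool, ∀ c ∈ φ, τ c.1.1 = c.1.2 ∨ τ c.2.1.1 = c.2.1.2 ∨ τ c.2.2.1 = c.2.2.2

def to3 (φ : CNF) : List (Lit × Lit × Lit) := (List.range φ.length).flatMap fun k =>
  ((Nat.pair (k + 1) 0, false), (Nat.pair (k + 1) 0, false), (Nat.pair (k + 1) 0, false)) ::
  ((Nat.pair (k + 1) (φ.getD k []).length, true), (Nat.pair (k + 1) (φ.getD k []).length, true),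
    (Nat.pair (k + 1) (φ.getD k []).length, true)) ::
  (List.range (φ.getD k []).length).map fun i => ((Nat.pair (k + 1) i, true),
    (Nat.pair 0 ((φ.getD k []).getD i (0, false)).1, ((φ.getD k []).getD i (0, false)).2),
    (Nat.pair (k + 1) (i + 1), false))

theorem hard_sat3 : Hard Sat3 := hard_sat.red (r := to3) (by unfold to3; fun_prop) fun φ => by
  classical
  simp only [Sat3, to3, List.mem_flatMap, List.mem_range, List.mem_cons, List.mem_map]
  constructor
  · rintro ⟨τ, h⟩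
    refine ⟨fun v => if v.unpair.1 = 0 then τ v.unpair.2 else decide (∃ j < v.unpair.2,
      τ ((φ.getD (v.unpair.1 - 1) []).getD j (0, false)).1 =
        ((φ.getD (v.unpair.1 - 1) []).getD j (0, false)).2), ?_⟩
    rintro c ⟨k, hk, rfl | rfl | ⟨i, hi, rfl⟩⟩
    · simp
    · obtain ⟨l, hl, e⟩ := h φ[k] (List.getElem_mem _)
      obtain ⟨j, hj, rfl⟩ := List.getElem_of_mem hl
      simp only [Nat.unpair_pair, Nat.succ_ne_zero, if_false, Nat.add_sub_cancel, or_self,
        decide_eq_true_eq, List.getD_eq_getElem _ _ hk]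
      exact ⟨j, hj, by rwa [List.getD_eq_getElem _ _ hj]⟩
    · simp only [Nat.unpair_pair, Nat.succ_ne_zero, if_false, Nat.add_sub_cancel, if_true,
        decide_eq_true_eq, decide_eq_false_iff_not, Nat.exists_lt_succ_right]
      exact or_assoc.1 (em _)
  · rintro ⟨τ, h⟩
    refine ⟨fun v => τ (Nat.pair 0 v), fun c hc => ?_⟩
    obtain ⟨k, hk, rfl⟩ := List.getElem_of_mem hc
    by_contra! hn
    have : ∀ i ≤ φ[k].length, τ (Nat.pair (k + 1) i) = false := fun i hi => by
      induction i with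
      | zero => simpa using h _ ⟨k, hk, Or.inl rfl⟩
      | succ i ih =>
        have := h _ ⟨k, hk, Or.inr (Or.inr ⟨i, by rw [List.getD_eq_getElem _ _ hk]; omega, rfl⟩)⟩
        have g := hn φ[k][i] (List.getElem_mem _)
        simpa [ih (by omega), hk, show i < φ[k].length by omega, g] using this
    have g := h _ ⟨k, hk, Or.inr (Or.inl rfl)⟩
    simp [hk, this] at g

end Pool.Agent.Cx
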