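import Pool.Agent.Lib.helper10.Fb4
import Pool.Agent.Lib.helper10.Sat3

/-! A satisfiability instance on a long line. -/

namespace Pool.Agent.Fb

open Pool.Agent.Cx Function Polynomial List

abbrev F3 := List (Lit × Lit × Lit)

def line (L m : ℕ) (φ : F3) : Inst := (L + 1, (0, 0, 0, 0) :: (2, 0, m, m) ::
  ((range L).map (fun i => (1, 0, i, i + 1)) ++ φ.zipIdx.flatMap fun c =>
    [(5 + (!c.1.1.2).toNat, 0, c.2, c.1.1.1), (7 + (!c.1.2.1.2).toNat, 0, c.2, c.1.2.1.1),
      (9 + (!c.1.2.2.2).toNat, 0, c.2, c.1.2.2.1)]))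

variable {fl : ℕ → Prop} {R : List Rule} {D A nK r0 r1 c0 cT cH cA K N L m : ℕ} {p : ℕ[X]}
  {σ : ℕ → ℕ → ℕ → ℕ → ℕ} {φ : F3}

lemma mem_line {i s a b : ℕ} : (i, s, a, b) ∈ (line L m φ).2 ↔ s = 0 ∧ (i = 0 ∧ a = 0 ∧ b = 0 ∨
    i = 2 ∧ a = m ∧ b = m ∨ i = 1 ∧ a < L ∧ b = a + 1 ∨ ∃ c, φ[a]? = some c ∧
      (i = 5 + (!c.1.2).toNat ∧ b = c.1.1 ∨ i = 7 + (!c.2.1.2).toNat ∧ b = c.2.1.1 ∨
        i = 9 + (!c.2.2.2).toNat ∧ b = c.2.2.1)) := by
  simp only [line, mem_cons, mem_append, mem_map, mem_flatMap, mem_range, Prod.mk.injEq,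
    mem_zipIdx_iff_getElem?, not_mem_nil, or_false]
  constructor
  · rintro (h | h | h | ⟨⟨c, k⟩, e, h⟩)
    any_goals omega
    obtain rfl : a = k := by simp only at h; omega
    exact ⟨by omega, Or.inr (Or.inr (Or.inr ⟨c, e, by simp only at h; omega⟩))⟩
  · rintro ⟨rfl, h | h | h | ⟨c, e, h⟩⟩
    · omega
    · omega
    · exact Or.inr (Or.inr (Or.inl ⟨a, by omega⟩))
    · exact Or.inr (Or.inr (Or.inr ⟨(c, a), e, by simpa using h⟩))

lemma dp_line {k x : ℕ} : Dp (Sl (line L m φ) 0) k x ↔ x = k ∧ k ≤ L := by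
  induction k generalizing x with
  | zero => simp only [Dp, Sl, mem_line]; simp only [line]; grind
  | succ k ih => simp only [Dp, ih, Sl, mem_line]; simp only [line]; grind

def gg (t j v : ℕ) : ℕ :=
  if v = 0 then t else if v = 1 then t + 1 else if v % 2 = 0 then v / 2 - 1 else j + (v - 3) / 2

lemma gg_spec (t j : ℕ) : gg t j 0 = t ∧ gg t j 1 = t + 1 ∧ (∀ i, gg t j (2 * i + 2) = i) ∧
    ∀ i, gg t j (2 * i + 3) = j + i := by
  refine ⟨rfl, rfl, fun i => ?_, fun i => ?_⟩ <;> unfold gg <;>
    rw [if_neg (by omega), if_neg (by omega)] <;> split_ifs <;> omega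

theorem line_iff (S : Sys fl R D A nK r0 r1 c0 cT cH cA p σ) (hD : D ≤ K)
    (hK : ∀ ρ ∈ R, (∀ x ∈ ρ.1 ++ ρ.2.1, x.2.1 ≤ K) ∧ ∀ x ∈ ρ.2.2, x.2 ≤ K) (hN : 12 < N) (hf : fl m)
    (hL : (p.eval m + 1) * D + K + m + φ.length ≤ L)
    (hφ : ∀ c ∈ φ, c.1.1 < m ∧ c.2.1.1 < m ∧ c.2.2.1 < m) :
    (∀ s < (line L m φ).1, Ext (ch :: (TH R D A nK r0 r1 c0 cT cH cA K ++ TB)) N (line L m φ) s) ↔
      Sat3 φ := by
  classical
  constructor
  · intro h
    obtain ⟨C, hC, hF⟩ := h 0 (Nat.succ_pos _)
    have e : ∀ i < 12, ∀ a b, Sl (line L m φ) 0 i a b → C i a b := fun i hi a b h =>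
      (hF i (by omega) a h.2.1 b h.2.2 h.1).2 hi
    have mH : Mod (TH R D A nK r0 r1 c0 cT cH cA K) C := fun c hc => hC c (by simp [hc])
    obtain ⟨q1, q2⟩ := eq_lt mH e
    simp only [dp_line] at q1 q2
    have s0 : C 0 0 0 := e 0 (by omega) _ _ (by simp [Sl, line])
    have s1 : ∀ i < L, C 1 i (i + 1) := fun i hi => e 1 (by omega) _ _ (by simp [Sl, line]; omega)
    have s2 : C 2 m m := e 2 (by omega) _ _ (by simp [Sl, line]; omega)
    have pD := S.pos
    have F := forward (nK := nK) (R := R) (D := D) (A := A) (T := p.eval m)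
      (fun n => decide (∃ t r j a, n = var t r j a ∧ C (pv r a) t j)) (σ m) (fun c hc => ?_)
      (S.lt m) (S.fwd m) fun k j h1 _ h3 => ?_
    · simp only [decide_eq_true_eq, var_inj, and_assoc, exists_and_left, exists_eq_left'] at F
      have a1 := F _ le_rfl 0 0 (by omega) (fun _ => rfl) (by nlinarith)
      have a2 := F _ le_rfl r1 0 S.le (fun _ => rfl) (by nlinarith)
      rw [(S.cpl m hf).1] at a1
      rw [(S.cpl m hf).2] at a2
      have v : ∀ l : Lit, l.1 < m → decide (C 4 l.1 l.1) ≠ l.2 → C (3 + (!l.2).toNat) l.1 l.1 := by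
        rintro ⟨x, b⟩ hx h
        have a3 : C 14 x x := by
          simpa [Hold] using mH ([(0, 1, 1), (pv 0 cH, 0, 1), (pv r1 cA, 0, 1), (13, 2, 3), (2, 3, 3)],
            [(14, 2, 2)]) (by simp [TH]) ([p.eval m, 0, x, m].getD · 0) (by
              simpa [Hold] using ⟨s0, a1, a2, q2 m x x m hx ⟨rfl, by omega⟩ ⟨rfl, by omega⟩, s2⟩)
        have a4 : C 3 x x ∨ C 4 x x := by
          simpa [Hold, ch] using hC ch (by simp) (fun _ => x) (by simpa [Hold, ch] using a3)
        cases b
        · simpa using h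
        · exact a4.resolve_right (by simpa using h)
      refine ⟨fun x => decide (C 4 x x), fun c hc => ?_⟩
      by_contra! hn
      obtain ⟨k, hk⟩ := mem_iff_getElem?.1 hc
      have := (List.getElem?_eq_some_iff.1 hk).1
      have := hφ c hc
      have t : ∀ b : Bool, b.toNat < 2 := fun b => by cases b <;> simp
      have f : ∀ i b, i < 12 → b < m → (i, 0, k, b) ∈ (line L m φ).2 → C i k b := fun i b hi hb h =>
        e i hi _ _ ⟨h, by simp [line]; omega, by simp [line]; omega⟩
      have := t (!c.1.2)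
      have := t (!c.2.1.2)
      have := t (!c.2.2.2)
      simpa using hC ([(5 + (!c.1.2).toNat, 0, 1), (7 + (!c.2.1.2).toNat, 0, 2), (9 + (!c.2.2.2).toNat, 0, 3),
        (3 + (!c.1.2).toNat, 1, 1), (3 + (!c.2.1.2).toNat, 2, 2), (3 + (!c.2.2.2).toNat, 3, 3)], [])
        (mem_cons_of_mem _ (mem_append_right _ (mem_append_right _ (by
          simp only [mem_flatMap, mem_map, mem_range]
          exact ⟨_, t _, _, t _, _, t _, rfl⟩)))) ([k, c.1.1, c.2.1.1, c.2.2.1].getD · 0) (by
          simpa [Hold] using ⟨f _ _ (by omega) (by omega) (by simp [mem_line, hk]),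
            f _ _ (by omega) (by omega) (by simp [mem_line, hk]),
            f _ _ (by omega) (by omega) (by simp [mem_line, hk]), v _ (by omega) hn.1,
            v _ (by omega) hn.2.1, v _ (by omega) hn.2.2⟩)
    · by_contra! hn
      simp only [stepClauses, mem_flatMap, mem_range, mem_append, mem_map] at hc
      obtain ⟨t, ht, ρ, hρ, hc⟩ := hc
      have tL : t < L := by nlinarith
      have bd : ∀ j, (∀ l ∈ negPrem t ρ, l ∈ c) → ∀ a ∈ body K ρ, Hold C (gg t j) a := fun j h => by
        simp only [body, chain, mem_cons, mem_append, or_imp, forall_and, forall_eq, Hold, forall_mem_map,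
          mem_range, gg_spec]
        refine ⟨s0, q1 t t t ⟨rfl, tL.le⟩ ⟨rfl, tL.le⟩, s1 t tL, fun i hi => ?_, fun x hx => ?_⟩
        · exact s1 i (by omega)
        · have := hn _ (h _ (mem_map_of_mem hx))
          simp only [ne_eq, decide_eq_false_iff_not, not_not, var_inj, and_assoc, exists_and_left,
            exists_eq_left'] at this
          exact this
      rcases hc with ⟨x, hx, rfl⟩ | ⟨x, hx, j, hj, a, ha, rfl⟩
      · obtain ⟨_, g, h⟩ := mH (body K ρ, [(pv x.1 x.2.2, 1, 2 * x.2.1 + 2)]) (by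
          simp only [TH, mem_append, mem_flatMap, mem_map]
          exact Or.inr ⟨ρ, hρ, Or.inl ⟨x, hx, rfl⟩⟩) _ (bd 0 fun l => mem_cons_of_mem _)
        rw [mem_singleton.1 g] at h
        refine hn _ mem_cons_self (decide_eq_true ⟨_, _, _, _, rfl, ?_⟩)
        simpa only [Hold, gg_spec] using h
      · obtain ⟨_, g, h⟩ := mH ((12, 3, 3) :: (pv x.1 a, 0, 2 * D + 3) :: (chain 3 K ++ body K ρ),
          [(pv x.1 a, 1, 2 * x.2 + 3)]) (by
          simp only [TH, mem_append, mem_flatMap, mem_map, mem_range]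
          exact Or.inr ⟨ρ, hρ, Or.inr ⟨x, hx, a, ha, rfl⟩⟩) _ (by
            simp only [mem_cons, mem_append, or_imp, forall_and, forall_eq]
            refine ⟨?_, ?_, ?_, bd j fun l h => mem_cons_of_mem _ (mem_cons_of_mem _ h)⟩
            · exact q1 j j j ⟨rfl, by omega⟩ ⟨rfl, by omega⟩
            · have := hn _ (mem_cons_of_mem _ mem_cons_self)
              simp only [ne_eq, decide_eq_false_iff_not, not_not, var_inj, and_assoc, exists_and_left,
                exists_eq_left'] at this
              simpa only [Hold, gg_spec] using this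
            · simp only [chain, forall_mem_map, mem_range, Hold, gg_spec]
              exact fun i hi => s1 (j + i) (by omega))
        rw [mem_singleton.1 g] at h
        refine hn _ mem_cons_self (decide_eq_true ⟨_, _, _, _, rfl, ?_⟩)
        simpa only [Hold, gg_spec] using h
    · refine decide_eq_true ⟨_, _, _, _, rfl, ?_⟩
      rw [S.init _ _ _ h1]
      have hk : k ∈ range (nK + 1) := by simp; omega
      rcases lt_trichotomy j m with g | g | g
      · simpa [Hold, g] using mH ([(0, 0, 0), (13, 1, 2), (2, 2, 2)],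
          [(pv k (if k = 0 then c0 else if k = r0 then cT else 0), 0, 1)]) (by
            simp only [TH, mem_append, mem_flatMap]; exact Or.inl (Or.inr ⟨k, hk, by simp⟩))
          ([0, j, m].getD · 0) (by
            simpa [Hold] using ⟨s0, q2 m j j m g ⟨rfl, by omega⟩ ⟨rfl, by omega⟩, s2⟩)
      · simpa [Hold, g] using mH ([(0, 0, 0), (12, 2, 1), (2, 2, 2)],
          [(pv k (if k = 0 then c0 else 0), 0, 1)]) (by
            simp only [TH, mem_append, mem_flatMap]; exact Or.inl (Or.inr ⟨k, hk, by simp⟩))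
          ([0, j, m].getD · 0) (by
            simpa [Hold] using ⟨s0, q1 m m j ⟨rfl, by omega⟩ ⟨g, by omega⟩, s2⟩)
      · simpa [Hold, g.le.not_gt] using mH ([(0, 0, 0), (13, 2, 1), (2, 2, 2)],
          [(pv k (if k = 0 then c0 else 0), 0, 1)]) (by
            simp only [TH, mem_append, mem_flatMap]; exact Or.inl (Or.inr ⟨k, hk, by simp⟩))
          ([0, j, m].getD · 0) (by
            simpa [Hold] using ⟨s0, q2 j m m j g ⟨rfl, by omega⟩ ⟨rfl, by omega⟩, s2⟩)
  · rintro ⟨τ, hτ⟩ s -
    have hJ := J_mod (B := Sl (line L m φ) 0) (m := m) S hD hK (by simp only [dp_line]; omega)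
      (by simp only [dp_line, Sl, mem_line]; grind)
    have im : ∀ i a b, i ≠ 3 → i ≠ 4 → (J fl σ (Sl (line L m φ) 0) m i a b ∨ i = 3 + (τ a).toNat) →
        J fl σ (Sl (line L m φ) 0) m i a b := by
      rintro i a b h h' (g | rfl)
      · exact g
      · have := Bool.toNat_le (τ a); omega
    refine ⟨fun i a b => J fl σ (Sl (line L m φ) 0) m i a b ∨ i = 3 + (τ a).toNat, fun c hc g hb => ?_,
      fun i _ a ha b hb h => ?_⟩
    · rcases mem_cons.1 hc with rfl | hc
      · cases v : τ (g 0) <;> simp [ch, Hold, v]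
      rcases mem_append.1 hc with hc | hc
      · obtain ⟨a, ha, h⟩ := hJ c hc g fun a ha => by
          have := (TH_shape hc).2 a ha
          exact im _ _ _ (by omega) (by omega) (hb a ha)
        exact ⟨a, ha, Or.inl h⟩
      exfalso
      have v : ∀ i x, i < 2 → (J fl σ (Sl (line L m φ) 0) m (3 + i) x x ∨ 3 + i = 3 + (τ x).toNat) →
          (τ x).toNat = i := fun i x hi h => by
        rw [J_lt (by omega), Sl, mem_line] at h
        grind
      simp only [TB, mem_append, mem_cons, mem_flatMap, mem_map, mem_range, not_mem_nil, or_false] at hc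
      rcases hc with (rfl | rfl | rfl) | ⟨a, ha, b, hb', c, hc', rfl⟩ <;>
        simp only [mem_cons, not_mem_nil, or_false, or_imp, forall_and, forall_eq, Hold] at hb
      · have := J13.1 (im _ _ _ (by omega) (by omega) hb)
        simp only [dp_line] at this; omega
      · have := J13.1 (im _ _ _ (by omega) (by omega) hb.1)
        have a := (J_lt (by omega)).1 (im _ _ _ (by omega) (by omega) hb.2.1)
        have b := (J_lt (by omega)).1 (im _ _ _ (by omega) (by omega) hb.2.2)
        simp only [dp_line, Sl, mem_line] at this a b; grind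
      · have := J12.1 (im _ _ _ (by omega) (by omega) hb.1)
        have a := v 0 _ (by omega) hb.2.1
        have b := v 1 _ (by omega) hb.2.2
        simp only [dp_line] at this; grind
      · obtain ⟨a1, a2, a3, a4, a5, a6⟩ := hb
        have a1 := ((J_lt (by omega)).1 (im _ _ _ (by omega) (by omega) a1)).1
        have a2 := ((J_lt (by omega)).1 (im _ _ _ (by omega) (by omega) a2)).1
        have a3 := ((J_lt (by omega)).1 (im _ _ _ (by omega) (by omega) a3)).1
        have a4 := v _ _ ha a4
        have a5 := v _ _ hb' a5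
        have a6 := v _ _ hc' a6
        have t : ∀ b : Bool, b.toNat < 2 := fun b => by cases b <;> simp
        have t' : ∀ b b' : Bool, b.toNat = (!b').toNat → b ≠ b' := by decide
        simp only [mem_line] at a1 a2 a3
        obtain ⟨d, e1, e2⟩ := ((a1.2.resolve_left (by omega)).resolve_left (by omega)).resolve_left (by omega)
        obtain ⟨d', f1, f2⟩ := ((a2.2.resolve_left (by omega)).resolve_left (by omega)).resolve_left (by omega)
        obtain ⟨d'', g1, g2⟩ := ((a3.2.resolve_left (by omega)).resolve_left (by omega)).resolve_left (by omega)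
        obtain rfl : d = d' := Option.some.inj (e1.symm.trans f1)
        obtain rfl : d = d'' := Option.some.inj (e1.symm.trans g1)
        have := t (!d.1.2)
        have := t (!d.2.1.2)
        have := t (!d.2.2.2)
        rcases hτ d (mem_of_getElem? e1) with h | h | h
        · exact t' _ _ (by rw [← show g 1 = d.1.1 by omega]; omega) h
        · exact t' _ _ (by rw [← show g 2 = d.2.1.1 by omega]; omega) h
        · exact t' _ _ (by rw [← show g 3 = d.2.2.1 by omega]; omega) h
    · have t : ∀ b : Bool, b.toNat < 2 := fun b => by cases b <;> simp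
      have h' := mem_line.1 h
      obtain rfl := h'.1
      have hi : i < 12 := by
        rcases h'.2 with h | h | h | ⟨d, -, h⟩
        any_goals omega
        have := t (!d.1.2)
        have := t (!d.2.1.2)
        have := t (!d.2.2.2)
        omega
      exact iff_of_true (Or.inl ((J_lt hi).2 ⟨h, ha, hb⟩)) hi

end Pool.Agent.Fb
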