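import Pool.Agent.Lib.helper10.NPDefs

/-! Relational structures with finitely many ternary relations and their CSPs. -/

namespace Pool.Agent.Fb

open Pool.Agent.Cx

/-- a structure on the domain `V` for the signature with `m` ternary relation symbols -/
abbrev Str (m : ℕ) (V : Type) : Type := Fin m → V → V → V → Prop

/-- there is a homomorphism from `B` to `A` -/
def Hom {m : ℕ} {V W : Type} (B : Str m V) (A : Str m W) : Prop :=
  ∃ f : V → W, ∀ i a b c, B i a b c → A i (f a) (f b) (f c)

/-- there is an embedding of `B` into `A` -/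
def Emb {m : ℕ} {V W : Type} (B : Str m V) (A : Str m W) : Prop :=
  ∃ f : V → W, Function.Injective f ∧ ∀ i a b c, B i a b c ↔ A i (f a) (f b) (f c)

/-- `A` is finitely bounded -/
def FinBounded {m : ℕ} {W : Type} (A : Str m W) : Prop :=
  ∃ F : Set (Σ k : ℕ, Str m (Fin k)), F.Finite ∧
    ∀ (n : ℕ) (B : Str m (Fin n)), Emb B A ↔ ∀ C ∈ F, ¬ Emb C.2 B

/-- the finite structure given by the size of its domain and the list of its tuples -/
def toStr (m : ℕ) (z : ℕ × List (ℕ × ℕ × ℕ × ℕ)) : Str m (Fin z.1) :=
  fun i a b c => (i.1, a.1, b.1, c.1) ∈ z.2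

/-- the constraint satisfaction problem of `A` -/
def CSP {m : ℕ} {W : Type} (A : Str m W) : Language := Lang fun z => Hom (toStr m z) A

end Pool.Agent.Fb
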