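import Pool.Agent.Lib.helper10.Kit2
import Pool.Agent.Lib.helper10.FPT

/-! Gaussian elimination over the field with two elements. -/

namespace Pool.Agent.Cx

open List Polynomial

def chi (l : List ℕ) : ℕ → ZMod 2 := fun i => if i ∈ l then 1 else 0

def sd (W a b : List ℕ) : List ℕ := W.filter fun i => decide (¬ (i ∈ a ↔ i ∈ b))

lemma mem_sd {W a b : List ℕ} {i : ℕ} : i ∈ sd W a b ↔ i ∈ W ∧ ¬ (i ∈ a ↔ i ∈ b) := by simp [sd]

lemma chi_sd (W a b : List ℕ) (j : ℕ) : chi (sd W a b) j = if j ∈ W then chi a j + chi b j else 0 := by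
  simp only [chi, mem_sd]
  by_cases h : j ∈ W <;> by_cases g : j ∈ a <;> by_cases f : j ∈ b <;> simp [h, g, f]
  rfl

def Spn (B : List (List ℕ)) : Submodule (ZMod 2) (ℕ → ZMod 2) := Submodule.span _ (chi '' {b | b ∈ B})

/-- on the coordinates in `C`, the vector `v` is a sum of vectors of `B` -/
def Sol (C : List ℕ) (B : List (List ℕ)) (v : List ℕ) : Prop := ∃ x ∈ Spn B, ∀ i ∈ C, chi v i = x i

def red (W p : List ℕ) (i : ℕ) (b : List ℕ) : List ℕ := sd W b (if i ∈ b then p else [])

def estep (W : List ℕ) (s : List (List ℕ) × List ℕ × Bool) (i : ℕ) : List (List ℕ) × List ℕ × Bool :=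
  (s.1.map (red W ((s.1.find? fun b => decide (i ∈ b)).getD []) i),
    red W ((s.1.find? fun b => decide (i ∈ b)).getD []) i s.2.1,
    s.2.2 && decide (¬ i ∈ s.2.1 ∨ i ∈ (s.1.find? fun b => decide (i ∈ b)).getD []))

lemma sol_step {W C p v : List ℕ} {B : List (List ℕ)} {i : ℕ} (hC : ∀ j ∈ C, j ∈ W)
    (hp : p ∈ B ∧ i ∈ p ∨ p = [] ∧ ∀ b ∈ B, i ∉ b) :
    Sol (i :: C) B v ↔ (¬ i ∈ v ∨ i ∈ p) ∧ Sol C (B.map (red W p i)) (red W p i v) := by
  let π : (ℕ → ZMod 2) →ₗ[ZMod 2] (ℕ → ZMod 2) :=
    { toFun := fun x j => if j ∈ W then x j + x i * chi p j else 0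
      map_add' := fun x y => by ext j; simp only [Pi.add_apply]; split_ifs <;> ring
      map_smul' := fun a x => by ext j; simp only [Pi.smul_apply, smul_eq_mul, RingHom.id_apply]; split_ifs <;> ring }
  have e : ∀ b, chi (red W p i b) = π (chi b) := fun b => by
    ext j
    simp only [red, chi_sd, π, LinearMap.coe_mk, AddHom.coe_mk]
    by_cases h : i ∈ b <;> simp [h, chi]
  have s : Spn (B.map (red W p i)) = (Spn B).map π := by
    rw [Spn, Spn, Submodule.map_span]
    congr 1; ext x
    simp [e]
  have z : (∀ b ∈ B, i ∉ b) → ∀ x ∈ Spn B, x i = 0 := fun h x hx => by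
    induction hx using Submodule.span_induction with
    | mem x hx => obtain ⟨b, hb, rfl⟩ := hx; simp [chi, h b hb]
    | zero => rfl
    | add x y _ _ a b => simp [a, b]
    | smul a x _ b => simp [b]
  simp only [Sol, s, e, mem_cons, forall_eq_or_imp, Submodule.mem_map, exists_exists_and_eq_and]
  constructor
  · rintro ⟨x, hx, a, b⟩
    refine ⟨?_, x, hx, fun j hj => by simp [π, a, b j hj]⟩
    rcases hp with h | h
    · exact Or.inr h.2
    · left; intro g; simp [chi, g, z h.2 x hx] at a
  · rintro ⟨a, x, hx, b⟩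
    have t : ∀ y : ZMod 2, y + y = 0 := by decide
    refine ⟨x + (x i + chi v i) • chi p, (Spn B).add_mem hx ((Spn B).smul_mem _ ?_), ?_, fun j hj => ?_⟩
    · rcases hp with h | h
      · exact Submodule.subset_span ⟨p, h.1, rfl⟩
      · rw [h.1]; exact (Spn B).zero_mem
    · rcases hp with h | h
      · simp [chi, h.2, ← add_assoc, t]
      · simp [chi, h.1, z h.2 x hx, a.resolve_right (by simp [h.1])]
    · have := b j hj
      simp only [π, LinearMap.coe_mk, AddHom.coe_mk, hC j hj, if_true] at this
      simp only [Pi.add_apply, Pi.smul_apply, smul_eq_mul]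
      linear_combination this - t (chi v i * chi p j)

lemma sol_iff {W : List ℕ} (C : List ℕ) : (∀ j ∈ C, j ∈ W) → ∀ s : List (List ℕ) × List ℕ × Bool,
    ((C.foldl (estep W) s).2.2 = true ↔ s.2.2 = true ∧ Sol C s.1 s.2.1) := by
  induction C with
  | nil => exact fun _ s => by simpa [Sol] using fun _ => ⟨0, (Spn _).zero_mem⟩
  | cons i C ih =>
    intro h s
    rw [foldl_cons, ih fun j hj => h j (by simp [hj]), sol_step (W := W)
      (p := (s.1.find? fun b => decide (i ∈ b)).getD []) fun j hj => h j (by simp [hj])]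
    · simp only [estep, Bool.and_eq_true, decide_eq_true_eq, and_assoc]
    · cases e : s.1.find? fun b => decide (i ∈ b) with
      | none => exact Or.inr ⟨rfl, by simpa using e⟩
      | some p => exact Or.inl ⟨mem_of_find?_eq_some e, by simpa using find?_some e⟩

variable {α : Type} [Enc α]

@[fun_prop] lemma PT.sd {W a b : α → List ℕ} (hW : PT W) (ha : PT a) (hb : PT b) :
    PT fun x => sd (W x) (a x) (b x) := PT.filter (PP.decide (by fun_prop)) hW

@[fun_prop] lemma PP.sol {C v : α → List ℕ} {B : α → List (List ℕ)} (hC : PT C) (hB : PT B) (hv : PT v) :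
    PP fun x => Sol (C x) (B x) (v x) := by
  obtain ⟨p, hp⟩ := hC.bound
  obtain ⟨q, hq⟩ := (hB.pair (hv.pair (PT.const true))).bound
  have b : ∀ (W L : List ℕ) (s : List (List ℕ) × List ℕ × Bool), (L.foldl (estep W) s).1.length = s.1.length ∧
      size (L.foldl (estep W) s) ≤ size s + s.1.length * (size W + 1) + size W + 6 := fun W L s => by
    induction L using reverseRecOn with
    | nil => simp; omega
    | append_singleton L i ih =>
      rw [foldl_append, foldl_cons, foldl_nil]
      generalize L.foldl (estep W) s = t at *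
      have r : ∀ p b, size (red W p i b) ≤ size W := fun _ _ => size_le_of_sublist filter_sublist
      have := size_list_le (t.1.map (red W ((t.1.find? fun b => Decidable.decide (i ∈ b)).getD []) i)) (size W)
        (by simp [r])
      have := r ((t.1.find? fun b => Decidable.decide (i ∈ b)).getD []) t.2.1
      have := size_bool (estep W t i).2.2
      simp only [estep, size_pair, length_map, ih.1] at *
      exact ⟨trivial, by omega⟩
  refine ⟨fun x => ((C x).foldl (estep (C x)) (B x, v x, true)).2.2, (PT.foldl (by unfold estep red; fun_prop)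
    hC (by fun_prop) (q + q * (p + 1) + p + 6) fun a i => (b _ _ _).2.trans ?_).snd.snd,
    fun x => by simp [sol_iff (C x) fun _ h => h]⟩
  have := hp a
  have h := hq a
  have := length_lt_size (B a)
  have : (B a).length * (size (C a) + 1) ≤ q.eval (size a) * (p.eval (size a) + 1) :=
    Nat.mul_le_mul (by simp only [size_pair] at h; omega) (by omega)
  simp only [eval_add, eval_mul, eval_one, eval_ofNat]; omega

end Pool.Agent.Cx
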