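import Pool.Agent.Lib.helper10.Sat3

/-! A digraph whose kernel-perfectness expresses a universal-existential statement. -/

namespace Pool.Agent.Kp

open Pool.Agent.Cx

/-- `K` is a kernel of the subdigraph induced by `U` -/
def IsKernel (A : ℕ → ℕ → Prop) (U K : Set ℕ) : Prop :=
  K ⊆ U ∧ (∀ a ∈ K, ∀ b ∈ K, ¬ A a b) ∧ ∀ v ∈ U, v ∉ K → ∃ w ∈ K, A v w

lemma of_semi {A : ℕ → ℕ → Prop} {N : ℕ} (h : ∀ U : Set ℕ, (∀ v ∈ U, v < N) → U.Nonempty →
    ∃ S ⊆ U, S.Nonempty ∧ (∀ a ∈ S, ∀ b ∈ S, ¬ A a b) ∧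
      ∀ s ∈ S, ∀ y ∈ U, A s y → ∃ t ∈ S, A y t) (U : Set ℕ) (hU : ∀ v ∈ U, v < N) :
    ∃ K, IsKernel A U K := by
  induction' e : U.ncard using Nat.strong_induction_on with n ih generalizing U
  rcases U.eq_empty_or_nonempty with rfl | ne
  · exact ⟨∅, by simp [IsKernel]⟩
  obtain ⟨S, s1, ⟨s, s2⟩, s3, s4⟩ := h U hU ne
  have fin : U.Finite := (Set.finite_lt_nat N).subset hU
  obtain ⟨K, k1, k2, k3⟩ := ih _ (e ▸ Set.ncard_lt_ncard (s := {v ∈ U | v ∉ S ∧ ¬ ∃ t ∈ S, A v t})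
    ⟨fun _ g => g.1, fun g => (g (s1 s2)).2.1 s2⟩ fin) _ (fun v g => hU v g.1) rfl
  refine ⟨S ∪ K, Set.union_subset s1 fun _ g => (k1 g).1, ?_, fun v hv g => ?_⟩
  · rintro a (ha | ha) b (hb | hb) g
    · exact s3 a ha b hb g
    · exact (k1 hb).2.2 (s4 a ha b (k1 hb).1 g)
    · exact (k1 ha).2.2 ⟨b, hb, g⟩
    · exact k2 a ha b hb g
  · by_cases c : ∃ t ∈ S, A v t
    · obtain ⟨t, t1, t2⟩ := c
      exact ⟨t, Or.inl t1, t2⟩
    · obtain ⟨w, w1, w2⟩ := k3 v ⟨hv, fun c => g (Or.inl c), c⟩ fun c => g (Or.inr c)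
      exact ⟨w, Or.inr w1, w2⟩

def ow (n x y : ℕ) : Prop := (x % 5 < 2 ∧ y = 5 * (x / 5) + 2) ∨ (x % 5 = 2 ∧ y = x + 1) ∨
  (x % 5 = 3 ∧ y = x + 1) ∨ (x % 5 = 4 ∧ (y = x + 1 ∨ y = x + 2)) ∨
  ((x + 6 = 10 * n ∨ x + 8 = 10 * n) ∧ y < 2)

def tw (n x y : ℕ) : Prop := (x % 5 < 2 ∧ y = 5 * (x / 5) + 3) ∨ (x % 5 = 4 ∧ y = x + 3) ∨
  (x + 6 = 10 * n ∧ y = 2)

def dm (st : ℕ → ℕ) (x y : ℕ) : Prop := x % 10 = 2 ∧ y % 10 < 2 ∧ st (y / 10) = st (x / 10) + 1

def cf (lt : ℕ → Lit) (x y : ℕ) : Prop :=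
  x % 10 < 2 ∧ y % 10 < 2 ∧ (lt x).1 = (lt y).1 ∧ ¬ (lt x).2 = (lt y).2

def arc (n : ℕ) (st : ℕ → ℕ) (lt : ℕ → Lit) (x y : ℕ) : Prop :=
  ow n x y ∨ tw n x y ∨ tw n y x ∨ dm st x y ∨ dm st y x ∨ cf lt x y

def Good (n : ℕ) (st : ℕ → ℕ) (lt : ℕ → Lit) : Prop := ∀ β : ℕ → Bool, ∃ τ : ℕ → Bool,
  ∀ t ≤ st (n - 1), ∃ k < n, st k = t ∧ τ (lt (10 * k + (β k).toNat)).1 = (lt (10 * k + (β k).toNat)).2

variable {n : ℕ} {st : ℕ → ℕ} {lt : ℕ → Lit}

lemma cf_symm {x y : ℕ} (h : cf lt x y) : cf lt y x := ⟨h.2.1, h.1, h.2.2.1.symm, fun e => h.2.2.2 e.symm⟩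

theorem complete (hn : 2 ≤ n) (h0 : ∀ k < n, st k = 0 → k = 0)
    (hT : ∀ k, k + 1 < n → st k < st (n - 1)) (h : Good n st lt) (U : Set ℕ)
    (hU : ∀ v ∈ U, v < 10 * n - 5) : ∃ K, IsKernel (arc n st lt) U K := by
  classical
  refine of_semi (fun U hU ⟨x, hx⟩ => ?_) U hU
  by_cases c : ∃ x ∈ U, ∀ y ∈ U, arc n st lt x y → arc n st lt y x
  · obtain ⟨x, hx, c⟩ := c
    refine ⟨{x}, by simpa, by simp, ?_, by simpa using c⟩
    simp only [Set.mem_singleton_iff, forall_eq, arc, ow, tw, dm, cf]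
    simp only [not_true, and_false, or_false]
    omega
  have cl : ∀ x ∈ U, ∃ y ∈ U, ow n x y := fun x hx => by
    by_contra! g
    refine c ⟨x, hx, fun y hy a => ?_⟩
    have := g y hy
    have := @cf_symm lt x y
    unfold arc at *
    tauto
  have z : ∃ y ∈ U, y < 2 := by
    induction' e : 10 * n - x using Nat.strong_induction_on with m ih generalizing x
    obtain ⟨y, hy, g⟩ := cl x hx
    by_cases y2 : y < 2
    · exact ⟨y, hy, y2⟩
    · have := hU y hy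
      exact ih (10 * n - y) (by unfold ow at g; omega) y hy rfl
  have all : ∀ i, 5 * i + 5 < 10 * n → 5 * i ∈ U ∨ 5 * i + 1 ∈ U := fun i hi => by
    induction i with
    | zero =>
      obtain ⟨y, hy, y2⟩ := z
      interval_cases y <;> simp [hy]
    | succ i ih =>
      have a : 5 * i + 2 ∈ U := by
        rcases ih (by omega) with g | g <;> obtain ⟨y, hy, e⟩ := cl _ g <;>
          rwa [show y = 5 * i + 2 by unfold ow at e; omega] at hy
      obtain ⟨y, hy, e⟩ := cl _ a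
      obtain rfl : y = 5 * i + 3 := by unfold ow at e; omega
      obtain ⟨y, hy, e⟩ := cl _ hy
      obtain rfl : y = 5 * i + 4 := by unfold ow at e; omega
      obtain ⟨y, hy, e⟩ := cl _ hy
      obtain rfl | rfl : y = 5 * (i + 1) ∨ y = 5 * (i + 1) + 1 := by unfold ow at e; omega
      · exact Or.inl hy
      · exact Or.inr hy
  obtain ⟨τ, hτ⟩ := h fun k => decide (10 * k ∉ U)
  let S : Set ℕ := {x ∈ U | x % 10 < 2 ∧ τ (lt x).1 = (lt x).2}
  have hS : ∀ t ≤ st (n - 1), ∃ s ∈ S, s / 10 < n ∧ st (s / 10) = t := fun t ht => by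
    obtain ⟨k, k1, k2, k3⟩ := hτ t ht
    have := Bool.toNat_le (decide (10 * k ∉ U))
    have e : (10 * k + (decide (10 * k ∉ U)).toNat) / 10 = k := by omega
    refine ⟨_, ⟨?_, by omega, k3⟩, by rwa [e], by rwa [e]⟩
    have := all (2 * k) (by omega)
    rw [← mul_assoc] at this
    by_cases g : 10 * k ∈ U
    · simp [g]
    · simpa [g] using this
  refine ⟨S, fun _ g => g.1, (hS 0 (by omega)).imp fun _ g => g.1, ?_, ?_⟩
  · rintro a ⟨-, a1, a2⟩ b ⟨-, b1, b2⟩ (g | g | g | g | g | g)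
    · unfold ow at g; omega
    · unfold tw at g; omega
    · unfold tw at g; omega
    · unfold dm at g; omega
    · unfold dm at g; omega
    · exact g.2.2.2 (by rw [← a2, ← b2, g.2.2.1])
  · intro s hs y hy g
    by_cases o : ow n s y
    · have := hU y hy
      have s1 := hs.2.1
      obtain rfl : y = 10 * (s / 10) + 2 := by unfold ow at o; omega
      by_cases l : s / 10 + 1 < n
      · obtain ⟨t, t1, t2, t3⟩ := hS (st (s / 10) + 1) (hT _ l)
        refine ⟨t, t1, Or.inr (Or.inr (Or.inr (Or.inl ⟨by omega, t1.2.1, ?_⟩)))⟩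
        rwa [show (10 * (s / 10) + 2) / 10 = s / 10 by omega]
      · obtain ⟨t, t1, t2, t3⟩ := hS 0 (by omega)
        have := h0 _ t2 t3
        have := t1.2.1
        exact ⟨t, t1, Or.inl (by unfold ow; omega)⟩
    · refine ⟨s, hs, ?_⟩
      have := @cf_symm lt s y
      unfold arc at *
      tauto

theorem sound (hn : 2 ≤ n) (h0 : st 0 = 0)
    (hm : ∀ k < n, ∀ k' < n, st k' = st k + 1 → k < k')
    (h : ∀ U : Set ℕ, (∀ v ∈ U, v < 10 * n - 5) → ∃ K, IsKernel (arc n st lt) U K) :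
    Good n st lt := by
  classical
  intro β
  let r : ℕ → ℕ := fun i => if i % 2 = 0 then (β (i / 2)).toNat else 0
  have r1 : ∀ i, r i < 2 := fun i => by
    have := Bool.toNat_le (β (i / 2))
    simp only [r]; split_ifs <;> omega
  obtain ⟨K, k1, k2, k3⟩ := h {x | x < 10 * n - 5 ∧ (x % 5 < 2 → x % 5 = r (x / 5))} fun _ g => g.1
  have o1 : ∀ {a b}, a ∈ K → b ∈ K → ¬ ow n a b := fun a b g => k2 _ a _ b (Or.inl g)
  have o2 : ∀ {a b}, a ∈ K → b ∈ K → ¬ tw n a b := fun a b g => k2 _ a _ b (Or.inr (Or.inl g))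
  have step : ∀ x ∈ K, x % 5 < 2 → ∃ y ∈ K, (x % 10 < 2 ∧ x / 10 + 1 = n ∧ y < 2) ∨
      (x % 10 < 2 ∧ y % 10 < 2 ∧ st (y / 10) = st (x / 10) + 1) := fun x hx g => by
    have x1 := (k1 hx).1
    obtain ⟨y, hy, a⟩ := k3 (5 * (x / 5) + 2) ⟨by omega, by omega⟩
      fun c => o1 hx c (by unfold ow; omega)
    have y1 := (k1 hy).1
    have n1 := o1 hy hx
    have n2 := o2 hx hy
    refine ⟨y, hy, ?_⟩
    rcases a with a | a | a | a | a | a
    · unfold ow tw at *; omega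
    · unfold ow tw at *; omega
    · unfold ow tw at *; omega
    · refine Or.inr ⟨by have := a.1; omega, a.2.1, ?_⟩
      rw [a.2.2, show (5 * (x / 5) + 2) / 10 = x / 10 by omega]
    · unfold dm at a; omega
    · unfold cf at a; omega
  by_cases re : ∃ x ∈ K, x % 5 < 2
  · obtain ⟨x, hx, g⟩ := re
    have z : ∃ y ∈ K, y < 2 := by
      induction' e : n - x / 10 using Nat.strong_induction_on with m ih generalizing x
      obtain ⟨y, hy, a | a⟩ := step x hx g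
      · exact ⟨y, hy, a.2.2⟩
      · have x1 := (k1 hx).1
        have y1 := (k1 hy).1
        have := hm _ (by omega) _ (by omega) a.2.2
        exact ih (n - y / 10) (by omega) y hy (by omega) rfl
    have all : ∀ t ≤ st (n - 1), ∃ y ∈ K, y % 10 < 2 ∧ st (y / 10) = t := fun t ht => by
      induction t with
      | zero =>
        obtain ⟨y, hy, y2⟩ := z
        exact ⟨y, hy, by omega, by rw [show y / 10 = 0 by omega, h0]⟩
      | succ t ih =>
        obtain ⟨y, hy, y1, rfl⟩ := ih (by omega)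
        obtain ⟨w, hw, a | a⟩ := step y hy (by omega)
        · rw [show n - 1 = y / 10 by omega] at ht; omega
        · exact ⟨w, hw, a.2⟩
    refine ⟨fun v => decide (∃ y ∈ K, y % 10 < 2 ∧ lt y = (v, true)), fun t ht => ?_⟩
    obtain ⟨y, hy, y1, y2⟩ := all t ht
    have y3 := (k1 hy).1
    have y4 := (k1 hy).2 (by omega)
    have e : 10 * (y / 10) + (β (y / 10)).toNat = y := by
      simp only [r, if_pos (show y / 5 % 2 = 0 by omega), show y / 5 / 2 = y / 10 by omega] at y4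
      omega
    refine ⟨y / 10, by omega, y2, ?_⟩
    rw [e]
    cases b : (lt y).2
    · simp only [decide_eq_false_iff_not]
      rintro ⟨w, hw, w1, w2⟩
      exact k2 _ hy _ hw (Or.inr (Or.inr (Or.inr (Or.inr (Or.inr ⟨y1, w1, by simp [w2],
        by simp [w2, b]⟩)))))
    · exact decide_eq_true ⟨y, hy, y1, by rw [← b]⟩
  exfalso
  have nr : ∀ x ∈ K, 2 ≤ x % 5 := fun x hx => by
    by_contra g
    exact re ⟨x, hx, by omega⟩
  have ce : ∀ i, 5 * i + 5 < 10 * n → 5 * i + 3 ∉ K → 5 * i + 4 ∈ K := fun i hi g => by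
    obtain ⟨y, hy, a⟩ := k3 (5 * i + 3) ⟨by omega, by omega⟩ g
    have := nr y hy
    rwa [show y = 5 * i + 4 by unfold arc ow tw dm cf at a; omega] at hy
  have ed : ∀ i, 5 * i + 5 < 10 * n → 5 * i + 4 ∉ K →
      ∃ y ∈ K, y = 5 * i + 7 ∨ (5 * i + 10 = 10 * n ∧ y = 2) := fun i hi g => by
    obtain ⟨y, hy, a⟩ := k3 (5 * i + 4) ⟨by omega, by omega⟩ g
    have := nr y hy
    exact ⟨y, hy, by unfold arc ow tw dm cf at a; omega⟩
  have cd : ∀ i, 5 * i + 5 < 10 * n → 5 * i + 3 ∈ K →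
      ∃ y ∈ K, y = 5 * i + 7 ∨ (5 * i + 10 = 10 * n ∧ y = 2) := fun i hi g =>
    ed i hi fun c => o1 g c (by unfold ow; omega)
  have dd : ∀ i, 5 * i + 5 < 10 * n → 5 * i + 2 ∈ K → ∀ y ∈ K,
      ¬ (y = 5 * i + 7 ∨ (5 * i + 10 = 10 * n ∧ y = 2)) := fun i hi g y hy c =>
    o2 (ce i hi fun c => o1 g c (by unfold ow; omega)) hy (by unfold tw; omega)
  have ab : ∀ i, 5 * i + 5 < 10 * n → 5 * i + 2 ∈ K ∨ 5 * i + 3 ∈ K ∨
      (i % 2 = 0 ∧ ∃ k, 2 * k < i ∧ 10 * k + 2 ∈ K) := fun i hi => by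
    have := r1 i
    obtain ⟨y, hy, a⟩ := k3 (5 * i + r i) ⟨by omega, fun _ => by
      rw [show (5 * i + r i) / 5 = i by omega]; omega⟩ fun c => by have := nr _ c; omega
    have := nr y hy
    have y1 := (k1 hy).1
    rcases a with a | a | a | a | a | a
    · exact Or.inl (by rwa [show y = 5 * i + 2 by unfold ow at a; omega] at hy)
    · exact Or.inr (Or.inl (by rwa [show y = 5 * i + 3 by unfold tw at a; omega] at hy))
    · unfold tw at a; omega
    · unfold dm at a; omega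
    · have := hm _ (by omega) _ (by omega) a.2.2
      have := a.1
      have := a.2.1
      exact Or.inr (Or.inr ⟨by omega, y / 10, by omega, by
        rwa [show 10 * (y / 10) + 2 = y by omega]⟩)
    · unfold cf at a; omega
  have ex : ∃ k, k < n ∧ 10 * k + 2 ∈ K := by
    rcases ab (2 * (n - 1)) (by omega) with g | g | ⟨-, k, g, g'⟩
    · exact ⟨n - 1, by omega, by rwa [← mul_assoc] at g⟩
    · obtain ⟨y, hy, e⟩ := cd _ (by omega) g
      have := (k1 hy).1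
      exact ⟨0, by omega, by rwa [show y = 10 * 0 + 2 by omega] at hy⟩
    · exact ⟨k, by omega, g'⟩
  have up : ∀ k, k + 1 < n → 10 * k + 2 ∈ K → 10 * (k + 1) + 2 ∈ K := fun k hk g => by
    rcases ab (2 * k + 1) (by omega) with c | c | c
    · exact absurd (by omega) (dd (2 * k) (by omega) (by rwa [← mul_assoc]) _ c)
    · obtain ⟨y, hy, e⟩ := cd _ (by omega) c
      rwa [show y = 10 * (k + 1) + 2 by omega] at hy
    · omega
  have la : ∀ j k, k + j + 1 = n → 10 * k + 2 ∈ K → 10 * (n - 1) + 2 ∈ K := fun j => by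
    induction j with
    | zero => intro k e g; rwa [show n - 1 = k by omega]
    | succ j ih => exact fun k e g => ih (k + 1) (by omega) (up k (by omega) g)
  obtain ⟨u1, u2⟩ := Nat.find_spec ex
  have mn := fun k => Nat.find_min ex (m := k)
  generalize Nat.find ex = u at *
  have l := la (n - 1 - u) u (by omega) u2
  rcases u with _ | u
  · exact dd (2 * (n - 1)) (by omega) (by rwa [← mul_assoc]) _ u2 (by omega)
  rcases ab (2 * u) (by omega) with g | g | ⟨-, k, g, g'⟩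
  · exact mn u (by omega) ⟨by omega, by rwa [← mul_assoc] at g⟩
  · obtain ⟨y, hy, e⟩ := cd _ (by omega) g
    exact dd (2 * u + 1) (by omega) (by rwa [show y = 5 * (2 * u + 1) + 2 by omega] at hy) _ u2
      (by omega)
  · exact mn k (by omega) ⟨by omega, g'⟩

end Pool.Agent.Kp
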