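import Pool.Agent.Lib.helper10.NPProg

/-! Primitive polynomial-time programs. -/

namespace Pool.Agent.Cx

open Function Polynomial

def RunLe (P : Prog) (s s' : St) (n : ℕ) : Prop := ∃ m ≤ n, Run P s s' m

lemma Run.le {P s s' n} (h : Run P s s' n) : RunLe P s s' n := ⟨n, le_rfl, h⟩

lemma RunLe.mono {P s s' n m} (h : RunLe P s s' n) (hm : n ≤ m) : RunLe P s s' m :=
  let ⟨k, hk, h⟩ := h; ⟨k, hk.trans hm, h⟩

lemma RunLe.seq {p q s s' s'' n m} (h : RunLe p s s' n) (h' : RunLe q s' s'' m) :
    RunLe (.seq p q) s s'' (n + m) :=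
  let ⟨_, h1, h2⟩ := h; let ⟨_, h3, h4⟩ := h'; ⟨_, Nat.add_le_add h1 h3, .seq h2 h4⟩

lemma RunLe.iteN {r a b c s s' n} (hr : (s r).head? = none) (h : RunLe a s s' n) :
    RunLe (.ite r a b c) s s' (n + 1) :=
  let ⟨_, h1, h2⟩ := h; ⟨_, Nat.add_le_add_right h1 1, .iteN hr h2⟩

lemma RunLe.iteF {r a b c s s' n} (hr : (s r).head? = some false) (h : RunLe b s s' n) :
    RunLe (.ite r a b c) s s' (n + 1) :=
  let ⟨_, h1, h2⟩ := h; ⟨_, Nat.add_le_add_right h1 1, .iteF hr h2⟩

lemma RunLe.iteT {r a b c s s' n} (hr : (s r).head? = some true) (h : RunLe c s s' n) :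
    RunLe (.ite r a b c) s s' (n + 1) :=
  let ⟨_, h1, h2⟩ := h; ⟨_, Nat.add_le_add_right h1 1, .iteT hr h2⟩

lemma RunLe.loopS {r p s s' s'' n m} (hr : (s r).head? ≠ none) (h : RunLe p s s' n)
    (h' : RunLe (.loop r p) s' s'' m) : RunLe (.loop r p) s s'' (n + m + 1) :=
  let ⟨_, h1, h2⟩ := h; let ⟨_, h3, h4⟩ := h'
  ⟨_, Nat.add_le_add_right (Nat.add_le_add h1 h3) 1, .loopS hr h2 h4⟩

lemma RunLe.of_eq {P s s' s'' n} (h : RunLe P s s' n) (e : s' = s'') : RunLe P s s'' n := e ▸ h

lemma RunLe.length_le {p s s' n} (h : RunLe p s s' n) (r : ℕ) :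
    (s' r).length ≤ (s r).length + n :=
  let ⟨_, h1, h2⟩ := h; (h2.length_le r).trans (by omega)

lemma eval_mono (p : ℕ[X]) {a b : ℕ} (h : a ≤ b) : p.eval a ≤ p.eval b := by
  induction p using Polynomial.induction_on' with
  | add p q hp hq => simp only [eval_add]; omega
  | monomial n c => simp only [eval_monomial]; gcongr

/-- push the bits of `l` on register `r` (so the last bit of `l` ends on top) -/
def pushes (r : ℕ) : List Bool → Prog
  | [] => .skip
  | b :: l => .seq (.push r b) (pushes r l)

lemma pushes_run (r : ℕ) (l : List Bool) (s : St) :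
    RunLe (pushes r l) s (update s r (l.reverse ++ s r)) (l.length + 1) := by
  induction l generalizing s with
  | nil => simpa [pushes] using (Run.skip s).le
  | cons b l ih =>
    refine (((Run.push r b s).le.seq (ih _)).of_eq ?_).mono (by simp; omega)
    simp

/-- empty register `a`, pushing `g b` on `r` and `g' b` on `r'` for each bit `b` -/
def tr (a r r' : ℕ) (g g' : Bool → List Bool) : Prog :=
  .loop a (.ite a .skip (.seq (.pop a) (.seq (pushes r (g false)) (pushes r' (g' false))))
    (.seq (.pop a) (.seq (pushes r (g true)) (pushes r' (g' true)))))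

lemma tr_run {a r r' : ℕ} (h1 : r ≠ a) (h2 : r' ≠ a) (h3 : r ≠ r') (g g' : Bool → List Bool)
    (c : ℕ) (hc : ∀ b, (g b).length + (g' b).length ≤ c) (x : List Bool) (s : St) (hs : s a = x) :
    RunLe (tr a r r' g g') s
      (update (update (update s a []) r ((x.flatMap g).reverse ++ s r)) r'
        ((x.flatMap g').reverse ++ s r')) ((c + 5) * x.length + 1) := by
  induction x generalizing s with
  | nil =>
    refine ((Run.loopN (by simp [hs])).le.of_eq ?_).mono (by simp)
    funext i
    by_cases ha : i = a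
    · subst ha; simp [h1.symm, h2.symm, hs]
    · by_cases hr : i = r'
      · subst hr; simp
      · by_cases hr2 : i = r
        · subst hr2; simp [h3]
        · simp [ha, hr, hr2]
  | cons b x ih =>
    have key : RunLe (.seq (.pop a) (.seq (pushes r (g b)) (pushes r' (g' b)))) s
        (update (update (update s a x) r ((g b).reverse ++ s r)) r' ((g' b).reverse ++ s r'))
        (c + 3) := by
      refine (((Run.pop a s).le.seq ((pushes_run _ _ _).seq (pushes_run _ _ _))).of_eq ?_).mono
        (by have := hc b; omega)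
      simp [hs, h1, h2, h3.symm]
    have key2 : RunLe (.ite a .skip
        (.seq (.pop a) (.seq (pushes r (g false)) (pushes r' (g' false))))
        (.seq (.pop a) (.seq (pushes r (g true)) (pushes r' (g' true))))) s
        (update (update (update s a x) r ((g b).reverse ++ s r)) r' ((g' b).reverse ++ s r'))
        (c + 3 + 1) := by
      cases b
      · exact .iteF (by simp [hs]) key
      · exact .iteT (by simp [hs]) key
    refine ((RunLe.loopS (by simp [hs]) key2 (ih _ (by simp [h1.symm, h2.symm]))).of_eq ?_).mono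
      (by simp; ring_nf; omega)
    funext i
    by_cases hr : i = r'
    · subst hr; simp
    · by_cases hr2 : i = r
      · subst hr2; simp [h3]
      · by_cases ha : i = a
        · subst ha; simp [hr, hr2]
        · simp [ha, hr, hr2]

/-- empty `a`, pushing `g b` on `r` for each bit -/
def tr1 (a r : ℕ) (g : Bool → List Bool) : Prog := tr a r (a + r + 1) g (fun _ => [])

lemma tr1_run {a r : ℕ} (h1 : r ≠ a) (g : Bool → List Bool) (c : ℕ) (hc : ∀ b, (g b).length ≤ c)
    (s : St) : RunLe (tr1 a r g) s (update (update s a []) r (((s a).flatMap g).reverse ++ s r))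
      ((c + 5) * (s a).length + 1) := by
  refine (tr_run h1 (by omega) (by omega) g (fun _ => []) c (fun b => by simpa using hc b) _ s rfl).of_eq ?_
  funext i
  by_cases hi : i = a + r + 1
  · subst hi
    simp [show a + r + 1 ≠ r by omega, show a + r + 1 ≠ a by omega]
  · simp [hi]

def mv (a r : ℕ) : Prog := tr1 a r (fun b => [b])

lemma mv_run {a r : ℕ} (h1 : r ≠ a) (s : St) :
    RunLe (mv a r) s (update (update s a []) r ((s a).reverse ++ s r)) (6 * (s a).length + 1) := by
  simpa [mv] using tr1_run h1 (fun b => [b]) 1 (by simp) s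

def clr (a : ℕ) : Prog := tr1 a (a + 1) (fun _ => [])

lemma clr_run (a : ℕ) (s : St) : RunLe (clr a) s (update s a []) (5 * (s a).length + 1) := by
  refine (tr1_run (a := a) (r := a + 1) (by omega) (fun _ => []) 0 (by simp) s).of_eq ?_
  funext i
  by_cases hi : i = a + 1
  · subst hi; simp
  · simp [hi]

lemma Comp.mono {P N N' x y n n'} (h : Comp P N x y n) (hN : N ≤ N') (hn : n ≤ n') :
    Comp P N' x y n' := fun s h0 h1 =>
  RunLe.mono (h s h0 (fun i hi hi' => h1 i hi (by omega))) hn

lemma Comp.length_le {P N x y n} (h : Comp P N x y n) : y.length ≤ x.length + n := by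
  have := RunLe.length_le (h (update (fun _ => []) 0 x) (by simp)
    (fun i hi _ => by simp [show i ≠ 0 by omega])) 0
  simpa using this

variable {α β γ : Type}

lemma PTe.bound {ea : α → List Bool} {eb : β → List Bool} {f : α → β} (h : PTe ea eb f) :
    ∃ p : ℕ[X], ∀ a, (eb (f a)).length ≤ p.eval (ea a).length := by
  obtain ⟨P, N, p, h⟩ := h
  exact ⟨X + p, fun a => by simpa using (h a).length_le⟩

lemma PTe.congr {ea : α → List Bool} {eb : β → List Bool} {f : α → β} (h : PTe ea eb f)
    {α' β' : Type} {ea' : α' → List Bool} {eb' : β' → List Bool} {f' : α' → β'} (i : α' → α)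
    (hi : ∀ a, ea' a = ea (i a)) (hf : ∀ a, eb' (f' a) = eb (f (i a))) : PTe ea' eb' f' := by
  obtain ⟨P, N, p, h⟩ := h
  exact ⟨P, N, p, fun a => by rw [hi, hf]; exact h _⟩

lemma PTe.id (ea : α → List Bool) : PTe ea ea (fun a => a) :=
  ⟨.skip, 0, 1, fun a s h _ => by
    refine ⟨1, by simp, ?_⟩
    rw [← h, update_eq_self]; exact .skip s⟩

lemma PTe.comp {ea : α → List Bool} {eb : β → List Bool} {ec : γ → List Bool} {g : β → γ}
    {f : α → β} (hg : PTe eb ec g) (hf : PTe ea eb f) : PTe ea ec (fun a => g (f a)) := by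
  obtain ⟨P, N, p, h⟩ := hf
  obtain ⟨Q, M, q, h'⟩ := hg
  refine ⟨.seq P Q, max N M, p + q.comp (X + p), fun a s h0 h1 => ?_⟩
  have e1 : RunLe P s _ _ := h a s h0 (fun i hi hi' => h1 i hi (by omega))
  have e2 : RunLe Q _ _ _ := h' (f a) (update s 0 (eb (f a))) (by simp)
    (fun i hi hi' => by rw [update_of_ne (by omega)]; exact h1 i hi (by omega))
  rw [update_idem] at e2
  refine (e1.seq e2).mono ?_
  simp only [eval_add, eval_comp, eval_X]
  exact Nat.add_le_add_left (eval_mono _ (h a).length_le) _

/-- bitwise substitution with constant head and tail -/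
lemma PTe.bits (g : Bool → List Bool) (pre post : List Bool) :
    PTe (fun x : List Bool => x) (fun x : List Bool => x) (fun x => pre ++ x.flatMap g ++ post) := by
  set c := (g false).length + (g true).length with hc
  have hg : ∀ b, (g b).length ≤ c := by intro b; cases b <;> omega
  refine ⟨.seq (tr1 0 1 g) (.seq (pushes 0 post.reverse) (.seq (mv 1 0) (pushes 0 pre.reverse))), 2,
    C (7 * c + 5) * X + C (pre.length + post.length + 4), fun x s h0 h1 => ?_⟩
  have h11 : s 1 = [] := h1 1 le_rfl (by omega)
  have hl : (x.flatMap g).length ≤ c * x.length := by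
    clear h0
    induction x with
    | nil => simp
    | cons b x ih => have := hg b; simp only [List.flatMap_cons, List.length_append, List.length_cons]; nlinarith
  refine RunLe.mono (RunLe.of_eq ((tr1_run (by omega) g c hg s).seq ((pushes_run _ _ _).seq
    ((mv_run (by omega) _).seq (pushes_run _ _ _)))) ?_) ?_
  · funext i
    by_cases hi : i = 0
    · subst hi; simp [h0, h11]
    · by_cases hi1 : i = 1
      · subst hi1; simp [h11]
      · simp [hi, hi1]
  · simp [h0, h11, -List.length_flatMap]; nlinarith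

/-- the loop that reads one tree code -/
def parseLoop : Prog :=
  .loop 2 (.ite 0 (.pop 2) (.seq (.pop 0) (.seq (.push 1 false) (.pop 2)))
    (.seq (.pop 0) (.seq (.push 1 true) (.push 2 true))))

lemma parseLoop_run (t : BT) : ∀ (s : St) (rest c : List Bool) (s'' : St) (n : ℕ),
    s 0 = t.code ++ rest → s 2 = true :: c →
    RunLe parseLoop (update (update (update s 0 rest) 1 (t.code.reverse ++ s 1)) 2 c) s'' n →
    RunLe parseLoop s s'' (n + 5 * t.code.length) := by
  induction t with
  | leaf =>
    intro s rest c s'' n h0 h2 h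
    refine (RunLe.loopS (by simp [h2]) (RunLe.iteF (by simp [h0, BT.code])
      (((Run.pop 0 s).le.seq ((Run.push 1 false _).le.seq (Run.pop 2 _).le)).of_eq ?_)) h).mono
      (by simp [BT.code]; omega)
    simp [h0, h2, BT.code]
  | node l r ihl ihr =>
    intro s rest c s'' n h0 h2 h
    have e := ihl (update (update (update s 0 (l.code ++ (r.code ++ rest))) 1 (true :: s 1)) 2
      (true :: true :: c)) (r.code ++ rest) (true :: c) s'' (n + 5 * r.code.length) (by simp)
      (by simp) (ihr _ rest c s'' n (by simp) (by simp) (by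
        convert h using 1
        funext i
        by_cases h2 : i = 2
        · subst h2; simp
        · by_cases h1 : i = 1
          · subst h1; simp [BT.code]
          · by_cases h0 : i = 0
            · subst h0; simp
            · simp [h0, h1, h2]))
    refine (RunLe.loopS (by simp [h2]) (RunLe.iteT (by simp [h0, BT.code])
      (((Run.pop 0 s).le.seq ((Run.push 1 true _).le.seq (Run.push 2 true _).le)).of_eq ?_))
      e).mono (by simp [BT.code]; omega)
    simp [h0, h2, BT.code]

def parse : Prog := .seq (.push 2 true) parseLoop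

lemma parse_run (t : BT) (s : St) (rest : List Bool) (h0 : s 0 = t.code ++ rest) (h2 : s 2 = []) :
    RunLe parse s (update (update s 0 rest) 1 (t.code.reverse ++ s 1)) (5 * t.code.length + 2) := by
  refine ((Run.push 2 true s).le.seq (parseLoop_run t _ rest [] _ 1 (by simp [h0]) (by simp [h2])
    ((Run.loopN (by simp)).le.of_eq ?_))).mono (by omega)
  funext i
  by_cases h2' : i = 2
  · subst h2'; simp [h2]
  · by_cases h1 : i = 1
    · subst h1; simp
    · by_cases h0 : i = 0
      · subst h0; simp
      · simp [h0, h1, h2']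

def BT.left : BT → BT
  | .leaf => .leaf
  | .node l _ => l

def BT.right : BT → BT
  | .leaf => .leaf
  | .node _ r => r

lemma PTe.left : PTe BT.code BT.code BT.left := by
  refine ⟨.ite 0 .skip .skip (.seq (.pop 0) (.seq parse (.seq (clr 0) (mv 1 0)))), 3,
    C 11 * X + C 6, fun t s h0 h1 => ?_⟩
  have h11 : s 1 = [] := h1 1 le_rfl (by omega)
  have h12 : s 2 = [] := h1 2 (by omega) (by omega)
  cases t with
  | leaf =>
    refine RunLe.mono (RunLe.of_eq (RunLe.iteF (by simp [h0, BT.code]) (Run.skip s).le) ?_)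
      (by simp)
    simp [BT.left, ← h0]
  | node l r =>
    refine RunLe.mono (RunLe.of_eq (RunLe.iteT (by simp [h0, BT.code]) ((Run.pop 0 s).le.seq
      ((parse_run l _ r.code (by simp [h0, BT.code]) (by simp [h12])).seq
        ((clr_run 0 _).seq (mv_run (by omega) _))))) ?_) ?_
    · funext i
      by_cases hi : i = 0
      · subst hi; simp [BT.left, h11]
      · by_cases hi1 : i = 1
        · subst hi1; simp [h11]
        · simp [hi, hi1]
    · simp [BT.code, h11]; omega

lemma PTe.right : PTe BT.code BT.code BT.right := by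
  refine ⟨.ite 0 .skip .skip (.seq (.pop 0) (.seq parse (clr 1))), 3,
    C 11 * X + C 6, fun t s h0 h1 => ?_⟩
  have h11 : s 1 = [] := h1 1 le_rfl (by omega)
  have h12 : s 2 = [] := h1 2 (by omega) (by omega)
  cases t with
  | leaf =>
    refine RunLe.mono (RunLe.of_eq (RunLe.iteF (by simp [h0, BT.code]) (Run.skip s).le) ?_)
      (by simp)
    simp [BT.right, ← h0]
  | node l r =>
    refine RunLe.mono (RunLe.of_eq (RunLe.iteT (by simp [h0, BT.code]) ((Run.pop 0 s).le.seq
      ((parse_run l _ r.code (by simp [h0, BT.code]) (by simp [h12])).seq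
        (clr_run 1 _)))) ?_) ?_
    · funext i
      by_cases hi : i = 0
      · subst hi; simp [BT.right]
      · by_cases hi1 : i = 1
        · subst hi1; simp [h11]
        · simp [hi, hi1]
    · simp [BT.code, h11]; omega

lemma PTe.pair {ea : α → List Bool} {eb : β → List Bool} {ec : γ → List Bool} {f : α → β}
    {g : α → γ} (hf : PTe ea eb f) (hg : PTe ea ec g) :
    PTe ea (fun p : β × γ => true :: (eb p.1 ++ ec p.2)) (fun a => (f a, g a)) := by
  obtain ⟨P, N1, p, h⟩ := hf
  obtain ⟨Q, N2, q, h'⟩ := hg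
  obtain ⟨N, hN1, hN2, hN⟩ : ∃ N, N1 ≤ N ∧ N2 ≤ N ∧ 1 ≤ N := ⟨N1 + N2 + 1, by omega, by omega, by omega⟩
  refine ⟨.seq (tr 0 N (N + 1) (fun b => [b]) (fun b => [b])) (.seq (mv N 0) (.seq Q (.seq (mv 0 N)
    (.seq (mv (N + 1) 0) (.seq P (.seq (mv 0 (N + 1)) (.seq (mv N 0) (.seq (mv (N + 1) 0)
    (.push 0 true))))))))), N + 2, C 43 * X + C 13 * p + C 13 * q + C 8, fun a s h0 h1 => ?_⟩
  have hsN : s N = [] := h1 N hN (by omega)
  have hsN1 : s (N + 1) = [] := h1 (N + 1) (by omega) (by omega)
  have n0 : N ≠ 0 := by omega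
  have lp := (h a).length_le
  have lq := (h' a).length_le
  refine RunLe.mono (RunLe.of_eq ((tr_run (by omega) (by omega) (by omega) _ _ 2 (by simp) _ s h0).seq
    ((mv_run (by omega) _).seq (RunLe.seq (h' a _ (by simp [n0.symm, hsN]) ?_)
    ((mv_run (by omega) _).seq ((mv_run (by omega) _).seq (RunLe.seq (h a _ ?_ ?_)
    ((mv_run (by omega) _).seq ((mv_run (by omega) _).seq ((mv_run (by omega) _).seq
    (Run.push 0 true _).le))))))))) ?_) ?_
  · intro i hi hi'
    simp [show i ≠ 0 by omega, show i ≠ N by omega, show i ≠ N + 1 by omega, h1 i hi (by omega)]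
  · simp [n0, n0.symm, hsN1]
  · intro i hi hi'
    simp [show i ≠ 0 by omega, show i ≠ N by omega, show i ≠ N + 1 by omega, h1 i hi (by omega)]
  · funext i
    by_cases hi : i = 0
    · subst hi; simp [n0, n0.symm]
    · by_cases hi1 : i = N
      · subst hi1; simp [hi, hsN]
      · by_cases hi2 : i = N + 1
        · subst hi2; simp [hsN1]
        · simp [hi, hi1, hi2]
  · simp [n0, n0.symm, hsN, hsN1]; omega

lemma PTe.branch {ea : α → List Bool} {eb : β → List Bool} {f g : α → β}
    (hf : PTe ea eb f) (hg : PTe ea eb g) :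
    PTe (fun p : Bool × α => true :: (enc p.1 ++ ea p.2)) eb
      (fun p => bif p.1 then f p.2 else g p.2) := by
  obtain ⟨P, N1, p, h⟩ := hf
  obtain ⟨Q, N2, q, h'⟩ := hg
  refine ⟨.seq (.pop 0) (.ite 0 .skip (.seq (.pop 0) Q) (.seq (.pop 0) (.seq (.pop 0)
    (.seq (.pop 0) P)))), N1 + N2, p + q + C 5, fun ⟨b, a⟩ s h0 h1 => ?_⟩
  cases b
  · have e : enc false = [false] := rfl
    refine RunLe.mono (RunLe.of_eq ((Run.pop 0 s).le.seq (RunLe.iteF (by simp [h0, e])
      ((Run.pop 0 _).le.seq (h' a _ (by simp [h0, e]) ?_)))) (by simp)) ?_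
    · intro i hi hi'
      simp [show i ≠ 0 by omega, h1 i hi (by omega)]
    · have := eval_mono q (show (ea a).length ≤ (true :: (enc false ++ ea a)).length by simp; omega)
      simp only [eval_add, eval_C]; omega
  · have e : enc true = [true, false, false] := rfl
    refine RunLe.mono (RunLe.of_eq ((Run.pop 0 s).le.seq (RunLe.iteT (by simp [h0, e])
      ((Run.pop 0 _).le.seq ((Run.pop 0 _).le.seq ((Run.pop 0 _).le.seq
      (h a _ (by simp [h0, e]) ?_)))))) (by simp)) ?_
    · intro i hi hi'
      simp [show i ≠ 0 by omega, h1 i hi (by omega)]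
    · have := eval_mono p (show (ea a).length ≤ (true :: (enc true ++ ea a)).length by simp; omega)
      simp only [eval_add, eval_C]; omega

lemma PTe.outBool : PTe (enc : Bool → List Bool) (fun b : Bool => [b]) (fun b => b) := by
  refine ⟨.ite 0 .skip .skip (.seq (.pop 0) (.seq (.pop 0) (.seq (.pop 0) (.push 0 true)))), 0, C 5,
    fun b s h0 _ => ?_⟩
  cases b
  · have e : enc false = [false] := rfl
    refine RunLe.mono (RunLe.of_eq (RunLe.iteF (by simp [h0, e]) (Run.skip s).le) ?_) (by simp)
    simp [← e, ← h0]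
  · have e : enc true = [true, false, false] := rfl
    refine RunLe.mono (RunLe.of_eq (RunLe.iteT (by simp [h0, e]) ((Run.pop 0 _).le.seq
      ((Run.pop 0 _).le.seq ((Run.pop 0 _).le.seq (Run.push 0 true _).le)))) ?_) (by simp)
    simp [h0, e]

lemma natBT_length (n : ℕ) : (natBT n).code.length = 2 * n + 1 := by
  induction n with
  | zero => rfl
  | succ n ih => simp [natBT, BT.code, ih]; omega

lemma natBT_count (n : ℕ) :
    (natBT n).code.reverse.flatMap (fun b => if b then [true] else []) = List.replicate n true := by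
  induction n with
  | zero => rfl
  | succ n ih => simp [natBT, BT.code, List.flatMap_append, ih, List.replicate_succ']

lemma loop_iter {ea : α → List Bool} {g : α → α} {P : Prog} {N1 N : ℕ} {p : ℕ[X]} (hN : N1 ≤ N)
    (hN0 : N ≠ 0) (h : ∀ a, Comp P N1 (ea a) (ea (g a)) (p.eval (ea a).length)) (B : ℕ) :
    ∀ (n : ℕ) (a : α) (s : St), s 0 = ea a → s N = List.replicate n true →
      (∀ i, 1 ≤ i → i < N → s i = []) → (∀ i ≤ n, (ea (g^[i] a)).length ≤ B) →
      RunLe (.loop N (.seq (.pop N) P)) s (update (update s N []) 0 (ea (g^[n] a)))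
        (n * (p.eval B + 2) + 1) := by
  intro n
  induction n with
  | zero =>
    intro a s h0 hn _ _
    refine ((Run.loopN (by simp [hn])).le.of_eq ?_).mono (by simp)
    simp only [List.replicate_zero] at hn
    simp [← h0, ← hn]
  | succ n ih =>
    intro a s h0 hn hs hB
    have e1 := (Run.pop N s).le.seq (h a _ (by simp [hN0.symm, h0]) (fun i hi hi' => by
      rw [update_of_ne (by omega)]; exact hs i hi (by omega)))
    have e2 := ih (g a) (update (update s N (s N).tail) 0 (ea (g a))) (by simp)
      (by simp [hN0, hn, List.replicate_succ])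
      (fun i hi hi' => by
        rw [update_of_ne (by omega), update_of_ne (by omega)]; exact hs i hi hi')
      (fun i hi => hB (i + 1) (by omega))
    refine ((RunLe.loopS (by simp [hn, List.replicate_succ]) e1 e2).of_eq ?_).mono ?_
    · funext i
      by_cases hi : i = 0
      · subst hi; simp
      · by_cases hi1 : i = N
        · subst hi1; simp [hi]
        · simp [hi, hi1]
    · have := eval_mono p (hB 0 (by omega))
      simp only [iterate_zero, id_eq] at this
      nlinarith

lemma PTe.iter {ea : α → List Bool} {g : α → α} (hg : PTe ea ea g) {δ : Type} (n : δ → ℕ)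
    (init : δ → α) (q : ℕ[X])
    (hq : ∀ d, ∀ i ≤ n d, (ea (g^[i] (init d))).length ≤
      q.eval (true :: (enc (n d) ++ ea (init d))).length) :
    PTe (fun d => true :: (enc (n d) ++ ea (init d))) ea (fun d => g^[n d] (init d)) := by
  obtain ⟨P, N1, p, h⟩ := hg
  obtain ⟨N, hN1, hN⟩ : ∃ N, N1 ≤ N ∧ 3 ≤ N := ⟨N1 + 3, by omega, by omega⟩
  refine ⟨.seq (.pop 0) (.seq parse (.seq (tr1 1 N (fun b => if b then [true] else []))
    (.loop N (.seq (.pop N) P)))), N + 1, C 11 * X + X * (p.comp q + C 2) + C 5,
    fun d s h0 h1 => ?_⟩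
  have h11 : s 1 = [] := h1 1 le_rfl (by omega)
  have h12 : s 2 = [] := h1 2 (by omega) (by omega)
  have hsN : s N = [] := h1 N (by omega) (by omega)
  have e : enc (n d) = (natBT (n d)).code := rfl
  have n0 : N ≠ 0 := by omega
  have n1 : N ≠ 1 := by omega
  refine RunLe.mono (RunLe.of_eq ((Run.pop 0 s).le.seq ((parse_run (natBT (n d)) _ (ea (init d))
    (by simp [h0, e]) (by simp [h12])).seq ((tr1_run n1 _ 1 (by intro b; cases b <;> simp) _).seq
    (loop_iter hN1 n0 h _ (n d) (init d) _ ?_ ?_ ?_ (hq d))))) ?_) ?_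
  · simp [n0.symm]
  · simp only [update_self, h11, List.append_nil, natBT_count, update_of_ne (show (1 : ℕ) ≠ 0 by omega),
      update_of_ne n1, update_of_ne n0, hsN, List.reverse_replicate]
  · intro i hi hi'
    by_cases hi1 : i = 1
    · subst hi1; simp [n1.symm]
    · simp [show i ≠ 0 by omega, show i ≠ N by omega, hi1, h1 i hi (by omega)]
  · funext i
    by_cases hi : i = 0
    · subst hi; simp
    · by_cases hi1 : i = N
      · subst hi1; simp [hi, hsN]
      · by_cases hi2 : i = 1
        · subst hi2; simp [h11, hi1]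
        · simp [hi, hi1, hi2]
  · simp only [eval_add, eval_mul, eval_C, eval_X, eval_comp, update_self, e]
    simp only [List.length_cons, List.length_append, natBT_length, List.length_reverse,
      update_of_ne (show (1 : ℕ) ≠ 0 by omega), h11, List.length_nil]
    generalize eval _ p = z
    nlinarith

end Pool.Agent.Cx
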