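import Pool.Agent.Lib.helper10.NPLib2

/-! The Cook-Levin theorem for `FinTM2`. -/

namespace Pool.Agent.Cx

open Function Polynomial Turing

/-- formulas in conjunctive normal form; a literal is a variable with the value that satisfies it -/
abbrev CNF := List (List (ℕ × Bool))

/-- satisfiability -/
def Sat (φ : CNF) : Prop := ∃ τ : ℕ → Bool, ∀ c ∈ φ, ∃ l ∈ c, τ l.1 = l.2

/-! ### numeric local systems -/

def var (t r j a : ℕ) : ℕ := Nat.pair t (Nat.pair r (Nat.pair j a))

lemma var_inj {t r j a t' r' j' a' : ℕ} :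
    var t r j a = var t' r' j' a' ↔ t = t' ∧ r = r' ∧ j = j' ∧ a = a' := by
  simp [var, Nat.pair_eq_pair]

@[fun_prop] lemma PT.var {α : Type} [Enc α] {t r j a : α → ℕ} (ht : PT t) (hr : PT r) (hj : PT j)
    (ha : PT a) : PT (fun x => var (t x) (r x) (j x) (a x)) := by
  unfold Cx.var; fun_prop

abbrev Rule := List (ℕ × ℕ × ℕ) × List (ℕ × ℕ × ℕ) × List (ℕ × ℕ)

def negPrem (t : ℕ) (r : Rule) : List (ℕ × Bool) :=
  r.1.map (fun x => (var t x.1 x.2.1 x.2.2, false))

def stepClauses (R : List Rule) (D A T B : ℕ) : CNF :=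
  (List.range T).flatMap fun t => R.flatMap fun r =>
    r.2.1.map (fun x => (var (t + 1) x.1 x.2.1 x.2.2, true) :: negPrem t r) ++
    r.2.2.flatMap fun x => (List.range B).flatMap fun j => (List.range A).map fun a =>
      (var (t + 1) x.1 (j + x.2) a, true) :: (var t x.1 (j + D) a, false) :: negPrem t r

def initClauses (nK r0 c0 cF cT : ℕ) (y : List ℕ) (q B : ℕ) : CNF :=
  [(var 0 0 0 c0, true)] ::
  ((List.range nK).filter (fun r => r + 1 != r0)).flatMap
    (fun r => (List.range B).map fun j => [(var 0 (r + 1) j 0, true)]) ++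
  (List.range y.length).map (fun j => [(var 0 r0 j (y.getD j 0), true)]) ++
  (List.range q).map (fun j => [(var 0 r0 (y.length + j) 0, true),
    (var 0 r0 (y.length + j) cF, true), (var 0 r0 (y.length + j) cT, true)]) ++
  (List.range q).map (fun j => [(var 0 r0 (y.length + j) 0, false),
    (var 0 r0 (y.length + j + 1) 0, true)]) ++
  (List.range B).map (fun j => [(var 0 r0 (y.length + q + j) 0, true)])

lemma forward {R : List Rule} {D A T nK : ℕ} (τ : ℕ → Bool) (s : ℕ → ℕ → ℕ → ℕ)
    (hτ : ∀ c ∈ stepClauses R D A T ((T + 1) * D), ∃ l ∈ c, τ l.1 = l.2)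
    (hA : ∀ t r j, r ≠ 0 → s t r j < A)
    (H : ∀ t, ∃ r ∈ R, (∀ x ∈ r.1, x.1 ≤ nK ∧ (x.1 = 0 → x.2.1 = 0) ∧ x.2.1 < D ∧
        s t x.1 x.2.1 = x.2.2) ∧
      ∀ k j, k ≤ nK → (k = 0 → j = 0) → (k, j, s (t + 1) k j) ∈ r.2.1 ∨
        ∃ len, k ≠ 0 ∧ (k, len) ∈ r.2.2 ∧ len ≤ j ∧ s (t + 1) k j = s t k (j - len + D))
    (h0 : ∀ k j, k ≤ nK → (k = 0 → j = 0) → j < (T + 1) * D → τ (var 0 k j (s 0 k j)) = true) :
    ∀ t ≤ T, ∀ k j, k ≤ nK → (k = 0 → j = 0) → j + t * D < (T + 1) * D →
      τ (var t k j (s t k j)) = true := by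
  intro t
  induction t with
  | zero => intro _ k j h1 h2 h3; exact h0 k j h1 h2 (by simpa using h3)
  | succ t ih =>
    intro ht k j h1 h2 h3
    obtain ⟨r, hr, hp, hc⟩ := H t
    have hneg : ∀ l ∈ negPrem t r, τ l.1 ≠ l.2 := by
      intro l hl
      obtain ⟨x, hx, rfl⟩ := List.mem_map.1 hl
      obtain ⟨a1, a2, a3, a4⟩ := hp x hx
      have := ih (by omega) x.1 x.2.1 a1 a2 (by nlinarith)
      simp [← a4, this]
    rcases hc k j h1 h2 with h | ⟨len, hk, h, hl, e⟩
    · obtain ⟨l, hl, e⟩ := hτ ((var (t + 1) k j (s (t + 1) k j), true) :: negPrem t r) (by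
        simp only [stepClauses, List.mem_flatMap, List.mem_range, List.mem_append, List.mem_map]
        exact ⟨t, by omega, r, hr, Or.inl ⟨_, h, rfl⟩⟩)
      rcases List.mem_cons.1 hl with rfl | hl
      · exact e
      · exact absurd e (hneg l hl)
    · obtain ⟨l, hl', e'⟩ := hτ ((var (t + 1) k (j - len + len) (s (t + 1) k j), true) ::
          (var t k (j - len + D) (s (t + 1) k j), false) :: negPrem t r) (by
        simp only [stepClauses, List.mem_flatMap, List.mem_range, List.mem_append, List.mem_map]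
        exact ⟨t, by omega, r, hr, Or.inr ⟨_, h, j - len, by omega, _, hA _ _ _ hk, rfl⟩⟩)
      rcases List.mem_cons.1 hl' with rfl | hl'
      · simpa [Nat.sub_add_cancel hl] using e'
      · rcases List.mem_cons.1 hl' with rfl | hl'
        · have := ih (by omega) k (j - len + D) h1 (fun h => absurd h hk) (by
            have : (t + 1) * D = t * D + D := by ring
            omega)
          rw [← e] at this
          simp [this] at e'
        · exact absurd e' (hneg l hl')

open Classical in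
/-- the assignment read off from a computation -/
noncomputable def trueAsg (s : ℕ → ℕ → ℕ → ℕ) (n : ℕ) : Bool :=
  decide (∃ t r j, n = var t r j (s t r j))

lemma trueAsg_var (s : ℕ → ℕ → ℕ → ℕ) (t r j a : ℕ) :
    trueAsg s (var t r j a) = decide (a = s t r j) := by
  rw [Bool.eq_iff_iff]
  simp only [trueAsg, decide_eq_true_eq, var_inj]
  constructor
  · rintro ⟨_, _, _, rfl, rfl, rfl, h⟩; exact h
  · intro h; exact ⟨t, r, j, rfl, rfl, rfl, h⟩

lemma backward {R : List Rule} {D A T B : ℕ} (s : ℕ → ℕ → ℕ → ℕ)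
    (H : ∀ t, ∀ r ∈ R, (∀ x ∈ r.1, s t x.1 x.2.1 = x.2.2) →
      (∀ x ∈ r.2.1, s (t + 1) x.1 x.2.1 = x.2.2) ∧
        ∀ x ∈ r.2.2, ∀ j, s (t + 1) x.1 (j + x.2) = s t x.1 (j + D)) :
    ∀ c ∈ stepClauses R D A T B, ∃ l ∈ c, trueAsg s l.1 = l.2 := by
  intro c hc
  simp only [stepClauses, List.mem_flatMap, List.mem_range, List.mem_append, List.mem_map] at hc
  obtain ⟨t, -, r, hr, hc⟩ := hc
  by_cases hp : ∀ x ∈ r.1, s t x.1 x.2.1 = x.2.2
  · obtain ⟨h1, h2⟩ := H t r hr hp
    rcases hc with ⟨x, hx, rfl⟩ | ⟨x, hx, j, -, a, -, rfl⟩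
    · exact ⟨_, List.mem_cons_self, by simp [trueAsg_var, h1 x hx]⟩
    · by_cases ha : a = s t x.1 (j + D)
      · exact ⟨_, List.mem_cons_self, by simp [trueAsg_var, h2 x hx, ha]⟩
      · exact ⟨_, List.mem_cons_of_mem _ List.mem_cons_self, by simp [trueAsg_var, ha]⟩
  · push Not at hp
    obtain ⟨x, hx, hp⟩ := hp
    have hm : (var t x.1 x.2.1 x.2.2, false) ∈ negPrem t r := List.mem_map.2 ⟨x, hx, rfl⟩
    have hv : trueAsg s (var t x.1 x.2.1 x.2.2) = false := by simp [trueAsg_var, hp.symm]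
    rcases hc with ⟨x, hx, rfl⟩ | ⟨x, hx, j, -, a, -, rfl⟩
    · exact ⟨_, List.mem_cons_of_mem _ hm, hv⟩
    · exact ⟨_, List.mem_cons_of_mem _ (List.mem_cons_of_mem _ hm), hv⟩

/-! ### locality of one step -/

section loc

variable {K : Type} [DecidableEq K] {Γ : K → Type} {Λ σ : Type}

def depth : TM2.Stmt Γ Λ σ → ℕ
  | .push _ _ q => depth q + 1
  | .peek _ _ q => depth q + 1
  | .pop _ _ q => depth q + 1
  | .load _ q => depth q
  | .branch _ q₁ q₂ => max (depth q₁) (depth q₂)
  | .goto _ => 0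
  | .halt => 0

lemma loc (q : TM2.Stmt Γ Λ σ) (rest : ∀ k, List (Γ k)) : ∀ (v : σ) (top : ∀ k, List (Γ k)),
    (∀ k, depth q ≤ (top k).length ∨ rest k = []) →
    TM2.stepAux q v (fun k => top k ++ rest k) =
      ⟨(TM2.stepAux q v top).l, (TM2.stepAux q v top).var,
        fun k => (TM2.stepAux q v top).stk k ++ rest k⟩ := by
  induction q with
  | push k f q ih =>
    intro v top h
    simp only [TM2.stepAux]
    rw [← ih]
    · congr 1
      funext k'
      by_cases hk : k' = k
      · subst hk; simp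
      · simp [hk]
    · intro k'
      have := h k'
      by_cases hk : k' = k
      · subst hk; simp only [depth, update_self, List.length_cons] at *; exact this.imp (by omega) id
      · simp only [depth, update_of_ne hk] at *; exact this.imp (by omega) id
  | peek k f q ih =>
    intro v top h
    simp only [TM2.stepAux]
    have e : (top k ++ rest k).head? = (top k).head? := by
      rcases h k with h | h
      · cases h' : top k with
        | nil => simp [depth, h'] at h
        | cons a l => simp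
      · simp [h]
    rw [e, ← ih]
    intro k'
    have := h k'
    simp only [depth] at *; exact this.imp (by omega) id
  | pop k f q ih =>
    intro v top h
    simp only [TM2.stepAux]
    have e : (top k ++ rest k).head? = (top k).head? ∧
        (top k ++ rest k).tail = (top k).tail ++ rest k := by
      rcases h k with h | h
      · cases h' : top k with
        | nil => simp [depth, h'] at h
        | cons a l => simp
      · simp [h]
    rw [e.1, e.2, ← ih]
    · congr 1
      funext k'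
      by_cases hk : k' = k
      · subst hk; simp
      · simp [hk]
    · intro k'
      have := h k'
      by_cases hk : k' = k
      · subst hk; simp only [depth, update_self, List.length_tail] at *; exact this.imp (by omega) id
      · simp only [depth, update_of_ne hk] at *; exact this.imp (by omega) id
  | load f q ih => intro v top h; exact ih _ _ h
  | branch f q₁ q₂ ih₁ ih₂ =>
    intro v top h
    simp only [TM2.stepAux]
    cases f v
    · exact ih₂ _ _ (fun k => by have := h k; simp only [depth] at *; exact this.imp (by omega) id)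
    · exact ih₁ _ _ (fun k => by have := h k; simp only [depth] at *; exact this.imp (by omega) id)
  | goto f => intro v top _; rfl
  | halt => intro v top _; rfl

def syms : TM2.Stmt Γ Λ σ → Set (Σ k, Γ k)
  | .push k f q => Set.range (fun v => ⟨k, f v⟩) ∪ syms q
  | .peek _ _ q => syms q
  | .pop _ _ q => syms q
  | .load _ q => syms q
  | .branch _ q₁ q₂ => syms q₁ ∪ syms q₂
  | .goto _ => ∅
  | .halt => ∅

omit [DecidableEq K] in
lemma syms_finite [Finite σ] (q : TM2.Stmt Γ Λ σ) : (syms q).Finite := by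
  induction q with
  | push k f q ih => exact (Set.finite_range _).union ih
  | branch f q₁ q₂ ih₁ ih₂ => exact ih₁.union ih₂
  | goto f => exact Set.finite_empty
  | halt => exact Set.finite_empty
  | peek k f q ih => exact ih
  | pop k f q ih => exact ih
  | load f q ih => exact ih

lemma syms_inv (U : Set (Σ k, Γ k)) (q : TM2.Stmt Γ Λ σ) : syms q ⊆ U → ∀ (v : σ)
    (S : ∀ k, List (Γ k)), (∀ k, ∀ a ∈ S k, (⟨k, a⟩ : Σ k, Γ k) ∈ U) →
    ∀ k, ∀ a ∈ (TM2.stepAux q v S).stk k, (⟨k, a⟩ : Σ k, Γ k) ∈ U := by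
  induction q with
  | push k f q ih =>
    intro hq v S h
    refine ih (fun x hx => hq (Or.inr hx)) _ _ (fun k' a ha => ?_)
    by_cases hk : k' = k
    · subst hk
      rw [update_self] at ha
      rcases List.mem_cons.1 ha with rfl | ha
      · exact hq (Or.inl ⟨v, rfl⟩)
      · exact h _ _ ha
    · rw [update_of_ne hk] at ha; exact h _ _ ha
  | peek k f q ih => intro hq v S h; exact ih hq _ _ h
  | pop k f q ih =>
    intro hq v S h
    refine ih hq _ _ (fun k' a ha => ?_)
    by_cases hk : k' = k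
    · subst hk
      rw [update_self] at ha
      exact h _ _ (List.mem_of_mem_tail ha)
    · rw [update_of_ne hk] at ha; exact h _ _ ha
  | load f q ih => intro hq v S h; exact ih hq _ _ h
  | branch f q₁ q₂ ih₁ ih₂ =>
    intro hq v S h
    simp only [TM2.stepAux]
    cases f v
    · exact ih₂ (fun x hx => hq (Or.inr hx)) _ _ h
    · exact ih₁ (fun x hx => hq (Or.inl hx)) _ _ h
  | goto f => intro _ v S h; exact h
  | halt => intro _ v S h; exact h

/-- one step, idling after the halt -/
def next (M : Λ → TM2.Stmt Γ Λ σ) (c : TM2.Cfg Γ Λ σ) : TM2.Cfg Γ Λ σ := (TM2.step M c).getD c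

def trunc (D : ℕ) (c : TM2.Cfg Γ Λ σ) : TM2.Cfg Γ Λ σ := ⟨c.l, c.var, fun k => (c.stk k).take D⟩

lemma next_trunc (M : Λ → TM2.Stmt Γ Λ σ) (D : ℕ) (hD : ∀ l, depth (M l) ≤ D)
    (c : TM2.Cfg Γ Λ σ) : next M c = ⟨(next M (trunc D c)).l, (next M (trunc D c)).var,
      fun k => (next M (trunc D c)).stk k ++ (c.stk k).drop D⟩ := by
  obtain ⟨l, v, S⟩ := c
  cases l with
  | none => simp [next, trunc]
  | some l =>
    have := loc (M l) (fun k => (S k).drop D) v (fun k => (S k).take D) (fun k => by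
      have := hD l
      by_cases h : D ≤ (S k).length
      · left; simp; omega
      · right; simp; omega)
    simpa [next, trunc] using this

lemma next_inv (M : Λ → TM2.Stmt Γ Λ σ) (U : Set (Σ k, Γ k)) (hU : ∀ l, syms (M l) ⊆ U)
    (c : TM2.Cfg Γ Λ σ) (h : ∀ k, ∀ a ∈ c.stk k, (⟨k, a⟩ : Σ k, Γ k) ∈ U) :
    ∀ k, ∀ a ∈ (next M c).stk k, (⟨k, a⟩ : Σ k, Γ k) ∈ U := by
  obtain ⟨l, v, S⟩ := c
  cases l with
  | none => exact h
  | some l => exact syms_inv U (M l) (hU l) v S h

lemma next_iter (M : Λ → TM2.Stmt Γ Λ σ) (n : ℕ) : ∀ (a b : TM2.Cfg Γ Λ σ),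
    (flip bind (TM2.step M))^[n] (some a) = some b → (next M)^[n] a = b := by
  induction n with
  | zero => intro a b h; simpa using h
  | succ n ih =>
    intro a b h
    rw [iterate_succ_apply] at h ⊢
    cases h' : TM2.step M a with
    | none =>
      have e : (flip bind (TM2.step M)) (some a) = none := h'
      rw [e, iterate_fixed (by rfl)] at h
      simp at h
    | some c =>
      have e : (flip bind (TM2.step M)) (some a) = some c := h'
      rw [e] at h
      simpa [next, h'] using ih c b h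

omit [DecidableEq K] in
lemma small_finite [Finite K] [Finite Λ] [Finite σ] (U : Set (Σ k, Γ k)) (hU : U.Finite) (D : ℕ) :
    {c : TM2.Cfg Γ Λ σ | ∀ k, (c.stk k).length ≤ D ∧
      ∀ a ∈ c.stk k, (⟨k, a⟩ : Σ k, Γ k) ∈ U}.Finite := by
  have h1 : ∀ k, {l : List (Γ k) | l.length ≤ D ∧ ∀ a ∈ l, (⟨k, a⟩ : Σ k, Γ k) ∈ U}.Finite := by
    intro k
    have : Finite {a : Γ k // (⟨k, a⟩ : Σ k, Γ k) ∈ U} :=
      (hU.preimage (f := fun a : Γ k => (⟨k, a⟩ : Σ k, Γ k)) sigma_mk_injective.injOn).to_subtype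
    refine ((List.finite_length_le {a : Γ k // (⟨k, a⟩ : Σ k, Γ k) ∈ U} D).image
      (List.map Subtype.val)).subset ?_
    rintro l ⟨h1, h2⟩
    exact ⟨l.pmap Subtype.mk h2, by simpa using h1, by simp [List.map_pmap]⟩
  refine (((Set.finite_univ (α := Option Λ × σ)).prod (Set.Finite.pi h1)).image
    (fun x => (⟨x.1.1, x.1.2, x.2⟩ : TM2.Cfg Γ Λ σ))).subset ?_
  rintro ⟨l, v, S⟩ h
  exact ⟨((l, v), S), ⟨trivial, fun k _ => h k⟩, rfl⟩

end loc

end Pool.Agent.Cx
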