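import Pool.Agent.Lib.helper10.NPCook

/-! The Cook-Levin theorem for `FinTM2`, main part. -/

namespace Pool.Agent.Cx

open Function Polynomial Turing

section sys

variable {K : Type} [DecidableEq K] [Fintype K] {Γ : K → Type} {Λ σ : Type}

omit [Fintype K] in
lemma exists_code (U : Set (Σ k, Γ k)) (hU : U.Finite) : ∃ (cc : ∀ k, Option (Γ k) → ℕ) (A : ℕ),
    (∀ k, cc k none = 0) ∧ (∀ k o, cc k o < A) ∧ ∀ k (o o' : Option (Γ k)),
      (∀ a ∈ o, (⟨k, a⟩ : Σ k, Γ k) ∈ U) → (∀ a ∈ o', (⟨k, a⟩ : Σ k, Γ k) ∈ U) →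
      cc k o = cc k o' → o = o' := by
  classical
  refine ⟨fun k o => match o with
    | none => 0
    | some a => hU.toFinset.toList.idxOf ⟨k, a⟩ + 1, hU.toFinset.toList.length + 2,
    fun _ => rfl, fun k o => ?_, fun k o o' h h' e => ?_⟩
  · cases o with
    | none => simp
    | some a => have := List.idxOf_le_length (l := hU.toFinset.toList) (a := ⟨k, a⟩); simp only; omega
  · cases o with
    | none => cases o' with
      | none => rfl
      | some a => simp at e
    | some a => cases o' with
      | none => simp at e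
      | some a' =>
        simp only [Nat.add_right_cancel_iff] at e
        have := (List.idxOf_inj (by simpa using h a rfl)).1 e
        simp at this
        rw [this]

/-- numeric snapshot of a configuration -/
noncomputable def snap (lc : Option Λ × σ → ℕ) (cc : ∀ k, Option (Γ k) → ℕ) (c : TM2.Cfg Γ Λ σ)
    (r j : ℕ) : ℕ :=
  if r = 0 then lc (c.l, c.var) else
    if h : r - 1 < Fintype.card K then
      (fun k => cc k (c.stk k)[j]?) ((Fintype.equivFin K).symm ⟨r - 1, h⟩) else 0

noncomputable def row (k : K) : ℕ := (Fintype.equivFin K k).val + 1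

omit [DecidableEq K] in
lemma snap_row (lc : Option Λ × σ → ℕ) (cc : ∀ k, Option (Γ k) → ℕ) (c : TM2.Cfg Γ Λ σ) (k : K)
    (j : ℕ) : snap lc cc c (row k) j = cc k (c.stk k)[j]? := by
  unfold snap row
  rw [if_neg (by omega), dif_pos (by simp)]
  have : (Fintype.equivFin K).symm ⟨(Fintype.equivFin K k).val + 1 - 1, by simp⟩ = k := by
    rw [Equiv.symm_apply_eq]; rfl
  rw [this]

omit [DecidableEq K] in
lemma snap_zero (lc : Option Λ × σ → ℕ) (cc : ∀ k, Option (Γ k) → ℕ) (c : TM2.Cfg Γ Λ σ)
    (j : ℕ) : snap lc cc c 0 j = lc (c.l, c.var) := by simp [snap]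

omit [DecidableEq K] in
lemma exists_row {r : ℕ} (h0 : r ≠ 0) (h : r ≤ Fintype.card K) : ∃ k : K, r = row k :=
  ⟨(Fintype.equivFin K).symm ⟨r - 1, by omega⟩, by simp [row]; omega⟩

omit [DecidableEq K] in
lemma row_le (k : K) : row k ≤ Fintype.card K := (Fintype.equivFin K k).2

omit [DecidableEq K] in
lemma row_inj {k k' : K} (h : row k = row k') : k = k' :=
  (Fintype.equivFin K).injective (Fin.ext (by simpa [row] using h))

noncomputable def rule (M : Λ → TM2.Stmt Γ Λ σ) (lc : Option Λ × σ → ℕ)
    (cc : ∀ k, Option (Γ k) → ℕ) (D : ℕ) (c : TM2.Cfg Γ Λ σ) : Rule :=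
  ((0, 0, lc (c.l, c.var)) :: (Finset.univ : Finset K).toList.flatMap
      (fun k => (List.range D).map fun j => (row k, j, cc k (c.stk k)[j]?)),
    (0, 0, lc ((next M c).l, (next M c).var)) :: (Finset.univ : Finset K).toList.flatMap
      (fun k => (List.range ((next M c).stk k).length).map fun j =>
        (row k, j, cc k ((next M c).stk k)[j]?)),
    (Finset.univ : Finset K).toList.map fun k => (row k, ((next M c).stk k).length))

lemma rule_concl (M : Λ → TM2.Stmt Γ Λ σ) (lc : Option Λ × σ → ℕ)
    (cc : ∀ k, Option (Γ k) → ℕ) (D : ℕ) (hD : ∀ l, depth (M l) ≤ D) (C : TM2.Cfg Γ Λ σ) :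
    (∀ x ∈ (rule M lc cc D (trunc D C)).2.1, snap lc cc (next M C) x.1 x.2.1 = x.2.2) ∧
      ∀ x ∈ (rule M lc cc D (trunc D C)).2.2, ∀ j,
        snap lc cc (next M C) x.1 (j + x.2) = snap lc cc C x.1 (j + D) := by
  constructor
  · intro x hx
    simp only [rule, List.mem_cons, List.mem_flatMap, List.mem_map, List.mem_range] at hx
    rcases hx with rfl | ⟨k, -, j, hj, rfl⟩
    · rw [snap_zero, next_trunc M D hD C]
    · rw [snap_row, next_trunc M D hD C]
      simp only
      rw [List.getElem?_append_left hj]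
  · intro x hx j
    simp only [rule, List.mem_map] at hx
    obtain ⟨k, -, rfl⟩ := hx
    rw [snap_row, snap_row, next_trunc M D hD C]
    simp only
    rw [List.getElem?_append_right (by omega), List.getElem?_drop]
    congr 2; omega

lemma exists_system [Finite Λ] [Finite σ] (M : Λ → TM2.Stmt Γ Λ σ) (U : Set (Σ k, Γ k))
    (hU : U.Finite) (lc : Option Λ × σ → ℕ) (hlc : Injective lc) (cc : ∀ k, Option (Γ k) → ℕ)
    (hcc : ∀ k (o o' : Option (Γ k)),
      (∀ a ∈ o, (⟨k, a⟩ : Σ k, Γ k) ∈ U) → (∀ a ∈ o', (⟨k, a⟩ : Σ k, Γ k) ∈ U) →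
      cc k o = cc k o' → o = o') :
    ∃ (R : List Rule) (D : ℕ), 0 < D ∧ ∀ C : TM2.Cfg Γ Λ σ,
      (∀ k, ∀ a ∈ C.stk k, (⟨k, a⟩ : Σ k, Γ k) ∈ U) →
      (∃ r ∈ R, (∀ x ∈ r.1, x.1 ≤ Fintype.card K ∧ (x.1 = 0 → x.2.1 = 0) ∧ x.2.1 < D ∧
        snap lc cc C x.1 x.2.1 = x.2.2) ∧
      ∀ k j, k ≤ Fintype.card K → (k = 0 → j = 0) → (k, j, snap lc cc (next M C) k j) ∈ r.2.1 ∨
        ∃ len, k ≠ 0 ∧ (k, len) ∈ r.2.2 ∧ len ≤ j ∧
          snap lc cc (next M C) k j = snap lc cc C k (j - len + D)) ∧
      ∀ r ∈ R, (∀ x ∈ r.1, snap lc cc C x.1 x.2.1 = x.2.2) →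
        (∀ x ∈ r.2.1, snap lc cc (next M C) x.1 x.2.1 = x.2.2) ∧
          ∀ x ∈ r.2.2, ∀ j, snap lc cc (next M C) x.1 (j + x.2) = snap lc cc C x.1 (j + D) := by
  classical
  obtain ⟨D, hD0, hD⟩ : ∃ D, 0 < D ∧ ∀ l, depth (M l) ≤ D := by
    obtain ⟨B, hB⟩ := (Set.finite_range (fun l => depth (M l))).bddAbove
    exact ⟨B + 1, by omega, fun l => (hB ⟨l, rfl⟩).trans (by omega)⟩
  have hfin := small_finite (Λ := Λ) (σ := σ) U hU D
  refine ⟨hfin.toFinset.toList.map (rule M lc cc D), D, hD0, fun C hC => ⟨?_, ?_⟩⟩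
  · refine ⟨rule M lc cc D (trunc D C), List.mem_map_of_mem ?_, ?_, ?_⟩
    · simp only [Finset.mem_toList, Set.Finite.mem_toFinset, Set.mem_ofPred_eq, trunc]
      exact fun k => ⟨by simp, fun a ha => hC k a (List.mem_of_mem_take ha)⟩
    · intro x hx
      simp only [rule, List.mem_cons, List.mem_flatMap, List.mem_map, List.mem_range] at hx
      rcases hx with rfl | ⟨k, -, j, hj, rfl⟩
      · exact ⟨by simp, by simp, hD0, by rw [snap_zero]; rfl⟩
      · refine ⟨row_le k, by simp [row], hj, ?_⟩
        rw [snap_row]; simp [trunc, hj]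
    · intro r j hr hj
      obtain ⟨h1, h2⟩ := rule_concl M lc cc D hD C
      by_cases h0 : r = 0
      · subst h0
        left
        rw [hj rfl, snap_zero, next_trunc M D hD C]
        exact List.mem_cons_self
      · obtain ⟨k, rfl⟩ := exists_row h0 hr
        by_cases hlen : j < ((next M (trunc D C)).stk k).length
        · left
          have hm : (row k, j, cc k ((next M (trunc D C)).stk k)[j]?) ∈
              (rule M lc cc D (trunc D C)).2.1 := by
            simp only [rule, List.mem_cons, List.mem_flatMap, List.mem_map, List.mem_range]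
            exact Or.inr ⟨k, by simp, j, hlen, rfl⟩
          rw [h1 _ hm]; exact hm
        · right
          have hm : (row k, ((next M (trunc D C)).stk k).length) ∈
              (rule M lc cc D (trunc D C)).2.2 := by
            simp only [rule, List.mem_map]
            exact ⟨k, by simp, rfl⟩
          refine ⟨_, h0, hm, by omega, ?_⟩
          rw [← h2 _ hm]; congr 1; simp only; omega
  · intro r hr hp
    obtain ⟨c, hc, rfl⟩ := List.mem_map.1 hr
    simp only [Finset.mem_toList, Set.Finite.mem_toFinset, Set.mem_ofPred_eq] at hc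
    have : c = trunc D C := by
      obtain ⟨l, v, S⟩ := c
      have h1 := hp _ List.mem_cons_self
      rw [snap_zero] at h1
      have h2 := hlc h1
      simp only [Prod.mk.injEq] at h2
      simp only [trunc, TM2.Cfg.mk.injEq]
      refine ⟨h2.1.symm, h2.2.symm, funext fun k => List.ext_getElem? fun j => ?_⟩
      by_cases hj : j < D
      · have h3 := hp (row k, j, cc k (S k)[j]?) (by
          simp only [rule, List.mem_cons, List.mem_flatMap, List.mem_map, List.mem_range]
          exact Or.inr ⟨k, by simp, j, hj, rfl⟩)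
        rw [snap_row] at h3
        rw [List.getElem?_take_of_lt hj]
        exact (hcc k _ _ (fun a ha => hC k a (List.mem_of_getElem? ha))
          (fun a ha => (hc k).2 a (List.mem_of_getElem? ha)) h3).symm
      · have := (hc k).1
        rw [List.getElem?_eq_none (by simp only at this; omega),
          List.getElem?_eq_none (by simp; omega)]
    subst this
    exact rule_concl M lc cc D hD C

end sys

def cookFormula (R : List Rule) (D A nK r0 r1 c0 cF cT cR : ℕ) (y : List Bool) (q T : ℕ) : CNF :=
  [(var T r1 0 cR, false)] ::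
    (initClauses nK r0 c0 cF cT (y.map fun b => bif b then cT else cF) q ((T + 1) * D) ++
      stepClauses R D A T ((T + 1) * D))

lemma exists_cert (q : ℕ) (P : ℕ → Option Bool → Prop)
    (h1 : ∀ j < q, P j none ∨ P j (some false) ∨ P j (some true))
    (h2 : ∀ j < q, P j none → P (j + 1) none) :
    ∃ w : List Bool, w.length ≤ q ∧ ∀ j < q, P j w[j]? := by
  induction q generalizing P with
  | zero => exact ⟨[], le_rfl, by simp⟩
  | succ q ih =>
    by_cases h0 : P 0 none
    · refine ⟨[], by simp, fun j hj => ?_⟩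
      simp only [List.getElem?_nil]
      induction j with
      | zero => exact h0
      | succ j ihj => exact h2 j (by omega) (ihj (by omega))
    · obtain ⟨w, hw, hw'⟩ := ih (fun j => P (j + 1)) (fun j hj => h1 _ (by omega))
        (fun j hj => h2 _ (by omega))
      obtain ⟨b, hb⟩ : ∃ b, P 0 (some b) := by
        rcases h1 0 (by omega) with h | h | h
        · exact absurd h h0
        · exact ⟨_, h⟩
        · exact ⟨_, h⟩
      refine ⟨b :: w, by simpa using hw, fun j hj => ?_⟩
      cases j with
      | zero => exact hb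
      | succ j => exact hw' j (by omega)

theorem cook_core (tm : FinTM2) (eI : tm.Γ tm.k₀ ≃ Bool) (eO : tm.Γ tm.k₁ ≃ Bool) :
    ∃ (R : List Rule) (D A nK r0 r1 c0 cF cT cR : ℕ), ∀ (y : List Bool) (q T : ℕ)
      (f : List Bool → Bool), (∀ w : List Bool, w.length ≤ q →
        Nonempty (TM2OutputsInTime tm ((y ++ w).map eI.symm) (some [eO.symm (f w)]) T)) →
      (Sat (cookFormula R D A nK r0 r1 c0 cF cT cR y q T) ↔ ∃ w, w.length ≤ q ∧ f w = true) := by
  classical
  let _ := tm.kFin
  let _ := tm.ΛFin
  let _ := tm.σFin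
  let _ := tm.Γk₀Fin
  set U : Set (Σ k, tm.Γ k) := (⋃ l, syms (tm.m l)) ∪ Set.range (Sigma.mk tm.k₀) ∪
    Set.range (fun b => ⟨tm.k₁, eO.symm b⟩) with hUdef
  have hU : U.Finite := ((Set.finite_iUnion fun l => syms_finite _).union
    (Set.finite_range _)).union (Set.finite_range _)
  have hU1 : ∀ l, syms (tm.m l) ⊆ U := fun l x hx => Or.inl (Or.inl (Set.mem_iUnion.2 ⟨l, hx⟩))
  have hU2 : ∀ a, (⟨tm.k₀, a⟩ : Σ k, tm.Γ k) ∈ U := fun a => Or.inl (Or.inr ⟨a, rfl⟩)
  have hU3 : ∀ b, (⟨tm.k₁, eO.symm b⟩ : Σ k, tm.Γ k) ∈ U := fun b => Or.inr ⟨b, rfl⟩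
  obtain ⟨cc, A, hc0, hcA, hcc⟩ := exists_code U hU
  obtain ⟨lc, hlc⟩ := exists_injective_nat (Option tm.Λ × tm.σ)
  obtain ⟨R, D, hD0, hR⟩ := exists_system tm.m U hU lc hlc cc hcc
  refine ⟨R, D, A, Fintype.card tm.K, row tm.k₀, row tm.k₁, lc (some tm.main, tm.initialState),
    cc _ (some (eI.symm false)), cc _ (some (eI.symm true)), cc _ (some (eO.symm false)),
    fun y q T f hf => ?_⟩
  let C : List Bool → ℕ → TM2.Cfg tm.Γ tm.Λ tm.σ := fun w t =>
    (next tm.m)^[t] (initList tm ((y ++ w).map eI.symm))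
  let s : List Bool → ℕ → ℕ → ℕ → ℕ := fun w t => snap lc cc (C w t)
  have hi0 : ∀ L, (initList tm L).stk tm.k₀ = L := fun L => by simp [initList]
  have hi1 : ∀ L k, k ≠ tm.k₀ → (initList tm L).stk k = [] := fun L k hk => by
    simp [initList, hk]
  have hCs : ∀ w t, C w (t + 1) = next tm.m (C w t) := fun w t => iterate_succ_apply' _ _ _
  have hval : ∀ w t k, ∀ a ∈ (C w t).stk k, (⟨k, a⟩ : Σ k, tm.Γ k) ∈ U := by
    intro w t
    induction t with
    | zero =>
      intro k a ha
      by_cases hk : k = tm.k₀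
      · subst hk; exact hU2 a
      · have : (C w 0).stk k = [] := hi1 _ k hk
        simp [this] at ha
    | succ t ih => rw [hCs]; exact next_inv _ U hU1 _ ih
  have hfin : ∀ w : List Bool, w.length ≤ q →
      s w T (row tm.k₁) 0 = cc _ (some (eO.symm (f w))) := by
    intro w hw
    obtain ⟨⟨⟨n, h1⟩, h2⟩⟩ := hf w hw
    have h3 := next_iter tm.m n _ _ h1
    have h4 : C w T = haltList tm [eO.symm (f w)] := by
      obtain ⟨d, rfl⟩ := Nat.exists_eq_add_of_le h2
      simp only [C]
      rw [iter_add, h3]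
      exact iterate_fixed rfl _
    simp only [s]
    rw [snap_row, h4]
    simp [haltList]
  have hs0 : ∀ w j, s w 0 (row tm.k₀) j = cc _ (((y ++ w)[j]?).map eI.symm) := by
    intro w j
    simp only [s]
    rw [snap_row]
    have : (C w 0).stk tm.k₀ = (y ++ w).map eI.symm := hi0 _
    rw [this, List.getElem?_map]
  have hs1 : ∀ w r j, r ≠ 0 → r ≤ Fintype.card tm.K → r ≠ row tm.k₀ → s w 0 r j = 0 := by
    intro w r j h0 h1 h2
    obtain ⟨k, rfl⟩ := exists_row h0 h1
    simp only [s]
    rw [snap_row]
    have : (C w 0).stk k = [] := hi1 _ k (fun e => h2 (by rw [e]))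
    simp [this, hc0]
  have hs2 : ∀ w, s w 0 0 0 = lc (some tm.main, tm.initialState) := fun w => snap_zero _ _ _ _
  have hy : ∀ w j, j < y.length → s w 0 (row tm.k₀) j =
      (y.map fun b => bif b then cc _ (some (eI.symm true)) else
        cc _ (some (eI.symm false))).getD j 0 := by
    intro w j hj
    rw [hs0, List.getElem?_append_left hj]
    simp only [List.getD_eq_getElem?_getD, List.getElem?_map, List.getElem?_eq_getElem hj,
      Option.map_some, Option.getD_some]
    cases y[j] <;> rfl
  have hw' : ∀ w j, s w 0 (row tm.k₀) (y.length + j) = cc _ ((w[j]?).map eI.symm) := by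
    intro w j
    rw [hs0, List.getElem?_append_right (by omega)]; simp
  constructor
  · rintro ⟨τ, hτ⟩
    have hI : ∀ c ∈ initClauses (Fintype.card tm.K) (row tm.k₀) (lc (some tm.main, tm.initialState))
        (cc _ (some (eI.symm false))) (cc _ (some (eI.symm true)))
        (y.map fun b => bif b then cc _ (some (eI.symm true)) else cc _ (some (eI.symm false))) q
        ((T + 1) * D), ∃ l ∈ c, τ l.1 = l.2 :=
      fun c hc => hτ c (List.mem_cons_of_mem _ (List.mem_append_left _ hc))
    simp only [initClauses, List.length_map, List.cons_append, List.mem_cons, List.mem_append,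
      List.mem_flatMap, List.mem_map, List.mem_range, List.mem_filter, or_imp, forall_and] at hI
    obtain ⟨hI1, ⟨⟨⟨hI2, hI3⟩, hI4⟩, hI5⟩, hI6⟩ := hI
    obtain ⟨w, hw, hP⟩ := exists_cert q
      (fun j o => τ (var 0 (row tm.k₀) (y.length + j) (cc _ (o.map eI.symm))) = true)
      (fun j hj => by simpa [hc0] using hI4 _ ⟨j, hj, rfl⟩)
      (fun j hj h => by
        have := hI5 _ ⟨j, hj, rfl⟩
        simp only [Option.map_none, hc0] at h ⊢
        simpa [h, add_assoc] using this)
    refine ⟨w, hw, ?_⟩
    have hF := forward (nK := Fintype.card tm.K) τ (s w)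
      (fun c hc => hτ c (List.mem_cons_of_mem _ (List.mem_append_right _ hc)))
      (fun t r j hr => by
        simp only [s, snap, if_neg hr]
        split_ifs
        · exact hcA _ _
        · exact lt_of_le_of_lt (Nat.zero_le _) (hcA tm.k₀ none))
      (fun t => by simp only [s]; rw [hCs]; exact (hR _ (hval w t)).1)
      (fun r j h1 h2 h3 => by
        by_cases h0 : r = 0
        · subst h0
          rw [h2 rfl, hs2]
          simpa using hI1 _ rfl
        · by_cases hr : r = row tm.k₀
          · subst hr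
            by_cases hj : j < y.length
            · rw [hy w j hj]
              simpa using hI3 _ ⟨j, hj, rfl⟩
            · obtain ⟨i, rfl⟩ := Nat.exists_eq_add_of_le (not_lt.1 hj)
              rw [hw']
              by_cases hi : i < q
              · exact hP i hi
              · obtain ⟨i', rfl⟩ := Nat.exists_eq_add_of_le (not_lt.1 hi)
                rw [List.getElem?_eq_none (by omega), ← add_assoc]
                simpa [hc0] using hI6 _ ⟨i', by omega, rfl⟩
          · rw [hs1 w r j h0 h1 hr]
            obtain ⟨r', rfl⟩ := Nat.exists_eq_succ_of_ne_zero h0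
            simpa using hI2 _ ⟨r', ⟨h1, by simpa using hr⟩, j, h3, rfl⟩)
      T le_rfl (row tm.k₁) 0 (row_le _) (fun _ => rfl) (by nlinarith)
    rw [hfin w hw] at hF
    have := hτ _ List.mem_cons_self
    by_contra hfw
    simp only [Bool.not_eq_true] at hfw
    rw [hfw] at hF
    simp [hF] at this
  · rintro ⟨w, hw, hfw⟩
    refine ⟨trueAsg (s w), fun c hc => ?_⟩
    rcases List.mem_cons.1 hc with rfl | hc
    · refine ⟨_, List.mem_cons_self, ?_⟩
      simp only [trueAsg_var, hfin w hw, hfw, decide_eq_false_iff_not]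
      intro e
      have := hcc _ _ _ (by simpa using hU3 _) (by simpa using hU3 _) e
      simp at this
    rcases List.mem_append.1 hc with hc | hc
    · simp only [initClauses, List.length_map, List.cons_append, List.mem_cons, List.mem_append,
        List.mem_flatMap, List.mem_map, List.mem_range, List.mem_filter] at hc
      rcases hc with rfl | ((((⟨r, ⟨h1, h2⟩, j, -, rfl⟩ | ⟨j, hj, rfl⟩) | ⟨j, hj, rfl⟩) |
        ⟨j, hj, rfl⟩) | ⟨j, hj, rfl⟩)
      · simp [trueAsg_var, hs2]
      · simp [trueAsg_var, hs1 w (r + 1) j (by omega) h1 (by simpa using h2)]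
      · refine ⟨_, List.mem_cons_self, ?_⟩
        simp only [trueAsg_var, hy w j hj, decide_true]
      · simp only [List.mem_cons, List.not_mem_nil, or_false, exists_eq_or_imp, exists_eq_left,
          trueAsg_var, hw', decide_eq_true_eq]
        cases w[j]? with
        | none => simp [hc0]
        | some b => cases b <;> simp
      · simp only [List.mem_cons, List.not_mem_nil, or_false, exists_eq_or_imp, exists_eq_left,
          trueAsg_var, add_assoc, hw', decide_eq_true_eq, decide_eq_false_iff_not]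
        by_cases h : j < w.length
        · left
          intro e
          rw [← hc0 tm.k₀] at e
          have := hcc _ _ _ (by simp) (fun a _ => hU2 a) e
          simp [h] at this
        · right
          rw [List.getElem?_eq_none (by omega)]; simp [hc0]
      · simp only [List.mem_cons, List.not_mem_nil, or_false, exists_eq_left,
          trueAsg_var, add_assoc, hw', decide_eq_true_eq]
        rw [List.getElem?_eq_none (by omega)]; simp [hc0]
    · exact backward (s w) (fun t => by simp only [s]; rw [hCs]; exact (hR _ (hval w t)).2) c hc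

lemma PT.cookFormula {α : Type} [Enc α] (R : List Rule) (D A nK r0 r1 c0 cF cT cR : ℕ)
    {y : α → List Bool} {q T : α → ℕ} (hy : PT y) (hq : PT q) (hT : PT T) :
    PT (fun a => cookFormula R D A nK r0 r1 c0 cF cT cR (y a) (q a) (T a)) := by
  unfold Cx.cookFormula initClauses stepClauses negPrem
  fun_prop

/-- Cook-Levin: every language in NP reduces to satisfiability. -/
theorem cook_levin (L : Language) (hL : InNP L) :
    ∃ g : List Bool → CNF, PT g ∧ ∀ x, x ∈ L ↔ Sat (g x) := by
  obtain ⟨Rl, ⟨f, ⟨M⟩, hf⟩, p, hp⟩ := hL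
  obtain ⟨R, D, A, nK, r0, r1, c0, cF, cT, cR, h⟩ := cook_core M.tm M.inputAlphabet M.outputAlphabet
  refine ⟨fun x => cookFormula R D A nK r0 r1 c0 cF cT cR (pairStr x []) (p.eval x.length)
    (M.time.eval ((pairStr x []).length + p.eval x.length)), ?_, fun x => ?_⟩
  · apply PT.cookFormula <;> (try unfold pairStr) <;> fun_prop
  · have e : ∀ w, pairStr x [] ++ w = pairStr x w := fun w => by simp [pairStr]
    rw [h _ _ _ (fun w => f (pairStr x w)), hp]
    · simp only [hf]
    · intro w hw
      obtain ⟨h1, h2⟩ := M.outputsFun (pairStr x w)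
      rw [e]
      refine ⟨⟨h1, h2.trans (eval_mono _ ?_)⟩⟩
      simp only [← e w, List.length_append]; omega

end Pool.Agent.Cx
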