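import Mathlib

/-!
Complexity classes over Mathlib's multi-stack Turing machines (`Turing.FinTM2`,
`Turing.TM2ComputableInPolyTime`), and a fixed binary encoding of structured instances.
-/

namespace Pool.Agent.Cx

/-- A language: a set of binary strings. -/
abbrev Language := Set (List Bool)

/-- `f` on binary strings is computed by a deterministic Turing machine in polynomial time. -/
def PolyTime (f : List Bool → List Bool) : Prop :=
  Nonempty (Turing.TM2ComputableInPolyTime (fun x : List Bool => x) (fun y : List Bool => y) f)

/-- The class P: a deterministic Turing machine outputs, in polynomial time, the single bit that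
says whether the input lies in `L`. -/
def InP (L : Language) : Prop :=
  ∃ f : List Bool → Bool,
    Nonempty (Turing.TM2ComputableInPolyTime (fun x : List Bool => x) (fun b : Bool => [b]) f) ∧
      ∀ x, x ∈ L ↔ f x = true

/-- The pair of strings `(x, w)` as one string. -/
def pairStr (x w : List Bool) : List Bool := x.flatMap (fun b => [true, b]) ++ false :: w

/-- The class NP: polynomially bounded certificates checked by a language in P. -/
def InNP (L : Language) : Prop :=
  ∃ R : Language, InP R ∧ ∃ p : Polynomial ℕ,
    ∀ x, x ∈ L ↔ ∃ w : List Bool, w.length ≤ p.eval x.length ∧ pairStr x w ∈ R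

/-- The class coNP. -/
def InCoNP (L : Language) : Prop := InNP Lᶜ

/-- Polynomial-time many-one (Karp) reducibility. -/
def Reduces (L L' : Language) : Prop := ∃ f, PolyTime f ∧ ∀ x, x ∈ L ↔ f x ∈ L'

/-- Every language in NP reduces to `L'`. -/
def NPHard (L' : Language) : Prop := ∀ L, InNP L → Reduces L L'

/-- Every language in coNP reduces to `L'`. -/
def CoNPHard (L' : Language) : Prop := ∀ L, InCoNP L → Reduces L L'

/-- In NP and NP-hard. -/
def NPComplete (L : Language) : Prop := InNP L ∧ NPHard L

/-- In coNP and coNP-hard. -/
def CoNPComplete (L : Language) : Prop := InCoNP L ∧ CoNPHard L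

/-- Binary trees, the universal data format. -/
inductive BT : Type
  | leaf : BT
  | node : BT → BT → BT

/-- The preorder binary code of a tree. -/
def BT.code : BT → List Bool
  | .leaf => [false]
  | .node l r => true :: (l.code ++ r.code)

/-- A type whose elements are written as binary trees. -/
class Enc (α : Type) where
  /-- the tree that represents an element -/
  toBT : α → BT

/-- The binary string that encodes `a`. -/
def enc {α : Type} [Enc α] (a : α) : List Bool := (Enc.toBT a).code

instance encBT : Enc BT := ⟨fun t => t⟩

instance encBool : Enc Bool := ⟨fun b => if b then .node .leaf .leaf else .leaf⟩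

/-- Natural numbers in unary. -/
def natBT : ℕ → BT
  | 0 => .leaf
  | n + 1 => .node .leaf (natBT n)

instance encNat : Enc ℕ := ⟨natBT⟩

instance encProd {α β : Type} [Enc α] [Enc β] : Enc (α × β) :=
  ⟨fun p => .node (Enc.toBT p.1) (Enc.toBT p.2)⟩

/-- Lists as right combs. -/
def listBT {α : Type} [Enc α] : List α → BT
  | [] => .leaf
  | a :: l => .node (Enc.toBT a) (listBT l)

instance encList {α : Type} [Enc α] : Enc (List α) := ⟨listBT⟩

/-- The language of the codes of the instances that have property `P`. -/
def Lang {α : Type} [Enc α] (P : α → Prop) : Language := {x | ∃ a, P a ∧ enc a = x}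

end Pool.Agent.Cx
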