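import Pool.Agent.Lib.helper10.NPDefs

/-! Simple graphs given by adjacency matrices. -/

namespace Pool.Agent.Cx

/-- entry `(i, j)` of the 0-1 matrix `M` is one -/
def Entry (M : List (List Bool)) (i j : ℕ) : Prop := (M.getD i []).getD j false = true

/-- `M` is a square symmetric 0-1 matrix with zero diagonal -/
def IsGraph (M : List (List Bool)) : Prop :=
  (∀ r ∈ M, r.length = M.length) ∧ (∀ i, ¬ Entry M i i) ∧ ∀ i j, Entry M i j → Entry M j i

/-- the simple graph on `{0, ..., n-1}` with adjacency matrix `M` -/
def graphOf (M : List (List Bool)) : SimpleGraph (Fin M.length) :=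
  SimpleGraph.fromRel fun i j => Entry M i j

end Pool.Agent.Cx
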