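import Pool.Agent.Lib.helper10.NPMat
import Pool.Agent.Lib.helper10.NPGraph

/-! The graph of a symmetric relation on an explicit list of points. -/

namespace Pool.Agent.Cx

variable {α β : Type}

/-- symmetrised, irreflexive version of a Boolean relation -/
def symR [DecidableEq α] (r : α → α → Bool) (x y : α) : Bool := decide (x ≠ y) && (r x y || r y x)

@[fun_prop] lemma PT.symR [Enc α] [Enc β] [Dec β] [DecidableEq β] {r : α → β → β → Bool}
    (hr : PT (fun p : α × β × β => r p.1 p.2.1 p.2.2)) :
    PT (fun p : α × β × β => symR (r p.1) p.2.1 p.2.2) := by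
  unfold Cx.symR
  have h2 : PT (fun p : α × β × β => r p.1 p.2.2 p.2.1) :=
    PT.comp (f := fun p : α × β × β => (p.1, p.2.2, p.2.1)) hr (by fun_prop)
  fun_prop

/-- adjacency matrix of the graph spanned by `r` on the list `E` -/
def gmat [DecidableEq α] (E : List α) (r : α → α → Bool) : List (List Bool) := mat E (symR r)

@[fun_prop] lemma PT.gmat [Enc α] [Enc β] [Dec β] [DecidableEq β] {E : α → List β}
    {r : α → β → β → Bool} (hE : PT E) (hr : PT (fun p : α × β × β => r p.1 p.2.1 p.2.2)) :
    PT (fun a => gmat (E a) (r a)) := PT.mat hE hr.symR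

@[simp] lemma gmat_length [DecidableEq α] (E : List α) (r : α → α → Bool) :
    (gmat E r).length = E.length := mat_length _ _

lemma isGraph_gmat [DecidableEq α] (E : List α) (r : α → α → Bool) : IsGraph (gmat E r) := by
  refine ⟨mat_row E _, fun i h => ?_, fun i j h => ?_⟩
  · obtain ⟨_, _, h⟩ := (mat_get E _ i i).1 h
    simp [symR] at h
  · obtain ⟨hi, hj, h⟩ := (mat_get E _ i j).1 h
    refine (mat_get E _ j i).2 ⟨hj, hi, ?_⟩
    simp only [symR, Bool.and_eq_true, decide_eq_true_eq, Bool.or_eq_true] at *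
    exact ⟨h.1.symm, h.2.symm⟩

/-- the graph spanned by `r` on the points of `E` -/
def listGraph (E : List α) (r : α → α → Bool) : SimpleGraph {x // x ∈ E} :=
  SimpleGraph.fromRel fun x y => r x.1 y.1 = true

lemma listGraph_adj (E : List α) (r : α → α → Bool) (x y : {x // x ∈ E}) :
    (listGraph E r).Adj x y ↔ x.1 ≠ y.1 ∧ (r x.1 y.1 = true ∨ r y.1 x.1 = true) := by
  simp [listGraph, SimpleGraph.fromRel_adj, Subtype.ext_iff]

/-- the vertex of `graphOf (gmat E r)` with number `i` is the point `E[i]` -/
noncomputable def gmatEquiv [DecidableEq α] (E : List α) (r : α → α → Bool) (hE : E.Nodup) :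
    Fin (gmat E r).length ≃ {x // x ∈ E} :=
  (finCongr (gmat_length E r)).trans (hE.getEquiv E)

lemma gmatEquiv_val [DecidableEq α] (E : List α) (r : α → α → Bool) (hE : E.Nodup)
    (i : Fin (gmat E r).length) : (gmatEquiv E r hE i).1 = E[i.1]'(by simpa using i.2) := rfl

lemma gmatEquiv_symm_val [DecidableEq α] (E : List α) (r : α → α → Bool) (hE : E.Nodup)
    (x : {x // x ∈ E}) : ((gmatEquiv E r hE).symm x).1 = E.idxOf x.1 := rfl

noncomputable def gmatIso [DecidableEq α] (E : List α) (r : α → α → Bool) (hE : E.Nodup) :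
    graphOf (gmat E r) ≃g listGraph E r where
  toEquiv := gmatEquiv E r hE
  map_rel_iff' := by
    intro i j
    have hi : i.1 < E.length := by simpa using i.2
    have hj : j.1 < E.length := by simpa using j.2
    rw [listGraph_adj, gmatEquiv_val, gmatEquiv_val]
    simp only [graphOf, SimpleGraph.fromRel_adj, Entry, gmat, mat_get, symR, hi, hj,
      Bool.and_eq_true, decide_eq_true_eq, Bool.or_eq_true, exists_true_left]
    have : E[i.1] ≠ E[j.1] ↔ i ≠ j := by
      rw [ne_eq, hE.getElem_inj_iff, ne_eq, Fin.ext_iff]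
    tauto

end Pool.Agent.Cx
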