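import Pool.Agent.Lib.helper10.NPBase

/-! Closure properties of polynomial-time functions on encoded data. -/

namespace Pool.Agent.Cx

open Function Polynomial

/-- `f` is computable in polynomial time on codes -/
@[fun_prop] def PT {α β : Type} [Enc α] [Enc β] (f : α → β) : Prop := PTe enc enc f

/-- length of the code -/
def size {α : Type} [Enc α] (a : α) : ℕ := (enc a).length

/-- `Option` as lists of length at most one -/
instance encOption {α : Type} [Enc α] : Enc (Option α) := ⟨fun o => Enc.toBT o.toList⟩

variable {α β γ δ : Type} [Enc α] [Enc β] [Enc γ] [Enc δ]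

lemma enc_pair (a : α) (b : β) : enc (a, b) = true :: (enc a ++ enc b) := rfl
lemma enc_cons (a : α) (l : List α) : enc (a :: l) = true :: (enc a ++ enc l) := rfl
lemma enc_nil : enc ([] : List α) = [false] := rfl
@[simp] lemma size_pair (a : α) (b : β) : size (a, b) = size a + size b + 1 := by
  simp [size, enc_pair]
@[simp] lemma size_cons (a : α) (l : List α) : size (a :: l) = size a + size l + 1 := by
  simp [size, enc_cons]
@[simp] lemma size_nil : size ([] : List α) = 1 := rfl
@[simp] lemma size_nat (n : ℕ) : size n = 2 * n + 1 := natBT_length n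
lemma size_bool (b : Bool) : size b ≤ 3 := by cases b <;> decide
lemma size_pos (a : α) : 0 < size a := by
  unfold size enc; cases (Enc.toBT a) <;> simp [BT.code]
lemma size_append (l l' : List α) : size (l ++ l') + 1 = size l + size l' := by
  induction l with
  | nil => simp; omega
  | cons a l ih => simp; omega
lemma length_lt_size (l : List α) : l.length < size l := by
  induction l with
  | nil => simp
  | cons a l ih => simp; omega
lemma size_lt_of_mem {l : List α} {a : α} (h : a ∈ l) : size a < size l := by
  induction l with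
  | nil => simp at h
  | cons b l ih =>
    have := size_pos l
    rcases List.mem_cons.1 h with rfl | h
    · rw [size_cons]; omega
    · have := ih h; rw [size_cons]; omega
lemma size_le_of_sublist {l l' : List α} (h : l.Sublist l') : size l ≤ size l' := by
  induction h with
  | slnil => simp
  | cons a _ ih => simp; omega
  | cons_cons a _ ih => simp; omega
lemma size_list_le (l : List α) (B : ℕ) (h : ∀ a ∈ l, size a ≤ B) :
    size l ≤ l.length * (B + 1) + 1 := by
  induction l with
  | nil => simp
  | cons a l ih =>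
    have h1 := h a (by simp)
    have h2 := ih (fun b hb => h b (by simp [hb]))
    simp only [size_cons, List.length_cons]; nlinarith

lemma PT.bound {f : α → β} (h : PT f) : ∃ p : ℕ[X], ∀ a, size (f a) ≤ p.eval (size a) :=
  PTe.bound h

lemma PT.of_tree {f : α → β} {g : α → γ} (h : PT g) (e : ∀ a, Enc.toBT (f a) = Enc.toBT (g a)) :
    PT f := PTe.congr h (fun a => a) (fun _ => rfl) (fun a => by unfold enc; rw [e])

lemma PT.of_eq {f g : α → β} (h : PT g) (e : ∀ a, f a = g a) : PT f :=
  h.of_tree (fun a => by rw [e])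

@[fun_prop] lemma PT.id : PT (fun a : α => a) := PTe.id _

@[fun_prop] lemma PT.const (b : β) : PT (fun _ : α => b) :=
  PTe.congr (PTe.bits (fun _ => []) [] (enc b)) enc (fun _ => rfl) (fun a => by simp)

@[fun_prop] lemma PT.comp {g : β → γ} {f : α → β} (hg : PT g) (hf : PT f) :
    PT (fun a => g (f a)) := PTe.comp hg hf

@[fun_prop] lemma PT.toBT {f : α → β} (hf : PT f) : PT (fun a => Enc.toBT (f a)) :=
  hf.of_tree (fun _ => rfl)

@[fun_prop] lemma PT.left {f : α → BT} (hf : PT f) : PT (fun a => (f a).left) :=
  PT.comp (g := BT.left) PTe.left hf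

@[fun_prop] lemma PT.right {f : α → BT} (hf : PT f) : PT (fun a => (f a).right) :=
  PT.comp (g := BT.right) PTe.right hf

@[fun_prop] lemma PT.pair {f : α → β} {g : α → γ} (hf : PT f) (hg : PT g) :
    PT (fun a => (f a, g a)) := PTe.pair hf hg

@[fun_prop] lemma PT.fst {f : α → β × γ} (hf : PT f) : PT (fun a => (f a).1) :=
  hf.toBT.left.of_tree (fun _ => rfl)

@[fun_prop] lemma PT.snd {f : α → β × γ} (hf : PT f) : PT (fun a => (f a).2) :=
  hf.toBT.right.of_tree (fun _ => rfl)

@[fun_prop] lemma PT.node {f g : α → BT} (hf : PT f) (hg : PT g) :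
    PT (fun a => BT.node (f a) (g a)) := (hf.pair hg).of_tree (fun _ => rfl)

@[fun_prop] lemma PT.cons {f : α → β} {g : α → List β} (hf : PT f) (hg : PT g) :
    PT (fun a => f a :: g a) := (hf.pair hg).of_tree (fun _ => rfl)

@[fun_prop] lemma PT.tail {f : α → List β} (hf : PT f) : PT (fun a => (f a).tail) :=
  hf.toBT.right.of_tree (fun a => by cases f a <;> rfl)

@[fun_prop] lemma PT.succ {f : α → ℕ} (hf : PT f) : PT (fun a => (f a).succ) :=
  ((PT.const BT.leaf).pair hf).of_tree (fun _ => rfl)

@[fun_prop] lemma PT.pred {f : α → ℕ} (hf : PT f) : PT (fun a => (f a).pred) :=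
  hf.toBT.right.of_tree (fun a => by cases f a <;> rfl)

@[fun_prop] lemma PT.cond {c : α → Bool} {f g : α → β} (hc : PT c) (hf : PT f) (hg : PT g) :
    PT (fun a => bif c a then f a else g a) :=
  PTe.comp (f := fun a => (c a, a)) (g := fun p : Bool × α => bif p.1 then f p.2 else g p.2)
    (PTe.branch hf hg) (PTe.pair hc PT.id)

@[fun_prop] lemma PT.ite {c : α → Prop} [DecidablePred c] {f g : α → β}
    (hc : PT (fun a => decide (c a))) (hf : PT f) (hg : PT g) :
    PT (fun a => if c a then f a else g a) :=
  (hc.cond hf hg).of_eq (fun a => by by_cases h : c a <;> simp [h])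

@[fun_prop] lemma PT.enc {f : α → β} (hf : PT f) : PT (fun a => Cx.enc (f a)) := by
  refine PT.comp (g := Cx.enc) ?_ hf
  refine PTe.congr (PTe.bits (fun b => true :: Cx.enc b) [] [false]) Cx.enc (fun _ => rfl)
    (fun a => ?_)
  generalize Cx.enc a = l
  induction l with
  | nil => rfl
  | cons b l ih => simp [enc_cons, ih]

@[fun_prop] lemma PT.size {f : α → β} (hf : PT f) : PT (fun a => Cx.size (f a)) := by
  refine PT.comp (g := Cx.size) ?_ hf
  refine PTe.congr (PTe.bits (fun _ => [true, false]) [] [false]) Cx.enc (fun _ => rfl)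
    (fun a => ?_)
  unfold Cx.size
  generalize Cx.enc a = l
  induction l with
  | nil => rfl
  | cons b l ih =>
    have : Cx.enc (l.length + 1) = true :: false :: Cx.enc l.length := rfl
    simp [this, ih]

/-- is the tree a node -/
def BT.isNode : BT → Bool
  | .leaf => false
  | .node _ _ => true

@[fun_prop] lemma PT.isNode {f : α → BT} (hf : PT f) : PT (fun a => (f a).isNode) :=
  hf.enc.toBT.left.of_tree (fun a => by cases f a <;> rfl)

@[fun_prop] lemma PT.not {f : α → Bool} (hf : PT f) : PT (fun a => !f a) :=
  (hf.cond (PT.const false) (PT.const true)).of_eq (fun a => by cases f a <;> rfl)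

@[fun_prop] lemma PT.and {f g : α → Bool} (hf : PT f) (hg : PT g) : PT (fun a => f a && g a) :=
  (hf.cond hg (PT.const false)).of_eq (fun a => by cases f a <;> rfl)

@[fun_prop] lemma PT.or {f g : α → Bool} (hf : PT f) (hg : PT g) : PT (fun a => f a || g a) :=
  (hf.cond (PT.const true) hg).of_eq (fun a => by cases f a <;> rfl)

@[fun_prop] lemma PT.xor {f g : α → Bool} (hf : PT f) (hg : PT g) : PT (fun a => xor (f a) (g a)) :=
  (hf.cond hg.not hg).of_eq (fun a => by cases f a <;> simp)

@[fun_prop] lemma PT.isEmpty {f : α → List β} (hf : PT f) : PT (fun a => (f a).isEmpty) :=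
  hf.toBT.isNode.not.of_eq (fun a => by cases f a <;> rfl)

@[fun_prop] lemma PT.headD {f : α → List β} {d : α → β} (hf : PT f) (hd : PT d) :
    PT (fun a => (f a).headD (d a)) :=
  (hf.isEmpty.cond hd.toBT hf.toBT.left).of_tree (fun a => by cases f a <;> rfl)

@[fun_prop] lemma PT.some {f : α → β} (hf : PT f) : PT (fun a => some (f a)) :=
  (hf.cons (PT.const [])).of_tree (fun _ => rfl)

@[fun_prop] lemma PT.toList {f : α → Option β} (hf : PT f) : PT (fun a => (f a).toList) :=
  hf.of_tree (fun _ => rfl)

@[fun_prop] lemma PT.head? {f : α → List β} (hf : PT f) : PT (fun a => (f a).head?) :=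
  (hf.isEmpty.cond (PT.const BT.leaf) (hf.toBT.left.node (PT.const BT.leaf))).of_tree
    (fun a => by cases f a <;> rfl)

@[fun_prop] lemma PT.isSome {f : α → Option β} (hf : PT f) : PT (fun a => (f a).isSome) :=
  hf.toBT.isNode.of_eq (fun a => by cases f a <;> rfl)

@[fun_prop] lemma PT.isNone {f : α → Option β} (hf : PT f) : PT (fun a => (f a).isNone) :=
  hf.isSome.not.of_eq (fun a => by cases f a <;> rfl)

@[fun_prop] lemma PT.optGetD {f : α → Option β} {d : α → β} (hf : PT f) (hd : PT d) :
    PT (fun a => (f a).getD (d a)) :=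
  (hf.toList.headD hd).of_eq (fun a => by cases f a <;> rfl)

/-- bounded iteration -/
lemma PT.iterate {g : α → β → β} {n : α → ℕ} {init : α → β}
    (hg : PT (fun p : α × β => g p.1 p.2)) (hn : PT n) (hi : PT init) (q : ℕ[X])
    (hq : ∀ a, ∀ i ≤ n a, Cx.size ((g a)^[i] (init a)) ≤ q.eval (Cx.size a)) :
    PT (fun a => (g a)^[n a] (init a)) := by
  have e : ∀ (i : ℕ) (a : α) (b : β),
      (fun p : α × β => (p.1, g p.1 p.2))^[i] (a, b) = (a, (g a)^[i] b) := by
    intro i
    induction i with
    | zero => intros; rfl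
    | succ i ih => intro a b; simp [ih]
  have h1 : PT (fun p : α × β => (p.1, g p.1 p.2)) := PT.id.fst.pair hg
  have h2 := PTe.iter h1 n (fun a => (a, init a)) (X + q + 1) (fun a i hi => by
    rw [e]
    have h3 := hq a i hi
    have h4 : Cx.size a ≤ (true :: (Cx.enc (n a) ++ Cx.enc (a, init a))).length := by
      have := size_pair a (init a)
      unfold Cx.size at this ⊢
      simp only [List.length_cons, List.length_append]; omega
    have h5 := eval_mono q h4
    have := size_pair a ((g a)^[i] (init a))
    simp only [eval_add, eval_X, eval_one]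
    unfold Cx.size at *
    omega)
  have h3 : PTe Cx.enc (fun a => true :: (Cx.enc (n a) ++ Cx.enc (a, init a))) (fun a : α => a) :=
    PTe.congr (hn.pair (PT.id.pair hi)) (fun a => a) (fun _ => rfl) (fun _ => rfl)
  have h4 : PT (fun a => (fun p : α × β => (p.1, g p.1 p.2))^[n a] (a, init a)) :=
    PTe.comp (f := fun a => a) h2 h3
  exact h4.snd.of_eq (fun a => by rw [e])

/-- iteration of a step with bounded additive growth -/
lemma PT.iterate_add {g : α → β → β} {n : α → ℕ} {init : α → β}
    (hg : PT (fun p : α × β => g p.1 p.2)) (hn : PT n) (hi : PT init) (q : ℕ[X])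
    (hq : ∀ a b, Cx.size (g a b) ≤ Cx.size b + q.eval (Cx.size a)) :
    PT (fun a => (g a)^[n a] (init a)) := by
  obtain ⟨p1, h1⟩ := hn.bound
  obtain ⟨p2, h2⟩ := hi.bound
  refine PT.iterate hg hn hi (p2 + p1 * q) (fun a i hi => ?_)
  have : ∀ j, Cx.size ((g a)^[j] (init a)) ≤ Cx.size (init a) + j * q.eval (Cx.size a) := by
    intro j
    induction j with
    | zero => simp
    | succ j ih => rw [iterate_succ_apply']; have := hq a ((g a)^[j] (init a)); nlinarith
  have h3 := this i
  have h4 := h1 a
  have h5 := h2 a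
  simp only [size_nat] at h4
  simp only [eval_add, eval_mul]
  have : i * q.eval (Cx.size a) ≤ p1.eval (Cx.size a) * q.eval (Cx.size a) :=
    Nat.mul_le_mul_right _ (by omega)
  omega

/-- folding with a polynomial bound on the accumulator -/
lemma PT.foldl {f : α → γ → β → γ} {l : α → List β} {init : α → γ}
    (hf : PT (fun p : α × γ × β => f p.1 p.2.1 p.2.2)) (hl : PT l) (hi : PT init) (q : ℕ[X])
    (hq : ∀ a i, Cx.size (((l a).take i).foldl (f a) (init a)) ≤ q.eval (Cx.size a)) :
    PT (fun a => (l a).foldl (f a) (init a)) := by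
  let g : α → List β × γ → List β × γ := fun a s =>
    match s.1 with
    | [] => s
    | b :: l' => (l', f a s.2 b)
  have e : ∀ (a : α) (i : ℕ) (L : List β) (c : γ),
      (g a)^[i] (L, c) = (L.drop i, (L.take i).foldl (f a) c) := by
    intro a i
    induction i with
    | zero => intros; rfl
    | succ i ih =>
      intro L c
      cases L with
      | nil => simp [g, ih]
      | cons b L => simp [g, ih]
  have hg : PT (fun p : α × (List β × γ) => g p.1 p.2) := by
    by_cases hβ : Nonempty β
    · obtain ⟨b0⟩ := hβ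
      have h1 : PT (fun p : α × (List β × γ) => f p.1 p.2.2 (p.2.1.headD b0)) :=
        PT.comp (f := fun p : α × (List β × γ) => (p.1, p.2.2, p.2.1.headD b0)) hf (by fun_prop)
      have h2 : PT (fun p : α × (List β × γ) =>
          bif p.2.1.isEmpty then p.2 else (p.2.1.tail, f p.1 p.2.2 (p.2.1.headD b0))) := by
        fun_prop
      exact h2.of_eq (fun ⟨a, L, c⟩ => by cases L <;> rfl)
    · exact PT.id.snd.of_eq (fun ⟨a, L, c⟩ => by
        cases L with
        | nil => rfl
        | cons b _ => exact absurd ⟨b⟩ hβ)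
  obtain ⟨p1, h1⟩ := hl.bound
  have h2 := PT.iterate hg hl.size (hl.pair hi) (p1 + q + 1) (fun a i _ => by
    rw [e]
    have h3 := hq a i
    have h4 := size_le_of_sublist (List.drop_sublist i (l a))
    have h5 := h1 a
    simp only [size_pair, eval_add, eval_one]; omega)
  exact h2.snd.of_eq (fun a => by
    rw [e, List.take_of_length_le (length_lt_size _).le])

/-- folding with bounded additive growth of the accumulator -/
lemma PT.foldl_add {f : α → γ → β → γ} {l : α → List β} {init : α → γ}
    (hf : PT (fun p : α × γ × β => f p.1 p.2.1 p.2.2)) (hl : PT l) (hi : PT init) (q : ℕ[X])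
    (hq : ∀ a c b, Cx.size (f a c b) ≤ Cx.size c + q.eval (Cx.size a + Cx.size b)) :
    PT (fun a => (l a).foldl (f a) (init a)) := by
  obtain ⟨p1, h1⟩ := hl.bound
  obtain ⟨p2, h2⟩ := hi.bound
  refine PT.foldl hf hl hi (p2 + p1 * q.comp (X + p1)) (fun a i => ?_)
  have : ∀ (L : List β) (c : γ), (∀ b ∈ L, Cx.size b ≤ p1.eval (Cx.size a)) →
      Cx.size (L.foldl (f a) c) ≤
        Cx.size c + L.length * q.eval (Cx.size a + p1.eval (Cx.size a)) := by
    intro L
    induction L with
    | nil => simp
    | cons b L ih =>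
      intro c hL
      have h3 := ih (f a c b) (fun b hb => hL b (by simp [hb]))
      have h4 := hq a c b
      have h5 := eval_mono q (Nat.add_le_add_left (hL b (by simp)) (Cx.size a))
      simp only [List.foldl_cons, List.length_cons]; nlinarith
  have h3 := this ((l a).take i) (init a)
    (fun b hb => ((size_lt_of_mem (List.mem_of_mem_take hb)).le.trans (h1 a)))
  have h4 : ((l a).take i).length ≤ p1.eval (Cx.size a) := by
    have := length_lt_size (l a); have := h1 a; simp; omega
  have h5 := h2 a
  have h6 := Nat.mul_le_mul_right (q.eval (Cx.size a + p1.eval (Cx.size a))) h4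
  simp only [eval_add, eval_mul, eval_comp, eval_X]; omega

@[fun_prop] lemma PT.reverse {l : α → List β} (hl : PT l) : PT (fun a => (l a).reverse) := by
  refine (PT.foldl_add (f := fun _ c b => b :: c) (init := fun _ => []) (by fun_prop) hl
    (by fun_prop) (X + 1) (fun a c b => by simp; omega)).of_eq (fun a => ?_)
  simp

@[fun_prop] lemma PT.append {l l' : α → List β} (hl : PT l) (hl' : PT l') :
    PT (fun a => l a ++ l' a) := by
  refine (PT.foldl_add (f := fun _ c b => b :: c) (by fun_prop) hl.reverse hl' (X + 1)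
    (fun a c b => by simp; omega)).of_eq (fun a => ?_)
  simp

@[fun_prop] lemma PT.flatMap {f : α → β → List γ} {l : α → List β}
    (hf : PT (fun p : α × β => f p.1 p.2)) (hl : PT l) : PT (fun a => (l a).flatMap (f a)) := by
  obtain ⟨q, hq⟩ := hf.bound
  have h1 : PT (fun p : α × List γ × β => f p.1 p.2.2) :=
    PT.comp (f := fun p : α × List γ × β => (p.1, p.2.2)) hf (by fun_prop)
  refine (PT.foldl_add (f := fun a c b => c ++ f a b) (init := fun _ => []) (by fun_prop) hl
    (by fun_prop) (q.comp (X + 1)) (fun a c b => ?_)).of_eq (fun a => ?_)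
  · have := hq (a, b)
    have := size_append c (f a b)
    simp at *; omega
  · simp [List.flatMap_def]

@[fun_prop] lemma PT.map {f : α → β → γ} {l : α → List β}
    (hf : PT (fun p : α × β => f p.1 p.2)) (hl : PT l) : PT (fun a => (l a).map (f a)) :=
  (PT.flatMap (f := fun a b => [f a b]) (hf.cons (PT.const [])) hl).of_eq
    (fun _ => List.map_eq_flatMap)

end Pool.Agent.Cx
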