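import Pool.Agent.Lib.helper10.NPLib

/-! More closure properties: arithmetic, comparisons, list operations. -/

namespace Pool.Agent.Cx

open Function Polynomial

variable {α β γ δ : Type} [Enc α] [Enc β] [Enc γ] [Enc δ]

@[fun_prop] lemma PT.filter {f : α → β → Bool} {l : α → List β}
    (hf : PT (fun p : α × β => f p.1 p.2)) (hl : PT l) : PT (fun a => (l a).filter (f a)) := by
  refine (PT.flatMap (f := fun a b => bif f a b then [b] else []) (by fun_prop) hl).of_eq
    (fun a => ?_)
  induction l a with
  | nil => rfl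
  | cons b L ih => cases h : f a b <;> simp [h, ih]

@[fun_prop] lemma PT.filterMap {f : α → β → Option γ} {l : α → List β}
    (hf : PT (fun p : α × β => f p.1 p.2)) (hl : PT l) : PT (fun a => (l a).filterMap (f a)) := by
  refine (PT.flatMap (f := fun a b => (f a b).toList) (by fun_prop) hl).of_eq (fun a => ?_)
  induction l a with
  | nil => rfl
  | cons b L ih => cases h : f a b <;> simp [h, ih]

@[fun_prop] lemma PT.flatten {l : α → List (List β)} (hl : PT l) : PT (fun a => (l a).flatten) :=
  (PT.flatMap (f := fun _ b => b) (by fun_prop) hl).of_eq (fun _ => by simp)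

@[fun_prop] lemma PT.length {l : α → List β} (hl : PT l) : PT (fun a => (l a).length) := by
  refine (PT.map (f := fun _ _ => BT.leaf) (by fun_prop) hl).of_tree (fun a => ?_)
  induction l a with
  | nil => rfl
  | cons b L ih => exact congrArg (BT.node .leaf) ih

lemma PT.units {n : α → ℕ} (hn : PT n) : PT (fun a => List.replicate (n a) BT.leaf) := by
  refine hn.of_tree (fun a => ?_)
  induction n a with
  | zero => rfl
  | succ k ih => exact congrArg (BT.node .leaf) ih

@[fun_prop] lemma PT.replicate {n : α → ℕ} {f : α → β} (hn : PT n) (hf : PT f) :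
    PT (fun a => List.replicate (n a) (f a)) :=
  (PT.map (f := fun a _ => f a) (by fun_prop) hn.units).of_eq (fun a => by simp)

@[fun_prop] lemma PT.add {f g : α → ℕ} (hf : PT f) (hg : PT g) : PT (fun a => f a + g a) :=
  (hf.units.append hg.units).length.of_eq (fun a => by simp)

@[fun_prop] lemma PT.mul {f g : α → ℕ} (hf : PT f) (hg : PT g) : PT (fun a => f a * g a) :=
  (hf.replicate hg.units).flatten.length.of_eq (fun a => by simp)

@[fun_prop] lemma PT.pow {f : α → ℕ} (hf : PT f) (k : ℕ) : PT (fun a => f a ^ k) := by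
  induction k with
  | zero => simpa using PT.const 1
  | succ k ih => simpa [pow_succ] using ih.mul hf

@[fun_prop] lemma PT.polyEval {f : α → ℕ} (hf : PT f) (p : ℕ[X]) : PT (fun a => p.eval (f a)) := by
  induction p using Polynomial.induction_on' with
  | add p q hp hq => simpa using hp.add hq
  | monomial n c => simpa [eval_monomial] using (PT.const c).mul (hf.pow n)

@[fun_prop] lemma PT.drop {n : α → ℕ} {l : α → List β} (hn : PT n) (hl : PT l) :
    PT (fun a => (l a).drop (n a)) := by
  refine (PT.iterate_add (g := fun _ b => List.tail b) (by fun_prop) hn hl 0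
    (fun a b => by simpa using size_le_of_sublist (List.tail_sublist b))).of_eq (fun a => ?_)
  generalize l a = L
  induction n a generalizing L with
  | zero => rfl
  | succ k ih => rw [iterate_succ_apply, ← ih]; simp

@[fun_prop] lemma PT.sub {f g : α → ℕ} (hf : PT f) (hg : PT g) : PT (fun a => f a - g a) :=
  (hg.drop hf.units).length.of_eq (fun a => by simp)

@[fun_prop] lemma PT.take {n : α → ℕ} {l : α → List β} (hn : PT n) (hl : PT l) :
    PT (fun a => (l a).take (n a)) :=
  ((hl.length.sub hn).drop hl.reverse).reverse.of_eq (fun a => by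
    rw [← List.reverse_take, List.reverse_reverse])

@[fun_prop] lemma PT.getElem? {n : α → ℕ} {l : α → List β} (hl : PT l) (hn : PT n) :
    PT (fun a => (l a)[n a]?) := (hn.drop hl).head?.of_eq (fun a => by simp)

@[fun_prop] lemma PT.getD {n : α → ℕ} {l : α → List β} {d : α → β} (hl : PT l) (hn : PT n)
    (hd : PT d) : PT (fun a => (l a).getD (n a) (d a)) :=
  ((hl.getElem? hn).optGetD hd).of_eq (fun a => by simp)

@[fun_prop] lemma PT.getLast? {l : α → List β} (hl : PT l) : PT (fun a => (l a).getLast?) :=
  hl.reverse.head?.of_eq (fun a => by simp)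

@[fun_prop] lemma PT.dropLast {l : α → List β} (hl : PT l) : PT (fun a => (l a).dropLast) :=
  ((hl.length.sub (PT.const 1)).take hl).of_eq (fun _ => List.dropLast_eq_take)

@[fun_prop] lemma PT.decide_le {f g : α → ℕ} {inst : ∀ a, Decidable (f a ≤ g a)} (hf : PT f)
    (hg : PT g) : PT (fun a => decide (f a ≤ g a)) :=
  (hf.sub hg).units.isEmpty.of_eq (fun a => by
    rw [Bool.eq_iff_iff]; simp [Nat.sub_eq_zero_iff_le])

@[fun_prop] lemma PT.decide_lt {f g : α → ℕ} {inst : ∀ a, Decidable (f a < g a)} (hf : PT f)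
    (hg : PT g) : PT (fun a => decide (f a < g a)) :=
  (PT.decide_le (f := fun a => (f a).succ) (g := g) (inst := fun _ => inferInstance) hf.succ hg).of_eq
    (fun _ => decide_eq_decide.2 Iff.rfl)

@[fun_prop] lemma PT.decide_ge {f g : α → ℕ} {inst : ∀ a, Decidable (f a ≥ g a)} (hf : PT f)
    (hg : PT g) : PT (fun a => decide (f a ≥ g a)) := PT.decide_le hg hf

@[fun_prop] lemma PT.decide_gt {f g : α → ℕ} {inst : ∀ a, Decidable (f a > g a)} (hf : PT f)
    (hg : PT g) : PT (fun a => decide (f a > g a)) := PT.decide_lt hg hf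

@[fun_prop] lemma PT.ble {f g : α → ℕ} (hf : PT f) (hg : PT g) :
    PT (fun a => Nat.ble (f a) (g a)) :=
  (PT.decide_le (inst := fun _ => inferInstance) hf hg).of_eq (fun a => by rw [Bool.eq_iff_iff]; simp)

@[fun_prop] lemma PT.blt {f g : α → ℕ} (hf : PT f) (hg : PT g) :
    PT (fun a => Nat.blt (f a) (g a)) :=
  (PT.decide_lt (inst := fun _ => inferInstance) hf hg).of_eq (fun a => by rw [Bool.eq_iff_iff]; simp)

@[fun_prop] lemma PT.decide_coe {f : α → Bool} {inst : ∀ a, Decidable (f a = true)} (hf : PT f) :
    PT (fun a => decide (f a = true)) := hf.of_eq (fun a => by simp)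

@[fun_prop] lemma PT.decide_and {p q : α → Prop} [DecidablePred p] [DecidablePred q]
    {inst : ∀ a, Decidable (p a ∧ q a)} (hp : PT (fun a => decide (p a)))
    (hq : PT (fun a => decide (q a))) : PT (fun a => decide (p a ∧ q a)) :=
  (hp.and hq).of_eq (fun a => by rw [Bool.eq_iff_iff]; simp)

@[fun_prop] lemma PT.decide_or {p q : α → Prop} [DecidablePred p] [DecidablePred q]
    {inst : ∀ a, Decidable (p a ∨ q a)} (hp : PT (fun a => decide (p a)))
    (hq : PT (fun a => decide (q a))) : PT (fun a => decide (p a ∨ q a)) :=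
  (hp.or hq).of_eq (fun a => by rw [Bool.eq_iff_iff]; simp)

@[fun_prop] lemma PT.decide_not {p : α → Prop} [DecidablePred p]
    {inst : ∀ a, Decidable (¬ p a)} (hp : PT (fun a => decide (p a))) :
    PT (fun a => decide (¬ p a)) :=
  hp.not.of_eq (fun a => by rw [Bool.eq_iff_iff]; simp)

@[fun_prop] lemma PT.decide_imp {p q : α → Prop} [DecidablePred p] [DecidablePred q]
    {inst : ∀ a, Decidable (p a → q a)} (hp : PT (fun a => decide (p a)))
    (hq : PT (fun a => decide (q a))) : PT (fun a => decide (p a → q a)) :=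
  (hp.not.or hq).of_eq (fun a => by rw [Bool.eq_iff_iff]; simp [imp_iff_not_or])

@[fun_prop] lemma PT.decide_iff {p q : α → Prop} [DecidablePred p] [DecidablePred q]
    {inst : ∀ a, Decidable (p a ↔ q a)} (hp : PT (fun a => decide (p a)))
    (hq : PT (fun a => decide (q a))) : PT (fun a => decide (p a ↔ q a)) :=
  (hp.xor hq).not.of_eq (fun a => by
    by_cases h1 : p a <;> by_cases h2 : q a <;> simp [h1, h2])

@[fun_prop] lemma PT.any {f : α → β → Bool} {l : α → List β}
    (hf : PT (fun p : α × β => f p.1 p.2)) (hl : PT l) : PT (fun a => (l a).any (f a)) :=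
  (hf.filter hl).isEmpty.not.of_eq (fun a => by
    rw [Bool.eq_iff_iff]; simp [List.filter_eq_nil_iff])

@[fun_prop] lemma PT.all {f : α → β → Bool} {l : α → List β}
    (hf : PT (fun p : α × β => f p.1 p.2)) (hl : PT l) : PT (fun a => (l a).all (f a)) :=
  (PT.any (f := fun a b => !f a b) hf.not hl).not.of_eq (fun a => by
    rw [Bool.eq_iff_iff]; simp)

@[fun_prop] lemma PT.range {n : α → ℕ} (hn : PT n) : PT (fun a => List.range (n a)) := by
  have e : ∀ i : ℕ, (fun b : List ℕ => b ++ [b.length])^[i] [] = List.range i := by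
    intro i
    induction i with
    | zero => rfl
    | succ i ih => rw [iterate_succ_apply', ih, List.range_succ]; simp
  obtain ⟨p, hp⟩ := hn.bound
  refine (PT.iterate (g := fun _ (b : List ℕ) => b ++ [b.length]) (init := fun _ => [])
    (by fun_prop) hn (by fun_prop) (p * (p + 1) + 1) (fun a i hi => ?_)).of_eq
    (fun a => (e _).symm)
  rw [e]
  have h1 := hp a
  simp only [size_nat] at h1
  refine (size_list_le _ (p.eval (Cx.size a)) (fun j hj => ?_)).trans ?_
  · simp at hj ⊢; omega
  · simp only [List.length_range, eval_add, eval_mul, eval_one]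
    gcongr; omega

@[fun_prop] lemma PT.range' {s n : α → ℕ} (hs : PT s) (hn : PT n) :
    PT (fun a => List.range' (s a) (n a)) :=
  (PT.map (f := fun a i => s a + i) (by fun_prop) hn.range).of_eq
    (fun _ => List.range'_eq_map_range)

lemma code_inj_aux (t : BT) : ∀ (t' : BT) (x y : List Bool), t.code ++ x = t'.code ++ y →
    t = t' ∧ x = y := by
  induction t with
  | leaf => intro t' x y h; cases t' <;> simp_all [BT.code]
  | node l r ihl ihr =>
    intro t' x y h
    cases t' with
    | leaf => simp [BT.code] at h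
    | node l' r' =>
      simp only [BT.code, List.cons_append, List.append_assoc, List.cons.injEq, true_and] at h
      obtain ⟨e1, h1⟩ := ihl _ _ _ h
      obtain ⟨e2, h2⟩ := ihr _ _ _ h1
      exact ⟨by rw [e1, e2], h2⟩

lemma code_inj {t t' : BT} (h : t.code = t'.code) : t = t' :=
  (code_inj_aux t t' [] [] (by simpa using h)).1

/-- encodings with a polynomial-time decoder -/
class Dec (α : Type) [Enc α] where
  ofBT : BT → α
  ofBT_toBT : ∀ a : α, ofBT (Enc.toBT a) = a
  pt : PT ofBT

lemma enc_inj [Dec α] {a b : α} (h : enc a = enc b) : a = b := by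
  rw [← Dec.ofBT_toBT a, code_inj h, Dec.ofBT_toBT]

@[fun_prop] lemma PT.ofBT [Dec β] {f : α → BT} (hf : PT f) : PT (fun a => (Dec.ofBT (f a) : β)) :=
  PT.comp Dec.pt hf

instance decBT : Dec BT := ⟨fun t => t, fun _ => rfl, PT.id⟩

instance decBool : Dec Bool := ⟨BT.isNode, fun b => by cases b <;> rfl, PT.id.isNode⟩

def BT.spine : BT → List BT
  | .leaf => []
  | .node l r => l :: r.spine

@[fun_prop] lemma PT.spine {f : α → BT} (hf : PT f) : PT (fun a => (f a).spine) := by
  refine hf.of_tree (fun a => ?_)
  induction f a with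
  | leaf => rfl
  | node l r _ ih => exact congrArg (BT.node l) ih

instance decNat : Dec ℕ := ⟨fun t => t.spine.length, fun n => by
  induction n with
  | zero => rfl
  | succ n ih => exact congrArg Nat.succ ih, by fun_prop⟩

instance decProd [Dec α] [Dec β] : Dec (α × β) :=
  ⟨fun t => (Dec.ofBT t.left, Dec.ofBT t.right), fun ⟨a, b⟩ =>
    Prod.ext (Dec.ofBT_toBT a) (Dec.ofBT_toBT b), by fun_prop⟩

instance decList [Dec α] : Dec (List α) := ⟨fun t => t.spine.map Dec.ofBT, fun l => by
  induction l with
  | nil => rfl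
  | cons a l ih => exact congrArg₂ List.cons (Dec.ofBT_toBT a) ih, by fun_prop⟩

instance decOption [Dec α] : Dec (Option α) :=
  ⟨fun t => (Dec.ofBT t : List α).head?, fun o => by
    have : (Dec.ofBT (Enc.toBT o) : List α) = o.toList := Dec.ofBT_toBT o.toList
    rw [this]; cases o <;> rfl, by fun_prop⟩

@[fun_prop] lemma PT.decide_eq [Dec β] {f g : α → β} {inst : ∀ a, Decidable (f a = g a)} (hf : PT f)
    (hg : PT g) : PT (fun a => decide (f a = g a)) := by
  have h : PT (fun p : List Bool × List Bool => (decide (p.1.length ≤ p.2.length) &&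
      decide (p.2.length ≤ p.1.length)) &&
      (List.range p.1.length).all (fun i => !Bool.xor (p.1.getD i false) (p.2.getD i false))) := by
    fun_prop
  refine (h.comp (hf.enc.pair hg.enc)).of_eq (fun a => ?_)
  rw [Bool.eq_iff_iff]
  simp only [decide_eq_true_eq, Bool.and_eq_true, List.all_eq_true, List.mem_range]
  constructor
  · intro e; simp [e]
  · rintro ⟨⟨h1, h2⟩, h3⟩
    apply enc_inj
    refine List.ext_getElem (by omega) (fun i hi hi' => ?_)
    simpa [List.getD_eq_getElem?_getD, hi, hi'] using h3 i hi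

@[fun_prop] lemma PT.decide_ne [Dec β] {f g : α → β} {inst : ∀ a, Decidable (f a ≠ g a)} (hf : PT f)
    (hg : PT g) : PT (fun a => decide (f a ≠ g a)) := by
  classical
  exact (PT.decide_eq (inst := fun _ => inferInstance) hf hg).not.of_eq (fun a => by rw [Bool.eq_iff_iff]; simp)

@[fun_prop] lemma PT.beq [Dec β] [BEq β] [LawfulBEq β] {f g : α → β} (hf : PT f) (hg : PT g) :
    PT (fun a => f a == g a) := by
  classical
  exact (PT.decide_eq (inst := fun _ => inferInstance) hf hg).of_eq (fun a => by rw [Bool.eq_iff_iff]; simp)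

@[fun_prop] lemma PT.bne [Dec β] [BEq β] [LawfulBEq β] {f g : α → β} (hf : PT f) (hg : PT g) :
    PT (fun a => f a != g a) := (hf.beq hg).not

@[fun_prop] lemma PT.decide_mem [Dec β] {f : α → β} {l : α → List β}
    {inst : ∀ a, Decidable (f a ∈ l a)} (hf : PT f) (hl : PT l) :
    PT (fun a => decide (f a ∈ l a)) := by
  classical
  exact (PT.any (f := fun a b => decide (f a = b)) (by fun_prop) hl).of_eq
    (fun a => by rw [Bool.eq_iff_iff]; simp)

@[fun_prop] lemma PT.contains [Dec β] [BEq β] [LawfulBEq β] {f : α → β} {l : α → List β}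
    (hf : PT f) (hl : PT l) : PT (fun a => (l a).contains (f a)) := by
  classical
  exact (PT.decide_mem (inst := fun _ => inferInstance) hf hl).of_eq (fun a => by rw [Bool.eq_iff_iff]; simp)

@[fun_prop] lemma PT.decide_ball {p : α → β → Prop} [∀ a b, Decidable (p a b)] {l : α → List β}
    {inst : ∀ a, Decidable (∀ b ∈ l a, p a b)} (hp : PT (fun x : α × β => decide (p x.1 x.2)))
    (hl : PT l) : PT (fun a => decide (∀ b ∈ l a, p a b)) :=
  (PT.all (f := fun a b => decide (p a b)) hp hl).of_eq (fun a => by rw [Bool.eq_iff_iff]; simp)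

@[fun_prop] lemma PT.decide_bex {p : α → β → Prop} [∀ a b, Decidable (p a b)] {l : α → List β}
    {inst : ∀ a, Decidable (∃ b ∈ l a, p a b)} (hp : PT (fun x : α × β => decide (p x.1 x.2)))
    (hl : PT l) : PT (fun a => decide (∃ b ∈ l a, p a b)) :=
  (PT.any (f := fun a b => decide (p a b)) hp hl).of_eq (fun a => by rw [Bool.eq_iff_iff]; simp)

@[fun_prop] lemma PT.decide_ball_lt {p : α → ℕ → Prop} [∀ a b, Decidable (p a b)] {n : α → ℕ}
    {inst : ∀ a, Decidable (∀ b < n a, p a b)} (hp : PT (fun x : α × ℕ => decide (p x.1 x.2)))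
    (hn : PT n) : PT (fun a => decide (∀ b < n a, p a b)) :=
  (PT.all (f := fun a b => decide (p a b)) hp hn.range).of_eq
    (fun a => by rw [Bool.eq_iff_iff]; simp)

@[fun_prop] lemma PT.decide_bex_lt {p : α → ℕ → Prop} [∀ a b, Decidable (p a b)] {n : α → ℕ}
    {inst : ∀ a, Decidable (∃ b < n a, p a b)} (hp : PT (fun x : α × ℕ => decide (p x.1 x.2)))
    (hn : PT n) : PT (fun a => decide (∃ b < n a, p a b)) :=
  (PT.any (f := fun a b => decide (p a b)) hp hn.range).of_eq
    (fun a => by rw [Bool.eq_iff_iff]; simp)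

@[fun_prop] lemma PT.sum {l : α → List ℕ} (hl : PT l) : PT (fun a => (l a).sum) :=
  (PT.flatMap (f := fun _ n => List.replicate n BT.leaf) (by fun_prop) hl).length.of_eq
    (fun a => by simp)

@[fun_prop] lemma PT.countP {f : α → β → Bool} {l : α → List β}
    (hf : PT (fun p : α × β => f p.1 p.2)) (hl : PT l) : PT (fun a => (l a).countP (f a)) :=
  (hf.filter hl).length.of_eq (fun _ => List.countP_eq_length_filter)

@[fun_prop] lemma PT.count [Dec β] [BEq β] [LawfulBEq β] {f : α → β} {l : α → List β}
    (hf : PT f) (hl : PT l) : PT (fun a => (l a).count (f a)) :=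
  PT.countP (f := fun a b => b == f a) (by fun_prop) hl

@[fun_prop] lemma PT.min {f g : α → ℕ} (hf : PT f) (hg : PT g) : PT (fun a => min (f a) (g a)) :=
  (hf.sub (hf.sub hg)).of_eq (fun a => by omega)

@[fun_prop] lemma PT.max {f g : α → ℕ} (hf : PT f) (hg : PT g) : PT (fun a => max (f a) (g a)) :=
  (hg.add (hf.sub hg)).of_eq (fun a => by omega)

@[fun_prop] lemma PT.div {f g : α → ℕ} (hf : PT f) (hg : PT g) : PT (fun a => f a / g a) := by
  refine (PT.countP (f := fun a i => decide (0 < g a) && decide ((i + 1) * g a ≤ f a))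
    (by fun_prop) hf.range).of_eq (fun a => ?_)
  rcases Nat.eq_zero_or_pos (g a) with h | h
  · simp [h]
  · have h1 : f a / g a ≤ f a := Nat.div_le_self _ _
    have : ∀ m, List.countP (fun i => decide (0 < g a) && decide ((i + 1) * g a ≤ f a))
        (List.range m) = Min.min m (f a / g a) := by
      intro m
      induction m with
      | zero => simp
      | succ m ih =>
        rw [List.range_succ, List.countP_append, ih]
        by_cases h2 : (m + 1) * g a ≤ f a
        · have := (Nat.le_div_iff_mul_le h).2 h2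
          simp [h, h2]; omega
        · have := (Nat.le_div_iff_mul_le h).not.2 h2
          simp [h, h2]; omega
    rw [this]; omega

@[fun_prop] lemma PT.mod {f g : α → ℕ} (hf : PT f) (hg : PT g) : PT (fun a => f a % g a) :=
  (hf.sub (hg.mul (hf.div hg))).of_eq (fun _ => Nat.mod_def _ _)

@[fun_prop] lemma PT.natPair {f g : α → ℕ} (hf : PT f) (hg : PT g) :
    PT (fun a => Nat.pair (f a) (g a)) := by
  unfold Nat.pair; fun_prop

@[fun_prop] lemma PT.optMap {f : α → β → γ} {o : α → Option β}
    (hf : PT (fun p : α × β => f p.1 p.2)) (ho : PT o) : PT (fun a => (o a).map (f a)) :=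
  (hf.map ho.toList).head?.of_eq (fun a => by cases o a <;> rfl)

@[fun_prop] lemma PT.optBind {f : α → β → Option γ} {o : α → Option β}
    (hf : PT (fun p : α × β => f p.1 p.2)) (ho : PT o) : PT (fun a => (o a).bind (f a)) :=
  (hf.filterMap ho.toList).head?.of_eq (fun a => by
    cases o a with
    | none => rfl
    | some b => cases h : f a b <;> simp [h])

@[fun_prop] lemma PT.zipIdx {l : α → List β} (hl : PT l) : PT (fun a => (l a).zipIdx) := by
  refine (PT.filterMap (f := fun a i => ((l a)[i]?).map (fun b => (b, i))) (by fun_prop)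
    hl.length.range).of_eq (fun a => ?_)
  induction l a using List.reverseRecOn with
  | nil => rfl
  | append_singleton L b ih =>
    rw [List.zipIdx_append, ih, List.length_append, List.length_singleton, List.range_succ,
      List.filterMap_append]
    congr 1
    · refine List.filterMap_congr (fun i hi => ?_)
      rw [List.getElem?_append_left (by simpa using hi)]
    · simp

@[fun_prop] lemma PT.zip {l : α → List β} {l' : α → List γ} (hl : PT l) (hl' : PT l') :
    PT (fun a => (l a).zip (l' a)) := by
  refine (PT.filterMap (f := fun a (p : β × ℕ) => ((l' a)[p.2]?).map (fun c => (p.1, c)))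
    (by fun_prop) hl.zipIdx).of_eq (fun a => ?_)
  have : ∀ (L : List β) (L' : List γ) (k : ℕ), L.zip (L'.drop k) =
      (L.zipIdx k).filterMap (fun p : β × ℕ => (L'[p.2]?).map (fun c => (p.1, c))) := by
    intro L
    induction L with
    | nil => simp
    | cons b L ih =>
      intro L' k
      rw [List.zipIdx_cons, List.filterMap_cons, ← ih]
      by_cases hk : k < L'.length
      · rw [List.drop_eq_getElem_cons hk, List.zip_cons_cons]; simp [hk]
      · rw [List.drop_of_length_le (by omega), List.drop_of_length_le (by omega)]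
        simp [List.getElem?_eq_none (not_lt.1 hk)]
  simpa using this (l a) (l' a) 0

@[fun_prop] lemma PT.zipWith {f : α → β → γ → δ} {l : α → List β} {l' : α → List γ}
    (hf : PT (fun p : α × β × γ => f p.1 p.2.1 p.2.2)) (hl : PT l) (hl' : PT l') :
    PT (fun a => List.zipWith (f a) (l a) (l' a)) :=
  (PT.map (f := fun a (p : β × γ) => f a p.1 p.2) hf (hl.zip hl')).of_eq (fun a => by
    rw [List.map_zip_eq_zipWith]; rfl)

@[fun_prop] lemma PT.decide_nodup [Dec β] {l : α → List β} {inst : ∀ a, Decidable (l a).Nodup}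
    (hl : PT l) : PT (fun a => decide (l a).Nodup) := by
  classical
  refine (PT.all (f := fun a b => decide ((l a).count b ≤ 1)) (by fun_prop) hl).of_eq (fun a => ?_)
  rw [Bool.eq_iff_iff]
  simp only [decide_eq_true_eq, List.all_eq_true, List.nodup_iff_count_le_one]
  exact ⟨fun h b _ => h b, fun h b => by
    by_cases hb : b ∈ l a
    · exact h b hb
    · simp [List.count_eq_zero_of_not_mem hb]⟩

@[fun_prop] lemma PT.find? {f : α → β → Bool} {l : α → List β}
    (hf : PT (fun p : α × β => f p.1 p.2)) (hl : PT l) : PT (fun a => (l a).find? (f a)) :=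
  (hf.filter hl).head?.of_eq (fun _ => List.head?_filter.symm)

@[fun_prop] lemma PT.toNat {f : α → Bool} (hf : PT f) : PT (fun a => (f a).toNat) :=
  (hf.cond (PT.const 1) (PT.const 0)).of_eq (fun a => by cases f a <;> rfl)

end Pool.Agent.Cx
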