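import Pool.Agent.Lib.helper10.NPCook2

/-! Glue: membership in P, NP, coNP; hardness by reductions from satisfiability. -/

namespace Pool.Agent.Cx

open Function Polynomial Turing

variable {α β γ : Type} [Enc α] [Enc β] [Enc γ]

lemma PTe.raw : PTe (fun x : List Bool => x) enc (fun x : List Bool => x) := by
  refine PTe.congr (PTe.bits (fun b => true :: Cx.enc b) [] [false]) (fun x => x) (fun _ => rfl)
    (fun l => ?_)
  induction l with
  | nil => rfl
  | cons b l ih => simp [enc_cons, ih]

theorem inP_of_PT {f : List Bool → Bool} (hf : PT f) {L : Language} (h : ∀ x, x ∈ L ↔ f x = true) :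
    InP L :=
  ⟨f, (PTe.comp (g := fun b : Bool => b) PTe.outBool (PTe.comp (g := f) hf PTe.raw)).tm2, h⟩

theorem polyTime_of_PT {g : List Bool → α} (hg : PT g) : PolyTime (fun x => enc (g x)) :=
  PTe.tm2 (PTe.congr (ea' := fun x : List Bool => x) (eb' := fun y : List Bool => y)
    (f' := fun x => enc (g x)) (PTe.comp (g := g) hg PTe.raw) (fun x => x) (fun _ => rfl)
    (fun _ => rfl))

/-- total decoder of binary strings -/
def parseStep (acc : List BT) (b : Bool) : List BT :=
  bif b then BT.node (acc.headD .leaf) (acc.tail.headD .leaf) :: acc.tail.tail else .leaf :: acc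

def decode [Dec α] (w : List Bool) : α := Dec.ofBT ((w.reverse.foldl parseStep []).headD .leaf)

lemma parse_code (t : BT) : ∀ acc, t.code.reverse.foldl parseStep acc = t :: acc := by
  induction t with
  | leaf => intro acc; rfl
  | node l r ihl ihr => intro acc; simp [BT.code, List.foldl_append, ihl, ihr, parseStep, -List.foldl_reverse]

@[simp] lemma decode_enc [Dec α] (a : α) : decode (enc a) = a := by
  unfold decode enc; rw [parse_code]; exact Dec.ofBT_toBT a

lemma size_node (l r : BT) : size (BT.node l r) = size l + size r + 1 := by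
  simp [size, enc, Enc.toBT, BT.code]

@[fun_prop] lemma PT.decode [Dec β] {f : α → List Bool} (hf : PT f) :
    PT (fun a => (decode (f a) : β)) := by
  have : PT (fun a => (f a).reverse.foldl parseStep []) :=
    PT.foldl_add (f := fun _ => parseStep) (by unfold parseStep; fun_prop) (by fun_prop)
      (by fun_prop) 4 (fun a c b => by
        have h : Cx.size BT.leaf = 1 := rfl
        cases b
        · simp [parseStep, h]; omega
        · rcases c with _ | ⟨x, _ | ⟨y, c⟩⟩ <;> (simp [parseStep, size_node, h]; try omega))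
  unfold Cx.decode; fun_prop

def unpStep (s : List Bool × List Bool) : List Bool × List Bool :=
  bif s.2.headD false then (s.1 ++ [s.2.tail.headD false], s.2.tail.tail) else s

lemma unp_pair (x w : List Bool) : ∀ (n : ℕ) (acc : List Bool), x.length ≤ n →
    unpStep^[n] (acc, pairStr x w) = (acc ++ x, false :: w) := by
  induction x with
  | nil => intro n acc _; simpa [pairStr] using iterate_fixed (by simp [unpStep]) n
  | cons b x ih =>
    intro n acc h
    obtain ⟨n, rfl⟩ := Nat.exists_eq_succ_of_ne_zero (show n ≠ 0 by simp at h; omega)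
    have : unpStep (acc, pairStr (b :: x) w) = (acc ++ [b], pairStr x w) := by
      simp [unpStep, pairStr]
    rw [iterate_succ_apply, this, ih _ _ (by simpa using h)]; simp

theorem inNP_raw {V : List Bool × List Bool → Bool} (hV : PT V) (p : ℕ[X]) {L : Language}
    (h : ∀ x, x ∈ L ↔ ∃ w : List Bool, w.length ≤ p.eval x.length ∧ V (x, w) = true) : InNP L := by
  have h1 : PT (fun z : List Bool => unpStep^[z.length] ([], z)) :=
    PT.iterate_add (g := fun _ => unpStep) (by unfold unpStep; fun_prop) (by fun_prop)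
      (by fun_prop) 4 (fun a ⟨u, v⟩ => by
        unfold unpStep
        cases h : v.headD false
        · simp
        · have := size_append u [v.tail.headD false]
          have := size_bool (v.tail.headD false)
          have := size_le_of_sublist ((List.tail_sublist v.tail).trans (List.tail_sublist v))
          simp at *; omega)
  refine ⟨{z | V ((unpStep^[z.length] ([], z)).1, (unpStep^[z.length] ([], z)).2.tail) = true},
    inP_of_PT (f := fun z => V ((unpStep^[z.length] ([], z)).1,
      (unpStep^[z.length] ([], z)).2.tail)) (hV.comp (h1.fst.pair h1.snd.tail)) (fun _ => Iff.rfl),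
    p, fun x => ?_⟩
  rw [h]
  refine exists_congr fun w => and_congr_right fun _ => ?_
  have : x.length ≤ (pairStr x w).length := by
    clear h
    induction x with
    | nil => simp
    | cons b x ih => simp [pairStr] at ih ⊢; omega
  simp only [Set.mem_ofPred_eq]
  rw [unp_pair x w _ _ this]; simp

lemma mem_Lang [Dec α] {P : α → Prop} {a : α} : enc a ∈ Lang P ↔ P a :=
  ⟨fun ⟨_, h, e⟩ => enc_inj e ▸ h, fun h => ⟨a, h, rfl⟩⟩

lemma mem_Lang' [Dec α] {P : α → Prop} {x : List Bool} :
    x ∈ Lang P ↔ enc (decode x : α) = x ∧ P (decode x) := by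
  constructor
  · rintro ⟨a, h, rfl⟩; simpa using h
  · rintro ⟨h1, h2⟩; exact ⟨_, h2, h1⟩

/-- membership in P from a polynomial-time decision function -/
theorem inP_Lang [Dec α] {P : α → Prop} {f : α → Bool} (hf : PT f) (h : ∀ a, P a ↔ f a = true) :
    InP (Lang P) :=
  inP_of_PT (f := fun x => (enc (decode x : α) == x) && f (decode x)) (by fun_prop)
    (fun x => by simp [mem_Lang', h])

/-- membership in NP from a polynomial-time verifier -/
theorem inNP_Lang [Dec α] [Dec β] {P : α → Prop} {V : α × β → Bool} (hV : PT V) (p : ℕ[X])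
    (h1 : ∀ a, P a → ∃ b, size b ≤ p.eval (size a) ∧ V (a, b) = true)
    (h2 : ∀ a b, V (a, b) = true → P a) : InNP (Lang P) := by
  refine inNP_raw (V := fun z => (enc (decode z.1 : α) == z.1) && V (decode z.1, decode z.2))
    (by fun_prop) p (fun x => ?_)
  constructor
  · rintro ⟨a, h, rfl⟩
    obtain ⟨b, hb, hv⟩ := h1 a h
    exact ⟨enc b, hb, by simpa using hv⟩
  · rintro ⟨w, -, h⟩
    simp only [Bool.and_eq_true, beq_iff_eq] at h
    exact ⟨_, h2 _ _ h.2, h.1⟩

/-- membership in coNP from a polynomial-time verifier for the negation -/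
theorem inCoNP_Lang [Dec α] [Dec β] {P : α → Prop} {V : α × β → Bool} (hV : PT V) (p : ℕ[X])
    (h1 : ∀ a, ¬ P a → ∃ b, size b ≤ p.eval (size a) ∧ V (a, b) = true)
    (h2 : ∀ a b, V (a, b) = true → ¬ P a) : InCoNP (Lang P) := by
  refine inNP_raw (V := fun z => (enc (decode z.1 : α) != z.1) || V (decode z.1, decode z.2))
    (by fun_prop) p (fun x => ?_)
  rw [Set.mem_compl_iff, mem_Lang']
  constructor
  · intro h
    by_cases e : enc (decode x : α) = x
    · obtain ⟨b, hb, hv⟩ := h1 _ (fun hp => h ⟨e, hp⟩)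
      refine ⟨enc b, ?_, by simp [hv]⟩
      unfold size at hb; rwa [e] at hb
    · exact ⟨[], by simp, by simp [e]⟩
  · rintro ⟨w, -, h⟩ ⟨e, hp⟩
    simp only [Bool.or_eq_true, bne_iff_ne] at h
    rcases h with h | h
    · exact h e
    · exact h2 _ _ h hp

/-- every NP language reduces to `P` by a function of the class `PT` -/
def Hard (P : α → Prop) : Prop :=
  ∀ L, InNP L → ∃ g : List Bool → α, PT g ∧ ∀ x, x ∈ L ↔ P (g x)

theorem hard_sat : Hard Sat := cook_levin

theorem Hard.red {P : α → Prop} {Q : β → Prop} (h : Hard P) {r : α → β} (hr : PT r)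
    (e : ∀ a, P a ↔ Q (r a)) : Hard Q := fun L hL =>
  let ⟨g, hg, h'⟩ := h L hL
  ⟨fun x => r (g x), hr.comp hg, fun x => (h' x).trans (e _)⟩

theorem Hard.npHard [Dec α] {P : α → Prop} (h : Hard P) : NPHard (Lang P) := fun L hL =>
  let ⟨g, hg, h'⟩ := h L hL
  ⟨fun x => enc (g x), polyTime_of_PT hg, fun x => (h' x).trans mem_Lang.symm⟩

theorem Hard.coNPHard [Dec α] {P : α → Prop} (h : Hard (fun a => ¬ P a)) : CoNPHard (Lang P) :=
  fun L hL =>
  let ⟨g, hg, h'⟩ := h Lᶜ hL
  ⟨fun x => enc (g x), polyTime_of_PT hg, fun x => by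
    rw [mem_Lang, ← not_iff_not]; exact h' x⟩

def satV (z : CNF × List Bool) : Bool := z.1.all fun c => c.any fun l => z.2.getD l.1 false == l.2

lemma satV_sound (φ : CNF) (w : List Bool) (h : satV (φ, w) = true) : Sat φ :=
  ⟨fun n => w.getD n false, by simpa [satV] using h⟩

lemma satV_complete (φ : CNF) (h : Sat φ) : ∃ w : List Bool, w.length ≤ size φ ∧ satV (φ, w) = true := by
  obtain ⟨τ, h⟩ := h
  refine ⟨(List.range (size φ)).map τ, by simp, ?_⟩
  simp only [satV, List.all_eq_true, List.any_eq_true, beq_iff_eq]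
  intro c hc
  obtain ⟨l, hl, e⟩ := h c hc
  refine ⟨l, hl, ?_⟩
  have h1 := size_lt_of_mem hc
  have h2 := size_lt_of_mem hl
  have h3 : size l = size l.1 + size l.2 + 1 := size_pair l.1 l.2
  simp only [size_nat] at h3
  simp [List.getD_eq_getElem?_getD, show l.1 < size φ by omega, e]

/-- NP is closed under reductions of the class `PT` -/
theorem InNP.of_red {L L' : Language} (h : InNP L') {g : List Bool → List Bool} (hg : PT g)
    (e : ∀ x, x ∈ L ↔ g x ∈ L') : InNP L := by
  obtain ⟨r, hr, h'⟩ := cook_levin L' h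
  have h1 : PT (fun x => r (g x)) := hr.comp hg
  obtain ⟨p, hp⟩ := h1.bound
  refine inNP_raw (V := fun z => satV (r (g z.1), z.2)) (by unfold satV; fun_prop)
    (p.comp (C 4 * X + 1)) (fun x => ?_)
  rw [e, h']
  constructor
  · intro hs
    obtain ⟨w, hw, hv⟩ := satV_complete _ hs
    refine ⟨w, hw.trans ((hp x).trans ?_), hv⟩
    rw [eval_comp]
    refine eval_mono _ ?_
    have := size_list_le x 3 (fun b _ => size_bool b)
    simp; omega
  · rintro ⟨w, -, hv⟩; exact satV_sound _ _ hv

/-- an NP-hard problem lies in coNP only if NP is contained in coNP -/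
theorem Hard.np_sub_conp [Dec α] {P : α → Prop} (h : Hard P) (h' : InCoNP (Lang P)) :
    ∀ L, InNP L → InCoNP L := fun L hL =>
  let ⟨g, hg, e⟩ := h L hL
  InNP.of_red h' hg.enc (fun x => by simp [mem_Lang, e])

/-- a coNP-hard problem lies in NP only if NP is contained in coNP -/
theorem Hard.np_sub_conp' [Dec α] {P : α → Prop} (h : Hard (fun a => ¬ P a))
    (h' : InNP (Lang P)) : ∀ L, InNP L → InCoNP L := fun L hL =>
  let ⟨g, hg, e⟩ := h L hL
  InNP.of_red h' hg.enc (fun x => by simp [mem_Lang, e])

lemma np_eq_conp (h : ∀ L, InNP L → InCoNP L) : ∀ L, InNP L ↔ InCoNP L := fun L =>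
  ⟨h L, fun hL => by simpa [InCoNP] using h _ hL⟩

end Pool.Agent.Cx
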