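import Pool.Agent.Lib.helper10.NPSim

/-! Matrices of relations on an explicit list of points. -/

namespace Pool.Agent.Cx

variable {α β γ : Type}

/-- the 0-1 matrix of the relation `r` on the list `E` -/
def mat (E : List α) (r : α → α → Bool) : List (List Bool) := E.map fun x => E.map fun y => r x y

@[simp] lemma mat_length (E : List α) (r : α → α → Bool) : (mat E r).length = E.length := by
  simp [mat]

lemma mat_row (E : List α) (r : α → α → Bool) : ∀ x ∈ mat E r, x.length = (mat E r).length := by
  simp [mat]

lemma mat_get (E : List α) (r : α → α → Bool) (i j : ℕ) :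
    ((mat E r).getD i []).getD j false = true ↔
      ∃ (hi : i < E.length) (hj : j < E.length), r E[i] E[j] = true := by
  unfold mat
  by_cases hi : i < E.length <;> by_cases hj : j < E.length <;>
    simp [List.getD_eq_getElem?_getD, hi, hj]

@[fun_prop] lemma PT.mat [Enc α] [Enc β] {E : α → List β} {r : α → β → β → Bool} (hE : PT E)
    (hr : PT (fun p : α × β × β => r p.1 p.2.1 p.2.2)) : PT (fun a => mat (E a) (r a)) := by
  unfold Cx.mat
  refine PT.map (PT.map (f := fun (p : α × β) y => r p.1 p.2 y) ?_ (by fun_prop)) hE
  exact PT.comp (f := fun p : (α × β) × β => (p.1.1, p.1.2, p.2)) hr (by fun_prop)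

@[fun_prop] lemma PT.product [Enc α] [Enc β] [Enc γ] {l : α → List β} {l' : α → List γ}
    (hl : PT l) (hl' : PT l') : PT (fun a => l a ×ˢ l' a) := by
  have : PT (fun a => (l a).flatMap fun b => (l' a).map fun c => (b, c)) := by fun_prop
  exact this

lemma var_lt_size {φ : CNF} {c : List (ℕ × Bool)} (hc : c ∈ φ) {l : ℕ × Bool} (hl : l ∈ c) :
    l.1 < size φ := by
  have h1 := size_lt_of_mem hc
  have h2 := size_lt_of_mem hl
  have h3 : size l = size l.1 + size l.2 + 1 := size_pair l.1 l.2
  simp only [size_nat] at h3
  omega

lemma eq_range_of_pairwise {l : List ℕ} (h : l.Pairwise (· < ·)) (h' : ∀ x ∈ l, x < l.length) :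
    l = List.range l.length := by
  have h1 : l.Subperm (List.range l.length) :=
    List.subperm_of_subset (h.imp ne_of_lt) (fun x hx => by simpa using h' x hx)
  exact (h1.perm_of_length_le (by simp)).eq_of_pairwise (fun _ _ _ _ a b => by omega) h
    List.pairwise_lt_range

end Pool.Agent.Cx
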