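import Pool.Agent.Lib.helper10.NPGraphL

/-! Polynomial-time predicates (faster automation for Boolean combinations). -/

namespace Pool.Agent.Cx

variable {α β : Type} [Enc α] [Enc β]

/-- the predicate `p` is decidable in polynomial time on codes -/
@[fun_prop] def PP {α : Type} [Enc α] (p : α → Prop) : Prop :=
  ∃ f : α → Bool, PT f ∧ ∀ a, p a ↔ f a = true

lemma PP.decide {p : α → Prop} {inst : ∀ a, Decidable (p a)} (h : PP p) :
    PT (fun a => decide (p a)) :=
  let ⟨_, hf, e⟩ := h; hf.of_eq fun a => by rw [Bool.eq_iff_iff]; simp [e]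

lemma PP.of_decide {p : α → Prop} [∀ a, Decidable (p a)] (h : PT (fun a => Decidable.decide (p a))) :
    PP p := ⟨_, h, fun a => by simp⟩

@[fun_prop] lemma PP.const (q : Prop) : PP (fun _ : α => q) := by
  classical exact .of_decide (PT.const _)

@[fun_prop] lemma PP.comp {p : β → Prop} {f : α → β} (hp : PP p) (hf : PT f) :
    PP (fun a => p (f a)) :=
  let ⟨_, hg, e⟩ := hp; ⟨_, hg.comp hf, fun _ => e _⟩

@[fun_prop] lemma PP.and {p q : α → Prop} (hp : PP p) (hq : PP q) : PP (fun a => p a ∧ q a) :=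
  let ⟨_, hf, e⟩ := hp; let ⟨_, hg, e'⟩ := hq; ⟨_, hf.and hg, fun a => by simp [e, e']⟩

@[fun_prop] lemma PP.or {p q : α → Prop} (hp : PP p) (hq : PP q) : PP (fun a => p a ∨ q a) :=
  let ⟨_, hf, e⟩ := hp; let ⟨_, hg, e'⟩ := hq; ⟨_, hf.or hg, fun a => by simp [e, e']⟩

@[fun_prop] lemma PP.not {p : α → Prop} (hp : PP p) : PP (fun a => ¬ p a) :=
  let ⟨_, hf, e⟩ := hp; ⟨_, hf.not, fun a => by simp [e]⟩

lemma PP.imp {p q : α → Prop} (hp : PP p) (hq : PP q) : PP (fun a => p a → q a) :=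
  let ⟨_, hf, e⟩ := hp.not.or hq; ⟨_, hf, fun a => imp_iff_not_or.trans (e a)⟩

@[fun_prop] lemma PP.iff {p q : α → Prop} (hp : PP p) (hq : PP q) : PP (fun a => p a ↔ q a) :=
  let ⟨_, hf, e⟩ := (hp.imp hq).and (hq.imp hp)
  ⟨_, hf, fun a => iff_iff_implies_and_implies.trans (e a)⟩

@[fun_prop] lemma PP.eq [Dec β] {f g : α → β} (hf : PT f) (hg : PT g) : PP (fun a => f a = g a) := by
  classical exact .of_decide (PT.decide_eq hf hg)

@[fun_prop] lemma PP.ne [Dec β] {f g : α → β} (hf : PT f) (hg : PT g) : PP (fun a => f a ≠ g a) :=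
  (PP.eq hf hg).not

@[fun_prop] lemma PP.le {f g : α → ℕ} (hf : PT f) (hg : PT g) : PP (fun a => f a ≤ g a) :=
  .of_decide (PT.decide_le hf hg)

@[fun_prop] lemma PP.lt {f g : α → ℕ} (hf : PT f) (hg : PT g) : PP (fun a => f a < g a) :=
  .of_decide (PT.decide_lt hf hg)

@[fun_prop] lemma PP.mem [Dec β] {f : α → β} {l : α → List β} (hf : PT f) (hl : PT l) :
    PP (fun a => f a ∈ l a) := by
  classical exact .of_decide (PT.decide_mem hf hl)

@[fun_prop] lemma PP.nodup [Dec β] {l : α → List β} (hl : PT l) : PP (fun a => (l a).Nodup) := by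
  classical exact .of_decide (PT.decide_nodup hl)

lemma PP.ball {p : α → β → Prop} {l : α → List β} (hp : PP (fun x : α × β => p x.1 x.2))
    (hl : PT l) : PP (fun a => ∀ b ∈ l a, p a b) := by
  classical exact .of_decide (PT.decide_ball hp.decide hl)

@[fun_prop] lemma PP.bex {p : α → β → Prop} {l : α → List β}
    (hp : PP (fun x : α × β => p x.1 x.2)) (hl : PT l) : PP (fun a => ∃ b ∈ l a, p a b) := by
  classical exact .of_decide (PT.decide_bex hp.decide hl)

lemma PP.ball_lt {p : α → ℕ → Prop} {n : α → ℕ} (hp : PP (fun x : α × ℕ => p x.1 x.2))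
    (hn : PT n) : PP (fun a => ∀ b < n a, p a b) := by
  classical exact .of_decide (PT.decide_ball_lt hp.decide hn)

@[fun_prop] lemma PP.bex_lt {p : α → ℕ → Prop} {n : α → ℕ}
    (hp : PP (fun x : α × ℕ => p x.1 x.2)) (hn : PT n) : PP (fun a => ∃ b < n a, p a b) := by
  classical exact .of_decide (PT.decide_bex_lt hp.decide hn)

lemma PP.ite {c : α → Prop} [DecidablePred c] {f g : α → β} (hc : PP c) (hf : PT f) (hg : PT g) :
    PT (fun a => if c a then f a else g a) := PT.ite hc.decide hf hg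

end Pool.Agent.Cx
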