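import Pool.Agent.Lib.helper10.NPDefs

/-! A small imperative language on stacks of bits, and its compilation to `FinTM2`. -/

namespace Pool.Agent.Cx

open Turing Function

abbrev St := ℕ → List Bool

inductive Prog : Type
  | skip : Prog
  | push : ℕ → Bool → Prog
  | pop : ℕ → Prog
  | seq : Prog → Prog → Prog
  | ite : ℕ → Prog → Prog → Prog → Prog
  | loop : ℕ → Prog → Prog

inductive Run : Prog → St → St → ℕ → Prop
  | skip (s) : Run .skip s s 1
  | push (r b s) : Run (.push r b) s (update s r (b :: s r)) 1
  | pop (r s) : Run (.pop r) s (update s r (s r).tail) 1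
  | seq {p q s s' s'' n m} : Run p s s' n → Run q s' s'' m → Run (.seq p q) s s'' (n + m)
  | iteN {r a b c s s' n} : (s r).head? = none → Run a s s' n → Run (.ite r a b c) s s' (n + 1)
  | iteF {r a b c s s' n} : (s r).head? = some false → Run b s s' n →
      Run (.ite r a b c) s s' (n + 1)
  | iteT {r a b c s s' n} : (s r).head? = some true → Run c s s' n →
      Run (.ite r a b c) s s' (n + 1)
  | loopN {r p s} : (s r).head? = none → Run (.loop r p) s s 1
  | loopS {r p s s' s'' n m} : (s r).head? ≠ none → Run p s s' n → Run (.loop r p) s' s'' m →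
      Run (.loop r p) s s'' (n + m + 1)

lemma Run.length_le {p s s' n} (h : Run p s s' n) (r : ℕ) : (s' r).length ≤ (s r).length + n := by
  induction h with
  | skip => omega
  | push r' b s => by_cases h : r = r' <;> simp [h]
  | pop r' s => by_cases h : r = r' <;> simp [h]; omega
  | seq _ _ h1 h2 => omega
  | iteN _ _ h => omega
  | iteF _ _ h => omega
  | iteT _ _ h => omega
  | loopN => omega
  | loopS _ _ _ h1 h2 => omega

/-- largest register mentioned -/
def Prog.top : Prog → ℕ
  | .skip => 0
  | .push r _ => r
  | .pop r => r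
  | .seq p q => max p.top q.top
  | .ite r a b c => max r (max a.top (max b.top c.top))
  | .loop r p => max r p.top

def Lab : Prog → Type
  | .skip => Unit
  | .push _ _ => Unit
  | .pop _ => Unit
  | .seq p q => Lab p ⊕ Lab q
  | .ite _ a b c => Option (Lab a ⊕ Lab b ⊕ Lab c)
  | .loop _ p => Option (Lab p)

@[reducible] def labFin : (p : Prog) → Fintype (Lab p)
  | .skip => inferInstanceAs (Fintype Unit)
  | .push _ _ => inferInstanceAs (Fintype Unit)
  | .pop _ => inferInstanceAs (Fintype Unit)
  | .seq p q => @instFintypeSum _ _ (labFin p) (labFin q)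
  | .ite _ a b c => @instFintypeOption _
      (@instFintypeSum _ _ (labFin a) (@instFintypeSum _ _ (labFin b) (labFin c)))
  | .loop _ p => @instFintypeOption _ (labFin p)

def entry : (p : Prog) → Lab p
  | .skip => ()
  | .push _ _ => ()
  | .pop _ => ()
  | .seq p _ => Sum.inl (entry p)
  | .ite _ _ _ _ => none
  | .loop _ _ => none

def reg (N r : ℕ) : Fin (N + 1) := ⟨min r N, by omega⟩

abbrev Stm (N : ℕ) (Λ : Type) := TM2.Stmt (fun _ : Fin (N + 1) => Bool) Λ (Option Bool)

def code (N : ℕ) {Λ : Type} : (p : Prog) → (Lab p → Λ) → Stm N Λ → Lab p → Stm N Λ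
  | .skip, _, k, _ => k
  | .push r b, _, k, _ => .push (reg N r) (fun _ => b) k
  | .pop r, _, k, _ => .pop (reg N r) (fun v _ => v) k
  | .seq p q, inj, _, Sum.inl l =>
      code N p (fun x => inj (Sum.inl x)) (.goto fun _ => inj (Sum.inr (entry q))) l
  | .seq _ q, inj, k, Sum.inr l => code N q (fun x => inj (Sum.inr x)) k l
  | .ite r a b c, inj, _, none =>
      .peek (reg N r) (fun _ o => o)
        (.branch (fun v => v.isNone)
          (.load (fun _ => none) (.goto fun _ => inj (some (Sum.inl (entry a)))))
          (.branch (fun v => v.getD false)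
            (.load (fun _ => none) (.goto fun _ => inj (some (Sum.inr (Sum.inr (entry c))))))
            (.load (fun _ => none) (.goto fun _ => inj (some (Sum.inr (Sum.inl (entry b))))))))
  | .ite _ a _ _, inj, k, some (Sum.inl l) => code N a (fun x => inj (some (Sum.inl x))) k l
  | .ite _ _ b _, inj, k, some (Sum.inr (Sum.inl l)) =>
      code N b (fun x => inj (some (Sum.inr (Sum.inl x)))) k l
  | .ite _ _ _ c, inj, k, some (Sum.inr (Sum.inr l)) =>
      code N c (fun x => inj (some (Sum.inr (Sum.inr x)))) k l
  | .loop r p, inj, k, none =>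
      .peek (reg N r) (fun _ o => o)
        (.branch (fun v => v.isNone)
          (.load (fun _ => none) k)
          (.load (fun _ => none) (.goto fun _ => inj (some (entry p)))))
  | .loop _ p, inj, _, some l => code N p (fun x => inj (some x)) (.goto fun _ => inj none) l

def restr (N : ℕ) (s : St) : Fin (N + 1) → List Bool := fun k => s k.val

lemma restr_update {N r : ℕ} (h : r ≤ N) (s : St) (v : List Bool) :
    restr N (update s r v) = update (restr N s) (reg N r) v := by
  funext k
  have : (reg N r).val = r := by simp [reg, h]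
  by_cases hk : k = reg N r
  · subst hk; simp [restr, this]
  · have : k.val ≠ r := fun e => hk (Fin.ext (by rw [this, e]))
    simp [restr, hk, this]

lemma restr_reg {N r : ℕ} (h : r ≤ N) (s : St) : restr N s (reg N r) = s r := by
  simp [restr, reg, h]

lemma iter_step {C : Type} (f : C → Option C) (n : ℕ) (a b : C) (h : f a = some b) :
    (flip bind f)^[n + 1] (some a) = (flip bind f)^[n] (some b) := by
  rw [Function.iterate_succ_apply]
  congr 1

lemma iter_tm (N : ℕ) {Λ : Type} (M : Λ → Stm N Λ) (n : ℕ) (l : Λ) (v S) :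
    (flip bind (TM2.step M))^[n + 1] (some ⟨some l, v, S⟩) =
      (flip bind (TM2.step M))^[n] (some (TM2.stepAux (M l) v S)) :=
  iter_step _ n _ _ rfl

lemma iter_add {C : Type} (f : C → C) (n m : ℕ) (a : C) : f^[n + m] a = f^[m] (f^[n] a) := by
  rw [Nat.add_comm, Function.iterate_add_apply]

lemma sim (N : ℕ) {Λ : Type} (M : Λ → Stm N Λ) {p s s' n} (h : Run p s s' n) :
    p.top ≤ N → ∀ (inj : Lab p → Λ) (k : Stm N Λ), (∀ l, M (inj l) = code N p inj k l) →
      (flip bind (TM2.step M))^[n] (some ⟨some (inj (entry p)), none, restr N s⟩) =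
        some (TM2.stepAux k none (restr N s')) := by
  induction h with
  | skip s =>
    intro _ inj k hM
    refine (iter_tm N M 0 _ _ _).trans ?_
    rw [hM]; rfl
  | push r b s =>
    intro hN inj k hM
    refine (iter_tm N M 0 _ _ _).trans ?_
    rw [hM]
    simp only [Prog.top] at hN
    simp [code, restr_update hN, restr_reg hN]
  | pop r s =>
    intro hN inj k hM
    refine (iter_tm N M 0 _ _ _).trans ?_
    rw [hM]
    simp only [Prog.top] at hN
    simp [code, restr_update hN, restr_reg hN]
  | @seq p q s s' s'' n m _ _ ih1 ih2 =>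
    intro hN inj k hM
    simp only [Prog.top, max_le_iff] at hN
    rw [iter_add]
    have := ih1 hN.1 (fun x => inj (Sum.inl x)) _ (fun l => hM (Sum.inl l))
    refine (congrArg _ this).trans ?_
    exact ih2 hN.2 (fun x => inj (Sum.inr x)) k (fun l => hM (Sum.inr l))
  | @iteN r a b c s s' n hr _ ih =>
    intro hN inj k hM
    simp only [Prog.top, max_le_iff] at hN
    rw [iter_tm, hM]
    simp only [entry, code, TM2.stepAux, restr_reg hN.1, hr]
    exact ih hN.2.1 (fun x => inj (some (Sum.inl x))) k (fun l => hM (some (Sum.inl l)))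
  | @iteF r a b c s s' n hr _ ih =>
    intro hN inj k hM
    simp only [Prog.top, max_le_iff] at hN
    rw [iter_tm, hM]
    simp only [entry, code, TM2.stepAux, restr_reg hN.1, hr]
    exact ih hN.2.2.1 (fun x => inj (some (Sum.inr (Sum.inl x)))) k
      (fun l => hM (some (Sum.inr (Sum.inl l))))
  | @iteT r a b c s s' n hr _ ih =>
    intro hN inj k hM
    simp only [Prog.top, max_le_iff] at hN
    rw [iter_tm, hM]
    simp only [entry, code, TM2.stepAux, restr_reg hN.1, hr]
    exact ih hN.2.2.2 (fun x => inj (some (Sum.inr (Sum.inr x)))) k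
      (fun l => hM (some (Sum.inr (Sum.inr l))))
  | @loopN r p s hr =>
    intro hN inj k hM
    simp only [Prog.top, max_le_iff] at hN
    refine (iter_tm N M 0 _ _ _).trans ?_
    rw [hM]
    simp only [entry, code, TM2.stepAux, restr_reg hN.1, hr]
    rfl
  | @loopS r p s s' s'' n m hr _ _ ih1 ih2 =>
    intro hN inj k hM
    have hN' := hN
    simp only [Prog.top, max_le_iff] at hN
    rw [iter_tm, hM]
    obtain ⟨b, hb⟩ := Option.ne_none_iff_exists'.1 hr
    simp only [entry, code, TM2.stepAux, restr_reg hN.1, hb]
    rw [iter_add]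
    have := ih1 hN.2 (fun x => inj (some x)) _ (fun l => hM (some l))
    refine (congrArg _ this).trans ?_
    exact ih2 hN' inj k hM

/-- `P` turns `x` into `y` in register `0` in at most `n` steps, using clean scratch registers
below `N` and leaving all other registers alone. -/
def Comp (P : Prog) (N : ℕ) (x y : List Bool) (n : ℕ) : Prop :=
  ∀ s : St, s 0 = x → (∀ i, 1 ≤ i → i < N → s i = []) → ∃ m ≤ n, Run P s (update s 0 y) m

/-- polynomial time with respect to given encodings -/
def PTe {α β : Type} (ea : α → List Bool) (eb : β → List Bool) (f : α → β) : Prop :=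
  ∃ (P : Prog) (N : ℕ) (p : Polynomial ℕ), ∀ a, Comp P N (ea a) (eb (f a)) (p.eval (ea a).length)

def machine (P : Prog) : FinTM2 where
  K := Fin (P.top + 1)
  k₀ := 0
  k₁ := 0
  Γ := fun _ => Bool
  Λ := Lab P
  main := entry P
  ΛFin := labFin P
  σ := Option Bool
  initialState := none
  m := code P.top P (fun x => x) .halt

theorem PTe.tm2 {α β : Type} {ea : α → List Bool} {eb : β → List Bool} {f : α → β}
    (h : PTe ea eb f) : Nonempty (TM2ComputableInPolyTime ea eb f) := by
  obtain ⟨P, N, p, h⟩ := h
  refine ⟨{ tm := machine P, inputAlphabet := Equiv.refl _, outputAlphabet := Equiv.refl _,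
            time := p, outputsFun := fun a => ?_ }⟩
  have h1 := h a (update (fun _ => []) 0 (ea a)) (by simp)
    (fun i hi _ => by simp [show i ≠ 0 by omega])
  refine ⟨⟨h1.choose, ?_⟩, h1.choose_spec.1⟩
  have h2 := sim P.top (code P.top P (fun x => x) .halt) h1.choose_spec.2 le_rfl (fun x => x)
    .halt (fun _ => rfl)
  have e1 : ∀ y : List Bool, restr P.top (update (fun _ => []) 0 y) =
      fun k => @dite (List Bool) (k = (0 : Fin (P.top + 1))) (instDecidableEqFin _ _ _)
        (fun _ => y) (fun _ => []) := by
    intro y; funext k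
    by_cases hk : k = 0
    · subst hk; simp [restr]
    · have : k.val ≠ 0 := fun e => hk (Fin.ext e)
      simp [restr, hk, this]
  generalize h1.choose = m at h2 ⊢
  rw [update_idem, e1, e1] at h2
  have e2 : ∀ y : List Bool, List.map (Equiv.refl Bool).invFun y = y := fun y => List.map_id y
  have key : ∀ x x' y y' : List Bool, x' = x → y' = y →
      (flip bind (machine P).step)^[m] (some (initList (machine P) x)) =
        Option.map (haltList (machine P)) (some y) →
      (flip bind (machine P).step)^[m] (some (initList (machine P) x')) =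
        Option.map (haltList (machine P)) (some y') := by
    intro x x' y y' h1 h2 h; subst h1 h2; exact h
  exact key _ _ _ _ (e2 _) (e2 _) h2

end Pool.Agent.Cx
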