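import Pool.Agent.Lib.helper10.NPMain

/-! Every polynomial-time Turing machine is simulated inside the class `PT`. -/

namespace Pool.Agent.Cx

open Function Polynomial Turing

abbrev Num := ℕ × List (List ℕ)

def simStep (tbl : List (Num × Num)) (D : ℕ) (s : Num) : Num :=
  ((tbl.find? fun e => e.1 == (s.1, s.2.map (List.take D))).map fun e =>
    (e.2.1, List.zipWith (fun a b => a ++ b) e.2.2 (s.2.map (List.drop D)))).getD s

lemma size_zipWith_append (l l' : List (List ℕ)) :
    size (List.zipWith (fun a b => a ++ b) l l') ≤ size l + size l' := by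
  induction l generalizing l' with
  | nil => simp
  | cons a l ih =>
    cases l' with
    | nil => have := size_pos (a :: l); simp only [List.zipWith_nil_right, size_nil]; omega
    | cons b l' =>
      have := ih l'
      have := size_append a b
      simp; omega

lemma size_map_drop (D : ℕ) (l : List (List ℕ)) : size (l.map (List.drop D)) ≤ size l := by
  induction l with
  | nil => simp
  | cons a l ih => have := size_le_of_sublist (List.drop_sublist D a); simp; omega

lemma simStep_size (tbl : List (Num × Num)) (D : ℕ) (s : Num) :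
    size (simStep tbl D s) ≤ size s + size tbl := by
  unfold simStep
  cases h : tbl.find? fun e => e.1 == (s.1, s.2.map (List.take D)) with
  | none => simp
  | some e =>
    obtain ⟨e1, e2, e3⟩ := e
    obtain ⟨s1, s2⟩ := s
    have h1 := size_lt_of_mem (List.mem_of_find?_eq_some h)
    have h2 := size_zipWith_append e3 (s2.map (List.drop D))
    have h3 := size_map_drop D s2
    simp at *; omega

section
variable {K : Type} [DecidableEq K] [Fintype K] {Γ : K → Type} {Λ σ : Type}

noncomputable def num (lc : Option Λ × σ → ℕ) (cc : ∀ k, Option (Γ k) → ℕ) (c : TM2.Cfg Γ Λ σ) :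
    Num :=
  (lc (c.l, c.var), (Finset.univ : Finset K).toList.map fun k => (c.stk k).map fun a => cc k (some a))

lemma exists_table [Finite Λ] [Finite σ] (M : Λ → TM2.Stmt Γ Λ σ) (U : Set (Σ k, Γ k))
    (hU : U.Finite) (lc : Option Λ × σ → ℕ) (hlc : Injective lc) (cc : ∀ k, Option (Γ k) → ℕ)
    (hcc : ∀ k (o o' : Option (Γ k)),
      (∀ a ∈ o, (⟨k, a⟩ : Σ k, Γ k) ∈ U) → (∀ a ∈ o', (⟨k, a⟩ : Σ k, Γ k) ∈ U) →
      cc k o = cc k o' → o = o') :
    ∃ (tbl : List (Num × Num)) (D : ℕ), ∀ C : TM2.Cfg Γ Λ σ,
      (∀ k, ∀ a ∈ C.stk k, (⟨k, a⟩ : Σ k, Γ k) ∈ U) →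
      simStep tbl D (num lc cc C) = num lc cc (next M C) := by
  classical
  obtain ⟨D, hD⟩ : ∃ D, ∀ l, depth (M l) ≤ D := by
    obtain ⟨B, hB⟩ := (Set.finite_range (fun l => depth (M l))).bddAbove
    exact ⟨B, fun l => hB ⟨l, rfl⟩⟩
  have hfin := small_finite (Λ := Λ) (σ := σ) U hU D
  refine ⟨hfin.toFinset.toList.map (fun c => (num lc cc c, num lc cc (next M c))), D,
    fun C hC => ?_⟩
  have hk : ((num lc cc C).1, (num lc cc C).2.map (List.take D)) = num lc cc (trunc D C) := by
    simp [num, trunc, List.map_take, Function.comp_def]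
  have hm : trunc D C ∈ hfin.toFinset.toList := by
    simp only [Finset.mem_toList, Set.Finite.mem_toFinset, Set.mem_ofPred_eq, trunc]
    exact fun k => ⟨by simp, fun a ha => hC k a (List.mem_of_mem_take ha)⟩
  unfold simStep
  rw [hk]
  cases h : (hfin.toFinset.toList.map (fun c => (num lc cc c, num lc cc (next M c)))).find?
      fun e => e.1 == num lc cc (trunc D C) with
  | none =>
    rw [List.find?_eq_none] at h
    exact absurd (by simp) (h _ (List.mem_map_of_mem hm))
  | some e =>
    have h1 := List.find?_some h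
    obtain ⟨c, hc, rfl⟩ := List.mem_map.1 (List.mem_of_find?_eq_some h)
    simp only [Finset.mem_toList, Set.Finite.mem_toFinset, Set.mem_ofPred_eq] at hc
    simp only [beq_iff_eq, num, Prod.mk.injEq, List.map_inj_left, Finset.mem_toList,
      Finset.mem_univ, forall_const] at h1
    have : c = trunc D C := by
      obtain ⟨l, v, S⟩ := c
      have h2 := hlc h1.1
      simp only [Prod.mk.injEq] at h2
      simp only [trunc, TM2.Cfg.mk.injEq]
      refine ⟨h2.1, h2.2, funext fun k => List.ext_getElem? fun j => ?_⟩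
      have h3 := congrArg (fun L => L[j]?) (h1.2 k)
      simp only [List.getElem?_map, trunc] at h3
      refine hcc k _ _ (fun a ha => (hc k).2 a (List.mem_of_getElem? ha))
        (fun a ha => hC k a (List.mem_of_mem_take (List.mem_of_getElem? ha))) ?_
      cases e1 : (S k)[j]? <;> cases e2 : (List.take D (C.stk k))[j]? <;> simp_all
    subst this
    rw [next_trunc M D hD C]
    simp [num, List.map_drop, List.zipWith_map]

end

theorem pt_of_tm2 {β : Type} {eb : β → List Bool} {f : List Bool → β}
    (M : TM2ComputableInPolyTime (fun x : List Bool => x) eb f) : PT (fun x => eb (f x)) := by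
  classical
  obtain ⟨⟨tm, eI, eO⟩, p, hM⟩ := M
  let _ := tm.kFin
  let _ := tm.ΛFin
  let _ := tm.σFin
  let _ := tm.Γk₀Fin
  set U : Set (Σ k, tm.Γ k) := (⋃ l, syms (tm.m l)) ∪ Set.range (Sigma.mk tm.k₀) ∪
    Set.range (fun b => ⟨tm.k₁, eO.symm b⟩) with hUdef
  have hU : U.Finite := ((Set.finite_iUnion fun l => syms_finite _).union
    (Set.finite_range _)).union (Set.finite_range _)
  have hU1 : ∀ l, syms (tm.m l) ⊆ U := fun l x hx => Or.inl (Or.inl (Set.mem_iUnion.2 ⟨l, hx⟩))
  have hU2 : ∀ a, (⟨tm.k₀, a⟩ : Σ k, tm.Γ k) ∈ U := fun a => Or.inl (Or.inr ⟨a, rfl⟩)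
  have hU3 : ∀ b, (⟨tm.k₁, eO.symm b⟩ : Σ k, tm.Γ k) ∈ U := fun b => Or.inr ⟨b, rfl⟩
  obtain ⟨cc, A, -, -, hcc⟩ := exists_code U hU
  obtain ⟨lc, hlc⟩ := exists_injective_nat (Option tm.Λ × tm.σ)
  obtain ⟨tbl, D, hR⟩ := exists_table tm.m U hU lc hlc cc hcc
  let ks := (Finset.univ : Finset tm.K).toList
  let init : List Bool → Num := fun x => (lc (some tm.main, tm.initialState),
    (ks.map fun k => decide (k = tm.k₀)).map fun z => bif z then
      x.map (fun b => bif b then cc _ (some (eI.symm true)) else cc _ (some (eI.symm false)))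
      else [])
  have hinit : ∀ x, init x = num lc cc (initList tm (x.map eI.symm)) := by
    intro x
    simp only [init, num, List.map_map, ks]
    refine Prod.ext rfl (List.map_congr_left fun k _ => ?_)
    by_cases hk : k = tm.k₀
    · subst hk
      simp only [initList, Function.comp, decide_true, cond_true, dite_true]
      simp only [eq_mpr_eq_cast, cast_eq, List.map_map]
      exact List.map_congr_left fun b _ => by cases b <;> rfl
    · simp [initList, hk]
  have h1 : PT (fun x => (simStep tbl D)^[p.eval x.length] (init x)) :=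
    PT.iterate_add (g := fun _ => simStep tbl D) (by unfold simStep; fun_prop) (by fun_prop)
      (by fun_prop) (C (Cx.size tbl)) (fun a b => by simpa using simStep_size tbl D b)
  have h2 : PT (fun x => (((simStep tbl D)^[p.eval x.length] (init x)).2.getD
      (ks.idxOf tm.k₁) []).map fun n => n == cc _ (some (eO.symm true))) := by fun_prop
  refine h2.of_eq (fun x => ?_)
  have hval : ∀ t k, ∀ a ∈ ((next tm.m)^[t] (initList tm (x.map eI.symm))).stk k,
      (⟨k, a⟩ : Σ k, tm.Γ k) ∈ U := by
    intro t
    induction t with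
    | zero =>
      intro k a ha
      by_cases hk : k = tm.k₀
      · subst hk; exact hU2 a
      · simp [initList, hk] at ha
    | succ t ih => rw [iterate_succ_apply']; exact next_inv _ U hU1 _ ih
  have hsim : ∀ t, (simStep tbl D)^[t] (init x) =
      num lc cc ((next tm.m)^[t] (initList tm (x.map eI.symm))) := by
    intro t
    induction t with
    | zero => exact hinit x
    | succ t ih => rw [iterate_succ_apply', iterate_succ_apply', ih, hR _ (hval t)]
  obtain ⟨⟨n, e1⟩, e2⟩ := hM x
  have h3 := next_iter tm.m n _ _ e1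
  have h4 : (next tm.m)^[p.eval x.length] (initList tm (x.map eI.symm)) =
      haltList tm ((eb (f x)).map eO.symm) := by
    obtain ⟨d, hd⟩ := Nat.exists_eq_add_of_le e2
    simp only at hd
    rw [hd, iter_add]
    exact (congrArg _ h3).trans (iterate_fixed rfl _)
  rw [hsim, h4]
  have h5 : ks.idxOf tm.k₁ < ks.length := List.idxOf_lt_length_of_mem (by simp [ks])
  have h6 : (num lc cc (haltList tm ((eb (f x)).map eO.symm))).2.getD (ks.idxOf tm.k₁) [] =
      ((eb (f x)).map eO.symm).map fun a => cc _ (some a) := by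
    simp only [num, List.getD_eq_getElem?_getD, List.getElem?_map]
    rw [show (Finset.univ : Finset tm.K).toList[ks.idxOf tm.k₁]? = some tm.k₁ from
      List.getElem?_idxOf (by simp)]
    simp [haltList]
  rw [h6]
  simp only [List.map_map]
  conv_lhs => rw [← List.map_id (eb (f x))]
  refine List.map_congr_left fun b _ => ?_
  cases b
  · symm
    simp only [Function.comp, id, beq_eq_false_iff_ne]
    intro e
    have := hcc _ _ _ (by simpa using hU3 _) (by simpa using hU3 _) e
    simp at this
  · simp

lemma PolyTime.pt {f : List Bool → List Bool} (h : PolyTime f) : PT f :=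
  let ⟨M⟩ := h; pt_of_tm2 (eb := fun y => y) M

lemma InP.pt {L : Language} (h : InP L) :
    ∃ f : List Bool → Bool, PT f ∧ ∀ x, x ∈ L ↔ f x = true :=
  let ⟨f, ⟨M⟩, h⟩ := h
  ⟨f, ((pt_of_tm2 M).headD (PT.const false)).of_eq (fun _ => rfl), h⟩

lemma InP.of_red {L L' : Language} (h : InP L') {g : List Bool → List Bool} (hg : PT g)
    (e : ∀ x, x ∈ L ↔ g x ∈ L') : InP L :=
  let ⟨f, hf, h⟩ := h.pt
  inP_of_PT (f := fun x => f (g x)) (hf.comp hg) (fun x => (e x).trans (h _))

lemma InP.compl {L : Language} (h : InP L) : InP Lᶜ :=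
  let ⟨f, hf, h⟩ := h.pt
  inP_of_PT (f := fun x => !f x) hf.not (fun x => by simp [h])

lemma InP.inNP {L : Language} (h : InP L) : InNP L :=
  let ⟨f, hf, h⟩ := h.pt
  inNP_raw (V := fun z => f z.1) (hf.comp PT.id.fst) 0 (fun x => by simp [h])

variable {α : Type} [Enc α]

/-- an NP-hard problem lies in P only if P = NP -/
theorem Hard.p_eq_np [Dec α] {P : α → Prop} (h : Hard P) (h' : InP (Lang P)) :
    ∀ L, InNP L → InP L := fun L hL =>
  let ⟨g, hg, e⟩ := h L hL
  InP.of_red h' hg.enc (fun x => by simp [mem_Lang, e])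

/-- a coNP-hard problem lies in P only if P = NP -/
theorem Hard.p_eq_np' [Dec α] {P : α → Prop} (h : Hard (fun a => ¬ P a)) (h' : InP (Lang P)) :
    ∀ L, InNP L → InP L := fun L hL =>
  let ⟨g, hg, e⟩ := h L hL
  InP.of_red h'.compl hg.enc (fun x => by simp [mem_Lang, e])

end Pool.Agent.Cx
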