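import Pool.Agent.Lib.helper10.Sat3
import Pool.Agent.Lib.helper10.Kit

/-! 3SAT as a choice of pairwise non-conflicting literal occurrences. -/

namespace Pool.Agent.Cx.Oc

abbrev F := List (Lit × Lit × Lit)

def lit (φ : F) (o : ℕ) : Lit :=
  if o % 3 = 0 then (φ.getD (o / 3) ((0, false), (0, false), (0, false))).1 else
  if o % 3 = 1 then (φ.getD (o / 3) ((0, false), (0, false), (0, false))).2.1 else
    (φ.getD (o / 3) ((0, false), (0, false), (0, false))).2.2
def cf (φ : F) (o p : ℕ) : Prop :=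
  o < 3 * φ.length ∧ p < 3 * φ.length ∧ (lit φ o).1 = (lit φ p).1 ∧ ¬ (lit φ o).2 = (lit φ p).2
instance (φ : F) (o p : ℕ) : Decidable (cf φ o p) := by unfold cf; infer_instance

@[fun_prop] lemma pt_lit {α : Type} [Enc α] {φ : α → F} {o : α → ℕ} (h1 : PT φ) (h2 : PT o) :
    PT fun a => lit (φ a) (o a) := by
  unfold lit
  refine PT.ite (PP.decide (by fun_prop)) (by fun_prop) (PT.ite (PP.decide (by fun_prop)) ?_ ?_) <;> fun_prop

@[fun_prop] lemma pp_cf {α : Type} [Enc α] {φ : α → F} {o p : α → ℕ} (h1 : PT φ) (h2 : PT o) (h3 : PT p) :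
    PP fun a => cf (φ a) (o a) (p a) := by unfold cf; fun_prop

variable {φ : F}

lemma cf.symm {o p : ℕ} (h : cf φ o p) : cf φ p o := ⟨h.2.1, h.1, h.2.2.1.symm, fun e => h.2.2.2 e.symm⟩

lemma cf_irrefl (o : ℕ) : ¬ cf φ o o := fun h => h.2.2.2 rfl

lemma sat_of {o : ℕ → ℕ} (o1 : ∀ c < φ.length, o c / 3 = c)
    (nc : ∀ c < φ.length, ∀ d < φ.length, ¬ cf φ (o c) (o d)) : Sat3 φ := by
  classical
  refine ⟨fun v => decide (∃ c < φ.length, lit φ (o c) = (v, true)), fun cl h => ?_⟩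
  obtain ⟨c, hc, rfl⟩ := List.getElem_of_mem h
  have t : decide (∃ d < φ.length, lit φ (o d) = ((lit φ (o c)).1, true)) = (lit φ (o c)).2 := by
    cases q : (lit φ (o c)).2
    · refine decide_eq_false fun ⟨d, hd, e⟩ => nc c hc d hd ⟨?_, ?_, by rw [e], by simp [e, q]⟩
      · have := o1 c hc; omega
      · have := o1 d hd; omega
    · exact decide_eq_true ⟨c, hc, Prod.ext rfl q⟩
  have : lit φ (o c) = φ[c].1 ∨ lit φ (o c) = φ[c].2.1 ∨ lit φ (o c) = φ[c].2.2 := by
    simp only [lit, o1 c hc, List.getD_eq_getElem _ _ hc]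
    split_ifs <;> simp
  rcases this with e | e | e <;> rw [e] at t <;> simp only [t, true_or, or_true]

lemma of_sat (h : Sat3 φ) : ∃ o : ℕ → ℕ, (∀ c, o c / 3 = c) ∧ ∀ c d, ¬ cf φ (o c) (o d) := by
  obtain ⟨τ, h⟩ := h
  have : ∀ c, ∃ o, o / 3 = c ∧ (c < φ.length → τ (lit φ o).1 = (lit φ o).2) := fun c => by
    by_cases hc : c < φ.length
    · rcases h φ[c] (List.getElem_mem _) with e | e | e
      · exact ⟨3 * c, by omega, fun _ => by simpa [lit, hc] using e⟩
      · exact ⟨3 * c + 1, by omega, fun _ => by simpa [lit, hc, Nat.mul_add_div] using e⟩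
      · exact ⟨3 * c + 2, by omega, fun _ => by simpa [lit, hc, Nat.mul_add_div] using e⟩
    · exact ⟨3 * c, by omega, fun e => absurd e hc⟩
  choose o o1 o2 using this
  exact ⟨o, o1, fun c d ⟨a, b, e, g⟩ => g (by
    have := o1 c
    have := o1 d
    rw [← o2 c (by omega), ← o2 d (by omega), e])⟩

end Pool.Agent.Cx.Oc
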