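import Pool.Agent.Lib.helper10.NPPred

/-! The class `Π₂ᵖ` and a complete problem. -/

namespace Pool.Agent.Cx

open Function Polynomial Turing

/-- The class Pi-2-p: a polynomially bounded universal quantifier in front of a language in NP. -/
def InPi2 (L : Language) : Prop :=
  ∃ L' : Language, InNP L' ∧ ∃ p : Polynomial ℕ,
    ∀ x, x ∈ L ↔ ∀ u : List Bool, u.length ≤ p.eval x.length → pairStr x u ∈ L'

/-- Every language in Pi-2-p reduces to `L'`. -/
def Pi2Hard (L' : Language) : Prop := ∀ L, InPi2 L → Reduces L L'

def unp (z : List Bool) : List Bool × List Bool :=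
  ((unpStep^[z.length] ([], z)).1, (unpStep^[z.length] ([], z)).2.tail)

lemma pt_unp : PT unp := by
  have h1 : PT (fun z : List Bool => unpStep^[z.length] ([], z)) :=
    PT.iterate_add (g := fun _ => unpStep) (by unfold unpStep; fun_prop) (by fun_prop)
      (by fun_prop) 4 (fun a ⟨u, v⟩ => by
        unfold unpStep
        cases h : v.headD false
        · simp
        · have := size_append u [v.tail.headD false]
          have := size_bool (v.tail.headD false)
          have := size_le_of_sublist ((List.tail_sublist v.tail).trans (List.tail_sublist v))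
          simp at *; omega)
  exact h1.fst.pair h1.snd.tail

lemma length_pairStr (x w : List Bool) : (pairStr x w).length = 2 * x.length + 1 + w.length := by
  induction x with
  | nil => simp [pairStr]; omega
  | cons b x ih => simp [pairStr] at ih ⊢; omega

@[simp] lemma unp_pairStr (x w : List Bool) : unp (pairStr x w) = (x, w) := by
  unfold unp
  rw [unp_pair x w _ _ (by rw [length_pairStr]; omega)]; simp

attribute [irreducible] unp

@[fun_prop] lemma PT.unp {α : Type} [Enc α] {f : α → List Bool} (h : PT f) :
    PT fun a => unp (f a) := pt_unp.comp h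

@[fun_prop] lemma PT.pairStr {α : Type} [Enc α] {f g : α → List Bool} (h : PT f) (h' : PT g) :
    PT fun a => pairStr (f a) (g a) := by unfold Cx.pairStr; fun_prop

/-- whichever variable of each pair is set to true, the formula stays satisfiable -/
def Q2 (z : List (ℕ × ℕ) × CNF) : Prop := ∀ f : ℕ → Bool, ∃ τ : ℕ → Bool,
  (∀ j < z.1.length, τ (if f j then (z.1.getD j (0, 0)).1 else (z.1.getD j (0, 0)).2) = true) ∧
  ∀ c ∈ z.2, ∃ l ∈ c, τ l.1 = l.2

def cookBase (R : List Rule) (D A nK r0 r1 c0 cF cT cR : ℕ) (n q T : ℕ) : CNF :=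
  [(var T r1 0 cR, false)] :: [(var 0 0 0 c0, true)] ::
  ((List.range nK).filter (fun r => r + 1 != r0)).flatMap
    (fun r => (List.range ((T + 1) * D)).map fun j => [(var 0 (r + 1) j 0, true)]) ++
  (List.range q).map (fun j => [(var 0 r0 (n + j) 0, true),
    (var 0 r0 (n + j) cF, true), (var 0 r0 (n + j) cT, true)]) ++
  (List.range q).map (fun j => [(var 0 r0 (n + j) 0, false), (var 0 r0 (n + j + 1) 0, true)]) ++
  (List.range ((T + 1) * D)).map (fun j => [(var 0 r0 (n + q + j) 0, true)]) ++
  stepClauses R D A T ((T + 1) * D)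

lemma sat_cook {R D A nK r0 r1 c0 cF cT cR} {y : List Bool} {q T} :
    Sat (cookFormula R D A nK r0 r1 c0 cF cT cR y q T) ↔ ∃ τ : ℕ → Bool,
      (∀ j < y.length, τ (var 0 r0 j (bif y.getD j false then cT else cF)) = true) ∧
      ∀ c ∈ cookBase R D A nK r0 r1 c0 cF cT cR y.length q T, ∃ l ∈ c, τ l.1 = l.2 := by
  refine exists_congr fun τ => ?_
  have : (∀ c ∈ (List.range y.length).map (fun j => [(var 0 r0 j
      ((y.map fun b => bif b then cT else cF).getD j 0), true)]), ∃ l ∈ c, τ l.1 = l.2) ↔
      ∀ j < y.length, τ (var 0 r0 j (bif y.getD j false then cT else cF)) = true := by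
    simp only [List.forall_mem_map, List.mem_range]
    exact forall₂_congr fun j hj => by simp [List.getD_eq_getElem?_getD, hj]
  rw [← this]
  simp only [cookFormula, cookBase, initClauses, List.length_map, List.cons_append,
    List.forall_mem_cons, List.forall_mem_append]
  tauto

theorem pi2_q2 (L : Language) (hL : InPi2 L) :
    ∃ g : List Bool → List (ℕ × ℕ) × CNF, PT g ∧ ∀ x, x ∈ L ↔ Q2 (g x) := by
  obtain ⟨L', ⟨Rl, hR, q, hq⟩, p, hp⟩ := hL
  obtain ⟨r, pr, hr⟩ := hR.pt
  let dc : ℕ → List Bool → List Bool := fun n s => ((s.drop n).take n).take ((s.take n).count true)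
  let V : List Bool → List Bool → Bool := fun x s =>
    decide ((s.drop (2 * p.eval x.length)).length ≤
      q.eval (pairStr x (dc (p.eval x.length) s)).length) &&
    r (pairStr (pairStr x (dc (p.eval x.length) s)) (s.drop (2 * p.eval x.length)))
  obtain ⟨F, ⟨M⟩, hF⟩ := inP_of_PT (f := fun s => V (unp s).1 (unp s).2)
    (L := {s | V (unp s).1 (unp s).2 = true}) (by simp only [V, dc]; fun_prop) fun _ => Iff.rfl
  obtain ⟨R, D, A, nK, r0, r1, c0, cF, cT, cR, h⟩ := cook_core M.tm M.inputAlphabet M.outputAlphabet
  let Q : List Bool → ℕ := fun x => q.eval (2 * x.length + 1 + p.eval x.length)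
  let n : List Bool → ℕ := fun x => 2 * x.length + 1 + 2 * p.eval x.length
  let a : List Bool → ℕ → Bool → ℕ := fun x j b => var 0 r0 j
    (bif (if j < 2 * x.length + 1 then (pairStr x []).getD j false else b) then cT else cF)
  refine ⟨fun x => ((List.range (n x)).map fun j => (a x j true, a x j false),
    cookBase R D A nK r0 r1 c0 cF cT cR (n x) (Q x) (M.time.eval (n x + Q x))), ?_, fun x => ?_⟩
  · simp only [n, Q, a, cookBase, stepClauses, negPrem]; fun_prop
  have e : ∀ u w, pairStr x u ++ w = pairStr x (u ++ w) := fun u w => by simp [pairStr]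
  have key : ∀ u : List Bool, u.length = 2 * p.eval x.length →
      (pairStr x (dc (p.eval x.length) u) ∈ L' ↔ ∃ τ : ℕ → Bool,
        (∀ j < n x, τ (a x j (u.getD (j - (2 * x.length + 1)) false)) = true) ∧
        ∀ c ∈ cookBase R D A nK r0 r1 c0 cF cT cR (n x) (Q x) (M.time.eval (n x + Q x)),
          ∃ l ∈ c, τ l.1 = l.2) := fun u hu => by
    have l : (pairStr x u).length = n x := by rw [length_pairStr, hu]
    have g : ∀ j, (pairStr x u).getD j false = if j < 2 * x.length + 1 then
        (pairStr x []).getD j false else u.getD (j - (2 * x.length + 1)) false := fun j => by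
      have := e [] u
      rw [List.nil_append] at this
      rw [← this]
      split_ifs with c
      · exact List.getD_append _ _ _ _ (by rwa [length_pairStr])
      · rw [List.getD_append_right _ _ _ _ (by rw [length_pairStr]; simpa using c), length_pairStr]
        rfl
    simp only [a, ← g]
    rw [← l, ← sat_cook, h _ _ _ (fun w => F (pairStr x (u ++ w))), hq]
    · refine exists_congr fun w => ?_
      have d1 : (u ++ w).drop (2 * p.eval x.length) = w := by rw [← hu]; simp
      have d2 : dc (p.eval x.length) (u ++ w) = dc (p.eval x.length) u := by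
        simp only [dc]
        rw [List.take_append_of_le_length (by omega), List.drop_append_of_le_length (by omega),
          List.take_append_of_le_length (by simp; omega)]
      have d3 : q.eval (pairStr x (dc (p.eval x.length) u)).length ≤ Q x :=
        eval_mono _ (by rw [length_pairStr]; simp [dc])
      rw [← hF, hr]
      simp only [Set.mem_ofPred_eq, unp_pairStr, V, d1, d2, Bool.and_eq_true, decide_eq_true_eq]
      exact ⟨fun c => ⟨c.1.trans d3, c⟩, fun c => c.2⟩
    · intro w hw
      obtain ⟨h1, h2⟩ := M.outputsFun (pairStr x (u ++ w))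
      rw [e]
      refine ⟨⟨h1, h2.trans (eval_mono _ ?_)⟩⟩
      simp only [← e, List.length_append]; omega
  have sel : ∀ (f : ℕ → Bool) (τ : ℕ → Bool), (∀ j < ((List.range (n x)).map fun j =>
      (a x j true, a x j false)).length, τ (if f j then (((List.range (n x)).map fun j =>
      (a x j true, a x j false)).getD j (0, 0)).1 else (((List.range (n x)).map fun j =>
      (a x j true, a x j false)).getD j (0, 0)).2) = true) ↔ ∀ j < n x, τ (a x j (f j)) = true := by
    intro f τ
    simp only [List.length_map, List.length_range]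
    refine forall₂_congr fun j hj => ?_
    cases f j <;> simp [List.getD_eq_getElem?_getD, hj]
  simp only [hp, Q2, sel]
  constructor
  · intro H f
    obtain ⟨τ, t1, t2⟩ := (key ((List.range (2 * p.eval x.length)).map
      fun i => f (i + (2 * x.length + 1))) (by simp)).1 (H _ (by simp [dc]))
    refine ⟨τ, fun j hj => ?_, t2⟩
    have := t1 j hj
    by_cases c : j < 2 * x.length + 1
    · simpa only [a, if_pos c] using this
    · have hj' : j - (2 * x.length + 1) < 2 * p.eval x.length := by simp only [n] at hj; omega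
      simpa [List.getD_eq_getElem?_getD, hj', Nat.sub_add_cancel (not_lt.1 c)] using this
  · intro H u hu
    obtain ⟨k, hk⟩ := Nat.exists_eq_add_of_le hu
    have := (key ((List.replicate u.length true ++ List.replicate k false) ++
      (u ++ List.replicate k false)) (by simp; omega)).2 (H _)
    have l : (List.replicate u.length true ++ List.replicate k false).length = p.eval x.length := by
      simp [hk]
    simp only [dc] at this
    rw [List.take_left' l, List.drop_left' l] at this
    simpa [List.count_replicate, List.take_take, hu] using this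

/-- every language of Pi-2-p reduces to `P` by a function of the class `PT` -/
def Hard2 {α : Type} [Enc α] (P : α → Prop) : Prop :=
  ∀ L, InPi2 L → ∃ g : List Bool → α, PT g ∧ ∀ x, x ∈ L ↔ P (g x)

theorem hard2_q2 : Hard2 Q2 := pi2_q2

variable {α β : Type} [Enc α] [Enc β]

theorem Hard2.red {P : α → Prop} {Q : β → Prop} (h : Hard2 P) {r : α → β} (hr : PT r)
    (e : ∀ a, P a ↔ Q (r a)) : Hard2 Q := fun L hL =>
  let ⟨g, hg, h'⟩ := h L hL
  ⟨fun x => r (g x), hr.comp hg, fun x => (h' x).trans (e _)⟩

theorem Hard2.pi2Hard [Dec α] {P : α → Prop} (h : Hard2 P) : Pi2Hard (Lang P) := fun L hL =>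
  let ⟨g, hg, h'⟩ := h L hL
  ⟨fun x => enc (g x), polyTime_of_PT hg, fun x => (h' x).trans mem_Lang.symm⟩

theorem InNP.inPi2 {L : Language} (h : InNP L) : InPi2 L :=
  ⟨_, h.of_red (L := {z | (unp z).1 ∈ L}) (g := fun z => (unp z).1) (by fun_prop) fun _ => Iff.rfl,
    0, fun x => by simp⟩

theorem Hard2.hard {P : α → Prop} (h : Hard2 P) : Hard P := fun L hL => h L hL.inPi2

theorem Hard2.sub_conp [Dec α] {P : α → Prop} (h : Hard2 P) (h' : InCoNP (Lang P)) :
    ∀ L, InPi2 L → InCoNP L := fun L hL =>
  let ⟨g, hg, e⟩ := h L hL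
  InNP.of_red h' hg.enc (fun x => by simp [mem_Lang, e])

theorem Hard2.sub_np [Dec α] {P : α → Prop} (h : Hard2 P) (h' : InNP (Lang P)) :
    ∀ L, InPi2 L → InNP L := fun L hL =>
  let ⟨g, hg, e⟩ := h L hL
  InNP.of_red h' hg.enc (fun x => by simp [mem_Lang, e])

/-- membership in Pi-2-p from a polynomial-time matrix -/
theorem inPi2_Lang [Dec α] {P : α → Prop} {V : α × List Bool × List Bool → Bool} (hV : PT V)
    (p q : ℕ[X]) (h : ∀ a, P a ↔ ∀ u : List Bool, u.length ≤ p.eval (size a) →
      ∃ w : List Bool, w.length ≤ q.eval (size a) ∧ V (a, u, w) = true) : InPi2 (Lang P) := by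
  refine ⟨{z | ∃ w : List Bool, w.length ≤ q.eval z.length ∧ (decide (w.length ≤ q.eval
      (unp z).1.length) && (enc (decode (unp z).1 : α) == (unp z).1) &&
      V (decode (unp z).1, (unp z).2, w)) = true},
    inNP_raw (V := fun y => decide (y.2.length ≤ q.eval (unp y.1).1.length) &&
      (enc (decode (unp y.1).1 : α) == (unp y.1).1) && V (decode (unp y.1).1, (unp y.1).2, y.2))
      (by fun_prop) q fun _ => Iff.rfl, p, fun x => ?_⟩
  simp only [mem_Lang', h, Set.mem_ofPred_eq, unp_pairStr, Bool.and_eq_true, decide_eq_true_eq,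
    beq_iff_eq, size]
  constructor
  · rintro ⟨e, H⟩ u hu
    rw [e] at H
    obtain ⟨w, h1, h2⟩ := H u hu
    exact ⟨w, h1.trans (eval_mono _ (by rw [length_pairStr]; omega)), ⟨h1, e⟩, h2⟩
  · intro H
    obtain ⟨-, -, ⟨-, e⟩, -⟩ := H [] (by simp)
    refine ⟨e, fun u hu => ?_⟩
    rw [e] at hu ⊢
    obtain ⟨w, -, ⟨h1, -⟩, h2⟩ := H u hu
    exact ⟨w, h1, h2⟩

end Pool.Agent.Cx
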