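import Mathlib

/-! Facets and vertices of polyhedra given by finitely many integer inequalities. -/

namespace Pool.Agent.Polyh

open Finset Filter Topology

variable {n : ℕ}

/-- the value of the integer linear form `c` at `x` -/
def dot (c : Fin n → ℤ) (x : Fin n → ℝ) : ℝ := ∑ j, (c j : ℝ) * x j

/-- `c` is the primitive integer outer normal of a facet of `P` that contains `u` -/
def FacetNormal (P : Set (Fin n → ℝ)) (u : Fin n → ℝ) (c : Fin n → ℤ) : Prop :=
  univ.gcd c = 1 ∧ (∀ x ∈ P, dot c x ≤ dot c u) ∧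
    Module.finrank ℝ (vectorSpan ℝ {x ∈ P | dot c x = dot c u}) + 1 = n

def dotL (c : Fin n → ℤ) : (Fin n → ℝ) →ₗ[ℝ] ℝ where
  toFun := dot c
  map_add' x y := by simp [dot, mul_add, sum_add_distrib]
  map_smul' a x := by simp [dot, mul_sum, mul_left_comm]

lemma dot_add (c : Fin n → ℤ) (x y : Fin n → ℝ) : dot c (x + y) = dot c x + dot c y :=
  (dotL c).map_add x y

lemma dot_sub (c : Fin n → ℤ) (x y : Fin n → ℝ) : dot c (x - y) = dot c x - dot c y :=
  (dotL c).map_sub x y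

lemma dot_smul (c : Fin n → ℤ) (a : ℝ) (x : Fin n → ℝ) : dot c (a • x) = a * dot c x :=
  (dotL c).map_smul a x

lemma dot_single (c : Fin n → ℤ) (j : Fin n) (a : ℝ) : dot c (Pi.single j a) = c j * a := by
  simp [dot, Pi.single_apply]

lemma ker_rank {c : Fin n → ℤ} (h : c ≠ 0) : Module.finrank ℝ (LinearMap.ker (dotL c)) + 1 = n := by
  rw [Module.Dual.finrank_ker_add_one_of_ne_zero (f := dotL c) fun e => h ?_]; simp
  ext j; simpa using (dot_single c j 1).symm.trans (LinearMap.congr_fun e _)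

lemma ne_zero_of_gcd {c : Fin n → ℤ} (h : univ.gcd c = 1) : c ≠ 0 := by
  rintro rfl
  exact zero_ne_one ((Finset.gcd_eq_zero_iff.2 fun _ _ => rfl).symm.trans h)

lemma gcd_one {c : Fin n → ℤ} {j : Fin n} (h : c j = 1 ∨ c j = -1) : univ.gcd c = 1 := by
  have := Finset.gcd_dvd (f := c) (mem_univ j)
  refine Int.eq_one_of_dvd_one (Int.nonneg_of_normalize_eq_self Finset.normalize_gcd) ?_
  rcases h with h | h <;> simpa [h] using this

lemma exists_sol {r : Matrix (Fin n) (Fin n) ℤ} (h : |r.det| = 1) (t : Fin n → ℝ) :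
    ∃ x, ∀ i, dot (r i) x = t i := by
  have : IsUnit ((Int.castRingHom ℝ).mapMatrix r) := by
    rw [Matrix.isUnit_iff_isUnit_det, ← RingHom.map_det]
    exact (Int.isUnit_iff_abs_eq.2 h).map _
  obtain ⟨x, hx⟩ := Matrix.mulVec_surjective_iff_isUnit.2 this t
  exact ⟨x, fun i => congrFun hx i⟩

variable {ι : Type} [Fintype ι] {ρ : ι → Fin n → ℤ} {β : ι → ℝ} {P : Set (Fin n → ℝ)}
  (hP : ∀ x, x ∈ P ↔ ∀ κ, dot (ρ κ) x ≤ β κ)

lemma ev_lt {a b c : ℝ} (h : a < b ∨ a ≤ b ∧ c < 0) : ∀ᶠ ε in 𝓝[>] (0 : ℝ), a + ε * c < b := by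
  rcases h with h | h
  · refine eventually_nhdsWithin_of_eventually_nhds (ContinuousAt.eventually_lt (by fun_prop)
      continuousAt_const (by simpa using h))
  · exact eventually_mem_nhdsWithin.mono fun ε (e : 0 < ε) => by nlinarith [h.1, h.2]

include hP

lemma ev_mem {z d : Fin n → ℝ} (hz : z ∈ P) (h : ∀ κ, dot (ρ κ) z = β κ → dot (ρ κ) d ≤ 0) :
    ∀ᶠ ε in 𝓝[>] (0 : ℝ), z + ε • d ∈ P := by
  simp only [hP, dot_add, dot_smul, eventually_all] at hz ⊢
  intro κ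
  rcases (hz κ).lt_or_eq with e | e
  · exact (ev_lt (Or.inl e)).mono fun _ => le_of_lt
  · exact eventually_mem_nhdsWithin.mono fun ε (e' : 0 < ε) => by nlinarith [h κ e]

lemma extreme_iff {u : Fin n → ℝ} : u ∈ P.extremePoints ℝ ↔
    u ∈ P ∧ ∀ d, (∀ κ, dot (ρ κ) u = β κ → dot (ρ κ) d = 0) → d = 0 := by
  rw [mem_extremePoints_iff_left]
  refine and_congr_right fun hu => ⟨fun h d hd => ?_, fun h x hx y hy ⟨a, b, ha, hb, e1, e2⟩ => ?_⟩
  · obtain ⟨ε, ⟨h1, h2⟩, h3⟩ := (((ev_mem hP hu fun κ e => (hd κ e).le).and (ev_mem hP (d := -d) hu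
      fun κ e => by rw [← neg_one_smul ℝ, dot_smul, hd κ e]; simp)).and eventually_mem_nhdsWithin).exists
    have := h _ h1 _ h2 ⟨1 / 2, 1 / 2, by norm_num, by norm_num, by norm_num, by
      ext j; simp; ring⟩
    simpa [(show 0 < ε from h3).ne'] using this
  · refine sub_eq_zero.1 (h _ fun κ e => ?_)
    have a1 := (hP x).1 hx κ
    have a2 := (hP y).1 hy κ
    have a3 := congrArg (dot (ρ κ)) e2
    rw [dot_add, dot_smul, dot_smul, e] at a3
    rw [dot_sub, e]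
    obtain rfl : b = 1 - a := by linarith
    nlinarith

lemma facet_of_point {κ : ι} (h1 : univ.gcd (ρ κ) = 1) {y d : Fin n → ℝ} (hy : y ∈ P)
    (h2 : dot (ρ κ) y = β κ) (h3 : dot (ρ κ) d = 0)
    (h4 : ∀ κ', κ' ≠ κ → dot (ρ κ') y = β κ' → dot (ρ κ') d < 0) {u : Fin n → ℝ}
    (hu : dot (ρ κ) u = β κ) : FacetNormal P u (ρ κ) := by
  obtain ⟨ε, hε⟩ := (eventually_all.2 fun κ' : {κ' // κ' ≠ κ} => ev_lt (c := dot (ρ κ') d)
    (((hP y).1 hy κ').lt_or_eq.imp_right fun e => ⟨e.le, h4 _ κ'.2 e⟩)).exists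
  have z1 : dot (ρ κ) (y + ε • d) = β κ := by rw [dot_add, dot_smul, h2, h3]; simp
  have z2 : y + ε • d ∈ P := (hP _).2 fun κ' => by
    by_cases e : κ' = κ
    · rw [e, z1]
    · rw [dot_add, dot_smul]; exact (hε ⟨_, e⟩).le
  refine ⟨h1, fun x hx => hu ▸ (hP x).1 hx κ, ?_⟩
  rw [show vectorSpan ℝ {x ∈ P | dot (ρ κ) x = dot (ρ κ) u} = LinearMap.ker (dotL (ρ κ)) from
    le_antisymm ?_ fun w hw => ?_]
  · exact ker_rank (ne_zero_of_gcd h1)
  · rw [vectorSpan_def, Submodule.span_le]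
    rintro _ ⟨a, ha, b, hb, rfl⟩
    exact (dot_sub _ a b).trans (by rw [ha.2, hb.2, sub_self])
  · obtain ⟨δ, d1, d2⟩ := ((ev_mem hP (d := w) z2 fun κ' e => by
      by_cases c : κ' = κ
      · rw [c]; exact le_of_eq hw
      · rw [dot_add, dot_smul] at e; exact absurd e (hε ⟨_, c⟩).ne).and eventually_mem_nhdsWithin).exists
    have := vsub_mem_vectorSpan ℝ (s := {x ∈ P | dot (ρ κ) x = dot (ρ κ) u})
      ⟨d1, by rw [dot_add, dot_smul, z1, show dot (ρ κ) w = 0 from hw, hu]; simp⟩ ⟨z2, z1.trans hu.symm⟩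
    rw [vsub_eq_sub, add_sub_cancel_left] at this
    exact (Submodule.smul_mem_iff _ (show 0 < δ from d2).ne').1 this

lemma row_of_facet (h1 : ∀ κ j, ρ κ j = 0 ∨ ρ κ j = 1 ∨ ρ κ j = -1) {u : Fin n → ℝ} (hu : u ∈ P)
    {c : Fin n → ℤ} (hc : FacetNormal P u c) : ∃ κ, dot (ρ κ) u = β κ ∧ c = ρ κ := by
  classical
  obtain ⟨c1, c2, c3⟩ := hc
  have c0 : c ≠ 0 := ne_zero_of_gcd c1
  have c4 : vectorSpan ℝ {x ∈ P | dot c x = dot c u} = LinearMap.ker (dotL c) := by
    refine Submodule.eq_of_le_of_finrank_eq ?_ (by have := ker_rank c0; omega)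
    rw [vectorSpan_def, Submodule.span_le]
    rintro _ ⟨a, ha, b, hb, rfl⟩
    exact (dot_sub _ a b).trans (by rw [ha.2, hb.2, sub_self])
  have av : ∀ s : Finset ι, ∃ z ∈ P, dot c z = dot c u ∧ ∀ κ ∈ s, dot (ρ κ) z = β κ →
      ∀ x ∈ P, dot c x = dot c u → dot (ρ κ) x = β κ := by
    intro s
    induction s using Finset.induction_on with
    | empty => exact ⟨u, hu, rfl, by simp⟩
    | insert κ s _ ih =>
      obtain ⟨z, z1, z2, z3⟩ := ih
      by_cases h : ∀ x ∈ P, dot c x = dot c u → dot (ρ κ) x = β κ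
      · exact ⟨z, z1, z2, by simpa using ⟨fun _ => h, z3⟩⟩
      push Not at h
      obtain ⟨x, x1, x2, x3⟩ := h
      have a1 := (hP z).1 z1
      have a2 := (hP x).1 x1
      refine ⟨(1 / 2 : ℝ) • z + (1 / 2 : ℝ) • x, (hP _).2 fun κ' => ?_, ?_, fun κ' h e => ?_⟩
      · rw [dot_add, dot_smul, dot_smul]; linarith [a1 κ', a2 κ']
      · rw [dot_add, dot_smul, dot_smul]; linarith
      · rw [dot_add, dot_smul, dot_smul] at e
        rcases mem_insert.1 h with rfl | h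
        · exact absurd (by linarith [a1 κ', a2 κ']) x3
        · exact z3 κ' h (by linarith [a1 κ', a2 κ'])
  obtain ⟨z, z1, z2, z3⟩ := av univ
  have q : 0 < dot c fun j => c j := by
    obtain ⟨j, hj⟩ := Function.ne_iff.1 c0
    exact sum_pos' (fun _ _ => mul_self_nonneg _) ⟨j, mem_univ _, mul_self_pos.2 (by simpa using hj)⟩
  obtain ⟨κ, k1, k2⟩ : ∃ κ, dot (ρ κ) z = β κ ∧ 0 < dot (ρ κ) fun j => c j := by
    by_contra! h
    obtain ⟨ε, e1, e2⟩ := ((ev_mem hP z1 h).and eventually_mem_nhdsWithin).exists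
    have := c2 _ e1
    rw [dot_add, dot_smul] at this
    nlinarith [show 0 < ε from e2]
  have k3 : vectorSpan ℝ {x ∈ P | dot c x = dot c u} ≤ LinearMap.ker (dotL (ρ κ)) := by
    rw [vectorSpan_def, Submodule.span_le]
    rintro _ ⟨a, ha, b, hb, rfl⟩
    exact (dot_sub _ a b).trans (by
      rw [z3 κ (mem_univ _) k1 a ha.1 ha.2, z3 κ (mem_univ _) k1 b hb.1 hb.2, sub_self])
  have k4 : ∀ j, (dot c fun j => c j) * ρ κ j = c j * dot (ρ κ) fun j => c j := fun j => by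
    have := k3 (c4 ▸ show (dot c fun j => c j) • Pi.single j (1 : ℝ) - (c j : ℝ) • (fun j => (c j : ℝ)) ∈
      LinearMap.ker (dotL c) from by
        change dot c _ = 0
        rw [dot_sub, dot_smul, dot_smul, dot_single]; ring)
    change dot (ρ κ) _ = 0 at this
    rw [dot_sub, dot_smul, dot_smul, dot_single] at this
    linarith
  refine ⟨κ, z3 κ (mem_univ _) k1 u hu rfl, ?_⟩
  obtain ⟨a, ha⟩ : ∃ a : ℤ, (dot c fun j => c j) = a := ⟨∑ j, c j * c j, by simp [dot]⟩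
  obtain ⟨b, hb⟩ : ∃ b : ℤ, (dot (ρ κ) fun j => c j) = b := ⟨∑ j, ρ κ j * c j, by simp [dot]⟩
  rw [ha, hb] at k4
  rw [ha] at q
  rw [hb] at k2
  norm_cast at k4 q k2
  obtain ⟨j, hj⟩ := Function.ne_iff.1 c0
  have a1 : b ∣ a := by
    rcases h1 κ j with e | e | e <;> have := k4 j <;> rw [e] at this
    · exact absurd (by simpa [k2.ne'] using this) hj
    · exact ⟨c j, by linarith⟩
    · exact ⟨-c j, by linarith⟩
  obtain ⟨t, rfl⟩ := a1
  have a2 : ∀ j, c j = t * ρ κ j := fun j => mul_left_cancel₀ k2.ne' (by linarith [k4 j])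
  have a3 : t ∣ 1 := c1 ▸ Finset.dvd_gcd fun j _ => ⟨_, a2 j⟩
  have a4 : t = 1 := Int.eq_one_of_dvd_one (by nlinarith) a3
  ext j; rw [a2, a4, one_mul]

omit hP in
/-- the tight rows form a unimodular matrix if they span and are independent over every field -/
lemma unimod {T : ι → Prop} (h1 : ∀ d, (∀ κ, T κ → dot (ρ κ) d = 0) → d = 0)
    (h2 : ∀ (K : Type) [Field K] (l : ι → K), (∀ κ, ¬ T κ → l κ = 0) →
      (∀ j, ∑ κ, l κ * ρ κ j = 0) → ∀ κ, l κ = 0) :
    ∃ r : Matrix (Fin n) (Fin n) ℤ, Set.range r = {c | ∃ κ, T κ ∧ c = ρ κ} ∧ |r.det| = 1 := by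
  classical
  have h3 : ∀ (K : Type) [Field K] (l : {κ // T κ} → K), (∀ j, ∑ κ, l κ * ρ κ j = 0) → l = 0 := by
    intro K _ l h
    ext κ
    have := h2 K (fun κ => if h : T κ then l ⟨κ, h⟩ else 0) (fun κ h => dif_neg h) (fun j => by
      rw [← Fintype.sum_subtype_add_sum_subtype T, sum_eq_zero (s := univ (α := {κ // ¬ T κ}))
        fun κ _ => by simp [κ.2], add_zero]
      exact (sum_congr rfl fun κ _ => by simp [κ.2]).trans (h j)) κ
    simpa [κ.2] using this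
  have c1 : Fintype.card {κ // T κ} ≤ n := by
    have : LinearIndependent ℝ fun (κ : {κ // T κ}) (j : Fin n) => (ρ κ j : ℝ) :=
      Fintype.linearIndependent_iff.2 fun l e => congrFun (h3 ℝ l fun j => by
        simpa using congrFun e j)
    simpa using this.fintype_card_le_finrank
  have c2 : n ≤ Fintype.card {κ // T κ} := by
    have := LinearMap.finrank_le_finrank_of_injective
      (f := LinearMap.pi fun κ : {κ // T κ} => dotL (ρ κ))
      ((injective_iff_map_eq_zero _).2 fun d e => h1 d fun κ h => congrFun e ⟨κ, h⟩)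
    simpa using this
  let e := (Fintype.equivFinOfCardEq (le_antisymm c1 c2)).symm
  refine ⟨fun i => ρ (e i), ?_, ?_⟩
  · ext c
    exact ⟨fun ⟨i, h⟩ => ⟨_, (e i).2, h.symm⟩, fun ⟨κ, h, h'⟩ => ⟨e.symm ⟨κ, h⟩, by simp [h']⟩⟩
  · by_contra hc
    obtain ⟨p, p1, p2⟩ := Nat.exists_prime_and_dvd (n := (Matrix.det fun i => ρ (e i)).natAbs)
      fun h => hc (by rw [Int.abs_eq_natAbs, h]; rfl)
    have := Fact.mk p1
    have a1 := (ZMod.intCast_zmod_eq_zero_iff_dvd _ p).2 (Int.natCast_dvd.2 p2)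
    obtain ⟨v, v1, v2⟩ := Matrix.exists_vecMul_eq_zero_iff.2
      (((Int.castRingHom (ZMod p)).map_det _).symm.trans a1)
    refine v1 (funext fun i => ?_)
    simpa using congrFun (h3 (ZMod p) (fun κ => v (e.symm κ)) fun j => by
      rw [← e.sum_comp]
      simpa [Matrix.vecMul, dotProduct] using congrFun v2 j) (e i)

end Pool.Agent.Polyh
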