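import Pool.Agent.Lib.helper10.NPClique

/-! Counting lemmas for the red-blue cut reductions. -/

namespace Pool.Agent.Cx

open Finset

open Classical in
/-- the number of pairs `(u, v)` with `u ∈ X`, `v ∉ X` and matrix entry one -/
noncomputable def cutCnt (M : List (List Bool)) (X : Finset ℕ) : ℕ :=
  ((X ×ˢ (range M.length \ X)).filter fun p => Entry M p.1 p.2).card

lemma entry_mat (N : ℕ) (r : ℕ → ℕ → Prop) [∀ u v, Decidable (r u v)] (u v : ℕ) :
    Entry (mat (List.range N) fun u v => decide (r u v)) u v ↔ u < N ∧ v < N ∧ r u v := by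
  rw [Entry, mat_get]
  simp only [List.length_range, List.getElem_range, decide_eq_true_eq]
  tauto

lemma ent_lt {M : List (List Bool)} (hM : IsGraph M) {u v : ℕ} (h : ent M u v = true) :
    u < M.length ∧ v < M.length ∧ u ≠ v := by
  have : ∀ u v, ent M u v = true → u < M.length := by
    intro u v h
    by_contra hh
    simp [ent, List.getD_eq_getElem?_getD, List.getElem?_eq_none (not_lt.1 hh)] at h
  exact ⟨this u v h, this v u (hM.2.2 u v h), by rintro rfl; exact hM.2.1 u h⟩

/-- pairs that are not edges inside `S` -/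
def bad (M : List (List Bool)) (S : Finset ℕ) : Finset (ℕ × ℕ) :=
  (S ×ˢ range (2 * M.length)).filter fun p => ¬ (p.2 ∈ S ∧ ent M p.1 p.2 = true)

lemma bad_card {M : List (List Bool)} {S : Finset ℕ} (hS : ∀ u ∈ S, u < M.length) :
    ((S ×ˢ S).filter fun p => ent M p.1 p.2 = true).card + (bad M S).card =
      S.card * (2 * M.length) := by
  have := card_filter_add_card_filter_not (s := S ×ˢ range (2 * M.length))
    (fun p => p.2 ∈ S ∧ ent M p.1 p.2 = true)
  rw [card_product, card_range] at this
  rw [← this, bad]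
  congr 2
  ext ⟨u, v⟩
  simp only [mem_filter, mem_product, mem_range]
  have := hS v
  constructor
  · rintro ⟨⟨a, b⟩, c⟩; exact ⟨⟨a, by have := this b; omega⟩, b, c⟩
  · tauto

lemma bad_le {M : List (List Bool)} {S : Finset ℕ} (hS : ∀ u ∈ S, u < M.length)
    (h : ∀ u ∈ S, ∀ v ∈ S, u ≠ v → ent M u v = true) :
    (bad M S).card ≤ S.card * (2 * M.length + 1 - S.card) := by
  have h1 := bad_card hS
  have h2 : S.offDiag.card ≤ ((S ×ˢ S).filter fun p => ent M p.1 p.2 = true).card :=
    card_le_card fun p hp => by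
      simp only [mem_offDiag, mem_filter, mem_product] at *
      exact ⟨⟨hp.1, hp.2.1⟩, h _ hp.1 _ hp.2.1 hp.2.2⟩
  have h3 : S.card ≤ M.length := by
    simpa using card_le_card (fun u hu => mem_range.2 (hS u hu) : S ⊆ range M.length)
  rw [offDiag_card] at h2
  obtain ⟨d, hd⟩ : ∃ d, 2 * M.length + 1 = S.card + d := ⟨2 * M.length + 1 - S.card, by omega⟩
  have h4 : S.card * (2 * M.length + 1) = S.card * (S.card + d) := by rw [hd]
  rw [hd, Nat.add_sub_cancel_left]
  have : S.card ≤ S.card * S.card := Nat.le_mul_self _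
  simp only [mul_add, mul_one] at h4
  omega

lemma clq_of_bad {M : List (List Bool)} (hM : IsGraph M) {S : Finset ℕ} {k : ℕ}
    (hS : ∀ u ∈ S, u < M.length) (hk : k ≤ S.card)
    (h : (bad M S).card ≤ k * (2 * M.length + 1 - k)) : HasClq M k := by
  have h1 := bad_card hS
  have hsub : ((S ×ˢ S).filter fun p => ent M p.1 p.2 = true) ⊆ S.offDiag := fun p hp => by
    simp only [mem_offDiag, mem_filter, mem_product] at *
    exact ⟨hp.1.1, hp.1.2, (ent_lt hM hp.2).2.2⟩
  have h2 := card_le_card hsub
  have h3 : S.card ≤ M.length := by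
    simpa using card_le_card (fun u hu => mem_range.2 (hS u hu) : S ⊆ range M.length)
  rw [offDiag_card] at h2
  obtain ⟨d, hd⟩ : ∃ d, 2 * M.length + 1 = k + d := ⟨2 * M.length + 1 - k, by omega⟩
  rw [hd, Nat.add_sub_cancel_left] at h
  have h5 : S.card ≤ S.card * S.card := Nat.le_mul_self _
  have h6 : S.card = k := by
    by_contra hne
    obtain ⟨e, he⟩ : ∃ e, S.card = k + e + 1 := ⟨S.card - k - 1, by omega⟩
    have h7 : S.card * (2 * M.length) + S.card ≤ S.card * S.card + k * d := by omega
    rw [he] at h7 h3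
    have h8 : 2 * M.length = k + d - 1 := by omega
    obtain ⟨f, hf⟩ : ∃ f, d = k + 2 * e + 3 + f := ⟨d - (k + 2 * e + 3), by omega⟩
    have h9 : 2 * M.length = 2 * k + 2 * e + 2 + f := by omega
    rw [h9, hf] at h7
    nlinarith
  refine ⟨S, hS, h6, fun u hu v hv e => ?_⟩
  have h4 : k * (2 * M.length + 1) = k * (k + d) := by rw [hd]
  have := eq_of_subset_of_card_le hsub (by
    rw [offDiag_card]; simp only [mul_add, mul_one, h6] at *; omega)
  have h7 : (u, v) ∈ S.offDiag := by simp [hu, hv, e]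
  rw [← this] at h7
  simpa using (mem_filter.1 h7).2

/-- a cut through or around a complete blob is large -/
lemma blob {M : List (List Bool)} {X : Finset ℕ} (a K x y : ℕ) (hK : a + K ≤ M.length)
    (hx : x ∈ X) (hy : y < M.length) (hy' : y ∉ X)
    (h1 : ∀ j < K, a + j ∉ X → a + j ≠ y → Entry M x (a + j))
    (h2 : ∀ j < K, a + j ∈ X → a + j ≠ x → Entry M (a + j) y) : K ≤ cutCnt M X + 2 := by
  classical
  have : (((range K).erase (x - a)).erase (y - a)).card ≤ cutCnt M X := by
    refine card_le_card_of_injOn (fun j => if a + j ∈ X then (a + j, y) else (x, a + j))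
      (fun j hj => ?_) (fun i hi j hj e => ?_)
    · simp only [coe_erase, coe_range, Set.mem_diff, Set.mem_Iio, Set.mem_singleton_iff] at hj
      simp only [coe_filter, mem_product, mem_sdiff, mem_range, Set.mem_setOf_eq]
      split_ifs with h
      · exact ⟨⟨h, hy, hy'⟩, h2 j hj.1.1 h (by omega)⟩
      · exact ⟨⟨hx, by omega, h⟩, h1 j hj.1.1 h (by omega)⟩
    · simp only [coe_erase, coe_range, Set.mem_diff, Set.mem_Iio, Set.mem_singleton_iff] at hi hj
      simp only at e
      split_ifs at e <;> simp only [Prod.mk.injEq] at e <;> omega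
  have h3 := pred_card_le_card_erase (s := (range K).erase (x - a)) (a := y - a)
  have h4 := pred_card_le_card_erase (s := range K) (a := x - a)
  simp only [card_range] at h4
  omega

/-- red arcs leaving an original vertex -/
def red0 (M : List (List Bool)) (u v : ℕ) : Prop :=
  u < M.length ∧ ((v < M.length ∧ ent M u v = true) ∨
    (M.length ≤ v ∧ v < 3 * M.length ∧ ent M u (v - M.length) = false))

lemma cut_eq_bad {M R : List (List Bool)} (hM : IsGraph M) {X : Finset ℕ}
    (hR : 3 * M.length ≤ R.length) (hX : ∀ v ∈ X, v < M.length ∨ 3 * M.length ≤ v)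
    (h : ∀ u ∈ X, ∀ v < R.length, v ∉ X → (Entry R u v ↔ red0 M u v)) :
    cutCnt R X = (bad M (X.filter (· < M.length))).card := by
  classical
  symm
  refine card_bij (fun p _ => (p.1, if ent M p.1 p.2 = true then p.2 else M.length + p.2))
    (fun p hp => ?_) (fun p hp q hq e => ?_) (fun p hp => ?_)
  · simp only [bad, mem_filter, mem_product, mem_range, mem_sdiff] at hp ⊢
    obtain ⟨⟨⟨a, b⟩, c⟩, d⟩ := hp
    split_ifs with e
    · have := ent_lt hM e
      have f : p.2 ∉ X := by tauto
      exact ⟨⟨a, by omega, f⟩, (h _ a _ (by omega) f).2 ⟨b, Or.inl ⟨this.2.1, e⟩⟩⟩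
    · have f : M.length + p.2 ∉ X := fun hh => by have := hX _ hh; omega
      exact ⟨⟨a, by omega, f⟩, (h _ a _ (by omega) f).2 ⟨b, Or.inr ⟨by omega, by omega, by
        simpa using e⟩⟩⟩
  · simp only [Prod.mk.injEq] at e
    obtain ⟨e1, e2⟩ := e
    refine Prod.ext e1 ?_
    split_ifs at e2 with a b b
    · exact e2
    · have := ent_lt hM a; omega
    · have := ent_lt hM b; omega
    · omega
  · simp only [mem_filter, mem_product, mem_range, mem_sdiff] at hp
    obtain ⟨⟨a, b, c⟩, d⟩ := hp
    obtain ⟨e, ⟨f, g⟩ | ⟨f, g, i⟩⟩ := (h _ a _ b c).1 d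
    · exact ⟨p, by simp [bad, a, e, c]; omega, by simp [g]⟩
    · exact ⟨(p.1, p.2 - M.length), by simp [bad, a, e, i]; omega, by
        simp only [i, Bool.false_eq_true, if_false]; exact Prod.ext rfl (by simp; omega)⟩

lemma cut_blue {B : List (List Bool)} {X : Finset ℕ} {n s : ℕ} (hs : s ∈ X) (hn : n ≤ B.length)
    (h : ∀ u ∈ X, ∀ v < B.length, v ∉ X → (Entry B u v ↔ u = s ∧ v < n)) :
    cutCnt B X + (X.filter (· < n)).card = n := by
  classical
  have h1 : cutCnt B X = ((range n).filter (· ∉ X)).card := by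
    symm
    refine card_bij (fun v _ => (s, v)) (fun v hv => ?_) (fun p hp q hq e => by simpa using e)
      (fun p hp => ?_)
    · simp only [mem_filter, mem_product, mem_range, mem_sdiff] at hv ⊢
      exact ⟨⟨hs, by omega, hv.2⟩, (h _ hs _ (by omega) hv.2).2 ⟨rfl, hv.1⟩⟩
    · simp only [mem_filter, mem_product, mem_range, mem_sdiff] at hp
      obtain ⟨⟨a, b, c⟩, d⟩ := hp
      obtain ⟨e, f⟩ := (h _ a _ b c).1 d
      exact ⟨p.2, by simp [f, c], by rw [← e]⟩
  have h2 : X.filter (· < n) = (range n).filter (· ∈ X) := by ext; simp [and_comm]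
  rw [h1, h2, add_comm, card_filter_add_card_filter_not, card_range]

end Pool.Agent.Cx
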