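import Mathlib

/-! Two sigmoid units on antipodal pairs of points. -/

namespace Pool.Agent.Sig

open Real

/-- the standard sigmoid -/
noncomputable def sg (t : ℝ) : ℝ := 1 / (1 + exp (-t))

lemma sg_eq (t : ℝ) : sg t = exp t / (1 + exp t) := by
  unfold sg; rw [exp_neg]; have := exp_pos t; field_simp; ring

lemma sg_neg (t : ℝ) : sg (-t) = 1 - sg t := by
  rw [sg_eq t, sg, neg_neg]; have := exp_pos t; field_simp; ring

lemma sg_mono {s t : ℝ} (h : s ≤ t) : sg s ≤ sg t := by
  unfold sg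
  exact one_div_le_one_div_of_le (by positivity) (by simpa using h)

/-- forward or backward separation of antipodal pairs -/
def Sep (S : ℝ → ℝ → Prop) : Prop := ∃ α β : ℝ,
  (∀ u v u' v', S u v → S (-u) (-v) → ¬ S u' v' → ¬ S (-u') (-v') →
    |α * u + β * v| < |α * u' + β * v'|) ∨
  (∀ u v u' v', S u v → S (-u) (-v) → ¬ S u' v' → ¬ S (-u') (-v') →
    |α * u' + β * v'| < |α * u + β * v|)

lemma cvx (R : ℝ → ℝ → Prop) (e : ℝ) (he : e = 1 ∨ e = -1)
    (hc : ∀ u v u' v' t, 0 ≤ t → t ≤ 1 → R u v → R u' v' →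
      R (t * u + (1 - t) * u') (t * v + (1 - t) * v'))
    (hm : ∀ u v t, 0 ≤ t → R u v → R (u + e * t) (v + e * t)) {u v u' v' : ℝ}
    (a : R u v) (b : R (-u) (-v)) (c : ¬ R u' v') (d : ¬ R (-u') (-v')) :
    |u - v| < |u' - v'| := by
  by_contra! h
  obtain ⟨l, l1, l2, hl⟩ : ∃ l : ℝ, -1 ≤ l ∧ l ≤ 1 ∧ u' - v' = l * (u - v) := by
    by_cases z : u - v = 0
    · refine ⟨0, by norm_num, by norm_num, ?_⟩
      rw [z, abs_zero] at h
      simpa using abs_nonpos_iff.1 h
    · have : |(u' - v') / (u - v)| ≤ 1 := by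
        rw [abs_div, div_le_one (abs_pos.2 z)]; exact h
      exact ⟨(u' - v') / (u - v), (abs_le.1 this).1, (abs_le.1 this).2, by field_simp⟩
  have p := hc _ _ _ _ ((1 + l) / 2) (by linarith) (by linarith) a b
  have q := hc _ _ _ _ ((1 - l) / 2) (by linarith) (by linarith) a b
  have ee : e * e = 1 := by rcases he with rfl | rfl <;> norm_num
  rcases le_total 0 (e * (u' - l * u)) with g | g
  · apply c
    convert hm _ _ _ g p using 1
    · rw [← mul_assoc, ee]; ring
    · rw [← mul_assoc, ee]; linarith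
  · apply d
    convert hm _ _ (-(e * (u' - l * u))) (by linarith) q using 1
    · linear_combination (u' - l * u) * ee
    · linear_combination hl + (u' - l * u) * ee

lemma exp_cv (x y t : ℝ) (h0 : 0 ≤ t) (h1 : t ≤ 1) :
    exp (t * x + (1 - t) * y) ≤ t * exp x + (1 - t) * exp y := by
  simpa using convexOn_exp.2 (Set.mem_univ x) (Set.mem_univ y) h0 (sub_nonneg.2 h1) (by ring)

/-- the output test -/
def St (c0 c1 c2 u0 v0 u v : ℝ) : Prop := 0 ≤ c0 + c1 * sg (u0 + u) + c2 * sg (v0 + v)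

lemma St_iff (c0 c1 c2 u0 v0 u v : ℝ) : St c0 c1 c2 u0 v0 u v ↔
    0 ≤ c0 + (c0 + c1) * exp u0 * exp u + (c0 + c2) * exp v0 * exp v +
      (c0 + c1 + c2) * exp u0 * exp v0 * (exp u * exp v) := by
  have a := exp_pos (u0 + u)
  have b := exp_pos (v0 + v)
  have : c0 + (c0 + c1) * exp u0 * exp u + (c0 + c2) * exp v0 * exp v +
      (c0 + c1 + c2) * exp u0 * exp v0 * (exp u * exp v) =
      (c0 + c1 * sg (u0 + u) + c2 * sg (v0 + v)) * ((1 + exp (u0 + u)) * (1 + exp (v0 + v))) := by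
    rw [sg_eq, sg_eq]; field_simp; simp only [exp_add]; ring
  rw [this, St, mul_nonneg_iff_of_pos_right (by positivity)]

lemma St_mono {c0 c1 c2 u0 v0 u v u' v' : ℝ} (h1 : 0 ≤ c1) (h2 : 0 ≤ c2) (hu : u ≤ u')
    (hv : v ≤ v') (h : St c0 c1 c2 u0 v0 u v) : St c0 c1 c2 u0 v0 u' v' := by
  unfold St at *
  have := mul_le_mul_of_nonneg_left (sg_mono (show u0 + u ≤ u0 + u' by linarith)) h1
  have := mul_le_mul_of_nonneg_left (sg_mono (show v0 + v ≤ v0 + v' by linarith)) h2
  linarith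

lemma sep_mid {a b C D : ℝ} (ha : 0 ≤ a) (hb : 0 ≤ b) (hC : 0 ≤ C) (hD : 0 ≤ D) :
    Sep fun u v => 0 ≤ -a + -b * exp u + C * exp v + D * (exp u * exp v) := by
  have key : ∀ u v u' v' : ℝ, 0 ≤ -a + -b * exp u + C * exp v + D * (exp u * exp v) →
      0 ≤ -a + -b * exp (-u) + C * exp (-v) + D * (exp (-u) * exp (-v)) →
      ¬ 0 ≤ -a + -b * exp u' + C * exp v' + D * (exp u' * exp v') →
      ¬ 0 ≤ -a + -b * exp (-u') + C * exp (-v') + D * (exp (-u') * exp (-v')) →
      (C * D - a * b) * cosh u' < (C * D - a * b) * cosh u := by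
    intro u v u' v' h1 h2 h3 h4
    push Not at h3 h4
    have e : ∀ x : ℝ, exp x * exp (-x) = 1 := fun x => by rw [← exp_add]; simp
    have pos := fun x => exp_pos x
    have f1 : (a + b * exp u) * (a + b * exp (-u)) ≤
        (exp v * (C + D * exp u)) * (exp (-v) * (C + D * exp (-u))) :=
      mul_le_mul (by linarith) (by linarith) (by have := pos (-u); positivity)
        (by have := pos u; have := pos v; positivity)
    have f2 : (exp v' * (C + D * exp u')) * (exp (-v') * (C + D * exp (-u'))) <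
        (a + b * exp u') * (a + b * exp (-u')) :=
      mul_lt_mul'' (by linarith) (by linarith) (by have := pos u'; have := pos v'; positivity)
        (by have := pos (-u'); have := pos (-v'); positivity)
    have g : ∀ x y : ℝ, (exp y * (C + D * exp x)) * (exp (-y) * (C + D * exp (-x))) =
        C ^ 2 + D ^ 2 + 2 * C * D * cosh x := fun x y => by
      rw [cosh_eq]
      linear_combination ((C + D * exp x) * (C + D * exp (-x))) * e y + D ^ 2 * e x
    have g' : ∀ x : ℝ, (a + b * exp x) * (a + b * exp (-x)) =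
        a ^ 2 + b ^ 2 + 2 * a * b * cosh x := fun x => by
      rw [cosh_eq]
      linear_combination b ^ 2 * e x
    rw [g, g'] at f1 f2
    linarith
  refine ⟨1, 0, ?_⟩
  simp only [one_mul, zero_mul, add_zero]
  rcases le_total 0 (C * D - a * b) with h | h
  · exact Or.inr fun u v u' v' h1 h2 h3 h4 =>
      cosh_lt_cosh.1 (lt_of_mul_lt_mul_left (key u v u' v' h1 h2 h3 h4) h)
  · refine Or.inl fun u v u' v' h1 h2 h3 h4 => cosh_lt_cosh.1 ?_
    have := key u v u' v' h1 h2 h3 h4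
    by_contra! g
    nlinarith

lemma sep_swap {c0 c1 c2 u0 v0 : ℝ} (h : Sep (St c0 c2 c1 v0 u0)) : Sep (St c0 c1 c2 u0 v0) := by
  have e : ∀ u v, St c0 c1 c2 u0 v0 u v ↔ St c0 c2 c1 v0 u0 v u := fun u v => by
    unfold St; rw [add_right_comm]
  obtain ⟨α, β, h⟩ := h
  refine ⟨β, α, ?_⟩
  simp only [e, add_comm (β * _)]
  exact h.imp (fun h u v u' v' => h v u v' u') (fun h u v u' v' => h v u v' u')

lemma sep_flip {c0 c1 c2 u0 v0 : ℝ} (h : Sep (St (c0 + c1) (-c1) c2 (-u0) v0)) :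
    Sep (St c0 c1 c2 u0 v0) := by
  have e : ∀ u v, St c0 c1 c2 u0 v0 u v ↔ St (c0 + c1) (-c1) c2 (-u0) v0 (-u) v := fun u v => by
    unfold St; rw [← neg_add, sg_neg]; ring_nf
  obtain ⟨α, β, h⟩ := h
  refine ⟨-α, β, ?_⟩
  simp only [e, neg_mul, ← mul_neg]
  exact h.imp (fun h u v u' v' => h (-u) v (-u') v') (fun h u v u' v' => h (-u) v (-u') v')

lemma sep_pos {c0 c1 c2 u0 v0 : ℝ} (h1 : 0 ≤ c1) (h2 : 0 ≤ c2) : Sep (St c0 c1 c2 u0 v0) := by
  have pos := fun x => exp_pos x
  have mid : ∀ {c1 c2 u0 v0 : ℝ}, 0 ≤ c1 → c0 + c1 ≤ 0 → 0 ≤ c0 + c2 →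
      Sep (St c0 c1 c2 u0 v0) := fun {c1 c2 u0 v0} h1 a b => by
    have := sep_mid (a := -c0) (b := -((c0 + c1) * exp u0)) (C := (c0 + c2) * exp v0)
      (D := (c0 + c1 + c2) * exp u0 * exp v0) (by linarith)
      (by have := pos u0; nlinarith) (by have := pos v0; positivity)
      (by have := pos u0; have := pos v0; have : 0 ≤ c0 + c1 + c2 := by linarith
          positivity)
    convert this using 3
    rw [St_iff]; simp
  rcases le_total (c0 + c1) 0 with a | a <;> rcases le_total (c0 + c2) 0 with b | b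
  · refine ⟨1, -1, Or.inl fun u v u' v' p q r s => ?_⟩
    simp only [one_mul, neg_mul, ← sub_eq_add_neg]
    refine cvx (St c0 c1 c2 u0 v0) 1 (Or.inl rfl) ?_ (fun u v t ht => St_mono h1 h2 (by linarith) (by linarith))
      p q r s
    have e : ∀ u v, St c0 c1 c2 u0 v0 u v ↔ -c0 * exp (-u - v) + -((c0 + c1) * exp u0) * exp (-v) +
        -((c0 + c2) * exp v0) * exp (-u) ≤ (c0 + c1 + c2) * exp u0 * exp v0 := fun u v => by
      rw [St_iff, ← sub_nonneg (b := _ + _),
        ← mul_nonneg_iff_of_pos_right (mul_pos (pos (-u)) (pos (-v)))]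
      have e1 : exp u * exp (-u) = 1 := by rw [← exp_add]; simp
      have e2 : exp v * exp (-v) = 1 := by rw [← exp_add]; simp
      rw [sub_eq_add_neg (-u), exp_add]
      apply Iff.of_eq
      congr 1
      linear_combination ((c0 + c1) * exp u0 * exp (-v) +
        (c0 + c1 + c2) * exp u0 * exp v0 * (exp v * exp (-v))) * e1 +
        ((c0 + c2) * exp v0 * exp (-u) + (c0 + c1 + c2) * exp u0 * exp v0) * e2
    intro u v u' v' t t0 t1 p q
    rw [e] at p q ⊢
    have i1 := mul_le_mul_of_nonneg_left (exp_cv (-u - v) (-u' - v') t t0 t1)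
      (show 0 ≤ -c0 by linarith)
    have i2 := mul_le_mul_of_nonneg_left (exp_cv (-v) (-v') t t0 t1)
      (show 0 ≤ -((c0 + c1) * exp u0) by have := pos u0; nlinarith)
    have i3 := mul_le_mul_of_nonneg_left (exp_cv (-u) (-u') t t0 t1)
      (show 0 ≤ -((c0 + c2) * exp v0) by have := pos v0; nlinarith)
    have j1 := mul_le_mul_of_nonneg_left p t0
    have j2 := mul_le_mul_of_nonneg_left q (sub_nonneg.2 t1)
    rw [show -(t * u + (1 - t) * u') - (t * v + (1 - t) * v') =
        t * (-u - v) + (1 - t) * (-u' - v') by ring,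
      show -(t * u + (1 - t) * u') = t * -u + (1 - t) * -u' by ring,
      show -(t * v + (1 - t) * v') = t * -v + (1 - t) * -v' by ring]
    linarith
  · exact mid h1 a b
  · exact sep_swap (mid h2 b a)
  · refine ⟨1, -1, Or.inr fun u v u' v' p q r s => ?_⟩
    simp only [one_mul, neg_mul, ← sub_eq_add_neg]
    refine cvx (fun u v => ¬ St c0 c1 c2 u0 v0 u v) (-1) (Or.inr rfl) ?_
      (fun u v t ht h g => h (St_mono h1 h2 (by linarith) (by linarith) g))
      r s (not_not.2 p) (not_not.2 q)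
    intro u v u' v' t t0 t1 p q
    simp only [St_iff, not_le, ← exp_add] at *
    have i1 := mul_le_mul_of_nonneg_left (exp_cv (u + v) (u' + v') t t0 t1)
      (show 0 ≤ (c0 + c1 + c2) * exp u0 * exp v0 by
        have := pos u0; have := pos v0; have : 0 ≤ c0 + c1 + c2 := by linarith
        positivity)
    have i2 := mul_le_mul_of_nonneg_left (exp_cv u u' t t0 t1)
      (show 0 ≤ (c0 + c1) * exp u0 by have := pos u0; positivity)
    have i3 := mul_le_mul_of_nonneg_left (exp_cv v v' t t0 t1)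
      (show 0 ≤ (c0 + c2) * exp v0 by have := pos v0; positivity)
    rw [show t * u + (1 - t) * u' + (t * v + (1 - t) * v') =
        t * (u + v) + (1 - t) * (u' + v') by ring]
    rcases t0.eq_or_lt with rfl | t0
    · simpa using q
    · have j1 := mul_lt_mul_of_pos_left p t0
      have j2 := mul_le_mul_of_nonneg_left q.le (sub_nonneg.2 t1)
      linarith

theorem sep (c0 c1 c2 u0 v0 : ℝ) : Sep (St c0 c1 c2 u0 v0) := by
  have h : ∀ c0 c1 c2 u0 v0 : ℝ, 0 ≤ c2 → Sep (St c0 c1 c2 u0 v0) := fun c0 c1 c2 u0 v0 h2 => by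
    rcases le_total 0 c1 with h1 | h1
    · exact sep_pos h1 h2
    · exact sep_flip (sep_pos (by linarith) h2)
  rcases le_total 0 c2 with h2 | h2
  · exact h _ _ _ _ _ h2
  · exact sep_swap (sep_flip (sep_swap (h _ _ _ _ _ (by linarith))))

end Pool.Agent.Sig
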