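import Pool.Agent.Lib.helper10.Sig1
import Pool.Agent.Lib.helper10.Sat3

/-! Loading a network with two sigmoid units is NP-hard. -/

namespace Pool.Agent.Sig

open Pool.Agent.Cx Finset

/-- the dimension `k` and the labelled examples -/
abbrev Inst := ℕ × List (List Bool × Bool)

/-- the scalar product of a real vector with a Boolean point -/
noncomputable def dot {k : ℕ} (a : Fin k → ℝ) (x : List Bool) : ℝ :=
  ∑ i : Fin k, a i * if x.getD i false then 1 else 0

/-- some real parameters classify every example correctly -/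
def Load (z : Inst) : Prop := ∃ (a1 a2 : Fin z.1 → ℝ) (b1 b2 c0 c1 c2 : ℝ), ∀ e ∈ z.2,
  (0 ≤ c0 + c1 * sg (dot a1 e.1 + b1) + c2 * sg (dot a2 e.1 + b2) ↔ e.2 = true)

/-- `k ≥ 1` and every point has `k` coordinates -/
def Valid (z : Inst) : Prop := 1 ≤ z.1 ∧ ∀ e ∈ z.2, e.1.length = z.1

def pt (k : ℕ) (T : List ℕ) : List Bool := (List.range k).map fun i => decide (i ∈ T)

def ap (k : ℕ) (T : List ℕ) : List Bool := (List.range k).map fun i => !decide (i ∈ T)

def data (k : ℕ) (L : List (List ℕ × Bool)) : Inst :=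
  (k, L.flatMap fun s => [(pt k s.1, s.2), (ap k s.1, s.2)])

lemma dot_pt {k : ℕ} (a : ℕ → ℝ) {T : List ℕ} (h : T.Nodup) (hb : ∀ j ∈ T, j < k) :
    dot (fun i : Fin k => a i) (pt k T) = (T.map a).sum := by
  have : ∀ i : Fin k, (pt k T).getD i false = decide ((i : ℕ) ∈ T) := fun i => by
    simp [pt, List.getD_eq_getElem?_getD]
  simp only [dot, this, decide_eq_true_eq, mul_ite, mul_one, mul_zero]
  rw [Fin.sum_univ_eq_sum_range (fun i => if i ∈ T then a i else 0), ← List.sum_toFinset _ h,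
    ← sum_filter]
  congr 1
  ext i
  simpa using hb i

lemma dot_ap {k : ℕ} (a : ℕ → ℝ) {T : List ℕ} (h : T.Nodup) (hb : ∀ j ∈ T, j < k) :
    dot (fun i : Fin k => a i) (ap k T) = ∑ i ∈ range k, a i - (T.map a).sum := by
  rw [← dot_pt a h hb, ← Fin.sum_univ_eq_sum_range, dot, dot, ← sum_sub_distrib]
  refine sum_congr rfl fun i _ => ?_
  by_cases e : (i : ℕ) ∈ T <;> simp [pt, ap, List.getD_eq_getElem?_getD, e]

section
variable {k : ℕ} {L : List (List ℕ × Bool)} (hL : ∀ s ∈ L, s.1.Nodup ∧ ∀ j ∈ s.1, j < k)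
include hL

lemma of_load (h : Load (data k L)) : ∃ (p : ℕ → ℝ) (c : ℝ),
    (∀ T T', (T, true) ∈ L → (T', false) ∈ L → |(T.map p).sum - c| < |(T'.map p).sum - c|) ∨
    (∀ T T', (T, true) ∈ L → (T', false) ∈ L → |(T'.map p).sum - c| < |(T.map p).sum - c|) := by
  obtain ⟨a1, a2, b1, b2, c0, c1, c2, h⟩ := h
  obtain ⟨a1, rfl⟩ : ∃ a : ℕ → ℝ, a1 = fun i : Fin k => a i :=
    ⟨fun i => if e : i < k then a1 ⟨i, e⟩ else 0, funext fun i : Fin k => by simp⟩
  obtain ⟨a2, rfl⟩ : ∃ a : ℕ → ℝ, a2 = fun i : Fin k => a i :=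
    ⟨fun i => if e : i < k then a2 ⟨i, e⟩ else 0, funext fun i : Fin k => by simp⟩
  set A1 := (∑ i ∈ range k, a1 i) / 2
  set A2 := (∑ i ∈ range k, a2 i) / 2
  have e : ∀ s ∈ L, (St c0 c1 c2 (A1 + b1) (A2 + b2) ((s.1.map a1).sum - A1)
      ((s.1.map a2).sum - A2) ↔ s.2 = true) ∧ (St c0 c1 c2 (A1 + b1) (A2 + b2)
      (-((s.1.map a1).sum - A1)) (-((s.1.map a2).sum - A2)) ↔ s.2 = true) := fun s hs => by
    have x := h (pt k s.1, s.2) (List.mem_flatMap.2 ⟨s, hs, by simp⟩)
    have y := h (ap k s.1, s.2) (List.mem_flatMap.2 ⟨s, hs, by simp⟩)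
    erw [dot_pt _ (hL s hs).1 (hL s hs).2, dot_pt _ (hL s hs).1 (hL s hs).2] at x
    erw [dot_ap _ (hL s hs).1 (hL s hs).2, dot_ap _ (hL s hs).1 (hL s hs).2] at y
    unfold St
    constructor
    · convert x using 5 <;> ring_nf
    · convert y using 5 <;> simp only [A1, A2] <;> ring_nf
  obtain ⟨α, β, g⟩ := sep c0 c1 c2 (A1 + b1) (A2 + b2)
  refine ⟨fun i => α * a1 i + β * a2 i, α * A1 + β * A2, ?_⟩
  have r : ∀ T : List ℕ, (T.map fun i => α * a1 i + β * a2 i).sum - (α * A1 + β * A2) =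
      α * ((T.map a1).sum - A1) + β * ((T.map a2).sum - A2) := fun T => by
    rw [List.sum_map_add, List.sum_map_mul_left, List.sum_map_mul_left]; ring
  simp only [r]
  refine g.imp (fun g T T' a b => g _ _ _ _ ?_ ?_ ?_ ?_) (fun g T T' a b => g _ _ _ _ ?_ ?_ ?_ ?_)
  all_goals first
    | exact (e _ a).1.2 rfl
    | exact (e _ a).2.2 rfl
    | exact fun c => Bool.noConfusion ((e _ b).1.1 c)
    | exact fun c => Bool.noConfusion ((e _ b).2.1 c)

omit hL in
lemma slab (x : ℝ) (b : Bool) (h : if b then |x| ≤ 10 else 11 ≤ |x|) :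
    0 ≤ -3 / 2 + 1 * sg (-4 * x + 42) + 1 * sg (4 * x + 42) ↔ b = true := by
  have e2 : (3 : ℝ) ≤ Real.exp 2 := by linarith [Real.add_one_le_exp (2 : ℝ)]
  have s2 : 3 / 4 ≤ sg 2 := by
    rw [sg_eq, div_le_div_iff₀ (by norm_num) (by positivity)]; linarith
  have s1 : ∀ t, sg t ≤ 1 := fun t => by
    rw [sg_eq, div_le_one (by positivity)]; linarith
  have s3 := sg_neg 2
  cases b
  · simp only [Bool.false_eq_true, if_false, iff_false, not_le] at h ⊢
    rcases le_abs.1 h with h | h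
    · linarith [sg_mono (show -4 * x + 42 ≤ -2 by linarith), s1 (4 * x + 42)]
    · linarith [sg_mono (show 4 * x + 42 ≤ -2 by linarith), s1 (-4 * x + 42)]
  · simp only [if_true, iff_true, abs_le] at h ⊢
    linarith [sg_mono (show 2 ≤ -4 * x + 42 by linarith), sg_mono (show 2 ≤ 4 * x + 42 by linarith)]

lemma to_load (p : ℕ → ℝ) (h0 : ∑ i ∈ range k, p i = 0)
    (h : ∀ s ∈ L, if s.2 then |(s.1.map p).sum| ≤ 10 else 11 ≤ |(s.1.map p).sum|) :
    Load (data k L) := by
  refine ⟨fun i : Fin k => -4 * p i, fun i : Fin k => 4 * p i, 42, 42, -3 / 2, 1, 1, ?_⟩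
  intro e he
  obtain ⟨s, hs, he⟩ := List.mem_flatMap.1 he
  simp only [List.mem_cons, List.not_mem_nil, or_false] at he
  rcases he with rfl | rfl
  · erw [dot_pt (fun i => -4 * p i) (hL s hs).1 (hL s hs).2,
      dot_pt (fun i => 4 * p i) (hL s hs).1 (hL s hs).2]
    rw [List.sum_map_mul_left, List.sum_map_mul_left]
    exact slab _ _ (h s hs)
  · erw [dot_ap (fun i => -4 * p i) (hL s hs).1 (hL s hs).2,
      dot_ap (fun i => 4 * p i) (hL s hs).1 (hL s hs).2]
    rw [List.sum_map_mul_left, List.sum_map_mul_left, ← mul_sum, ← mul_sum, h0, ← mul_sub,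
      ← mul_sub, zero_sub]
    exact slab _ _ (by simpa only [abs_neg] using h s hs)

end

def li (l : Lit) : ℕ := 2 * l.1 + l.2.toNat

def nv (φ : List (Lit × Lit × Lit)) : ℕ := (φ.map fun c => c.1.1 + c.2.1.1 + c.2.2.1).sum + 1

def cl (φ : List (Lit × Lit × Lit)) (c : ℕ) : Lit × Lit × Lit :=
  φ.getD c ((0, false), (0, false), (0, false))

def sets (φ : List (Lit × Lit × Lit)) : List (List ℕ × Bool) :=
  ([], true) :: ([2 * nv φ, 2 * nv φ + 1, 2 * nv φ + 2], false) ::
  (((List.range (2 * nv φ + 3 + 4 * φ.length)).map fun j => ([j], false)) ++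
  ((List.range (nv φ + 1)).map fun v => ([2 * v, 2 * v + 1], true)) ++
  (List.range φ.length).flatMap fun c =>
    [([2 * nv φ + 3 + 4 * c, 2 * nv φ + 3 + 4 * c + 1, 2 * nv φ + 3 + 4 * c + 2,
      2 * nv φ + 3 + 4 * c + 3], true),
     ([2 * nv φ + 3 + 4 * c, li (cl φ c).1], true),
     ([2 * nv φ + 3 + 4 * c + 1, li (cl φ c).2.1], true),
     ([2 * nv φ + 3 + 4 * c + 2, li (cl φ c).2.2], true),
     ([2 * nv φ + 3 + 4 * c + 3, 2 * nv φ + 1], true)])

def red (φ : List (Lit × Lit × Lit)) : Inst := data (2 * nv φ + 3 + 4 * φ.length + 1) (sets φ)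

lemma pt_red : PT red := by
  unfold red data sets pt ap cl li nv; fun_prop

variable {φ : List (Lit × Lit × Lit)}

lemma cl_lt (c : ℕ) : (cl φ c).1.1 < nv φ ∧ (cl φ c).2.1.1 < nv φ ∧ (cl φ c).2.2.1 < nv φ := by
  unfold cl nv
  by_cases h : c < φ.length
  · rw [List.getD_eq_getElem _ _ h]
    have := List.single_le_sum (l := φ.map fun c => c.1.1 + c.2.1.1 + c.2.2.1) (by simp) _
      (List.mem_map_of_mem (List.getElem_mem h))
    omega
  · rw [List.getD_eq_default _ _ (by omega)]; simp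

lemma li_lt {l : Lit} {n : ℕ} (h : l.1 < n) : li l < 2 * n := by
  have := Bool.toNat_le l.2
  unfold li; omega

lemma sets_ok : ∀ s ∈ sets φ, s.1.Nodup ∧ ∀ j ∈ s.1, j < 2 * nv φ + 3 + 4 * φ.length + 1 := by
  intro s hs
  simp only [sets, List.mem_cons, List.mem_append, List.mem_map, List.mem_range, List.mem_flatMap,
    List.not_mem_nil, or_false] at hs
  rcases hs with rfl | rfl | (⟨j, hj, rfl⟩ | ⟨j, hj, rfl⟩) | ⟨c, hc, hs⟩
  · simp
  · simp; omega
  · simp; omega
  · simp; omega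
  · have := li_lt (cl_lt (φ := φ) c).1
    have := li_lt (cl_lt (φ := φ) c).2.1
    have := li_lt (cl_lt (φ := φ) c).2.2
    rcases hs with rfl | rfl | rfl | rfl | rfl <;> simp <;> omega

lemma red_valid : Valid (red φ) ∧ (red φ).2.length ≤ 5 * (red φ).1 := by
  refine ⟨⟨by simp [red, data], fun e he => ?_⟩, ?_⟩
  · obtain ⟨s, -, he⟩ := List.mem_flatMap.1 he
    simp only [List.mem_cons, List.not_mem_nil, or_false] at he
    rcases he with rfl | rfl <;> simp [pt, ap, red, data]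
  · simp [red, data, List.length_flatMap, sets, Function.comp_def]
    omega

lemma opp {c x y : ℝ} (a : |c| < |x - c|) (d : |x + y - c| < |x - c|) : 0 < x ↔ ¬ 0 < y := by
  constructor
  · intro h g
    cases abs_cases c <;> cases abs_cases (x - c) <;> cases abs_cases (x + y - c) <;> linarith
  · intro g
    by_contra h
    cases abs_cases c <;> cases abs_cases (x - c) <;> cases abs_cases (x + y - c) <;> linarith

lemma nae {c x1 x2 x3 x4 : ℝ} {A B C F : Prop} (z : |c| < |x1 - c|)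
    (q : |x1 + (x2 + (x3 + x4)) - c| < |x1 - c|) (o1 : 0 < x1 ↔ ¬ A) (o2 : 0 < x2 ↔ ¬ B)
    (o3 : 0 < x3 ↔ ¬ C) (o4 : 0 < x4 ↔ ¬ F) : (A ↔ ¬ F) ∨ (B ↔ ¬ F) ∨ (C ↔ ¬ F) := by
  have o := opp z q
  by_contra g
  simp only [not_or] at g
  obtain ⟨g1, g2, g3⟩ := g
  by_cases f : F
  · have a1 : ¬ 0 < x1 := by tauto
    have a2 : ¬ 0 < x2 := by tauto
    have a3 : ¬ 0 < x3 := by tauto
    have a4 : ¬ 0 < x4 := by tauto
    exact a1 (o.2 (by linarith))
  · have a1 : 0 < x1 := by tauto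
    have a2 : 0 < x2 := by tauto
    have a3 : 0 < x3 := by tauto
    have a4 : 0 < x4 := by tauto
    exact o.1 a1 (by linarith)

lemma red_sat (h : Load (red φ)) : Sat3 φ := by
  obtain ⟨p, c, h | h⟩ := of_load sets_ok h
  · have s : ∀ j < 2 * nv φ + 3 + 4 * φ.length, ([j], false) ∈ sets φ := fun j hj => by
      simp [sets, hj]
    have z : ∀ j < 2 * nv φ + 3 + 4 * φ.length, |c| < |p j - c| := fun j hj => by
      simpa using h [] [j] (by simp [sets]) (s j hj)
    have o : ∀ i < 2 * nv φ + 3 + 4 * φ.length, ∀ j,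
        ([i, j], true) ∈ sets φ → (0 < p i ↔ ¬ 0 < p j) := fun i hi j e =>
      opp (z i hi) (by simpa using h _ _ e (s i hi))
    refine ⟨fun v => decide (0 < p (2 * v + 1) ↔ ¬ 0 < p (2 * nv φ + 1)), fun d hd => ?_⟩
    have t : ∀ l : Lit, l.1 < nv φ → (0 < p (li l) ↔ ¬ 0 < p (2 * nv φ + 1)) →
        decide (0 < p (2 * l.1 + 1) ↔ ¬ 0 < p (2 * nv φ + 1)) = l.2 := by
      rintro ⟨v, _ | _⟩ hv e
      · have := o (2 * v) (by omega) (2 * v + 1) (by simp [sets]; omega)
        simp only [li, Bool.toNat_false, add_zero] at e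
        simp only [decide_eq_false_iff_not]
        tauto
      · simpa [li] using e
    obtain ⟨i, hi, rfl⟩ := List.getElem_of_mem hd
    have ec : φ[i] = cl φ i := (List.getD_eq_getElem _ _ hi).symm
    rw [ec]
    obtain ⟨l1, l2, l3⟩ := cl_lt (φ := φ) i
    have m : ∀ s ∈ [([2 * nv φ + 3 + 4 * i, 2 * nv φ + 3 + 4 * i + 1, 2 * nv φ + 3 + 4 * i + 2,
        2 * nv φ + 3 + 4 * i + 3], true),
       ([2 * nv φ + 3 + 4 * i, li (cl φ i).1], true),
       ([2 * nv φ + 3 + 4 * i + 1, li (cl φ i).2.1], true),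
       ([2 * nv φ + 3 + 4 * i + 2, li (cl φ i).2.2], true),
       ([2 * nv φ + 3 + 4 * i + 3, 2 * nv φ + 1], true)], s ∈ sets φ := fun s hs =>
      List.mem_cons_of_mem _ (List.mem_cons_of_mem _ (List.mem_append_right _
        (List.mem_flatMap.2 ⟨i, List.mem_range.2 hi, hs⟩)))
    simp only [List.forall_mem_cons] at m
    obtain ⟨m0, m1, m2, m3, m4, -⟩ := m
    have q := h _ _ m0 (s (2 * nv φ + 3 + 4 * i) (by omega))
    simp only [List.map_cons, List.map_nil, List.sum_cons, List.sum_nil, add_zero] at q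
    exact (nae (z _ (by omega)) q (o _ (by omega) _ m1) (o _ (by omega) _ m2) (o _ (by omega) _ m3)
      (o _ (by omega) _ m4)).imp (t _ l1) (Or.imp (t _ l2) (t _ l3))
  · exfalso
    have s : ∀ j < 2 * nv φ + 3 + 4 * φ.length, ([j], false) ∈ sets φ := fun j hj => by
      simp [sets, hj]
    have z : ∀ j < 2 * nv φ + 3 + 4 * φ.length, |p j - c| < |c| := fun j hj => by
      simpa using h [] [j] (by simp [sets]) (s j hj)
    have m : ([2 * nv φ, 2 * nv φ + 1], true) ∈ sets φ := by simp [sets]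
    have z0 := z (2 * nv φ) (by omega)
    have z1 := z (2 * nv φ + 1) (by omega)
    have z2 := z (2 * nv φ + 2) (by omega)
    have q0 := h _ _ m (s (2 * nv φ) (by omega))
    have q1 := h _ [2 * nv φ, 2 * nv φ + 1, 2 * nv φ + 2] m (by simp [sets])
    simp only [List.map_cons, List.map_nil, List.sum_cons, List.sum_nil, add_zero] at q0 q1
    generalize p (2 * nv φ) = x at *
    generalize p (2 * nv φ + 1) = y at *
    generalize p (2 * nv φ + 2) = w at *
    rw [abs_lt] at z0 z1 z2 q1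
    cases abs_cases c <;> cases abs_cases (x - c) <;> cases abs_cases (x + y - c) <;> linarith

/-- the weight of a copy of a literal of value `a` in a clause whose number of true literals is `n` -/
def wt (a : Bool) (n : ℕ) : ℝ := if a then -(if n = 1 then 25 else 11) else if n = 3 then 25 else 11

lemma sat_red (h : Sat3 φ) : Load (red φ) := by
  obtain ⟨τ, h⟩ := h
  let ev : Lit → Bool := fun l => decide (τ l.1 = l.2)
  let nt : ℕ → ℕ := fun c => (ev (cl φ c).1).toNat + (ev (cl φ c).2.1).toNat +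
    (ev (cl φ c).2.2).toNat
  let q : ℕ → ℝ := fun j => if j < 2 * nv φ then (if τ (j / 2) = decide (j % 2 = 1) then 15 else -15)
    else if j < 2 * nv φ + 3 then (if j = 2 * nv φ + 1 then -15 else 15) else
    wt (if (j - (2 * nv φ + 3)) % 4 = 0 then ev (cl φ ((j - (2 * nv φ + 3)) / 4)).1
      else if (j - (2 * nv φ + 3)) % 4 = 1 then ev (cl φ ((j - (2 * nv φ + 3)) / 4)).2.1
      else if (j - (2 * nv φ + 3)) % 4 = 2 then ev (cl φ ((j - (2 * nv φ + 3)) / 4)).2.2
      else false) (nt ((j - (2 * nv φ + 3)) / 4))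
  let p : ℕ → ℝ := fun j => if j < 2 * nv φ + 3 + 4 * φ.length then q j else
    -∑ i ∈ range (2 * nv φ + 3 + 4 * φ.length), q i
  have pq : ∀ j < 2 * nv φ + 3 + 4 * φ.length, p j = q j := fun j hj => if_pos hj
  have ql : ∀ l : Lit, l.1 < nv φ → p (li l) = if ev l then 15 else -15 := by
    rintro ⟨v, b⟩ hv
    have := li_lt hv
    rw [pq _ (by omega)]
    simp only [q, if_pos this, ev, decide_eq_true_eq]
    cases b <;> simp [li, show (2 * v + 1) / 2 = v by omega]
  have qc : ∀ c < φ.length, ∀ t < 4, p (2 * nv φ + 3 + 4 * c + t) = wt (if t = 0 then ev (cl φ c).1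
      else if t = 1 then ev (cl φ c).2.1 else if t = 2 then ev (cl φ c).2.2 else false) (nt c) := by
    intro c hc t ht
    rw [pq _ (by omega)]
    simp only [q]
    rw [if_neg (by omega), if_neg (by omega),
      show (2 * nv φ + 3 + 4 * c + t - (2 * nv φ + 3)) % 4 = t by omega,
      show (2 * nv φ + 3 + 4 * c + t - (2 * nv φ + 3)) / 4 = c by omega]
  have p0 : p (2 * nv φ) = 15 := by rw [pq _ (by omega)]; simp [q]
  have p1 : p (2 * nv φ + 1) = -15 := by rw [pq _ (by omega)]; simp [q]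
  have p2 : p (2 * nv φ + 2) = 15 := by rw [pq _ (by omega)]; simp [q]
  refine to_load sets_ok p ?_ fun s hs => ?_
  · rw [sum_range_succ, sum_congr rfl fun j hj => pq j (mem_range.1 hj)]
    simp [p]
  simp only [sets, List.mem_cons, List.mem_append, List.mem_map, List.mem_range, List.mem_flatMap,
    List.not_mem_nil, or_false] at hs
  rcases hs with rfl | rfl | (⟨j, hj, rfl⟩ | ⟨j, hj, rfl⟩) | ⟨c, hc, hs⟩
  · simp
  · simp [p0, p1, p2]; norm_num
  · simp only [Bool.false_eq_true, if_false, List.map_cons, List.map_nil, List.sum_cons,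
      List.sum_nil, add_zero, pq j hj, q, wt]
    split_ifs <;> norm_num
  · simp only [if_true, List.map_cons, List.map_nil, List.sum_cons, List.sum_nil, add_zero]
    rcases (Nat.lt_succ_iff.1 hj).eq_or_lt with rfl | hj
    · simp [p0, p1]
    · have a := ql (j, false) hj
      have b := ql (j, true) hj
      simp only [li, Bool.toNat_false, add_zero, Bool.toNat_true] at a b
      rw [a, b]
      cases e : τ j <;> simp [ev, e]
  · obtain ⟨l1, l2, l3⟩ := cl_lt (φ := φ) c
    have a0 := qc c hc 0 (by omega)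
    have a1 := qc c hc 1 (by omega)
    have a2 := qc c hc 2 (by omega)
    have a3 := qc c hc 3 (by omega)
    have hh : ev (cl φ c).1 = true ∨ ev (cl φ c).2.1 = true ∨ ev (cl φ c).2.2 = true := by
      simpa [ev, cl, hc] using h φ[c] (List.getElem_mem _)
    simp only [add_zero, nt] at a0 a1 a2 a3
    rcases hs with rfl | rfl | rfl | rfl | rfl <;>
      simp only [if_true, List.map_cons, List.map_nil, List.sum_cons, List.sum_nil, add_zero,
        a0, a1, a2, a3, ql _ l1, ql _ l2, ql _ l3, p1] <;>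
      generalize ev (cl φ c).1 = x at * <;> generalize ev (cl φ c).2.1 = y at * <;>
      generalize ev (cl φ c).2.2 = w at * <;>
      cases x <;> cases y <;> cases w <;> simp [wt, abs_le] at hh ⊢ <;> norm_num

theorem hard_load (Q : Inst → Prop)
    (h : ∀ z, Valid z → z.2.length ≤ 5 * z.1 → (Q z ↔ Load z)) : Hard Q :=
  hard_sat3.red pt_red fun _ => by
    rw [h _ red_valid.1 red_valid.2]; exact ⟨sat_red, red_sat⟩

end Pool.Agent.Sig
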