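import Pool.Agent.Lib.helper10.Occ3

/-! Partitions of lists into blocks. -/

namespace Pool.Agent.Cx.Sp

open List

variable {α β : Type}

lemma chain_fm {l : List α} {f : α → List β} {R : β → β → Prop} (h1 : ∀ a ∈ l, IsChain R (f a))
    (h2 : ∀ a ∈ l, ∀ b ∈ l, ∀ x ∈ (f a).getLast?, ∀ y ∈ (f b).head?, R x y) :
    IsChain R (l.flatMap f) := by
  induction l with
  | nil => simp
  | cons a l ih =>
    refine (h1 a (by simp)).append (ih (fun b hb => h1 b (by simp [hb]))
      fun b hb c hc => h2 b (by simp [hb]) c (by simp [hc])) fun x hx y hy => ?_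
    rw [← flatMap_def, head?_flatMap] at hy
    obtain ⟨b, b1, b2⟩ := exists_of_findSome?_eq_some hy
    exact h2 a (by simp) b (by simp [b1]) x hx y b2

lemma nodup_fm {l : List α} (nd : l.Nodup) {f : α → List β} (g : β → α) (h1 : ∀ a ∈ l, (f a).Nodup)
    (h2 : ∀ a ∈ l, ∀ x ∈ f a, g x = a) : (l.flatMap f).Nodup :=
  nodup_flatMap.2 ⟨h1, nd.pairwise_of_forall_ne fun a ha b hb e x x1 x2 =>
    e ((h2 a ha x x1).symm.trans (h2 b hb x x2))⟩

lemma infix_fm {l : List α} {f : α → List β} {a : α} (h : a ∈ l) : f a <:+: l.flatMap f :=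
  infix_of_mem_flatten (mem_map_of_mem h)

lemma rel2 {R : α → α → Prop} {l : List α} {a b : α} (ch : IsChain R l) (h : [a, b] <:+: l) : R a b := by
  obtain ⟨A, B, rfl⟩ := h
  exact (isChain_append_cons_cons.1 (show IsChain R (A ++ a :: b :: B) by simpa using ch)).2.1

def Du (P : List (List α)) (u v : α) : Prop := ∃ B ∈ P, [u, v] <:+: B

lemma cutOr {P : List (List α)} {A B : List α} {l x : α} (h : P.flatten = A ++ l :: x :: B) :
    Du P l x ∨ ∃ P1 P2, P = P1 ++ P2 ∧ P1.flatten = A ++ [l] ∧ P2.flatten = x :: B := by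
  induction P generalizing A with
  | nil => simp at h
  | cons C P ih =>
    have k : ∀ a, A = C ++ a → P.flatten = a ++ l :: x :: B →
        Du (C :: P) l x ∨ ∃ P1 P2, C :: P = P1 ++ P2 ∧ P1.flatten = A ++ [l] ∧ P2.flatten = x :: B := by
      rintro a rfl e
      rcases ih e with ⟨D, p, q⟩ | ⟨P1, P2, rfl, p, q⟩
      · exact Or.inl ⟨D, by simp [p], q⟩
      · exact Or.inr ⟨C :: P1, P2, rfl, by simp [p], q⟩
    rw [flatten_cons, append_eq_append_iff] at h
    rcases h with ⟨a, p, q⟩ | ⟨_ | ⟨c, _ | ⟨d, D⟩⟩, p, q⟩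
    · exact k a p q
    · exact k [] (by simpa using p.symm) (by simpa using q.symm)
    · obtain ⟨rfl, q'⟩ : l = c ∧ x :: B = P.flatten := by simpa using q
      exact Or.inr ⟨[C], P, rfl, by simp [p], q'.symm⟩
    · obtain ⟨rfl, rfl, -⟩ : l = c ∧ x = d ∧ B = D ++ P.flatten := by simpa using q
      exact Or.inl ⟨C, by simp, A, D, by simp [p]⟩

lemma Du.mono {P1 P2 : List (List α)} {u v : α} (h : Du P2 u v) : Du (P1 ++ P2) u v :=
  let ⟨B, p, q⟩ := h; ⟨B, by simp [p], q⟩

lemma cover {P : List (List α)} (h2 : ∀ B ∈ P, 2 ≤ B.length) {l a r : α} (h : [l, a, r] <:+: P.flatten) :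
    Du P l a ∨ Du P a r := by
  obtain ⟨A, B, h⟩ := h
  rcases cutOr (A := A) (B := r :: B) (by simpa using h.symm) with e | ⟨P1, P2, rfl, -, q⟩
  · exact Or.inl e
  rcases cutOr (A := []) q with e | ⟨_ | ⟨C, P3⟩, P4, rfl, p, -⟩
  · exact Or.inr e.mono
  · simp at p
  · have := h2 C (by simp)
    have := congrArg length p
    simp at this; omega

lemma block {P : List (List α)} (h2 : ∀ B ∈ P, 2 ≤ B.length) {l x y r : α}
    (h : [l, x, y, r] <:+: P.flatten) : Du P l x ∨ Du P y r ∨ [x, y] ∈ P := by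
  obtain ⟨A, B, h⟩ := h
  rcases cutOr (A := A) (B := y :: r :: B) (by simpa using h.symm) with e | ⟨P1, P2, rfl, -, q⟩
  · exact Or.inl e
  rcases cutOr (A := [x]) q with e | ⟨_ | ⟨C, P3⟩, P4, rfl, p, -⟩
  · exact Or.inr (Or.inl e.mono)
  · simp at p
  · have a := h2 C (by simp)
    have b := congrArg length p
    simp only [flatten_cons, length_append, length_cons, length_nil] at b
    have c : P3.flatten = [] := length_eq_zero_iff.1 (by omega)
    obtain rfl : C = [x, y] := by simpa [c] using p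
    simp

lemma cut {P : List (List α)} (nd : P.flatten.Nodup) {x y : α} (h : [x, y] ∈ P) (c : α) :
    ¬ Du P c x ∧ ¬ Du P y c := by
  rw [nodup_flatten] at nd
  have n := nd.1 _ h
  have k : ∀ B ∈ P, ∀ u ∈ B, u ∈ [x, y] → B = [x, y] := fun B p u q r => by_contra fun e =>
    have : Std.Symm (@List.Disjoint α) := ⟨fun _ _ => List.Disjoint.symm⟩
    nd.2.forall p h e q r
  constructor <;> rintro ⟨B, p, q⟩
  · obtain rfl := k B p x (q.subset (by simp)) (by simp)
    have := q.sublist.eq_of_length rfl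
    simp at this n; tauto
  · obtain rfl := k B p y (q.subset (by simp)) (by simp)
    have := q.sublist.eq_of_length rfl
    simp at this n; tauto

lemma lift {f : α → β} {S : List α} {P : List (List β)} (h : P.flatten = S.map f) :
    ∃ Q : List (List α), Q.flatten = S ∧ P = Q.map (map f) := by
  induction P generalizing S with
  | nil => exact ⟨[], by simpa using h, rfl⟩
  | cons C P ih =>
    obtain ⟨A, B, rfl, rfl, e⟩ := append_eq_map_iff.1 h
    obtain ⟨Q, rfl, rfl⟩ := ih e.symm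
    exact ⟨A :: Q, rfl, rfl⟩

lemma du_map {f : α → β} {Q : List (List α)} {u v : β} (h : Du (Q.map (map f)) u v) :
    ∃ a b, [a, b] <:+: Q.flatten ∧ f a = u ∧ f b = v := by
  obtain ⟨_, p, q⟩ := h
  obtain ⟨B, p', rfl⟩ := mem_map.1 p
  obtain ⟨_ | ⟨a, _ | ⟨b, _ | _⟩⟩, q, e⟩ := infix_map_iff.1 q <;> simp at e
  exact ⟨a, b, q.trans (infix_of_mem_flatten p'), e.1.symm, e.2.symm⟩

lemma sum_cls {γ : Type} [DecidableEq γ] {X Y : Finset α} {k : α → γ} (h1 : Set.InjOn k X)
    (h2 : Set.InjOn k Y) (h3 : ∀ x ∈ X, ∃ y ∈ Y, k y = k x) (h4 : ∀ y ∈ Y, ∃ x ∈ X, k x = k y) (F : γ → ℕ) :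
    ∑ x ∈ X, F (k x) = ∑ y ∈ Y, F (k y) := by
  rw [← Finset.sum_image (f := F) h1, ← Finset.sum_image (f := F) h2]
  congr 1; ext c
  simp only [Finset.mem_image]
  constructor <;> rintro ⟨x, p, rfl⟩
  exacts [h3 x p, h4 x p]

end Pool.Agent.Cx.Sp
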