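import Pool.Agent.Lib.helper10.NPSim
import Pool.Agent.Lib.helper10.NPPred
import Pool.Agent.Lib.helper10.FPT

/-! A clocked universal simulator: an effective list of all polynomial-time functions. -/

namespace Pool.Agent.Cx

open Function Polynomial Turing

abbrev Desc := List (Num × Num) × ℕ × ℕ × List Bool × ℕ × ℕ × ℕ × ℕ × ℕ

def runT (d : Desc) (x : List Bool) (T : ℕ) : List Bool :=
  (((simStep d.1 d.2.1)^[T] (d.2.2.1, d.2.2.2.1.map fun z => bif z then
    x.map (fun b => bif b then d.2.2.2.2.1 else d.2.2.2.2.2.1) else [])).2.getD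
      d.2.2.2.2.2.2.1 []).map fun n => n == d.2.2.2.2.2.2.2.1

def ck (d : Desc) : ℕ := d.2.2.2.2.2.2.2.2

def clk (d : Desc) (x : List Bool) : ℕ := (x.length + ck d) ^ ck d

variable {α β : Type} [Enc α] [Enc β]

@[fun_prop] lemma PT.runT {d : α → Desc} {x : α → List Bool} {T : α → ℕ} (hd : PT d) (hx : PT x)
    (hT : PT T) : PT fun a => runT (d a) (x a) (T a) := by
  obtain ⟨q, hq⟩ : ∃ q : ℕ[X], ∀ a, Cx.size (d a).1 ≤ q.eval (Cx.size a) := hd.fst.bound
  have h1 : PT fun a => (simStep (d a).1 (d a).2.1)^[T a] ((d a).2.2.1, (d a).2.2.2.1.map fun z =>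
      bif z then (x a).map (fun b => bif b then (d a).2.2.2.2.1 else (d a).2.2.2.2.2.1) else []) :=
    PT.iterate_add (g := fun a => simStep (d a).1 (d a).2.1) (by unfold simStep; fun_prop) hT
      (by fun_prop) q fun a b => (simStep_size _ _ b).trans (by have := hq a; omega)
  unfold Cx.runT; fun_prop

lemma exists_desc {f : List Bool → List Bool} (h : PolyTime f) : ∃ d, ∀ x, runT d x (clk d x) = f x := by
  classical
  obtain ⟨⟨tm, eI, eO⟩, p, hM⟩ := h
  let _ := tm.kFin
  let _ := tm.ΛFin
  let _ := tm.σFin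
  let _ := tm.Γk₀Fin
  set U : Set (Σ k, tm.Γ k) := (⋃ l, syms (tm.m l)) ∪ Set.range (Sigma.mk tm.k₀) ∪
    Set.range (fun b => ⟨tm.k₁, eO.symm b⟩) with hUdef
  have hU : U.Finite := ((Set.finite_iUnion fun l => syms_finite _).union
    (Set.finite_range _)).union (Set.finite_range _)
  have hU1 : ∀ l, syms (tm.m l) ⊆ U := fun l x hx => Or.inl (Or.inl (Set.mem_iUnion.2 ⟨l, hx⟩))
  have hU2 : ∀ a, (⟨tm.k₀, a⟩ : Σ k, tm.Γ k) ∈ U := fun a => Or.inl (Or.inr ⟨a, rfl⟩)
  have hU3 : ∀ b, (⟨tm.k₁, eO.symm b⟩ : Σ k, tm.Γ k) ∈ U := fun b => Or.inr ⟨b, rfl⟩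
  obtain ⟨cc, A, -, -, hcc⟩ := exists_code U hU
  obtain ⟨lc, hlc⟩ := exists_injective_nat (Option tm.Λ × tm.σ)
  obtain ⟨tbl, D, hR⟩ := exists_table tm.m U hU lc hlc cc hcc
  obtain ⟨C, c, hc⟩ := eval_le p
  let ks := (Finset.univ : Finset tm.K).toList
  refine ⟨(tbl, D, lc (some tm.main, tm.initialState), ks.map fun k => decide (k = tm.k₀),
    cc _ (some (eI.symm true)), cc _ (some (eI.symm false)), ks.idxOf tm.k₁,
    cc _ (some (eO.symm true)), C + c + 1), fun x => ?_⟩
  have hT : p.eval x.length ≤ (x.length + (C + c + 1)) ^ (C + c + 1) := by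
    refine (hc _).trans ?_
    rw [add_comm C c, add_assoc, pow_add, mul_comm]
    refine Nat.mul_le_mul (Nat.pow_le_pow_left (by omega) _) ?_
    exact le_trans (by omega) (Nat.le_self_pow (by omega) _)
  simp only [runT, clk, ck]
  generalize (x.length + (C + c + 1)) ^ (C + c + 1) = T at *
  have hinit : (lc (some tm.main, tm.initialState),
      (ks.map fun k => decide (k = tm.k₀)).map fun z => bif z then
        x.map (fun b => bif b then cc _ (some (eI.symm true)) else cc _ (some (eI.symm false)))
        else []) = num lc cc (initList tm (x.map eI.symm)) := by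
    simp only [num, List.map_map, ks]
    refine Prod.ext rfl (List.map_congr_left fun k _ => ?_)
    by_cases hk : k = tm.k₀
    · subst hk
      simp only [initList, Function.comp, decide_true, cond_true, dite_true]
      simp only [eq_mpr_eq_cast, cast_eq, List.map_map]
      exact List.map_congr_left fun b _ => by cases b <;> rfl
    · simp [initList, hk]
  rw [hinit]
  have hval : ∀ t k, ∀ a ∈ ((next tm.m)^[t] (initList tm (x.map eI.symm))).stk k,
      (⟨k, a⟩ : Σ k, tm.Γ k) ∈ U := by
    intro t
    induction t with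
    | zero =>
      intro k a ha
      by_cases hk : k = tm.k₀
      · subst hk; exact hU2 a
      · simp [initList, hk] at ha
    | succ t ih => rw [iterate_succ_apply']; exact next_inv _ U hU1 _ ih
  have hsim : ∀ t, (simStep tbl D)^[t] (num lc cc (initList tm (x.map eI.symm))) =
      num lc cc ((next tm.m)^[t] (initList tm (x.map eI.symm))) := by
    intro t
    induction t with
    | zero => rfl
    | succ t ih => rw [iterate_succ_apply', iterate_succ_apply', ih, hR _ (hval t)]
  obtain ⟨⟨n, e1⟩, e2⟩ := hM x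
  have h3 := next_iter tm.m n _ _ e1
  have h4 : (next tm.m)^[T] (initList tm (x.map eI.symm)) = haltList tm ((f x).map eO.symm) := by
    obtain ⟨d, hd⟩ := Nat.exists_eq_add_of_le (e2.trans hT)
    simp only at hd
    rw [hd, iter_add]
    exact (congrArg _ h3).trans (iterate_fixed rfl _)
  rw [hsim, h4]
  have h6 : (num lc cc (haltList tm ((f x).map eO.symm))).2.getD (ks.idxOf tm.k₁) [] =
      ((f x).map eO.symm).map fun a => cc _ (some a) := by
    simp only [num, List.getD_eq_getElem?_getD, List.getElem?_map]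
    rw [show (Finset.univ : Finset tm.K).toList[ks.idxOf tm.k₁]? = some tm.k₁ from
      List.getElem?_idxOf (by simp)]
    simp [haltList]
  rw [h6]
  simp only [List.map_map]
  conv_rhs => rw [← List.map_id (f x)]
  refine List.map_congr_left fun b _ => ?_
  cases b
  · simp only [Function.comp, id, beq_eq_false_iff_ne]
    intro e
    have := hcc _ _ _ (by simpa using hU3 _) (by simpa using hU3 _) e
    simp at this
  · simp

/-- the function computed by the clocked machine `d` -/
def ev [Dec β] (d : Desc) (a : α) : β := decode (runT d (enc a) (clk d (enc a)))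

lemma exists_ev [Dec α] [Dec β] {g : α → β} (hg : PT g) : ∃ d, ∀ a, ev d a = g a := by
  obtain ⟨d, h⟩ := exists_desc (polyTime_of_PT (g := fun x => g (decode x)) (by fun_prop))
  exact ⟨d, fun a => by simp [ev, h]⟩

lemma pt_ev [Dec β] (d : Desc) : PT (ev d : α → β) := by
  unfold ev clk; fun_prop

def cpow (b e n : ℕ) : ℕ := (fun y => min (y * b) n)^[e] (min 1 n)

lemma cpow_eq (b e n : ℕ) : cpow b e n = min (b ^ e) n := by
  induction e with
  | zero => rfl
  | succ e ih =>
    rw [cpow, iterate_succ_apply', ← cpow, ih, pow_succ]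
    rcases Nat.eq_zero_or_pos b with rfl | h
    · simp
    · rcases le_total (b ^ e) n with g | g
      · rw [min_eq_left g]
      · rw [min_eq_right g, min_eq_right (Nat.le_mul_of_pos_right _ h),
          min_eq_right (g.trans (Nat.le_mul_of_pos_right _ h))]

@[fun_prop] lemma PT.cpow {b e n : α → ℕ} (hb : PT b) (he : PT e) (hn : PT n) :
    PT fun a => cpow (b a) (e a) (n a) := by
  obtain ⟨q, hq⟩ := hn.bound
  refine PT.iterate (by fun_prop) he (by fun_prop) q fun a i _ => ?_
  have := hq a
  have : Cx.cpow (b a) i (n a) ≤ n a := by rw [cpow_eq]; omega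
  unfold Cx.cpow at this
  simp only [size_nat] at *; omega

/-- the `k`-th bit string -/
def bitsOf (k : ℕ) : List Bool := (List.range k).map fun i => decide ((fun y => y / 2)^[i] k % 2 = 1)

@[fun_prop] lemma PT.bitsOf {k : α → ℕ} (hk : PT k) : PT fun a => bitsOf (k a) := by
  have : PT fun z : ℕ × ℕ => (fun y => y / 2)^[z.2] z.1 :=
    PT.iterate (g := fun _ y => y / 2) (by fun_prop) (by fun_prop) (by fun_prop) X fun a i _ => by
      have : (fun y => y / 2)^[i] a.1 ≤ a.1 := by
        clear * -
        induction i with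
        | zero => rfl
        | succ i ih => rw [iterate_succ_apply']; omega
      have : Cx.size a = _ := size_pair a.1 a.2
      simp only [size_nat, eval_X] at *; omega
  have h : PT fun z : α × ℕ => (fun y => y / 2)^[z.2] (k z.1) :=
    this.comp (f := fun z : α × ℕ => (k z.1, z.2)) (by fun_prop)
  unfold Cx.bitsOf; fun_prop

lemma exists_bits [Dec α] (a : α) : ∃ k, decode (bitsOf k) = a := by
  have : ∀ u : List Bool, ∃ k, u.length < k ∧ ∀ i (h : i < u.length),
      decide ((fun y => y / 2)^[i] k % 2 = 1) = u[i] := by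
    intro u
    induction u with
    | nil => exact ⟨1, by simp⟩
    | cons b u ih =>
      obtain ⟨k, h1, h2⟩ := ih
      refine ⟨2 * k + b.toNat, by simp; omega, fun i h => ?_⟩
      rcases i with _ | i
      · cases b <;> simp <;> omega
      · rw [iterate_succ_apply, show (2 * k + b.toNat) / 2 = k by cases b <;> simp; omega]
        exact h2 i _
  obtain ⟨k, h1, h2⟩ := this (enc a)
  refine ⟨k, ?_⟩
  have : bitsOf k = enc a ++ (bitsOf k).drop (enc a).length := by
    conv_lhs => rw [← List.take_append_drop (enc a).length (bitsOf k)]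
    congr 1
    refine List.ext_getElem (by simp [bitsOf]; omega) fun i _ h => ?_
    simpa [bitsOf] using h2 i h
  rw [this, decode, List.reverse_append, List.foldl_append]
  rw [enc, parse_code]
  exact Dec.ofBT_toBT a

end Pool.Agent.Cx
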